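import Pool.Agent.HL.NumSt

/-!
# The half law, module NHO: cycles modulo numerical equivalence are sections
-/

set_option autoImplicit false

open CategoryTheory MonoidalCategory CartesianMonoidalCategory Limits Polynomial

universe v u w x

namespace MotP.HL

open CHM

noncomputable section

namespace NHO

variable {V : Type u} [Category.{v} V] [CartesianMonoidalCategory V]

variable {T : CHM.ChowTheory.{v, u, w} V} (hG : S_NGR T) (hU : S_NUN T)

/-- the projection of the cycles of codimension `i` -/
def prGr (X : V) (i : ℤ) : T.gr X i →ₗ[ℚ] (numQ T hG hU).gr X i where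
  toFun a := ⟨pr T X a.1, numQ_mem hG hU a.2⟩
  map_add' a b := Subtype.ext (map_add (pr T X) _ _)
  map_smul' r a := Subtype.ext (map_smul (pr T X) _ _)

theorem prGr_surj (X : V) (i : ℤ) : Function.Surjective (prGr hG hU X i) := by
  rintro ⟨a, b, hb, rfl⟩
  exact ⟨⟨b, hb⟩, rfl⟩

theorem prGr_ker (X : V) (i : ℤ) : LinearMap.ker (prGr hG hU X i) = T.num X i := by
  ext a
  rw [LinearMap.mem_ker]
  constructor
  · intro h b _
    exact (pr_eq_zero T).1 (congrArg Subtype.val h) b
  · intro h
    exact Subtype.ext ((pr_eq_zero T).2 (nt_of_homog T a.2 h))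

end NHO

/-- MODULE NHO -/
theorem t_NHO {V : Type u} [Category.{v} V] [CartesianMonoidalCategory V]
    (T : CHM.ChowTheory.{v, u, w} V) : S_NHO T := by
  intro hG hU X i
  refine LinearEquiv.rank_eq ?_
  exact (Submodule.quotEquivOfEq _ _ (NHO.prGr_ker hG hU X i).symm).trans
    (((NHO.prGr hG hU X i).quotKerEquivOfSurjective (NHO.prGr_surj hG hU X i)).trans
      (CHM.Mot.secEquiv (numQ T hG hU) X i))

end

end MotP.HL
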