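import Pool.Agent.HL.NumSt

/-!
# The half law, part N, module NMU: the multiplicity of the eigenvalue `1` and the number of
eigenvalues of `h(X)(i)`
-/

set_option autoImplicit false

open CategoryTheory MonoidalCategory CartesianMonoidalCategory Limits Polynomial

universe v u w x

namespace MotP.HL

open CHM

noncomputable section

namespace NMU

/-- the power sums determine the net multiplicities -/
theorem nu_eq (a b a' b' : Multiset ℂ) (h : ∀ n : ℕ, (a.map fun z => z ^ n).sum -
    (b.map fun z => z ^ n).sum = (a'.map fun z => z ^ n).sum - (b'.map fun z => z ^ n).sum)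
    (z : ℂ) : (a.count z : ℤ) - (b.count z : ℤ) = (a'.count z : ℤ) - (b'.count z : ℤ) := by
  classical
  have h0 : ∀ (a b : Multiset ℂ) (U : Finset ℂ), (a + b).toFinset ⊆ U → ∀ n : ℕ,
      (a.map fun z => z ^ n).sum - (b.map fun z => z ^ n).sum =
        ∑ z ∈ U, (_root_.Mot.nu a b z : ℂ) * z ^ n := by
    intro a b U hU n
    rw [_root_.Mot.sum_nu]
    apply Finset.sum_subset hU
    intro z _ hz
    rw [_root_.Mot.nu_of_notMem hz]
    simp
  have hU1 : (a + b).toFinset ⊆ (a + b).toFinset ∪ (a' + b').toFinset := Finset.subset_union_left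
  have hU2 : (a' + b').toFinset ⊆ (a + b).toFinset ∪ (a' + b').toFinset :=
    Finset.subset_union_right
  have h1 : ∀ n : ℕ, ∑ z ∈ (a + b).toFinset ∪ (a' + b').toFinset,
      ((_root_.Mot.nu a b z : ℂ) - (_root_.Mot.nu a' b' z : ℂ)) * z ^ n = 0 := by
    intro n
    rw [Finset.sum_congr rfl fun z _ => sub_mul _ _ _, Finset.sum_sub_distrib,
      ← h0 a b _ hU1 n, ← h0 a' b' _ hU2 n, h n, sub_self]
  change _root_.Mot.nu a b z = _root_.Mot.nu a' b' z
  by_cases hz : z ∈ (a + b).toFinset ∪ (a' + b').toFinset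
  · have h2 := _root_.Mot.lag _ _ h1 z hz
    have h3 : (_root_.Mot.nu a b z : ℂ) = (_root_.Mot.nu a' b' z : ℂ) := sub_eq_zero.mp h2
    exact_mod_cast h3
  · rw [Finset.mem_union, not_or] at hz
    rw [_root_.Mot.nu_of_notMem hz.1, _root_.Mot.nu_of_notMem hz.2]

end NMU

variable {V : Type u} [Category.{v} V] [CartesianMonoidalCategory V]

theorem t_NMU (T : CHM.ChowTheory.{v, u, w} V) : M_NMU.{v, u, w, x} T := by
  classical
  intro hNTE hG hU hN R K hE X
  obtain ⟨W, hW⟩ : ∃ W, W = frobQ hG hU hN R K hE := ⟨_, rfl⟩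
  have hν : ∀ (i : ℤ) (z : ℂ),
      ((W.α (CHM.Mot.h (numQ T hG hU) X i)).count z : ℤ) -
        ((W.β (CHM.Mot.h (numQ T hG hU) X i)).count z : ℤ) =
      ((K.frobenius.even (CHM.Mot.h T X i)).count z : ℤ) -
        ((K.frobenius.odd (CHM.Mot.h T X i)).count z : ℤ) := by
    intro i z
    refine NMU.nu_eq _ _ _ _ (fun n => ?_) z
    rw [← hNTE hG hU hN R K hE X i n, ← hW]
    exact ((fr W).t_formula (CHM.Mot.h (numQ T hG hU) X i) n).symm
  rw [← hW]
  refine ⟨fun i => ?_, ?_⟩
  · have h1 := hν i 1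
    have h2 : (W.β (CHM.Mot.h (numQ T hG hU) X i)).count 1 = 0 :=
      Multiset.count_eq_zero.2 (W.odd _)
    have h3 : (K.frobenius.odd (CHM.Mot.h T X i)).count 1 = 0 :=
      Multiset.count_eq_zero.2 (K.frobenius.one_not_odd _)
    rw [h2, h3, K.count_even] at h1
    have h4 : m W (CHM.Mot.h (numQ T hG hU) X i) =
      (W.α (CHM.Mot.h (numQ T hG hU) X i)).count 1 := rfl
    rw [h4]
    omega
  · have h1 : W.α (CHM.Mot.h (numQ T hG hU) X 0) - W.β (CHM.Mot.h (numQ T hG hU) X 0) =
        K.frobenius.even (CHM.Mot.h T X 0) - K.frobenius.odd (CHM.Mot.h T X 0) := by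
      ext z
      have h2 := hν 0 z
      rw [Multiset.count_sub, Multiset.count_sub]
      omega
    have h3 : W.β (CHM.Mot.h (numQ T hG hU) X 0) - W.α (CHM.Mot.h (numQ T hG hU) X 0) =
        K.frobenius.odd (CHM.Mot.h T X 0) - K.frobenius.even (CHM.Mot.h T X 0) := by
      ext z
      have h2 := hν 0 z
      rw [Multiset.count_sub, Multiset.count_sub]
      omega
    have h4 : b W (CHM.Mot.h (numQ T hG hU) X 0) =
        Multiset.card (W.α (CHM.Mot.h (numQ T hG hU) X 0) -
          W.β (CHM.Mot.h (numQ T hG hU) X 0)) +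
        Multiset.card (W.β (CHM.Mot.h (numQ T hG hU) X 0) -
          W.α (CHM.Mot.h (numQ T hG hU) X 0)) := rfl
    rw [h4, h1, h3, ← K.number_eq X]
    rfl

end

end MotP.HL
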