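import Pool.Agent.HL.St3

/-!
# The half law, part Q (quantization): definitions (architect helper39)
-/

set_option autoImplicit false

open CategoryTheory MonoidalCategory BraidedCategory Limits

universe v u

namespace MotP.HL

open Mot MotP.GGap

noncomputable section

variable {C : Type u} [Category.{v} C] [Preadditive C] [Linear ℚ C] [MonoidalCategory C]
  [SymmetricCategory C] [MonoidalPreadditive C] [MonoidalLinear ℚ C] [RightRigidCategory C]

/-- `R` is a direct summand of `Y`. -/
def Smd (R Y : C) : Prop := ∃ R' : C, Nonempty (Dec Y R R')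

/-- `S` is simple: a nonzero object all of whose nonzero endomorphisms are invertible. -/
def Smp (S : C) : Prop := 𝟙 S ≠ 0 ∧ ∀ f : S ⟶ S, f ≠ 0 → ∃ g : S ⟶ S, f ≫ g = 𝟙 S ∧ g ≫ f = 𝟙 S

/-- `1` is the only eigenvalue of Frobenius on `Y`. -/
def One (W : Frob C) (Y : C) : Prop := ∀ z : ℂ, z ≠ 1 → ν W Y z = 0

/-- the trace of the multiplication by an element (from the left) -/
def trL (D : Type u) [Ring D] [Algebra ℚ D] : D →ₗ[ℚ] ℚ :=
  LinearMap.trace ℚ D ∘ₗ LinearMap.mul ℚ D

/-- the internal endomorphisms of `X ^ (⊗ r)` -/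
def GG (X : C) (r : ℕ) : C := T X r ⊗ (T X r)ᘁ

/-- Endomorphisms of objects with trivial Frobenius have eigenvalues. -/
def Eig (W : Frob C) : Prop := ∀ (S : C) (f : S ⟶ S), W.F.app S = 𝟙 S →
  ∃ α : Multiset ℂ, ∀ k : ℕ, (W.val (tr S (pw f (k + 1))) : ℂ) = (α.map fun z => z ^ (k + 1)).sum

/-- A family of simple objects with trivial Frobenius, without morphisms between different ones,
which occur in the `GG X k`. -/
def Fam (W : Frob C) (X : C) {N : ℕ} (S : Fin N → C) : Prop :=
  (∀ i, Smp (S i) ∧ One W (S i) ∧ ∃ k, Smd (S i) (GG X k)) ∧ ∀ i j, i ≠ j → h (S i) (S j) = 0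

/-- The sum of the numbers `b(S)^2 / dim End S`. -/
def wt (W : Frob C) {N : ℕ} (S : Fin N → C) : ℝ := ∑ i, (b W (S i) : ℝ) ^ 2 / h (S i) (S i)

end

end MotP.HL
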