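import Pool.Agent.CHS.Betti
import Pool.Agent.CHS.Ops

/-!
# The half law for Chow groups: definitions (MP_6c4da4_ag)
-/

set_option autoImplicit false

open CategoryTheory MonoidalCategory CartesianMonoidalCategory Limits

universe v u w x

namespace CHS

variable {V : Type u} [Category.{v} V] [CartesianMonoidalCategory V]

/-- The dimension of `CH^i(X)` modulo the numerically trivial cycles (it is finite). -/
noncomputable def ChowTheory.N (T : ChowTheory.{v, u, w} V) (X : V) (i : ℤ) : ℕ :=
  Cardinal.toNat (T.numRank (T.cyc X i))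

namespace Cohomology

variable {T : ChowTheory.{v, u, w} V} (K : Cohomology.{v, u, w, x} T)

/-- The multiplicity of `q ^ i` as an eigenvalue of Frobenius on `H(X)`. -/
noncomputable def M (X : V) (i : ℤ) : ℕ := K.mult (Mot.h T X) ((T.q : ℂ) ^ i)

/-- The sum of the Betti numbers of `X`. -/
noncomputable def B (X : V) : ℕ := Module.finrank ℂ (K.H X)

end Cohomology

/-- `NN X r = N_r` is the dimension of `CH^(r d)(X^r × X^r)` modulo the numerically trivial cycles,
`d = dim X`. -/
noncomputable def ChowTheory.NN (T : ChowTheory.{v, u, w} V) (X : V) (r : ℕ) : ℕ :=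
  T.N (pow X r ⊗ pow X r) (T.dim (pow X r))

namespace Cohomology

variable {T : ChowTheory.{v, u, w} V} (K : Cohomology.{v, u, w, x} T)

/-- `MM X r = M_r` is the multiplicity of `q ^ (r d)` as an eigenvalue of Frobenius on
`H(X^r × X^r)`, `d = dim X`. -/
noncomputable def MM (X : V) (r : ℕ) : ℕ := K.M (pow X r ⊗ pow X r) (T.dim (pow X r))

/-- The inequality `B ^ 2 * N_r + M_r < N_(r + 1) + 2 * N_r`, `B = dim H(X)`. -/
def Large (X : V) (r : ℕ) : Prop :=
  K.B X ^ 2 * T.NN X r + K.MM X r < T.NN X (r + 1) + 2 * T.NN X r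

end Cohomology

end CHS
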