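import Pool.Agent.HL.St4

/-!
# The half law, part Q, module ASY: asymptotics of `n (R ⊗ GG X r)`
-/

set_option autoImplicit false

open CategoryTheory MonoidalCategory BraidedCategory Limits Polynomial Filter

universe v u

namespace MotP.HL

open Mot MotP.GGap

noncomputable section

variable (C : Type u) [Category.{v} C] [Preadditive C] [Linear ℚ C] [MonoidalCategory C]
  [SymmetricCategory C] [MonoidalPreadditive C] [MonoidalLinear ℚ C] [RightRigidCategory C]

theorem t_ASY : M_ASY C := by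
  intro hADD hADJ hBFA hNRM hRTO hGGX _ _ W X hX k R hR
  obtain ⟨R', ⟨D⟩⟩ := hR
  obtain ⟨-, hpos, hlim⟩ := hRTO W X hX
  obtain ⟨g1, -, g3, -, -⟩ := hGGX W X
  obtain ⟨-, -, -, a4, -, -⟩ := hADJ W
  obtain ⟨-, b2, -, -, -, -, -⟩ := hBFA W
  obtain ⟨d1, -, -, d4, -⟩ := hADD W (GG X k) R R' D
  have hbsum : b W R + b W R' = b W X ^ (2 * k) := by
    rw [← g3 k]
    exact (b2 _ _ _ d1).1.symm
  have hsum : ∀ r, n (R ⊗ GG X r) + n (R' ⊗ GG X r) = nn X (r + k) := by
    intro r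
    rw [← g1 k r]
    obtain ⟨D'⟩ := d4 (GG X r)
    exact ((hADD W _ _ _ D').2.2.1 (𝟙_ C)).symm
  have hup : ∀ (Q : C) (r : ℕ), n (Q ⊗ GG X r) ≤ b W Q * nn X r := by
    intro Q r
    have h1 : n (Q ⊗ GG X r) = h (T X r) (Q ⊗ T X r) := (a4 Q (T X r)).symm
    rw [h1]
    exact hNRM W Q (T X r)
  have hposR : ∀ r, (0 : ℝ) < nn X r := fun r => by exact_mod_cast hpos r
  have hlow : Tendsto (fun r => (nn X (r + k) : ℝ) / nn X r - b W R') atTop
      (nhds (b W R : ℝ)) := by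
    have h1 := (hlim k).sub_const (b W R' : ℝ)
    have h2 : (b W X : ℝ) ^ (2 * k) - b W R' = b W R := by
      have h3 : (b W R : ℝ) + b W R' = (b W X : ℝ) ^ (2 * k) := by exact_mod_cast hbsum
      linarith
    rw [h2] at h1
    exact h1
  refine tendsto_of_tendsto_of_tendsto_of_le_of_le hlow tendsto_const_nhds ?_ ?_
  · intro r
    show (nn X (r + k) : ℝ) / nn X r - b W R' ≤ (n (R ⊗ GG X r) : ℝ) / nn X r
    have h1 : (n (R ⊗ GG X r) : ℝ) + n (R' ⊗ GG X r) = nn X (r + k) := by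
      exact_mod_cast hsum r
    have h2 : (n (R' ⊗ GG X r) : ℝ) ≤ b W R' * nn X r := by exact_mod_cast hup R' r
    rw [sub_le_iff_le_add, ← h1, div_add' _ _ _ (hposR r).ne']
    exact div_le_div_of_nonneg_right (by linarith) (hposR r).le
  · intro r
    show (n (R ⊗ GG X r) : ℝ) / nn X r ≤ b W R
    rw [div_le_iff₀ (hposR r)]
    exact_mod_cast hup R r

end

end MotP.HL
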