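import Pool.Agent.HL.St4

/-!
# The half law, part Q, module ISO: multiplicities of simple summands (helper34)
-/

set_option autoImplicit false

open CategoryTheory MonoidalCategory BraidedCategory Limits Polynomial

universe v u

namespace MotP.HL

open Mot MotP.GGap

noncomputable section

variable (C : Type u) [Category.{v} C] [Preadditive C] [Linear ℚ C] [MonoidalCategory C]
  [SymmetricCategory C] [MonoidalPreadditive C] [MonoidalLinear ℚ C] [RightRigidCategory C]

theorem t_ISO : M_ISO C := by
  intro hADD hBFA hSIM _ _ W N S hS hij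
  obtain ⟨s1, s2, s3, _, _, _, s7⟩ := hSIM W
  have hpos : ∀ i, 0 < h (S i) (S i) := by
    intro i
    have hfin : Module.Finite ℚ (S i ⟶ S i) := W.finite_hom _ _
    rw [Nat.pos_iff_ne_zero]
    intro h0
    unfold h at h0
    have hsub := Module.finrank_zero_iff.1 h0
    exact (hS i).1 (Subsingleton.elim _ _)
  have key : ∀ (d : ℕ) (Y : C), h Y Y = d → ∃ Y' : C,
      Smd Y' Y ∧ (∀ i, h (S i) Y' = 0) ∧
      (b W Y : ℝ) = ∑ i, (h (S i) Y : ℝ) / h (S i) (S i) * b W (S i) + b W Y' := by
    intro d
    induction d using Nat.strong_induction_on with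
    | _ d ih =>
      intro Y hd
      by_cases hall : ∀ i, h (S i) Y = 0
      · refine ⟨Y, s2 Y, hall, ?_⟩
        have : ∑ i, (h (S i) Y : ℝ) / h (S i) (S i) * b W (S i) = 0 := by
          apply Finset.sum_eq_zero
          intro i _
          rw [hall i]; simp
        rw [this, zero_add]
      · push Not at hall
        obtain ⟨j, hj⟩ := hall
        obtain ⟨Y₁, ⟨D⟩⟩ := s7 (S j) Y (hS j) hj
        obtain ⟨a1, a2, a3, _, _⟩ := hADD W Y (S j) Y₁ D
        have hb := (hBFA W).2.1 Y (S j) Y₁ a1
        have hYY : h Y₁ Y₁ < d := by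
          have e1 := a2 Y
          have e2 := a3 (S j)
          have e3 := a3 Y₁
          have e4 := hpos j
          omega
        obtain ⟨Y', hY', hz, hsum⟩ := ih _ hYY Y₁ rfl
        refine ⟨Y', s3 _ _ _ hY' (s1 Y₁ Y D.j D.q D.jq), hz, ?_⟩
        have hterm : ∀ i, (h (S i) Y : ℝ) / h (S i) (S i) * b W (S i) =
            (if i = j then (b W (S j) : ℝ) else 0) +
              (h (S i) Y₁ : ℝ) / h (S i) (S i) * b W (S i) := by
          intro i
          have e1 : (h (S i) Y : ℝ) = h (S i) (S j) + h (S i) Y₁ := by
            rw [a3 (S i)]; push_cast; ring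
          rw [e1]
          by_cases hi : i = j
          · subst hi
            have e2 : (h (S i) (S i) : ℝ) ≠ 0 := by
              have := hpos i
              positivity
            rw [if_pos rfl]
            field_simp
          · rw [if_neg hi, hij i j hi]
            simp
        rw [Finset.sum_congr rfl (fun i _ => hterm i), Finset.sum_add_distrib,
          Finset.sum_ite_eq' Finset.univ j, if_pos (Finset.mem_univ j), add_assoc, ← hsum, hb.1]
        push_cast
        ring
  intro Y
  exact key _ Y rfl

end

end MotP.HL
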