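import Pool.Agent.HL.St4

/-!
# The half law, part Q, module LOW (helper94): families of simple objects
-/

set_option autoImplicit false

open CategoryTheory MonoidalCategory BraidedCategory Limits Polynomial Filter

universe v u

namespace MotP.HL

open Mot MotP.GGap

noncomputable section

variable (C : Type u) [Category.{v} C] [Preadditive C] [Linear ℚ C] [MonoidalCategory C]
  [SymmetricCategory C] [MonoidalPreadditive C] [MonoidalLinear ℚ C] [RightRigidCategory C]

namespace LOW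

variable {C}

/-- the traces of an object with vanishing identity -/
lemma t_zero (W : Frob C) (Y : C) (hY : 𝟙 Y = 0) (k : ℕ) : W.t Y k = 0 := by
  have h1 : W.Fp Y k = 0 := by
    rw [← Category.id_comp (W.Fp Y k), hY, Limits.zero_comp]
  unfold Frob.t
  rw [h1, tr_zero, W.val_zero]

end LOW

theorem t_LOW : M_LOW C := by
  intro hADJ hBFA hRTO hGGX hASY hONE hPRT hSIM hISO _ _ W X hX N S hF
  obtain ⟨a1, -, a3, -, -, -⟩ := hADJ W
  obtain ⟨-, b2, b3, -, -, -, -⟩ := hBFA W
  obtain ⟨-, hpos, -⟩ := hRTO W X hX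
  obtain ⟨-, -, -, g4, -⟩ := hGGX W X
  obtain ⟨o1, -, o3, -, -, -, -, -⟩ := hONE W
  obtain ⟨-, -, s3, -, s5, s6, -⟩ := hSIM W
  obtain ⟨hF1, hF2⟩ := hF
  choose P hP1 hP2 hP3 hP4 hP5 using fun r => hPRT W (GG X r)
  -- the multiplicities of the simple objects
  have hmul : ∀ (i : Fin N) (r : ℕ), h (S i) (P r) = n ((S i)ᘁ ⊗ GG X r) := by
    intro i r
    rw [a1 (S i) (P r), hP5 r (S i)ᘁ (o3 _ (hF1 i).2.1)]
    exact (a3 _ _ (β_ (P r) (S i)ᘁ)).2.1 (𝟙_ C)
  have hlim : ∀ i : Fin N,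
      Tendsto (fun r => (h (S i) (P r) : ℝ) / nn X r) atTop (nhds (b W (S i) : ℝ)) := by
    intro i
    obtain ⟨k, hk⟩ := (hF1 i).2.2
    have h1 := hASY W X hX k (S i)ᘁ (g4 _ _ hk)
    rw [b3 (S i)] at h1
    refine h1.congr fun r => ?_
    rw [hmul i r]
  -- the sum over the family
  have hsum : Tendsto (fun r => ∑ i, ((h (S i) (P r) : ℝ) / nn X r) *
      ((b W (S i) : ℝ) / h (S i) (S i))) atTop (nhds (wt W S)) := by
    have h1 : wt W S = ∑ i, (b W (S i) : ℝ) * ((b W (S i) : ℝ) / h (S i) (S i)) := by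
      unfold wt
      refine Finset.sum_congr rfl fun i _ => ?_
      ring
    rw [h1]
    exact tendsto_finsetSum _ fun i _ => (hlim i).mul_const _
  choose Y hY1 hY2 hY3 using fun r => hISO W N S (fun i => (hF1 i).1) hF2 (P r)
  have hmm : ∀ r, (mm W X r : ℝ) / nn X r = ∑ i, ((h (S i) (P r) : ℝ) / nn X r) *
      ((b W (S i) : ℝ) / h (S i) (S i)) + (b W (Y r) : ℝ) / nn X r := by
    intro r
    have h1 : (mm W X r : ℝ) = b W (P r) := by
      rw [hP3 r]
      rfl
    rw [h1, hY3 r, add_div, Finset.sum_div]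
    congr 1
    refine Finset.sum_congr rfl fun i _ => ?_
    ring
  refine ⟨?_, ?_⟩
  · intro ε hε
    have h1 := hsum.eventually (lt_mem_nhds (show wt W S - ε < wt W S by linarith))
    obtain ⟨N₀, hN₀⟩ := eventually_atTop.mp h1
    refine ⟨N₀, fun r hr => ?_⟩
    have h2 := hN₀ r hr
    have h3 : (0 : ℝ) ≤ (b W (Y r) : ℝ) / nn X r := by positivity
    rw [hmm r]
    linarith
  · intro hcomp
    have hYr : ∀ r, b W (Y r) = 0 := by
      intro r
      have h1 : 𝟙 (Y r) = 0 := by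
        by_contra hne
        obtain ⟨S', hS1, hS2⟩ := s6 (Y r) hne
        have h2 : Smd S' (P r) := s3 _ _ _ hS2 (hY1 r)
        obtain ⟨i, hi⟩ := hcomp S' hS1 (o1 _ _ h2 (hP2 r)) ⟨r, s3 _ _ _ h2 (hP1 r)⟩
        have h3 := s5 S' (Y r) (S i) hS2
        rw [hY2 r i] at h3
        omega
      have h2 : b W (Y r) = b W (Y r) + b W (Y r) := by
        refine (b2 (Y r) (Y r) (Y r) fun k => ?_).1
        rw [LOW.t_zero W (Y r) h1 k, add_zero]
      omega
    refine hsum.congr fun r => ?_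
    rw [hmm r, hYr r]
    simp

end

end MotP.HL
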