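import Pool.Agent.HL.St

/-!
# The half law, module INE: the main inequality
-/

set_option autoImplicit false

open CategoryTheory MonoidalCategory BraidedCategory Limits Polynomial

universe v u

namespace MotP.HL

open Mot MotP.GGap

noncomputable section

set_option linter.unusedSectionVars false

variable (C : Type u) [Category.{v} C] [Preadditive C] [Linear ℚ C] [MonoidalCategory C]
  [SymmetricCategory C] [MonoidalPreadditive C] [MonoidalLinear ℚ C] [RightRigidCategory C]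

namespace INE

variable {C}

theorem n_le [IsIdempotentComplete C] (W : Frob C) (X : C) : n X ≤ m W X :=
  Module.finrank_le_of_rank_le (W.rank_le X)

theorem root_one (z : ℂ) : aeval z (Polynomial.X - Polynomial.C 1 : ℚ[X]) = 0 ↔ z = 1 := by
  simp [sub_eq_zero]

/-- the part of `X` with eigenvalue `1` -/
theorem split_one_part (hS : S_SPL C) (hA : S_ADD C) (hT : S_TEN C) (hB : S_BFA C)
    [IsIdempotentComplete C] (W : Frob C) (X : C) :
    ∃ (Y Z : C) (_ : Dec X Y Z), (∀ z : ℂ, z ≠ 1 → ν W Y z = 0) ∧ ν W Z 1 = 0 ∧ n Z = 0 ∧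
      m W Z = 0 ∧ b W Y = m W Y ∧ m W Y = m W X ∧ n Y = n X ∧ b W X = m W X + b W Z := by
  obtain ⟨Y, Z, D, -, -, h1, h2⟩ := hS W X (Polynomial.X - Polynomial.C 1)
  obtain ⟨ht, -, hh, -, -⟩ := hA W X Y Z D
  obtain ⟨-, hadd, -, -, -, -, hbm⟩ := hB W
  obtain ⟨-, -, hone, -, -⟩ := hT W
  have hY : ∀ z : ℂ, z ≠ 1 → ν W Y z = 0 := fun z hz =>
    (h2 z (fun h => hz ((root_one z).1 h))).1
  have hZ : ν W Z 1 = 0 := (h1 1 ((root_one 1).2 rfl)).2
  have hmZ : m W Z = 0 := by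
    have := hone Z
    rw [hZ] at this
    exact_mod_cast this.symm
  have hnZ : n Z = 0 := by
    have := n_le W Z
    omega
  obtain ⟨hb, hm⟩ := hadd X Y Z ht
  have hbY := hbm Y hY
  have hn : n X = n Y + n Z := hh (𝟙_ C)
  refine ⟨Y, Z, D, hY, hZ, hnZ, hmZ, hbY, ?_, ?_, ?_⟩
  · omega
  · omega
  · omega

end INE

open INE in
theorem t_INE : M_INE C := by
  intro hA hJ hS hT hB hN hR inst1 inst2 W X r
  set U := T X r with hU
  set E := X ⊗ Xᘁ with hE
  set G := U ⊗ Uᘁ with hG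
  obtain ⟨J1, J2, J3, J4, J5, J6⟩ := hJ W
  obtain ⟨B1, B2, B3, B4, B5, B6, B7⟩ := hB W
  obtain ⟨T1, T2, T3, T4, T5⟩ := hT W
  have e1 : nn X (r + 1) = n (E ⊗ G) := J6 U X
  have e2 : nn X r = n G := J1 U U
  have e3 : mm W X r = m W G := rfl
  have e4 : h X X = n E := J1 X X
  have e5 : b W E = b W X ^ 2 := by rw [hE, B1, B3, sq]
  -- the parts with eigenvalue one
  obtain ⟨E1, R0, D, hE1, hR01, hR0n, hR0m, hE1b, hE1m, hE1n, hEb⟩ :=
    split_one_part hS hA hT hB W E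
  obtain ⟨G1, G0, D', hG1, hG01, hG0n, hG0m, hG1b, hG1m, hG1n, hGb⟩ :=
    split_one_part hS hA hT hB W G
  obtain ⟨S, hSn, hSb, hSm, hSν, hSt⟩ := hN W E1
  obtain ⟨N, hNn, hNb, hNm, hNν, hNt⟩ := hN W G1
  -- (E ⊗ G)
  have s1 : n (E ⊗ G) = n (E1 ⊗ G) + n (R0 ⊗ G) := by
    obtain ⟨D1⟩ := (hA W E E1 R0 D).2.2.2.1 G
    exact (hA W _ _ _ D1).2.2.1 (𝟙_ C)
  have s2 := hSt G
  have s3 : n (R0 ⊗ G) ≤ b W R0 * nn X r := by
    have := hR W R0 U
    rw [J4 R0 U] at this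
    exact this
  have s4 : n (S ⊗ G) = n (S ⊗ G1) + n (S ⊗ G0) := by
    obtain ⟨D1⟩ := (hA W G G1 G0 D').2.2.2.2 S
    exact (hA W _ _ _ D1).2.2.1 (𝟙_ C)
  have s5 : n (S ⊗ G0) = 0 := by
    have h1 : m W (S ⊗ G0) = 0 := by
      have h2 := T3 (S ⊗ G0)
      rw [T1 S G0 1] at h2
      have h3 : ∑ z ∈ (fr W).S S, ∑ z' ∈ (fr W).S G0,
          (if z * z' = 1 then ν W S z * ν W G0 z' else 0) = 0 := by
        refine Finset.sum_eq_zero fun z _ => Finset.sum_eq_zero fun z' _ => ?_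
        split_ifs with h
        · by_cases hz : z = 1
          · rw [hz, one_mul] at h
            rw [h, hG01, mul_zero]
          · rw [hSν z hz, hE1 z hz, zero_mul]
        · rfl
      rw [h3] at h2
      exact_mod_cast h2.symm
    have := n_le W (S ⊗ G0)
    omega
  have s6 : n (S ⊗ G1) = n (G1 ⊗ S) := (J3 (S ⊗ G1) (G1 ⊗ S) (β_ S G1)).2.1 (𝟙_ C)
  have s7 := hNt S
  have s8 : n (N ⊗ S) ≤ b W N * b W S := by
    calc n (N ⊗ S) ≤ m W (N ⊗ S) := n_le W _
      _ ≤ b W (N ⊗ S) := B5 _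
      _ = _ := B1 N S
  rw [hSn, mul_zero, zero_add] at s7
  -- numbers
  rw [e1, e3, e4, ← e5, hEb]
  have n1 : m W E = n E + b W S := by omega
  have n2 : m W G = nn X r + b W N := by omega
  have n3 : m W E - n E = b W S := by omega
  rw [n3, n1, n2]
  have n4 : n (E1 ⊗ G) ≤ n E * nn X r + b W N * b W S := by
    rw [s2, hE1n, ← e2]
    omega
  have n5 : n (E ⊗ G) ≤ n E * nn X r + b W N * b W S + b W R0 * nn X r := by omega
  nlinarith

end

end MotP.HL
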