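import Pool.Agent.HL.St4
import Pool.Agent.HL.P_INE

/-!
# Quantization, module PRT: the part with eigenvalue one
-/

set_option autoImplicit false

open CategoryTheory MonoidalCategory BraidedCategory Limits Polynomial

universe v u

namespace MotP.HL

open Mot MotP.GGap

noncomputable section

set_option linter.unusedSectionVars false

variable (C : Type u) [Category.{v} C] [Preadditive C] [Linear ℚ C] [MonoidalCategory C]
  [SymmetricCategory C] [MonoidalPreadditive C] [MonoidalLinear ℚ C] [RightRigidCategory C]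

theorem t_PRT : M_PRT C := by
  intro hA hS hT hB hO inst W Y
  obtain ⟨P, Z, D, hP1, hZ1, -, -, hPb, hPm, hPn, -⟩ := INE.split_one_part hS hA hT hB W Y
  refine ⟨P, ⟨Z, ⟨D⟩⟩, hP1, hPb.trans hPm, hPn, ?_⟩
  intro U hU
  obtain ⟨D1⟩ := (hA W Y P Z D).2.2.2.2 U
  have h1 : n (U ⊗ Y) = n (U ⊗ P) + n (U ⊗ Z) := (hA W _ _ _ D1).2.2.1 (𝟙_ C)
  have h2 : n (U ⊗ Z) = 0 := (hO W).2.2.2.2.1 U Z hU hZ1
  rw [h1, h2, add_zero]

end

end MotP.HL
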