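import Pool.Agent.HL.St

/-!
# The half law, module END (helper44): the limit argument
-/

set_option autoImplicit false

open CategoryTheory MonoidalCategory BraidedCategory Limits Polynomial

universe v u

namespace MotP.HL

open Mot MotP.GGap

noncomputable section

variable (C : Type u) [Category.{v} C] [Preadditive C] [Linear ℚ C] [MonoidalCategory C]
  [SymmetricCategory C] [MonoidalPreadditive C] [MonoidalLinear ℚ C] [RightRigidCategory C]

namespace END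

/-- a sequence with `a (r + 1) ≤ (B - δ) a r`, `δ > 0`, cannot satisfy `B ^ r ≤ (r + 1) ^ k a r` for
all `r` -/
lemma growth (a : ℕ → ℝ) (B δ : ℝ) (k : ℕ) (ha : ∀ r, 0 ≤ a r) (h0 : 0 < a 0) (hδ : 0 < δ)
    (hs : ∀ r, a (r + 1) ≤ (B - δ) * a r) (hg : ∀ r : ℕ, B ^ r ≤ ((r : ℝ) + 1) ^ k * a r) :
    False := by
  have hB : 0 < B := by
    by_contra hB
    have h1 := hs 0
    have h2 := ha 1
    have h3 : (B - δ) * a 0 < 0 := mul_neg_of_neg_of_pos (by linarith) h0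
    simp only [zero_add] at h1
    linarith
  obtain ⟨θ, hθ0, hθB, hθ⟩ : ∃ θ : ℝ, 0 < θ ∧ θ < B ∧ B - δ ≤ θ :=
    ⟨max (B - δ) (B / 2), lt_of_lt_of_le (by linarith) (le_max_right _ _),
      max_lt (by linarith) (by linarith), le_max_left _ _⟩
  have hpow : ∀ r, a r ≤ θ ^ r * a 0 := by
    intro r
    induction r with
    | zero => simp
    | succ r ih =>
      calc a (r + 1) ≤ (B - δ) * a r := hs r
        _ ≤ θ * a r := mul_le_mul_of_nonneg_right hθ (ha r)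
        _ ≤ θ * (θ ^ r * a 0) := mul_le_mul_of_nonneg_left ih hθ0.le
        _ = θ ^ (r + 1) * a 0 := by ring
  have hq1 : 1 < B / θ := by
    rw [lt_div_iff₀ hθ0]
    linarith
  have hkey : ∀ r : ℕ, (B / θ) ^ r ≤ ((r : ℝ) + 1) ^ k * a 0 := by
    intro r
    have h2 : (0 : ℝ) < θ ^ r := pow_pos hθ0 r
    rw [div_pow, div_le_iff₀ h2]
    calc B ^ r ≤ ((r : ℝ) + 1) ^ k * a r := hg r
      _ ≤ ((r : ℝ) + 1) ^ k * (θ ^ r * a 0) := mul_le_mul_of_nonneg_left (hpow r) (by positivity)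
      _ = ((r : ℝ) + 1) ^ k * a 0 * θ ^ r := by ring
  have hlim := tendsto_pow_const_div_const_pow_of_one_lt k hq1
  set q : ℝ := B / θ with hq
  have hq0 : 0 < q := by linarith
  have hev : ∀ᶠ r : ℕ in Filter.atTop, ((r : ℝ)) ^ k / q ^ r < 1 / (q * a 0) := by
    apply hlim.eventually_lt_const
    positivity
  obtain ⟨N, hN⟩ := Filter.eventually_atTop.mp hev
  have h8 := hN (N + 1) (by omega)
  have h9 := hkey N
  have hqp : (0 : ℝ) < q ^ (N + 1) := by positivity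
  have hq2 : (0 : ℝ) < q * a 0 := by positivity
  rw [div_lt_div_iff₀ hqp hq2] at h8
  push_cast at h8
  have h11 : q ^ (N + 1) = q ^ N * q := pow_succ q N
  have h12 : q ^ N * q ≤ (((N : ℝ) + 1) ^ k * a 0) * q := mul_le_mul_of_nonneg_right h9 hq0.le
  rw [one_mul, h11] at h8
  nlinarith

end END

theorem t_END : M_END C := by
  intro hGRO hINE _ _ W X c hc hcm
  have hle : h X X ≤ m W (X ⊗ Xᘁ) := W.finrank_hom_le X X
  by_contra hne
  obtain ⟨s, hs⟩ : ∃ s, m W (X ⊗ Xᘁ) = h X X + (s + 1) :=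
    ⟨m W (X ⊗ Xᘁ) - h X X - 1, by omega⟩
  have hc0 : 0 < c := by linarith
  have hδ : 0 < 2 - 1 / c := by
    have h1 : 1 / c < 2 := by
      rw [div_lt_iff₀ hc0]
      linarith
    linarith
  have h00 : 0 < nn X 0 := by
    have hfin : Module.Finite ℚ (𝟙_ C ⟶ 𝟙_ C) := W.finite_hom _ _
    have h1 : nn X 0 = Module.finrank ℚ (𝟙_ C ⟶ 𝟙_ C) := rfl
    rw [h1]
    have : Nontrivial (𝟙_ C ⟶ 𝟙_ C) := ⟨𝟙 (𝟙_ C), 0, W.ne⟩
    exact Module.finrank_pos
  refine END.growth (fun r => (nn X r : ℝ)) ((b W X : ℝ) ^ 2) (2 - 1 / c)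
    ((fr W).bp X ^ 2 + (fr W).bm X ^ 2 + 4) (fun r => Nat.cast_nonneg _) ?_ hδ ?_ ?_
  · exact_mod_cast h00
  · intro r
    have h1 := hINE W X r
    rw [hs, Nat.add_sub_cancel_left] at h1
    have h2 : (nn X (r + 1) : ℝ) + 2 * ((s : ℝ) + 1) * nn X r ≤
        (b W X : ℝ) ^ 2 * nn X r + ((s : ℝ) + 1) * mm W X r := by exact_mod_cast h1
    have h3 : (mm W X r : ℝ) ≤ nn X r / c := by
      rw [le_div_iff₀ hc0, mul_comm]
      exact hcm r
    have h4 : ((s : ℝ) + 1) * mm W X r ≤ ((s : ℝ) + 1) * (nn X r / c) :=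
      mul_le_mul_of_nonneg_left h3 (by positivity)
    have h5 : (0 : ℝ) ≤ (s : ℝ) * ((2 - 1 / c) * nn X r) := by positivity
    have h6 : (nn X r : ℝ) / c = 1 / c * nn X r := by ring
    rw [h6] at h4
    change (nn X (r + 1) : ℝ) ≤ ((b W X : ℝ) ^ 2 - (2 - 1 / c)) * nn X r
    nlinarith
  · intro r
    have h1 := hGRO W X r
    have h2 : ((b W X : ℝ)) ^ (2 * r) ≤
        ((r : ℝ) + 1) ^ ((fr W).bp X ^ 2 + (fr W).bm X ^ 2 + 4) * nn X r := by exact_mod_cast h1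
    rw [← pow_mul]
    exact h2

end

end MotP.HL
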