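import Pool.Agent.HL.St4
import Pool.Agent.HL.P_END

/-!
# The half law, module RTO (helper83): the ratio of consecutive dimensions
-/

set_option autoImplicit false

open CategoryTheory MonoidalCategory BraidedCategory Limits Polynomial Filter

universe v u

namespace MotP.HL

open Mot MotP.GGap

noncomputable section

variable (C : Type u) [Category.{v} C] [Preadditive C] [Linear ℚ C] [MonoidalCategory C]
  [SymmetricCategory C] [MonoidalPreadditive C] [MonoidalLinear ℚ C] [RightRigidCategory C]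

theorem t_RTO : M_RTO C := by
  intro hADJ hBFA hNRM hGRO hLCV _ _ W X hX
  obtain ⟨a1, a2, a3, a4, a5, a6⟩ := hADJ W
  obtain ⟨hten, -, hdual, -, hmb, -, -⟩ := hBFA W
  -- the number of eigenvalues is positive
  have hb : 0 < b W X := by
    have hfin : Module.Finite ℚ (X ⟶ X) := W.finite_hom _ _
    have hnt : Nontrivial (X ⟶ X) := ⟨𝟙 X, 0, hX⟩
    have h1 : 0 < h X X := Module.finrank_pos
    have h2 : h X X ≤ m W (X ⊗ Xᘁ) := W.finrank_hom_le X X
    have h3 := hmb (X ⊗ Xᘁ)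
    rw [hten, hdual] at h3
    have h4 : 0 < b W X * b W X := lt_of_lt_of_le h1 (h2.trans h3)
    exact Nat.pos_of_mul_pos_left h4
  have hpos : ∀ r, 0 < nn X r := by
    intro r
    have h1 := hGRO W X r
    have h2 : 0 < b W X ^ (2 * r) := pow_pos hb _
    exact Nat.pos_of_mul_pos_left (lt_of_lt_of_le h2 h1)
  have hbE : b W (X ⊗ Xᘁ) = b W X ^ 2 := by rw [hten, hdual, sq]
  have hup : ∀ r, nn X (r + 1) ≤ b W X ^ 2 * nn X r := by
    intro r
    have h1 : nn X (r + 1) = h (T X r ⊗ X) (T X r ⊗ X) := rfl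
    rw [h1, a6, ← a4, ← hbE]
    exact hNRM W (X ⊗ Xᘁ) (T X r)
  have hposR : ∀ r, (0 : ℝ) < nn X r := fun r => by exact_mod_cast hpos r
  set u : ℕ → ℝ := fun r => (nn X (r + 1) : ℝ) / nn X r with hu
  have hmono : Monotone u := by
    refine monotone_nat_of_le_succ fun r => ?_
    have h1 : (nn X (r + 1) : ℝ) ^ 2 ≤ nn X r * nn X (r + 2) := by exact_mod_cast hLCV W X r
    change (nn X (r + 1) : ℝ) / nn X r ≤ (nn X (r + 1 + 1) : ℝ) / nn X (r + 1)
    rw [div_le_div_iff₀ (hposR r) (hposR (r + 1))]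
    calc (nn X (r + 1) : ℝ) * nn X (r + 1) = (nn X (r + 1) : ℝ) ^ 2 := by ring
      _ ≤ nn X r * nn X (r + 2) := h1
      _ = (nn X (r + 1 + 1) : ℝ) * nn X r := by ring
  have hle : ∀ r, u r ≤ (b W X : ℝ) ^ 2 := by
    intro r
    change (nn X (r + 1) : ℝ) / nn X r ≤ (b W X : ℝ) ^ 2
    rw [div_le_iff₀ (hposR r)]
    exact_mod_cast hup r
  have hbdd : BddAbove (Set.range u) := ⟨(b W X : ℝ) ^ 2, by rintro _ ⟨r, rfl⟩; exact hle r⟩
  have hlim := tendsto_atTop_ciSup hmono hbdd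
  have hθ : (⨆ r, u r) = (b W X : ℝ) ^ 2 := by
    refine le_antisymm (ciSup_le hle) ?_
    by_contra hlt
    push Not at hlt
    refine END.growth (fun r => (nn X r : ℝ)) ((b W X : ℝ) ^ 2) ((b W X : ℝ) ^ 2 - ⨆ r, u r)
      ((fr W).bp X ^ 2 + (fr W).bm X ^ 2 + 4) (fun r => Nat.cast_nonneg _) ?_ (by linarith) ?_ ?_
    · exact hposR 0
    · intro r
      have h1 : u r ≤ ⨆ r, u r := le_ciSup hbdd r
      have h2 : (nn X (r + 1) : ℝ) / nn X r ≤ ⨆ r, u r := h1
      rw [div_le_iff₀ (hposR r)] at h2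
      change (nn X (r + 1) : ℝ) ≤ ((b W X : ℝ) ^ 2 - ((b W X : ℝ) ^ 2 - ⨆ r, u r)) * nn X r
      rw [sub_sub_cancel]
      exact h2
    · intro r
      have h1 := hGRO W X r
      have h2 : ((b W X : ℝ)) ^ (2 * r) ≤
          ((r : ℝ) + 1) ^ ((fr W).bp X ^ 2 + (fr W).bm X ^ 2 + 4) * nn X r := by exact_mod_cast h1
      rw [← pow_mul]
      exact h2
  rw [hθ] at hlim
  refine ⟨hb, hpos, fun k => ?_⟩
  induction k with
  | zero =>
    have h1 : (fun r => (nn X (r + 0) : ℝ) / nn X r) = fun _ => (1 : ℝ) := by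
      funext r
      exact div_self (hposR r).ne'
    rw [h1]
    simp
  | succ k ih =>
    have h1 : (fun r => (nn X (r + (k + 1)) : ℝ) / nn X r) =
        fun r => u (r + k) * ((nn X (r + k) : ℝ) / nn X r) := by
      funext r
      change (nn X (r + k + 1) : ℝ) / nn X r =
        (nn X (r + k + 1) : ℝ) / nn X (r + k) * ((nn X (r + k) : ℝ) / nn X r)
      rw [div_mul_div_cancel₀ (hposR (r + k)).ne']
    rw [h1]
    have h2 : Tendsto (fun r => u (r + k)) atTop (nhds ((b W X : ℝ) ^ 2)) :=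
      (tendsto_add_atTop_iff_nat k).mpr hlim
    have h3 := h2.mul ih
    have h4 : (b W X : ℝ) ^ 2 * (b W X : ℝ) ^ (2 * k) = (b W X : ℝ) ^ (2 * (k + 1)) := by
      rw [← pow_add]
      congr 1
      ring
    rw [h4] at h3
    exact h3

end

end MotP.HL
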