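import Pool.Agent.HL.P_SUM

/-!
# The half law, module NHZ: equality for all `X × X` gives equality for all `X`
-/

set_option autoImplicit false

open CategoryTheory MonoidalCategory CartesianMonoidalCategory Limits Polynomial

universe v u w x

namespace MotP.HL

noncomputable section

namespace NHZ

open NCL SUM

section

variable {C : Type u} [Category.{v} C] [Preadditive C] [Linear ℚ C] [MonoidalCategory C]
  [SymmetricCategory C] [MonoidalPreadditive C] [MonoidalLinear ℚ C] [RightRigidCategory C]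

/-- a factor with a section can be cancelled -/
theorem cancel (hADD : S_ADD C) (hADJ : S_ADJ C) (hBFA : S_BFA C) [IsIdempotentComplete C]
    (W : Frob C) (A B : C) (hB : n B ≠ 0) (hAB : n (A ⊗ B) = m W (A ⊗ B)) : n A = m W A := by
  obtain ⟨B', ⟨D⟩⟩ := split_unit W B hB
  obtain ⟨D'⟩ := (hADD W B (𝟙_ C) B' D).2.2.2.2 A
  have e1 := hADD W _ _ _ D'
  have e2 := ((hBFA W).2.1 _ _ _ e1.1).2
  have e3 : n (A ⊗ B) = n (A ⊗ 𝟙_ C) + n (A ⊗ B') := e1.2.2.1 (𝟙_ _)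
  have i2 : n (A ⊗ B') ≤ m W (A ⊗ B') := Module.finrank_le_of_rank_le (W.rank_le _)
  have hi := (hADJ W).2.2.1 _ _ (ρ_ A)
  have e4 : n (A ⊗ 𝟙_ C) = n A := hi.2.1 _
  have e5 : m W (A ⊗ 𝟙_ C) = m W A := ((hBFA W).2.2.2.2.2.1 _ _ hi.2.2).2
  have i1 : n A ≤ m W A := Module.finrank_le_of_rank_le (W.rank_le _)
  omega

/-- a product of objects with sections has a section -/
theorem n_tensor (hADD : S_ADD C) (hADJ : S_ADJ C) [IsIdempotentComplete C]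
    (W : Frob C) (A B : C) (hA : n A ≠ 0) (hB : n B ≠ 0) : n (A ⊗ B) ≠ 0 := by
  obtain ⟨B', ⟨D⟩⟩ := split_unit W B hB
  obtain ⟨D'⟩ := (hADD W B (𝟙_ C) B' D).2.2.2.2 A
  have e3 : n (A ⊗ B) = n (A ⊗ 𝟙_ C) + n (A ⊗ B') := (hADD W _ _ _ D').2.2.1 (𝟙_ _)
  have e4 : n (A ⊗ 𝟙_ C) = n A := ((hADJ W).2.2.1 _ _ (ρ_ A)).2.1 _
  omega

/-- equality for a direct sum -/
theorem full_part (hADD : S_ADD C) (hBFA : S_BFA C) [IsIdempotentComplete C]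
    (W : Frob C) (Z X Y : C) (D : Dec Z X Y) (hZ : h Z Z = m W (Z ⊗ Zᘁ)) :
    h Y X = m W (X ⊗ Yᘁ) := by
  obtain ⟨-, hadd, -, -, -, heq, -⟩ := hBFA W
  have hm : ∀ {X Y Z : C} (_ : Dec X Y Z), m W X = m W Y + m W Z := fun {X Y Z} E =>
    (hadd X Y Z (hADD W X Y Z E).1).2
  have hl := fun U => (hADD W Z X Y D).2.1 U
  have hr := fun U => (hADD W Z X Y D).2.2.1 U
  have e1 : h Z Z = (h X X + h X Y) + (h Y X + h Y Y) := by
    rw [hl Z, hr X, hr Y]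
  have e2 : m W (Z ⊗ Zᘁ) = (m W (X ⊗ Xᘁ) + m W (X ⊗ Yᘁ)) + (m W (Y ⊗ Xᘁ) + m W (Y ⊗ Yᘁ)) := by
    rw [hm (decR D Zᘁ), hm (decL X (decD D)), hm (decL Y (decD D))]
  have i1 : h X X ≤ m W (X ⊗ Xᘁ) := W.finrank_hom_le _ _
  have i2 : h X Y ≤ m W (Y ⊗ Xᘁ) := W.finrank_hom_le _ _
  have i3 : h Y X ≤ m W (X ⊗ Yᘁ) := W.finrank_hom_le _ _
  have i4 : h Y Y ≤ m W (Y ⊗ Yᘁ) := W.finrank_hom_le _ _
  omega

end

open CHM

variable {V : Type u} [Category.{v} V] [CartesianMonoidalCategory V]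

/-- disjoint unions -/
theorem union_dec (T : CHM.ChowTheory.{v, u, w} V) {X Y : V} (hd : T.dim X = T.dim Y) (m : ℤ) :
    ∃ Z : V, T.dim Z = T.dim X ∧ Nonempty (Dec (Mot.h T Z m) (Mot.h T X m) (Mot.h T Y m)) := by
  obtain ⟨Z, i, j, hZ, hu⟩ := T.union X Y hd
  obtain ⟨a, ha, ha1, ha2⟩ := (hu X).2 (T.dim X) (T.diag X) 0 (T.diag_mem X) (zero_mem _)
  obtain ⟨b, hb, hb1, hb2⟩ := (hu Y).2 (T.dim X) 0 (T.diag Y) (zero_mem _)
    (by rw [hd]; exact T.diag_mem Y)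
  refine ⟨Z, hZ, ⟨⟨⟨a, Mot.mem_hom_h.2 ?_⟩, ⟨T.gr' i, Mot.mem_hom_h.2 ?_⟩,
    ⟨b, Mot.mem_hom_h.2 ?_⟩, ⟨T.gr' j, Mot.mem_hom_h.2 ?_⟩, ?_, ?_, ?_, ?_, ?_⟩⟩⟩
  · rwa [add_sub_cancel_right]
  · rw [add_sub_cancel_right]
    exact T.gr'_mem i
  · rwa [add_sub_cancel_right, ← hd]
  · rw [add_sub_cancel_right]
    exact T.gr'_mem j
  · apply Subtype.ext
    change T.cp a (T.gr' i) = T.diag X
    rw [T.cp_gr', ha1]
  · apply Subtype.ext
    change T.cp b (T.gr' j) = T.diag Y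
    rw [T.cp_gr', hb2]
  · apply Subtype.ext
    change T.cp a (T.gr' j) = 0
    rw [T.cp_gr', ha2]
  · apply Subtype.ext
    change T.cp b (T.gr' i) = 0
    rw [T.cp_gr', hb1]
  · apply Subtype.ext
    change T.cp (T.gr' i) a + T.cp (T.gr' j) b = T.diag Z
    rw [← sub_eq_zero]
    apply (hu Z).1
    · rw [map_sub, map_add, ← T.cp_gr', ← T.cp_gr', ← T.cp_gr', T.cp_assoc, T.cp_assoc, T.cp_gr',
        T.cp_gr' b, ha1, hb1, T.cp_diag, T.diag_cp]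
      simp [ChowTheory.cp]
    · rw [map_sub, map_add, ← T.cp_gr', ← T.cp_gr', ← T.cp_gr', T.cp_assoc, T.cp_assoc, T.cp_gr',
        T.cp_gr' b, ha2, hb2, T.cp_diag, T.diag_cp]
      simp [ChowTheory.cp]

variable {T : CHM.ChowTheory.{v, u, w} V}

theorem deg_of_push {X : V} {a : T.CH X} (ha : T.push (toUnit X) a = 1) : T.deg a = 1 := by
  apply T.point.1
  rw [T.algebraMap_deg, ha, map_one]

/-- a numerically nontrivial cycle gives a section -/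
theorem n_ne_zero (hG : S_NGR T) (hU : S_NUN T) (W : Frob (CHM.Mot (numQ T hG hU))) {X : V}
    {i : ℤ} {a : T.CH X} (ha : a ∈ T.gr X i) (b : T.CH X) (hab : T.deg (a * b) ≠ 0) :
    n (Mot.h (numQ T hG hU) X i) ≠ 0 := by
  have h1 : Mot.secEquiv (numQ T hG hU) X i ⟨pr T X a, numQ_mem hG hU ha⟩ ≠ 0 := by
    intro h
    rw [LinearEquiv.map_eq_zero_iff] at h
    exact hab ((pr_eq_zero T).1 (congrArg Subtype.val h) b)
  have := W.finite_hom (𝟙_ (CHM.Mot (numQ T hG hU))) (Mot.h (numQ T hG hU) X i)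
  have : Nontrivial (𝟙_ (CHM.Mot (numQ T hG hU)) ⟶ Mot.h (numQ T hG hU) X i) := ⟨_, _, h1⟩
  exact (Module.finrank_pos (R := ℚ)).ne'

/-- powers of the line -/
theorem lines (hG : S_NGR T) (hU : S_NUN T) (hADD : S_ADD (CHM.Mot (numQ T hG hU)))
    (hADJ : S_ADJ (CHM.Mot (numQ T hG hU))) (W : Frob (CHM.Mot (numQ T hG hU))) (a : ℕ) :
    ∃ Y : V, T.dim Y = a ∧ ∀ α : ℤ, 0 ≤ α → α ≤ a → n (Mot.h (numQ T hG hU) Y α) ≠ 0 := by
  induction a with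
  | zero =>
    refine ⟨𝟙_ V, by rw [T.dim_unit, Nat.cast_zero], fun α h0 h1 => ?_⟩
    have h2 : α = 0 := le_antisymm (by exact_mod_cast h1) h0
    subst h2
    refine n_ne_zero hG hU W (T.one_mem _) 1 ?_
    rw [mul_one, deg_of_push (by rw [toUnit_unique (toUnit (𝟙_ V)) (𝟙 _), T.push_id])]
    exact one_ne_zero
  | succ a ih =>
    obtain ⟨Y, hY, hY2⟩ := ih
    obtain ⟨E, c, hE, hc, hc2⟩ := T.line
    refine ⟨Y ⊗ E, by rw [T.dim_tensor, hY, hE]; push_cast; ring, fun α h0 h1 => ?_⟩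
    have e0 : n (Mot.h (numQ T hG hU) E 0) ≠ 0 := by
      refine n_ne_zero hG hU W (T.one_mem _) c ?_
      rw [one_mul, deg_of_push hc2]
      exact one_ne_zero
    have e1 : n (Mot.h (numQ T hG hU) E 1) ≠ 0 := by
      refine n_ne_zero hG hU W hc 1 ?_
      rw [mul_one, deg_of_push hc2]
      exact one_ne_zero
    by_cases h2 : α ≤ a
    · have h3 := n_tensor hADD hADJ W _ _ (hY2 α h0 h2) e0
      rwa [h_tensor, add_zero] at h3
    · have h3 := n_tensor hADD hADJ W _ _ (hY2 (α - 1) (by omega) (by omega)) e1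
      rwa [h_tensor, sub_add_cancel] at h3

end NHZ

open CHM

variable {V : Type u} [Category.{v} V] [CartesianMonoidalCategory V]

/-- NHZ. If the numerical rank is the multiplicity for all `X ⊗ X` in codimension `dim X`, then it
is the multiplicity for all `X` and all codimensions. -/
def S_NHZ (T : CHM.ChowTheory.{v, u, w} V) : Prop := ∀ (R : CHM.FrobeniusMaps T)
  (K : CHM.Cohomology.{v, u, w, x} T R),
  (∀ X : V, Cardinal.toNat (Module.rank ℚ (T.gr (X ⊗ X) (T.dim X) ⧸ T.num (X ⊗ X) (T.dim X))) =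
    K.mult (X ⊗ X) (T.dim X)) →
  ∀ (X : V) (i : ℤ), Cardinal.toNat (Module.rank ℚ (T.gr X i ⧸ T.num X i)) = K.mult X i

theorem t_NHZ (T : CHM.ChowTheory.{v, u, w} V)
    (hADD : ∀ hG hU, S_ADD (CHM.Mot (numQ T hG hU)))
    (hADJ : ∀ hG hU, S_ADJ (CHM.Mot (numQ T hG hU)))
    (hBFA : ∀ hG hU, S_BFA (CHM.Mot (numQ T hG hU)))
    (hG : S_NGR T) (hU : S_NUN T) (hN : S_NND T) (hE : S_NEV.{v, u, w, x} T) (hNHO : S_NHO T)
    (hNMU : S_NMU.{v, u, w, x} T) : S_NHZ.{v, u, w, x} T := by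
  intro R K hX X i
  obtain ⟨W, hW⟩ : ∃ W : MotP.Frob (CHM.Mot (numQ T hG hU)), W = frobQ hG hU hN R K hE := ⟨_, rfl⟩
  have hho : ∀ (Y : V) (k : ℤ), n (CHM.Mot.h (numQ T hG hU) Y k) =
      Cardinal.toNat (Module.rank ℚ (T.gr Y k ⧸ T.num Y k)) := by
    intro Y k
    rw [hNHO hG hU Y k]
    rfl
  have hmu : ∀ (Y : V) (k : ℤ), m W (CHM.Mot.h (numQ T hG hU) Y k) =
      K.mult Y k := by
    intro Y k
    rw [hW]
    exact (hNMU hG hU hN R K hE Y).1 k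
  have hfull : ∀ Z : V, h (CHM.Mot.h (numQ T hG hU) Z 0) (CHM.Mot.h (numQ T hG hU) Z 0) =
      m W ((CHM.Mot.h (numQ T hG hU) Z 0) ⊗ (CHM.Mot.h (numQ T hG hU) Z 0)ᘁ) := by
    intro Z
    have ht : (CHM.Mot.h (numQ T hG hU) Z 0) ⊗ (CHM.Mot.h (numQ T hG hU) Z 0)ᘁ =
        CHM.Mot.h (numQ T hG hU) (Z ⊗ Z) (T.dim Z) := by
      rw [h_dual, h_tensor]
      congr 1
      change 0 + (T.dim Z - 0) = T.dim Z
      ring
    rw [(hADJ hG hU W).1, ht, hho, hmu]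
    exact hX Z
  obtain ⟨a, ha⟩ : ∃ a : ℕ, (a : ℤ) = |i| + |T.dim X| :=
    ⟨(|i| + |T.dim X|).toNat, Int.toNat_of_nonneg (by positivity)⟩
  obtain ⟨b, hb⟩ : ∃ b : ℕ, (b : ℤ) = T.dim X + a := by
    refine ⟨(T.dim X + a).toNat, Int.toNat_of_nonneg ?_⟩
    have h1 := neg_abs_le (T.dim X)
    have h2 := abs_nonneg i
    omega
  obtain ⟨α, β, h1, h2, h3, h4, h5⟩ : ∃ α β : ℤ, 0 ≤ α ∧ α ≤ a ∧ 0 ≤ β ∧ β ≤ b ∧
      i + α + β = b := by
    have e1 := neg_abs_le (T.dim X)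
    have e2 := le_abs_self i
    have e3 := neg_abs_le i
    have e4 := abs_nonneg (T.dim X)
    by_cases hi : 0 ≤ i
    · exact ⟨0, b - i, by omega, by omega, by omega, by omega, by omega⟩
    · exact ⟨-i, b, by omega, by omega, by omega, by omega, by omega⟩
  obtain ⟨A, hA, hA2⟩ := NHZ.lines hG hU (hADD hG hU) (hADJ hG hU) W a
  obtain ⟨B, hB, hB2⟩ := NHZ.lines hG hU (hADD hG hU) (hADJ hG hU) W b
  have hd : (numQ T hG hU).dim (X ⊗ A) = (numQ T hG hU).dim B := by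
    change T.dim (X ⊗ A) = T.dim B
    rw [T.dim_tensor, hA, hB, hb]
  obtain ⟨Z, -, ⟨D⟩⟩ := NHZ.union_dec (numQ T hG hU) hd 0
  have g1 := NHZ.full_part (hADD hG hU) (hBFA hG hU) W _ _ _ D (hfull Z)
  rw [(hADJ hG hU W).1] at g1
  have e1 : (CHM.Mot.h (numQ T hG hU) (X ⊗ A) 0) ⊗ (CHM.Mot.h (numQ T hG hU) B 0)ᘁ =
      (CHM.Mot.h (numQ T hG hU) (X ⊗ A) (i + α)) ⊗ (CHM.Mot.h (numQ T hG hU) B β) := by
    rw [h_dual, h_tensor, h_tensor]
    congr 1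
    change 0 + (T.dim B - 0) = i + α + β
    rw [hB, h5]
    ring
  rw [e1] at g1
  have g2 := NHZ.cancel (hADD hG hU) (hADJ hG hU) (hBFA hG hU) W _ _ (hB2 β h3 h4) g1
  have e2 : CHM.Mot.h (numQ T hG hU) (X ⊗ A) (i + α) =
      (CHM.Mot.h (numQ T hG hU) X i) ⊗ (CHM.Mot.h (numQ T hG hU) A α) := (h_tensor _ _ _ _ _).symm
  rw [e2] at g2
  have g3 := NHZ.cancel (hADD hG hU) (hADJ hG hU) (hBFA hG hU) W _ _ (hA2 α h1 h2) g2
  rw [hho, hmu] at g3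
  exact g3

end

end MotP.HL
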