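import Pool.Agent.HL.St2

/-!
# The half law: infinitely many powers (architect helper39)

Module `X` proves `theorem t_X` (of type `M_X C` resp. `M_X T`) in the namespace `MotP.HL`, in the file `Pool/Agent/HL/P_X.lean`, importing this file.
-/

set_option autoImplicit false

open CategoryTheory MonoidalCategory CartesianMonoidalCategory Limits Polynomial

universe v u w x

namespace MotP.HL

noncomputable section

section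

variable (C : Type u) [Category.{v} C] [Preadditive C] [Linear ℚ C] [MonoidalCategory C]
  [SymmetricCategory C] [MonoidalPreadditive C] [MonoidalLinear ℚ C] [RightRigidCategory C]

/-- LCV. Log-convexity. `U = T X r`, `V = T X (r + 1)`: CSI for `U` and `V ⊗ Xᘁ`: `h U (V ⊗ Xᘁ) = n ((V ⊗ Xᘁ) ⊗ Uᘁ) = n (V ⊗ (U ⊗ X)ᘁ) = h (U ⊗ X) V = nn X (r + 1)` (ADJ 1, `(U ⊗ X)ᘁ ≅ Xᘁ ⊗ Uᘁ`: `ADJ.dualTensor` and the lemmas in `P_ADJ.lean`; `T X (r + 1) = T X r ⊗ X`), `h U U = nn X r`,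
`h (V ⊗ Xᘁ) (V ⊗ Xᘁ) = n ((Xᘁ ⊗ Xᘁᘁ) ⊗ (V ⊗ Vᘁ)) = n ((X ⊗ Xᘁ) ⊗ (V ⊗ Vᘁ)) = h (V ⊗ X) (V ⊗ X) = nn X (r + 2)` (ADJ 6, `Xᘁᘁ ≅ X`, the braiding). -/
def S_LCV : Prop := ∀ [HasFiniteBiproducts C] [IsIdempotentComplete C] (_ : Frob C) (X : C) (r : ℕ),
  nn X (r + 1) ^ 2 ≤ nn X r * nn X (r + 2)

def M_LCV : Prop := S_ADJ C → S_CSI C → S_LCV C

/-- INF. Infinitely many powers. `b = b W X ≥ 1` (`h X X ≥ 1`, `h X X ≤ m (X ⊗ Xᘁ) ≤ b ^ 2`: `W.finrank_hom_le`, BFA), so `n_r = nn X r ≥ 1` for all `r` (GRO). Suppose `n_(r+1) + 2 n_r ≤ b² n_r + m_r` for all `r > 0`. For `r > 0` with `c m_r ≤ n_r`: `n_(r+1) ≤ θ n_r`, `θ = b² - (2 - 1/c) < b²`. By LCV `n_(r+1) / n_r` is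
monotone in `r`, and there are arbitrarily large such `r`, so `n_(r+1) ≤ θ n_r` for all `r ≥ 0`, `n_r ≤ θ ^ r` (`n_0 = 1`, or `n_r ≤ n_0 θ ^ r`; `θ ≥ 0`), which contradicts GRO for large `r` as in END. -/
def S_INF : Prop := ∀ [HasFiniteBiproducts C] [IsIdempotentComplete C] (W : Frob C) (X : C), 𝟙 X ≠ 0 → ∀ c : ℝ, 1 / 2 < c →
  (∀ R : ℕ, ∃ r, R ≤ r ∧ c * mm W X r ≤ nn X r) →
    ∃ r, 0 < r ∧ b W X ^ 2 * nn X r + mm W X r < nn X (r + 1) + 2 * nn X r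

def M_INF : Prop := S_BFA C → S_GRO C → S_LCV C → S_INF C

end

variable {V : Type u} [Category.{v} V] [CartesianMonoidalCategory V]

/-- NFZ. The same for varieties; as NFX (2) (`P_NFX.lean`), with INF instead of FIN. -/
def S_NFZ (T : CHM.ChowTheory.{v, u, w} V) : Prop := ∀ (R : CHM.FrobeniusMaps T) (K : CHM.Cohomology.{v, u, w, x} T R)
  (X : V) (N M : ℕ → ℕ), (∀ r, N r = Cardinal.toNat (Module.rank ℚ (T.gr (CHM.pow X r ⊗ CHM.pow X r) (r * T.dim X) ⧸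
      T.num (CHM.pow X r ⊗ CHM.pow X r) (r * T.dim X)))) →
  (∀ r, M r = K.mult (CHM.pow X r ⊗ CHM.pow X r) (r * T.dim X)) →
  0 < Module.finrank ℂ (K.H X) → ∀ c : ℝ, 1 / 2 < c → (∀ k : ℕ, ∃ r, k ≤ r ∧ c * M r ≤ N r) →
    ∃ r, 0 < r ∧ Module.finrank ℂ (K.H X) ^ 2 * N r + M r < N (r + 1) + 2 * N r

def M_NFZ (T : CHM.ChowTheory.{v, u, w} V) : Prop := (∀ hG hU, S_BFA (CHM.Mot (numQ T hG hU))) →
  (∀ hG hU, S_INF (CHM.Mot (numQ T hG hU))) → S_NGR T → S_NUN T → S_NND T →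
  S_NEV.{v, u, w, x} T → S_NMU.{v, u, w, x} T → S_NPW.{v, u, w, x} T → S_NFZ.{v, u, w, x} T

end

end MotP.HL
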