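import Pool.Agent.CHS.Growth
import Pool.Agent.HL.St3
import Pool.Agent.HL.P_NHZ
import Pool.Agent.HL.ChsDefs

/-!
# The half law for Chow groups (MP_6c4da4_ag): assembly
-/

set_option autoImplicit false

open CategoryTheory MonoidalCategory CartesianMonoidalCategory Limits

universe v u w x

namespace CHS

variable {V : Type u} [Category.{v} V] [CartesianMonoidalCategory V]

theorem ChowTheory.dim_pow (T : ChowTheory.{v, u, w} V) (X : V) (r : ℕ) :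
    T.dim (pow X r) = r * T.dim X := by
  induction r with
  | zero =>
    rw [Nat.cast_zero, zero_mul]
    exact T.dim_unit
  | succ r ih =>
    have h : pow X (r + 1) = pow X r ⊗ X := by
      unfold pow
      exact Function.iterate_succ_apply' _ _ _
    rw [h, T.dim_tensor, ih]
    push_cast
    ring

theorem ChowTheory.N_eq (T : ChowTheory.{v, u, w} V) (X : V) (i : ℤ) :
    T.N X i = Cardinal.toNat (Module.rank ℚ (T.toOld.gr X i ⧸ T.toOld.num X i)) := by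
  unfold ChowTheory.N
  rw [T.numRank_cyc]

namespace Cohomology

variable {T : ChowTheory.{v, u, w} V} (K : Cohomology.{v, u, w, x} T)

theorem M_eq (X : V) (i : ℤ) : K.M X i = K.toOld.mult X i := K.mult_h X i

theorem B_tensor (X Y : V) : K.B (X ⊗ Y) = K.B X * K.B Y := K.toOld.finrank_tensor X Y

theorem B_pow (X : V) (r : ℕ) : K.B (pow X r) = K.B X ^ r := by
  rw [← pow_old]
  exact K.toOld.finrank_pow X r

/-- a bound for the dimensions of the spaces of correspondences implies the inequality `Small` -/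
theorem small_of_corr (C : ℕ) (h : ∀ X : V,
    T.rank (T.cyc (X ⊗ X) (T.dim X)) ≤ ((C * K.B X ^ 2 : ℕ) : Cardinal.{w})) (X : V) :
    ∃ r, 0 < r ∧ K.Small X r := by
  obtain ⟨r, hr, hr2⟩ := MotP.GGap.t_GRW C (K.even X ^ 2 + K.odd X ^ 2 + 4) (K.even X + K.odd X)
  refine ⟨r, hr, ?_⟩
  have hB : K.even X + K.odd X = K.B X := by
    rw [K.even_old, K.odd_old]
    exact K.toOld.betti_add X
  have h5 : T.rank (T.cyc (pow X r ⊗ pow X r) (T.dim (pow X r))) ≤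
      ((C * (K.even X + K.odd X) ^ (2 * r) : ℕ) : Cardinal.{w}) := by
    refine (h _).trans ?_
    rw [K.B_pow, hB, ← pow_mul, mul_comm r 2]
  unfold Small
  refine lt_of_le_of_lt (mul_le_mul_right h5 _) ?_
  have h6 : (r + 1) ^ (K.even X ^ 2 + K.odd X ^ 2 + 4) * (C * (K.even X + K.odd X) ^ (2 * r)) <
      (K.even X + K.odd X + 1) ^ (2 * r) := by
    calc _ = C * (r + 1) ^ (K.even X ^ 2 + K.odd X ^ 2 + 4) *
          (K.even X + K.odd X) ^ (2 * r) := by ring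
      _ < _ := hr2
  exact_mod_cast h6

/-- the numerical ranks are at most the multiplicities -/
theorem N_le (hH : MotP.HL.S_NHA.{v, u, w, x} T.toOld) (X : V) (i : ℤ) :
    T.numRank (T.cyc X i) = (T.N X i : ℕ) ∧ T.N X i ≤ K.M X i := by
  have h0 : T.numRank (T.cyc X i) ≤ (K.M X i : ℕ) := by
    rw [T.numRank_cyc, K.M_eq]
    exact (hH T.frob K.toOld).1 X i
  refine ⟨(Cardinal.cast_toNat_of_lt_aleph0
    (lt_of_le_of_lt h0 Cardinal.natCast_lt_aleph0)).symm, ?_⟩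
  have h1 := Cardinal.toNat_le_toNat h0 Cardinal.natCast_lt_aleph0
  rwa [Cardinal.toNat_natCast] at h1

/-- the point -/
theorem deg_point : T.deg (1 : T.CH (𝟙_ V ⊗ 𝟙_ V)) = 1 := by
  have i : IsIso (toUnit (𝟙_ V ⊗ 𝟙_ V)) := by
    rw [toUnit_unique (toUnit (𝟙_ V ⊗ 𝟙_ V)) (λ_ (𝟙_ V)).hom]
    infer_instance
  have h1 := T.push_unit (1 : T.CH (𝟙_ V ⊗ 𝟙_ V))
  have h2 := T.toOld.push_iso (asIso (toUnit (𝟙_ V ⊗ 𝟙_ V))) 1
  have h3 : T.push (toUnit (𝟙_ V ⊗ 𝟙_ V)) (1 : T.CH (𝟙_ V ⊗ 𝟙_ V)) = 1 := by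
    refine h2.trans ?_
    exact map_one _
  rw [h3, ← map_one (algebraMap ℚ (T.CH (𝟙_ V)))] at h1
  exact (T.toOld.point.1 h1).symm

include K in
theorem NN_zero (hH : MotP.HL.S_NHA.{v, u, w, x} T.toOld) (X : V) : 0 < T.NN X 0 := by
  by_contra h0
  have h1 : T.NN X 0 = 0 := Nat.eq_zero_of_not_pos h0
  have h2 := (K.N_le hH (pow X 0 ⊗ pow X 0) (T.dim (pow X 0))).1
  have h3 : T.N (pow X 0 ⊗ pow X 0) (T.dim (pow X 0)) = 0 := h1
  rw [h3, Nat.cast_zero] at h2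
  unfold ChowTheory.numRank at h2
  have h4 := rank_zero_iff.1 h2
  have h5 : (fun b : T.CH (pow X 0 ⊗ pow X 0) => T.deg (1 * b)) ∈
      Submodule.span ℚ ((fun a b : T.CH (pow X 0 ⊗ pow X 0) => T.deg (a * b)) ''
        T.cyc (pow X 0 ⊗ pow X 0) (T.dim (pow X 0))) := by
    refine Submodule.subset_span ⟨1, ?_, rfl⟩
    have h6 : T.dim (pow X 0) = 0 := T.dim_unit
    rw [h6]
    exact T.one_mem _
  have h6 := congrArg Subtype.val (h4.elim ⟨_, h5⟩ 0)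
  have h7 := congrFun h6 1
  have h8 : T.deg ((1 : T.CH (𝟙_ V ⊗ 𝟙_ V)) * 1) = 0 := h7
  rw [mul_one, deg_point] at h8
  exact one_ne_zero h8

/-- one variety: infinitely many powers -/
theorem large_of_half (hH : MotP.HL.S_NHA.{v, u, w, x} T.toOld)
    (hZ : MotP.HL.S_NFZ.{v, u, w, x} T.toOld) (X : V) (c : ℝ) (hc : 1 / 2 < c)
    (h : ∀ k : ℕ, ∃ r, k ≤ r ∧ c * K.MM X r ≤ T.NN X r) : ∃ r, K.Large X r := by
  by_cases hB : K.B X = 0
  · obtain ⟨r, -, hr⟩ := h 1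
    refine ⟨0, ?_⟩
    have h1 : K.MM X 0 ≤ K.B (pow X 0 ⊗ pow X 0) := by
      have h2 := K.toOld.mult_le (pow X 0 ⊗ pow X 0) (T.dim (pow X 0))
      rw [← K.M_eq] at h2
      exact h2
    rw [K.B_tensor, K.B_pow, pow_zero, mul_one] at h1
    unfold Large
    rw [hB]
    have h3 := K.NN_zero hH X
    have h4 : K.MM X 0 ≤ 1 := h1
    omega
  · obtain ⟨r, -, hr⟩ := hZ T.frob K.toOld X (T.NN X) (K.MM X)
      (fun r => by unfold ChowTheory.NN; rw [T.N_eq, T.dim_pow, ← pow_old]; rfl)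
      (fun r => by unfold MM; rw [K.M_eq, T.dim_pow, ← pow_old]; rfl)
      (Nat.pos_of_ne_zero hB) c hc h
    exact ⟨r, hr⟩

/-- one variety: the finite criterion -/
theorem tate_of_large (hX : MotP.HL.S_NFX.{v, u, w, x} T.toOld)
    (hY : MotP.HL.S_NFY.{v, u, w, x} T.toOld) (X : V) (r : ℕ) (hr : K.Large X r) :
    T.N (X ⊗ X) (T.dim X) = K.M (X ⊗ X) (T.dim X) ∧
      ∀ i : ℤ, T.N X i ≠ 0 → T.N X i = K.M X i := by
  obtain ⟨h3, -⟩ := hX T.frob K.toOld X (T.NN X) (K.MM X)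
      (fun r => by unfold ChowTheory.NN; rw [T.N_eq, T.dim_pow, ← pow_old]; rfl)
      (fun r => by unfold MM; rw [K.M_eq, T.dim_pow, ← pow_old]; rfl)
  have h4 := h3 r hr
  refine ⟨?_, fun i hi => ?_⟩
  · rw [T.N_eq, K.M_eq]
    exact h4
  · rw [T.N_eq, K.M_eq]
    rw [T.N_eq] at hi
    exact hY T.frob K.toOld X h4 i hi

/-- THE HALF LAW for Chow groups. -/
theorem half_law (hH : MotP.HL.S_NHA.{v, u, w, x} T.toOld)
    (hX : MotP.HL.S_NFX.{v, u, w, x} T.toOld) (hY : MotP.HL.S_NFY.{v, u, w, x} T.toOld)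
    (hZ : MotP.HL.S_NFZ.{v, u, w, x} T.toOld) (hW : MotP.HL.S_NHZ.{v, u, w, x} T.toOld) :
    (∀ (X : V) (i : ℤ), T.numRank (T.cyc X i) = (T.N X i : ℕ) ∧ T.N X i ≤ K.M X i) ∧
    (∀ (X : V) (r : ℕ), K.Large X r → T.N (X ⊗ X) (T.dim X) = K.M (X ⊗ X) (T.dim X) ∧
      ∀ i : ℤ, T.N X i ≠ 0 → T.N X i = K.M X i) ∧
    (∀ (X : V) (c : ℝ), 1 / 2 < c → (∀ k : ℕ, ∃ r, k ≤ r ∧ c * K.MM X r ≤ T.NN X r) →
      ∃ r, K.Large X r) ∧
    [IsAbelian (Mot T) ∧ ∀ (X : V) (i : ℤ), T.N X i = K.M X i,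
      ∃ c : ℝ, 1 / 2 < c ∧ ∃ C : ℕ, ∀ X : V,
        c * K.M (X ⊗ X) (T.dim X) ≤ T.N (X ⊗ X) (T.dim X) ∧
          T.rank (T.cyc (X ⊗ X) (T.dim X)) ≤ (C * K.B X ^ 2 : ℕ),
      ∀ X : V, (∃ r, K.Large X r) ∧ ∃ r, 0 < r ∧ K.Small X r].TFAE := by
  obtain ⟨g1, g2, g3⟩ := K.growth
  have hle := fun X i => K.N_le hH X i
  have hL := fun X r hr => K.tate_of_large hX hY X r hr
  have hI := fun X c hc h => K.large_of_half hH hZ X c hc h
  have hback : (∀ (X : V) (i : ℤ), T.N X i = K.M X i) →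
      ∀ (X : V) (i : ℤ), T.numRank (T.cyc X i) = (K.M X i : ℕ) := by
    intro h X i
    rw [(hle X i).1, h]
  refine ⟨hle, hL, hI, ?_⟩
  tfae_have 1 → 2 := by
    rintro ⟨hA, hT⟩
    obtain ⟨C, hC⟩ := ((g1 (hback hT)).out 0 1).1 hA
    refine ⟨1, by norm_num, C, fun X => ⟨?_, ?_⟩⟩
    · rw [one_mul, hT]
    · have h1 := hC (X ⊗ X) (T.dim X)
      have h2 : Module.finrank ℂ (K.H (X ⊗ X)) = K.B X ^ 2 := by
        rw [sq]
        exact K.B_tensor X X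
      rwa [h2] at h1
  tfae_have 2 → 3 := by
    rintro ⟨c, hc, C, h⟩ X
    exact ⟨hI X c hc fun k => ⟨k, le_rfl, (h (pow X k)).1⟩,
      K.small_of_corr C (fun X => (h X).2) X⟩
  tfae_have 3 → 1 := by
    intro h
    have hT : ∀ (X : V) (i : ℤ), T.N X i = K.M X i := by
      intro X i
      rw [T.N_eq, K.M_eq]
      refine hW T.frob K.toOld (fun Y => ?_) X i
      obtain ⟨⟨r, hr⟩, -⟩ := h Y
      have h1 := (hL Y r hr).1
      rwa [T.N_eq, K.M_eq] at h1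
    have h3 : ∀ X : V, ∃ r, 0 < r ∧ K.Small X r := fun X => (h X).2
    exact ⟨((g1 (hback hT)).out 2 0).1 h3, hT⟩
  tfae_finish

end Cohomology

end CHS
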