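import Pool.Agent.HL.St

/-!
# The half law: ADJ, adjunctions as equalities of dimensions (MP_6c4da4_ag, by helper30)
-/

set_option autoImplicit false
set_option linter.unusedSectionVars false

open CategoryTheory MonoidalCategory BraidedCategory Limits Polynomial

universe v u

namespace MotP.HL

open Mot MotP.GGap

noncomputable section

namespace ADJ

/-- a space which is injected into the dual of a finite-dimensional one -/
lemma finite_pairing {V V' : Type*} [AddCommGroup V] [Module ℚ V] [AddCommGroup V'] [Module ℚ V']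
    (B : V →ₗ[ℚ] V' →ₗ[ℚ] ℚ) (h1 : Function.Injective B) (hf : Module.Finite ℚ V') :
    Module.Finite ℚ V ∧ Module.finrank ℚ V ≤ Module.finrank ℚ V' := by
  have h3 : Module.Finite ℚ V := Module.Finite.of_injective (M := V) (N := Module.Dual ℚ V') B h1
  refine ⟨h3, ?_⟩
  have h4 := LinearMap.finrank_le_finrank_of_injective (M := V) (M' := Module.Dual ℚ V')
    (f := B) h1
  rwa [Subspace.dual_finrank_eq] at h4

/-- two spaces with a pairing which is nondegenerate on both sides have the same dimension -/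
lemma finrank_pairing {V V' : Type*} [AddCommGroup V] [Module ℚ V] [AddCommGroup V'] [Module ℚ V']
    (B : V →ₗ[ℚ] V' →ₗ[ℚ] ℚ) (h1 : Function.Injective B) (h2 : Function.Injective B.flip) :
    Module.finrank ℚ V = Module.finrank ℚ V' := by
  by_cases hV : Module.Finite ℚ V
  · obtain ⟨h3, h4⟩ := finite_pairing B.flip h2 hV
    obtain ⟨_, h5⟩ := finite_pairing B h1 h3
    exact le_antisymm h5 h4
  · have hV' : ¬ Module.Finite ℚ V' := fun h3 => hV (finite_pairing B h1 h3).1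
    rw [Module.finrank_of_not_finite hV, Module.finrank_of_not_finite hV']

variable {C : Type u} [Category.{v} C] [Preadditive C] [Linear ℚ C] [MonoidalCategory C]
  [SymmetricCategory C] [MonoidalPreadditive C] [MonoidalLinear ℚ C] [RightRigidCategory C]

lemma h_eq_n (X Y : C) : h X Y = n (Y ⊗ Xᘁ) :=
  (LinearEquiv.ofBijective (nmL X Y) ⟨fun _ _ e => nm_inj e, nm_surj⟩).finrank_eq

/-- the trace pairing -/
def pair (W : Frob C) (X Y : C) : (X ⟶ Y) →ₗ[ℚ] (Y ⟶ X) →ₗ[ℚ] ℚ :=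
  LinearMap.mk₂ ℚ (fun f g => W.val (tr X (f ≫ g)))
    (fun f f' g => by rw [Preadditive.add_comp, tr_add, W.val_add])
    (fun c f g => by rw [Linear.smul_comp, tr_smul, W.val_smul, smul_eq_mul])
    (fun f g g' => by rw [Preadditive.comp_add, tr_add, W.val_add])
    (fun c f g => by rw [Linear.comp_smul, tr_smul, W.val_smul, smul_eq_mul])

lemma h_symm (W : Frob C) (X Y : C) : h X Y = h Y X := by
  have hz : ∀ s : 𝟙_ C ⟶ 𝟙_ C, W.val s = 0 → s = 0 := by
    intro s hs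
    rw [W.val_spec s, hs, zero_smul]
  refine finrank_pairing (pair W X Y) ?_ ?_
  · rw [injective_iff_map_eq_zero]
    intro f hf
    apply W.num_zero
    intro g
    exact hz _ (LinearMap.congr_fun hf g)
  · rw [injective_iff_map_eq_zero]
    intro g hg
    apply W.num_zero
    intro f
    rw [tr_comm]
    exact hz _ (LinearMap.congr_fun hg f)

lemma h_left {X Y : C} (e : X ≅ Y) (Z : C) : h X Z = h Y Z :=
  (Linear.homCongr ℚ e (Iso.refl Z)).finrank_eq

lemma h_right {X Y : C} (e : X ≅ Y) (Z : C) : h Z X = h Z Y :=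
  (Linear.homCongr ℚ (Iso.refl Z) e).finrank_eq

lemma n_iso {X Y : C} (e : X ≅ Y) : n X = n Y := h_right e _

lemma t_iso (W : Frob C) {X Y : C} (e : X ≅ Y) (k : ℕ) : W.t X k = W.t Y k := by
  rw [W.t_retract e.inv e.hom e.inv_hom_id, e.hom_inv_id, Category.id_comp]
  rfl

/-- the dual of a tensor product -/
def dualTensor (X Y : C) : (X ⊗ Y)ᘁ ≅ Yᘁ ⊗ Xᘁ :=
  rightDualIso (X := X ⊗ Y) inferInstance inferInstance

end ADJ

variable (C : Type u) [Category.{v} C] [Preadditive C] [Linear ℚ C] [MonoidalCategory C]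
  [SymmetricCategory C] [MonoidalPreadditive C] [MonoidalLinear ℚ C] [RightRigidCategory C]

theorem t_ADJ : S_ADJ C := by
  intro W
  refine ⟨ADJ.h_eq_n, ADJ.h_symm W, fun X Y e => ⟨ADJ.h_left e, ADJ.h_right e, ADJ.t_iso W e⟩,
    ?_, ?_, ?_⟩
  · intro R U
    rw [ADJ.h_eq_n]
    exact ADJ.n_iso (α_ _ _ _)
  · intro Q U
    rw [ADJ.h_eq_n, ADJ.h_eq_n]
    refine ADJ.n_iso ?_
    exact whiskerLeftIso (Q ⊗ U) (ADJ.dualTensor Q U) ≪≫ (α_ (Q ⊗ U) Uᘁ Qᘁ).symm ≪≫
      β_ ((Q ⊗ U) ⊗ Uᘁ) Qᘁ ≪≫ (α_ Qᘁ (Q ⊗ U) Uᘁ).symm ≪≫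
      whiskerRightIso (α_ Qᘁ Q U).symm Uᘁ
  · intro U X
    rw [ADJ.h_eq_n]
    refine ADJ.n_iso ?_
    exact whiskerLeftIso (U ⊗ X) (ADJ.dualTensor U X) ≪≫ (α_ (U ⊗ X) Xᘁ Uᘁ).symm ≪≫
      whiskerRightIso (α_ U X Xᘁ ≪≫ β_ U (X ⊗ Xᘁ)) Uᘁ ≪≫ α_ (X ⊗ Xᘁ) U Uᘁ

end

end MotP.HL
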