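import Pool.Agent.HL.St

/-!
# The half law, module BFA: the number of eigenvalues is multiplicative and additive
-/

set_option autoImplicit false

open CategoryTheory MonoidalCategory BraidedCategory Limits Polynomial

universe v u

namespace MotP.HL

open Mot MotP.GGap

noncomputable section

set_option linter.unusedSectionVars false

variable (C : Type u) [Category.{v} C] [Preadditive C] [Linear ℚ C] [MonoidalCategory C]
  [SymmetricCategory C] [MonoidalPreadditive C] [MonoidalLinear ℚ C] [RightRigidCategory C]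

namespace BFA

variable {C}

lemma b_sum (W : Frob C) (X : C) (U : Finset ℂ) (hU : (fr W).S X ⊆ U) :
    (b W X : ℤ) = ∑ z ∈ U, |ν W X z| := TVA.b_eq (fr W) X U hU

lemma notMem (W : Frob C) {X : C} {z : ℂ} (h : z ∉ (fr W).S X) : ν W X z = 0 := nu_of_notMem h

/-- the part of `X` with the eigenvalues conjugate to `z` -/
lemma part [IsIdempotentComplete C] (hS : S_SPL C) (W : Frob C) (X : C) (z : ℂ)
    (hz : ν W X z ≠ 0) :
    ∃ Y : C, ν W Y z = ν W X z ∧ ∀ w, ν W Y w = ν W X z ∨ ν W Y w = 0 := by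
  obtain ⟨Y, Z, -, -, -, h1, h2⟩ := hS W X (minpoly ℚ z)
  refine ⟨Y, (h1 z (minpoly.aeval ℚ z)).1, fun w => ?_⟩
  by_cases hw : aeval w (minpoly ℚ z) = 0
  · left
    rw [(h1 w hw).1]
    exact DEC.ν_galois (fr W) (W.finite_hom X X) hz hw
  · right
    exact (h2 w hw).1

/-- an object which has the eigenvalue `z * z'` with the sign of `ν X z * ν Y z'` -/
lemma sgn [IsIdempotentComplete C] (hS : S_SPL C) (hT : S_TEN C) (W : Frob C) (X Y : C)
    (z z' : ℂ) (hz : ν W X z * ν W Y z' ≠ 0) :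
    ∃ A : C, (0 < ν W X z * ν W Y z' → 0 < ν W A (z * z')) ∧
      (ν W X z * ν W Y z' < 0 → ν W A (z * z') < 0) := by
  classical
  obtain ⟨X₁, hX, hX'⟩ := part hS W X z (left_ne_zero_of_mul hz)
  obtain ⟨Y₁, hY, hY'⟩ := part hS W Y z' (right_ne_zero_of_mul hz)
  have hzX : z ∈ (fr W).S X₁ := by
    by_contra h
    exact left_ne_zero_of_mul hz (hX ▸ notMem W h)
  have hzY : z' ∈ (fr W).S Y₁ := by
    by_contra h
    exact right_ne_zero_of_mul hz (hY ▸ notMem W h)
  have hsum : ν W (X₁ ⊗ Y₁) (z * z') = ∑ q ∈ (fr W).S X₁ ×ˢ (fr W).S Y₁,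
      if q.1 * q.2 = z * z' then ν W X₁ q.1 * ν W Y₁ q.2 else 0 := by
    rw [(hT W).1 X₁ Y₁ (z * z'), Finset.sum_product]
  have hterm : ∀ q : ℂ × ℂ, (if q.1 * q.2 = z * z' then ν W X₁ q.1 * ν W Y₁ q.2 else 0) = 0 ∨
      (if q.1 * q.2 = z * z' then ν W X₁ q.1 * ν W Y₁ q.2 else 0) = ν W X z * ν W Y z' := by
    intro q
    by_cases h1 : q.1 * q.2 = z * z'
    · rw [if_pos h1]
      rcases hX' q.1 with h2 | h2 <;> rcases hY' q.2 with h3 | h3
      · right
        rw [h2, h3]
      · left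
        rw [h3, mul_zero]
      · left
        rw [h2, zero_mul]
      · left
        rw [h2, zero_mul]
    · left
      rw [if_neg h1]
  have hmem : (z, z') ∈ (fr W).S X₁ ×ˢ (fr W).S Y₁ := Finset.mem_product.mpr ⟨hzX, hzY⟩
  have hval : (if (z, z').1 * (z, z').2 = z * z' then ν W X₁ (z, z').1 * ν W Y₁ (z, z').2
      else 0) = ν W X z * ν W Y z' := by
    rw [if_pos rfl]
    change ν W X₁ z * ν W Y₁ z' = _
    rw [hX, hY]
  refine ⟨X₁ ⊗ Y₁, fun hp => ?_, fun hn => ?_⟩
  · rw [hsum]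
    apply Finset.sum_pos'
    · intro q _
      rcases hterm q with h | h <;> rw [h]
      exact hp.le
    · exact ⟨(z, z'), hmem, by rw [hval]; exact hp⟩
  · rw [hsum]
    apply Finset.sum_neg'
    · intro q _
      rcases hterm q with h | h <;> rw [h]
      exact hn.le
    · exact ⟨(z, z'), hmem, by rw [hval]; exact hn⟩

lemma nocancel [IsIdempotentComplete C] (hS : S_SPL C) (hT : S_TEN C) (hP : S_PAR C)
    (W : Frob C) (X Y : C) (z z' w w' : ℂ) (h : z * z' = w * w') :
    ¬ (0 < ν W X z * ν W Y z' ∧ ν W X w * ν W Y w' < 0) := by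
  rintro ⟨h1, h2⟩
  obtain ⟨A, hA, -⟩ := sgn hS hT W X Y z z' h1.ne'
  obtain ⟨B, -, hB⟩ := sgn hS hT W X Y w w' h2.ne
  exact hP W A B (z * z') ⟨hA h1, h ▸ hB h2⟩

/-- the absolute value of a sum without cancellation -/
lemma abs_sum {ι : Type*} (s : Finset ι) (F : ι → ℤ)
    (h : ∀ i ∈ s, ∀ j ∈ s, ¬ (0 < F i ∧ F j < 0)) : |∑ i ∈ s, F i| = ∑ i ∈ s, |F i| := by
  by_cases h1 : ∃ j ∈ s, F j < 0
  · obtain ⟨j, hj, hj'⟩ := h1
    have h2 : ∀ i ∈ s, F i ≤ 0 := by
      intro i hi
      by_contra h3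
      exact h i hi j hj ⟨not_le.mp h3, hj'⟩
    rw [abs_of_nonpos (Finset.sum_nonpos h2), ← Finset.sum_neg_distrib]
    exact Finset.sum_congr rfl fun i hi => (abs_of_nonpos (h2 i hi)).symm
  · have h2 : ∀ i ∈ s, 0 ≤ F i := by
      intro i hi
      by_contra h3
      exact h1 ⟨i, hi, not_le.mp h3⟩
    rw [abs_of_nonneg (Finset.sum_nonneg h2)]
    exact Finset.sum_congr rfl fun i hi => (abs_of_nonneg (h2 i hi)).symm

lemma b_tensor [IsIdempotentComplete C] (hS : S_SPL C) (hT : S_TEN C) (hP : S_PAR C)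
    (W : Frob C) (X Y : C) : b W (X ⊗ Y) = b W X * b W Y := by
  classical
  set P : Finset (ℂ × ℂ) := (fr W).S X ×ˢ (fr W).S Y with hPdef
  set V : Finset ℂ := (fr W).S (X ⊗ Y) ∪ P.image (fun q => q.1 * q.2) with hV
  have hsum : ∀ w, ν W (X ⊗ Y) w = ∑ q ∈ P,
      if q.1 * q.2 = w then ν W X q.1 * ν W Y q.2 else 0 := by
    intro w
    rw [(hT W).1 X Y w, hPdef, Finset.sum_product]
  have habs : ∀ w, |ν W (X ⊗ Y) w| = ∑ q ∈ P,
      |if q.1 * q.2 = w then ν W X q.1 * ν W Y q.2 else 0| := by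
    intro w
    rw [hsum w]
    apply abs_sum
    rintro q - r - ⟨h1, h2⟩
    by_cases h3 : q.1 * q.2 = w
    · by_cases h4 : r.1 * r.2 = w
      · rw [if_pos h3] at h1
        rw [if_pos h4] at h2
        exact nocancel hS hT hP W X Y q.1 q.2 r.1 r.2 (h3.trans h4.symm) ⟨h1, h2⟩
      · rw [if_neg h4] at h2
        exact lt_irrefl _ h2
    · rw [if_neg h3] at h1
      exact lt_irrefl _ h1
  have h1 : (b W (X ⊗ Y) : ℤ) = b W X * b W Y := by
    rw [b_sum W (X ⊗ Y) V Finset.subset_union_left, b_sum W X _ (Finset.Subset.refl _),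
      b_sum W Y _ (Finset.Subset.refl _), Finset.sum_mul_sum, ← Finset.sum_product',
      Finset.sum_congr rfl fun w _ => habs w, Finset.sum_comm]
    apply Finset.sum_congr rfl
    intro q hq
    have hqV : q.1 * q.2 ∈ V := by
      rw [hV, Finset.mem_union]
      right
      exact Finset.mem_image_of_mem (fun q : ℂ × ℂ => q.1 * q.2) hq
    rw [Finset.sum_eq_single_of_mem (q.1 * q.2) hqV, if_pos rfl, abs_mul]
    intro w _ hw
    rw [if_neg (Ne.symm hw), abs_zero]
  exact_mod_cast h1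

lemma b_add [IsIdempotentComplete C] (hT : S_TEN C) (hP : S_PAR C)
    (W : Frob C) (X Y Z : C) (h : ∀ k, W.t X k = W.t Y k + W.t Z k) :
    b W X = b W Y + b W Z ∧ m W X = m W Y + m W Z := by
  classical
  have h1 := (hT W).2.2.2.1 X Y Z h
  constructor
  · have h2 : (b W X : ℤ) = b W Y + b W Z := by
      have e1 : (fr W).S X ⊆ (fr W).S X ∪ ((fr W).S Y ∪ (fr W).S Z) := Finset.subset_union_left
      have e2 : (fr W).S Y ⊆ (fr W).S X ∪ ((fr W).S Y ∪ (fr W).S Z) :=
        Finset.subset_union_left.trans Finset.subset_union_right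
      have e3 : (fr W).S Z ⊆ (fr W).S X ∪ ((fr W).S Y ∪ (fr W).S Z) :=
        Finset.subset_union_right.trans Finset.subset_union_right
      rw [b_sum W X _ e1, b_sum W Y _ e2, b_sum W Z _ e3, ← Finset.sum_add_distrib]
      apply Finset.sum_congr rfl
      intro z _
      rw [h1 z]
      have p1 := hP W Y Z z
      have p2 := hP W Z Y z
      rcases le_or_gt (ν W Y z) 0 with h3 | h3
      · rcases le_or_gt (ν W Z z) 0 with h4 | h4
        · rw [abs_of_nonpos h3, abs_of_nonpos h4, abs_of_nonpos (by linarith)]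
          ring
        · have h5 : 0 ≤ ν W Y z := by
            by_contra h6
            exact p2 ⟨h4, not_le.mp h6⟩
          rw [abs_of_nonneg h5, abs_of_nonneg h4.le, abs_of_nonneg (by linarith)]
      · have h4 : 0 ≤ ν W Z z := by
          by_contra h6
          exact p1 ⟨h3, not_le.mp h6⟩
        rw [abs_of_nonneg h3.le, abs_of_nonneg h4, abs_of_nonneg (by linarith)]
    exact_mod_cast h2
  · have h2 : (m W X : ℤ) = m W Y + m W Z := by
      rw [← (hT W).2.2.1 X, ← (hT W).2.2.1 Y, ← (hT W).2.2.1 Z]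
      exact h1 1
    exact_mod_cast h2

lemma b_dual [IsIdempotentComplete C] (hT : S_TEN C) (W : Frob C) (X : C) :
    b W Xᘁ = b W X := by
  classical
  set U : Finset ℂ := ((fr W).S X ∪ (fr W).S Xᘁ) ∪
    ((fr W).S X ∪ (fr W).S Xᘁ).image (fun z => z⁻¹) with hU
  have hinv : ∀ z ∈ U, z⁻¹ ∈ U := by
    intro z hz
    rw [hU, Finset.mem_union] at hz ⊢
    rcases hz with h | h
    · right
      exact Finset.mem_image_of_mem (fun z : ℂ => z⁻¹) h
    · left
      obtain ⟨w, hw, hw'⟩ := Finset.mem_image.mp h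
      rw [← hw', inv_inv]
      exact hw
  have h1 : (b W Xᘁ : ℤ) = b W X := by
    have e1 : (fr W).S X ⊆ U := Finset.subset_union_left.trans Finset.subset_union_left
    have e2 : (fr W).S Xᘁ ⊆ U := Finset.subset_union_right.trans Finset.subset_union_left
    rw [b_sum W X U e1, b_sum W Xᘁ U e2]
    apply Finset.sum_nbij' (fun z => z⁻¹) (fun z => z⁻¹) hinv hinv
    · intro z _
      exact inv_inv z
    · intro z _
      exact inv_inv z
    · intro z _
      rw [(hT W).2.1 X z]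
  exact_mod_cast h1

lemma b_congr [IsIdempotentComplete C] (hT : S_TEN C) (W : Frob C) (X Y : C)
    (h : ∀ k, W.t X k = W.t Y k) : b W X = b W Y ∧ m W X = m W Y := by
  classical
  have h1 := (hT W).2.2.2.2 X Y h
  constructor
  · have h2 : (b W X : ℤ) = b W Y := by
      rw [b_sum W X ((fr W).S X ∪ (fr W).S Y) Finset.subset_union_left,
        b_sum W Y ((fr W).S X ∪ (fr W).S Y) Finset.subset_union_right]
      exact Finset.sum_congr rfl fun z _ => by rw [h1 z]
    exact_mod_cast h2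
  · have h2 : (m W X : ℤ) = m W Y := by
      rw [← (hT W).2.2.1 X, ← (hT W).2.2.1 Y]
      exact h1 1
    exact_mod_cast h2

lemma b_one [IsIdempotentComplete C] (hT : S_TEN C) (W : Frob C) (X : C)
    (h : ∀ z : ℂ, z ≠ 1 → ν W X z = 0) : b W X = m W X := by
  classical
  have h1 : (b W X : ℤ) = m W X := by
    have e1 : (fr W).S X ⊆ insert 1 ((fr W).S X) := Finset.subset_insert _ _
    rw [b_sum W X _ e1, Finset.sum_eq_single_of_mem (1 : ℂ) (Finset.mem_insert_self _ _),
      (hT W).2.2.1 X]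
    · simp
    · intro z _ hz
      rw [h z hz, abs_zero]
  exact_mod_cast h1

end BFA

theorem t_BFA : M_BFA C := by
  intro hS hT hP _ W
  refine ⟨BFA.b_tensor hS hT hP W, BFA.b_add hT hP W, BFA.b_dual hT W, ?_, ?_,
    BFA.b_congr hT W, BFA.b_one hT W⟩
  · exact TVA.b_unit (fr W)
  · intro X
    exact TVA.mult_le (fr W) X

end

end MotP.HL
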