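import Pool.Agent.HL.St

/-!
# The half law, module CSI: the Cauchy-Schwarz inequality for dimensions of Hom spaces
-/

set_option autoImplicit false
set_option linter.unusedSectionVars false

open CategoryTheory MonoidalCategory BraidedCategory Limits

universe v u

namespace MotP.HL

open Mot MotP.GGap

noncomputable section

namespace CSI

variable {C : Type u} [Category.{v} C] [Preadditive C] [Linear ℚ C] [MonoidalCategory C]
  [SymmetricCategory C] [MonoidalPreadditive C] [MonoidalLinear ℚ C] [RightRigidCategory C]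

omit [Linear ℚ C] [MonoidalCategory C] [SymmetricCategory C] [MonoidalPreadditive C]
  [MonoidalLinear ℚ C] [RightRigidCategory C] in
lemma dec_of_retract [IsIdempotentComplete C] {X S : C} (i : S ⟶ X) (p : X ⟶ S)
    (h : i ≫ p = 𝟙 S) : ∃ S' : C, Nonempty (Dec X S S') := by
  have h4 : (𝟙 X - p ≫ i) ≫ (𝟙 X - p ≫ i) = 𝟙 X - p ≫ i := by
    rw [Preadditive.sub_comp, Preadditive.comp_sub, Preadditive.comp_sub, Category.id_comp,
      Category.comp_id, Category.id_comp, Category.assoc, ← Category.assoc i p, h,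
      Category.id_comp]
    abel
  obtain ⟨S', j, q, h5, h6⟩ := IsIdempotentComplete.idempotents_split X _ h4
  have hq : q = (𝟙 X - p ≫ i) ≫ q := by
    rw [← h6, Category.assoc, h5, Category.comp_id]
  have hj : j = j ≫ (𝟙 X - p ≫ i) := by
    rw [← h6, ← Category.assoc, h5, Category.id_comp]
  refine ⟨S', ⟨⟨i, p, j, q, h, h5, ?_, ?_, ?_⟩⟩⟩
  · rw [hq, ← Category.assoc, Preadditive.comp_sub, Category.comp_id, ← Category.assoc, h,
      Category.id_comp, sub_self, Limits.zero_comp]
  · rw [hj, Category.assoc, Preadditive.sub_comp, Category.id_comp, Category.assoc, h,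
      Category.comp_id, sub_self, Limits.comp_zero]
  · rw [h6]
    abel

lemma h_pos_of_ne [IsIdempotentComplete C] (W : Frob C) {X Y : C} (f : X ⟶ Y) (hf : f ≠ 0) : 0 < h X Y := by
  have hfin : Module.Finite ℚ (X ⟶ Y) := W.finite_hom X Y
  have hnt : Nontrivial (X ⟶ Y) := ⟨⟨f, 0, hf⟩⟩
  exact Module.finrank_pos

lemma exists_ne (X Y : C) (hh : h X Y ≠ 0) : ∃ f : X ⟶ Y, f ≠ 0 := by
  by_contra hcon
  push Not at hcon
  have hs : Subsingleton (X ⟶ Y) := ⟨fun a b => by rw [hcon a, hcon b]⟩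
  exact hh (Module.finrank_zero_of_subsingleton)

lemma two_mul_le (hADD : S_ADD C) (hADJ : S_ADJ C) [IsIdempotentComplete C] (W : Frob C)
    (N : ℕ) : ∀ X Y : C, h X X = N → 2 * h X Y ≤ h X X + h Y Y := by
  induction N using Nat.strong_induction_on with
  | _ N ih =>
    intro X Y hN
    by_cases hXY : h X Y = 0
    · rw [hXY]
      omega
    · obtain ⟨f, hf⟩ := exists_ne X Y hXY
      obtain ⟨g, hg⟩ := W.regular f
      have h4 : (f ≫ g) ≫ (f ≫ g) = f ≫ g := by
        rw [← Category.assoc, Category.assoc f g f, hg]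
      obtain ⟨S, i, p, h5, h6⟩ := IsIdempotentComplete.idempotents_split X _ h4
      have h7 : (i ≫ f) ≫ (g ≫ p) = 𝟙 S := by
        have : (i ≫ f) ≫ (g ≫ p) = i ≫ (f ≫ g) ≫ p := by simp only [Category.assoc]
        rw [this, ← h6, Category.assoc, h5, Category.comp_id, h5]
      obtain ⟨X', ⟨dX⟩⟩ := dec_of_retract i p h5
      obtain ⟨Y', ⟨dY⟩⟩ := dec_of_retract (i ≫ f) (g ≫ p) h7
      have hS : 𝟙 S ≠ 0 := by
        intro h0
        apply hf
        have : f ≫ g = 0 := by
          rw [← h6, ← Category.id_comp i, h0, Limits.zero_comp, Limits.comp_zero]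
        rw [← hg, ← Category.assoc, this, Limits.zero_comp]
      have hSS : 0 < h S S := h_pos_of_ne W (𝟙 S) hS
      obtain ⟨-, aX1, aX2, -, -⟩ := hADD W X S X' dX
      obtain ⟨-, aY1, aY2, -, -⟩ := hADD W Y S Y' dY
      have hsym := (hADJ W).2.1
      have e1 := aX1 X
      have e2 := aX2 S
      have e3 := aX2 X'
      have e4 := aY1 Y
      have e5 := aY2 S
      have e6 := aY2 Y'
      have e7 := aX1 Y
      have e8 := aY2 X'
      have s1 := hsym S X'
      have s2 := hsym S Y'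
      have s3 := hsym X' Y'
      have hlt : h X' X' < N := by omega
      have hI := ih (h X' X') hlt X' Y' rfl
      omega

lemma sums (hADD : S_ADD C) [HasFiniteBiproducts C] [IsIdempotentComplete C] (W : Frob C) (X : C) (a : ℕ) :
    ∃ Z : C, (∀ U : C, h Z U = (a + 1) * h X U) ∧ ∀ U : C, h U Z = (a + 1) * h U X := by
  induction a with
  | zero => exact ⟨X, fun U => by ring, fun U => by ring⟩
  | succ a ih =>
    obtain ⟨Z, h1, h2⟩ := ih
    have hbb : HasBinaryBiproducts C := hasBinaryBiproducts_of_finite_biproducts C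
    have d : Dec (X ⊞ Z) X Z :=
      ⟨biprod.inl, biprod.fst, biprod.inr, biprod.snd, biprod.inl_fst, biprod.inr_snd,
        biprod.inl_snd, biprod.inr_fst, biprod.total⟩
    obtain ⟨-, a1, a2, -, -⟩ := hADD W (X ⊞ Z) X Z d
    refine ⟨X ⊞ Z, fun U => ?_, fun U => ?_⟩
    · rw [a1, h1]
      ring
    · rw [a2, h2]
      ring

end CSI

variable (C : Type u) [Category.{v} C] [Preadditive C] [Linear ℚ C] [MonoidalCategory C]
  [SymmetricCategory C] [MonoidalPreadditive C] [MonoidalLinear ℚ C] [RightRigidCategory C]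

theorem t_CSI : M_CSI C := by
  intro hADD hADJ _ _ W X Y
  by_cases hXY : h X Y = 0
  · rw [hXY]
    simp
  by_cases hYY : h Y Y = 0
  · exfalso
    obtain ⟨f, hf⟩ := CSI.exists_ne X Y hXY
    have hY : 𝟙 Y = 0 := by
      by_contra hne
      have := CSI.h_pos_of_ne W (𝟙 Y) hne
      omega
    apply hf
    rw [← Category.comp_id f, hY, Limits.comp_zero]
  obtain ⟨c, hc⟩ : ∃ c, h X Y = c + 1 := Nat.exists_eq_succ_of_ne_zero hXY
  obtain ⟨a, ha⟩ : ∃ a, h Y Y = a + 1 := Nat.exists_eq_succ_of_ne_zero hYY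
  obtain ⟨Xa, x1, x2⟩ := CSI.sums hADD W X a
  obtain ⟨Yc, y1, y2⟩ := CSI.sums hADD W Y c
  have key := CSI.two_mul_le hADD hADJ W (h Xa Xa) Xa Yc rfl
  rw [x1 Yc, y2 X, x1 Xa, x2 X, y1 Yc, y2 Y, ← ha, ← hc] at key
  have hpos : 0 < h Y Y := Nat.pos_of_ne_zero hYY
  have h1 : h Y Y * (h X Y ^ 2) ≤ h Y Y * (h X X * h Y Y) := by nlinarith
  exact Nat.le_of_mul_le_mul_left h1 hpos

end

end MotP.HL
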