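import Pool.Agent.HL.St

/-!
# The half law, module FIN (helper13): the finite forms
-/

set_option autoImplicit false

open CategoryTheory MonoidalCategory BraidedCategory Limits Polynomial

universe v u

namespace MotP.HL

open Mot MotP.GGap

noncomputable section

variable (C : Type u) [Category.{v} C] [Preadditive C] [Linear ℚ C] [MonoidalCategory C]
  [SymmetricCategory C] [MonoidalPreadditive C] [MonoidalLinear ℚ C] [RightRigidCategory C]

namespace FIN

/-- a sequence of natural numbers with `a (r + 1) + a r ≤ B a r` for `r ≥ 1` cannot satisfy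
`B ^ r ≤ (r + 1) ^ k a r` for all `r`, unless `a 1 = 0` -/
lemma growth (a : ℕ → ℕ) (B k : ℕ) (h1 : a 1 ≠ 0)
    (hs : ∀ r, 0 < r → a (r + 1) + a r ≤ B * a r) (hg : ∀ r, B ^ r ≤ (r + 1) ^ k * a r) :
    False := by
  have hB1 : 1 ≤ B := by
    rcases Nat.eq_zero_or_pos B with h | h
    · have := hs 1 one_pos
      rw [h] at this
      omega
    · exact h
  obtain ⟨D, rfl⟩ : ∃ D, B = D + 1 := ⟨B - 1, by omega⟩
  have hstep : ∀ r, 0 < r → a (r + 1) ≤ D * a r := by
    intro r hr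
    have := hs r hr
    rw [add_mul, one_mul] at this
    omega
  have hpow : ∀ r, a (r + 1) ≤ D ^ r * a 1 := by
    intro r
    induction r with
    | zero => simp
    | succ r ih =>
      calc a (r + 1 + 1) ≤ D * a (r + 1) := hstep (r + 1) (by omega)
        _ ≤ D * (D ^ r * a 1) := Nat.mul_le_mul_left _ ih
        _ = D ^ (r + 1) * a 1 := by ring
  rcases Nat.eq_zero_or_pos D with hD | hD
  · have h2 := hpow 1
    rw [hD] at h2
    have h3 := hg 2
    have h4 : a 2 = 0 := by simpa using h2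
    rw [h4, hD] at h3
    simp at h3
  · -- `(1 + 1 / D) ^ r` beats the polynomial
    have hDr : (0 : ℝ) < D := by exact_mod_cast hD
    set q : ℝ := ((D : ℝ) + 1) / D with hq
    have hq1 : 1 < q := by
      rw [hq, lt_div_iff₀ hDr]
      linarith
    have hlim := tendsto_pow_const_div_const_pow_of_one_lt k hq1
    have hA : (0 : ℝ) < a 1 := by exact_mod_cast Nat.pos_of_ne_zero h1
    -- `q ^ (r + 2) ≤ (r + 2) ^ k * (q ^ 2 * a 1 / (D + 1))`
    have hkey : ∀ r : ℕ, ((D : ℝ) + 1) * q ^ r ≤ ((r : ℝ) + 2) ^ k * a 1 := by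
      intro r
      have h2 := hg (r + 1)
      have h3 := hpow r
      have h4 : (D + 1) ^ (r + 1) ≤ (r + 2) ^ k * (D ^ r * a 1) :=
        h2.trans (Nat.mul_le_mul_left _ h3)
      have h5 : ((D : ℝ) + 1) ^ (r + 1) ≤ ((r : ℝ) + 2) ^ k * ((D : ℝ) ^ r * a 1) := by
        exact_mod_cast h4
      have h6 : (0 : ℝ) < (D : ℝ) ^ r := pow_pos hDr r
      have h7 : q ^ r = ((D : ℝ) + 1) ^ r / (D : ℝ) ^ r := by rw [hq, div_pow]
      rw [h7, mul_div_assoc', div_le_iff₀ h6]
      calc ((D : ℝ) + 1) * ((D : ℝ) + 1) ^ r = ((D : ℝ) + 1) ^ (r + 1) := by ring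
        _ ≤ ((r : ℝ) + 2) ^ k * ((D : ℝ) ^ r * a 1) := h5
        _ = ((r : ℝ) + 2) ^ k * a 1 * (D : ℝ) ^ r := by ring
    have hev : ∀ᶠ r : ℕ in Filter.atTop,
        ((r : ℝ)) ^ k / q ^ r < ((D : ℝ) + 1) / (q ^ 2 * a 1) := by
      apply hlim.eventually_lt_const
      positivity
    obtain ⟨N, hN⟩ := Filter.eventually_atTop.mp hev
    have h8 := hN (N + 2) (by omega)
    have h9 := hkey N
    have hqp : (0 : ℝ) < q ^ (N + 2) := by positivity
    have hq2 : (0 : ℝ) < q ^ 2 * a 1 := by positivity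
    rw [div_lt_div_iff₀ hqp hq2] at h8
    have h10 : (((N + 2 : ℕ) : ℝ)) = (N : ℝ) + 2 := by push_cast; ring
    rw [h10] at h8
    have h11 : ((D : ℝ) + 1) * q ^ (N + 2) = (((D : ℝ) + 1) * q ^ N) * q ^ 2 := by ring
    rw [h11] at h8
    have h12 : (((D : ℝ) + 1) * q ^ N) * q ^ 2 ≤ (((N : ℝ) + 2) ^ k * a 1) * q ^ 2 :=
      mul_le_mul_of_nonneg_right h9 (by positivity)
    nlinarith

end FIN

theorem t_FIN : M_FIN C := by
  intro hADJ hBFA hNRM hGRO hINE _ _ W X
  obtain ⟨a1, a2, a3, a4, a5, a6⟩ := hADJ W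
  obtain ⟨b1, b2, b3, b4, b5, b6, b7⟩ := hBFA W
  have hbE : b W (X ⊗ Xᘁ) = b W X ^ 2 := by rw [b1, b3, sq]
  have hup : ∀ r, nn X (r + 1) ≤ b W X ^ 2 * nn X r := by
    intro r
    have h1 : nn X (r + 1) = h (T X r ⊗ X) (T X r ⊗ X) := rfl
    rw [h1, a6, ← a4, ← hbE]
    exact hNRM W (X ⊗ Xᘁ) (T X r)
  refine ⟨?_, ?_⟩
  · intro r H
    have hle : h X X ≤ m W (X ⊗ Xᘁ) := W.finrank_hom_le X X
    by_contra hne
    obtain ⟨s, hs⟩ : ∃ s, m W (X ⊗ Xᘁ) = h X X + (s + 1) :=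
      ⟨m W (X ⊗ Xᘁ) - h X X - 1, by omega⟩
    have h1 := hINE W X r
    rw [hs, Nat.add_sub_cancel_left] at h1
    have h2 := hup r
    have h3 : mm W X r < 2 * nn X r := by omega
    obtain ⟨d, hd⟩ : ∃ d, 2 * nn X r = mm W X r + d := ⟨2 * nn X r - mm W X r, by omega⟩
    have h4 : 2 * (s + 1) * nn X r = (s + 1) * mm W X r + (s + 1) * d := by
      calc 2 * (s + 1) * nn X r = (s + 1) * (2 * nn X r) := by ring
        _ = _ := by rw [hd]; ring
    have h5 : (s + 1) * d = s * d + d := by ring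
    have h6 : 0 ≤ s * d := Nat.zero_le _
    omega
  · intro hX heq
    by_contra hcon
    push Not at hcon
    have hfin : Module.Finite ℚ (X ⟶ X) := W.finite_hom X X
    have hXX : h X X ≠ 0 := by
      intro h0
      have h1 : Subsingleton (X ⟶ X) := Module.finrank_zero_iff.mp h0
      exact hX (Subsingleton.elim _ _)
    have h1 : nn X 1 = h X X := by
      have e := a3 (𝟙_ C ⊗ X) X (λ_ X)
      have h2 : nn X 1 = h (𝟙_ C ⊗ X) (𝟙_ C ⊗ X) := rfl
      rw [h2, e.1, e.2.1]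
    refine FIN.growth (nn X) (b W X ^ 2) ((fr W).bp X ^ 2 + (fr W).bm X ^ 2 + 4) ?_ ?_ ?_
    · rw [h1]; exact hXX
    · intro r hr
      have h2 := hcon r hr
      rw [← heq r] at h2
      omega
    · intro r
      rw [← pow_mul]
      exact hGRO W X r

end

end MotP.HL
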