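import Pool.Agent.HL.St

/-!
# The half law: growth of the endomorphism spaces of tensor powers (GRO)

As `Pool/Agent/GGap/P_GAP.lean` without the numerically trivial part.
-/

set_option autoImplicit false

open CategoryTheory MonoidalCategory BraidedCategory Limits Polynomial

universe v u

namespace MotP.HL

open Mot MotP.GGap

noncomputable section

namespace GRO

/-- the numerical part -/
theorem num {a b i l r D E c : ℕ} (hr : i + l = r)
    (h1 : (a + b) ^ r ≤ (r + 1) * (c * (a ^ i * b ^ l)))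
    (h2 : c ^ 2 * D ≤ E)
    (h3 : i.factorial * l.factorial * (a ^ i * b ^ l) ^ 2 ≤
      D * ((∏ j ∈ Finset.range i, (a ^ 2 + j)) * ∏ j ∈ Finset.range l, (b ^ 2 + j))) :
    (a + b) ^ (2 * r) ≤ (r + 1) ^ (a ^ 2 + b ^ 2 + 4) * E := by
  have h4 := t_RIS (a ^ 2) i
  have h5 := t_RIS (b ^ 2) l
  have h6 : i.factorial * l.factorial * (a ^ i * b ^ l) ^ 2 ≤
      i.factorial * l.factorial * (D * ((r + 1) ^ (a ^ 2) * (r + 1) ^ (b ^ 2))) := by
    refine h3.trans ?_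
    calc D * ((∏ j ∈ Finset.range i, (a ^ 2 + j)) * ∏ j ∈ Finset.range l, (b ^ 2 + j))
        ≤ D * ((i.factorial * (i + 1) ^ (a ^ 2)) * (l.factorial * (l + 1) ^ (b ^ 2))) :=
          Nat.mul_le_mul_left _ (Nat.mul_le_mul h4 h5)
      _ ≤ D * ((i.factorial * (r + 1) ^ (a ^ 2)) * (l.factorial * (r + 1) ^ (b ^ 2))) := by
          apply Nat.mul_le_mul_left
          apply Nat.mul_le_mul
          · exact Nat.mul_le_mul_left _ (Nat.pow_le_pow_left (by omega) _)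
          · exact Nat.mul_le_mul_left _ (Nat.pow_le_pow_left (by omega) _)
      _ = _ := by ring
  have h7 : (a ^ i * b ^ l) ^ 2 ≤ D * ((r + 1) ^ (a ^ 2) * (r + 1) ^ (b ^ 2)) :=
    Nat.le_of_mul_le_mul_left h6 (Nat.mul_pos i.factorial_pos l.factorial_pos)
  calc (a + b) ^ (2 * r) = ((a + b) ^ r) ^ 2 := by rw [← pow_mul, mul_comm]
    _ ≤ ((r + 1) * (c * (a ^ i * b ^ l))) ^ 2 := Nat.pow_le_pow_left h1 2
    _ = (r + 1) ^ 2 * c ^ 2 * (a ^ i * b ^ l) ^ 2 := by ring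
    _ ≤ (r + 1) ^ 2 * c ^ 2 * (D * ((r + 1) ^ (a ^ 2) * (r + 1) ^ (b ^ 2))) :=
        Nat.mul_le_mul_left _ h7
    _ = (r + 1) ^ (a ^ 2 + b ^ 2 + 2) * (c ^ 2 * D) := by rw [pow_add, pow_add]; ring
    _ ≤ (r + 1) ^ (a ^ 2 + b ^ 2 + 2) * E := Nat.mul_le_mul_left _ h2
    _ ≤ (r + 1) ^ (a ^ 2 + b ^ 2 + 4) * E :=
        Nat.mul_le_mul_right _ (Nat.pow_le_pow_right (Nat.succ_pos r) (by omega))

end GRO

variable (C : Type u) [Category.{v} C] [Preadditive C] [Linear ℚ C] [MonoidalCategory C]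
  [SymmetricCategory C] [MonoidalPreadditive C] [MonoidalLinear ℚ C] [RightRigidCategory C]

theorem t_GRO : S_GRO C := by
  intro _ W X r
  have hGRM := t_GRM C (t_PRM C) (t_DIM C t_RKL) (t_CHI C t_GRP)
  have hCOP := t_COP C
  have hCPD := t_CPD C
  have hfX : Module.Finite ℚ (X ⟶ X) := W.finite_hom X X
  obtain ⟨A, B, O, hA, hB⟩ := t_DEC C (fr W) X hfX
  obtain ⟨i, hi, hnum⟩ := NUM.one_term ((fr W).bp X) ((fr W).bm X) r
  obtain ⟨l, hl⟩ : ∃ l, l = r - i := ⟨_, rfl⟩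
  have hil : i + l = r := by omega
  rw [← hl] at hnum
  have hC1 : Cp (r.choose i) (T A i ⊗ T B l) (T X r) := by
    have h := hCOP.1 X A B O i l
    rw [hil] at h
    exact h
  have hC2 : Cp 1 (𝟙_ C ⊗ (T A i ⊗ T B l)) (T A i ⊗ T B l) :=
    ⟨fun _ => (λ_ (T A i ⊗ T B l)).hom, fun _ => (λ_ (T A i ⊗ T B l)).inv,
      fun _ => (λ_ (T A i ⊗ T B l)).hom_inv_id, fun s t hst =>
      absurd (Subsingleton.elim s t) hst⟩
  have hC := hCOP.2.2.1 _ _ _ _ _ hC1 hC2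
  rw [mul_one] at hC
  obtain ⟨hfZ, hE⟩ := hCPD _ _ _ (Nat.choose_pos hi) hC (W.finite_hom _ _)
  have hG := hGRM (fr W) (𝟙_ C) A B i l W.ne hfZ
  rw [hA, hB] at hG
  have hG' : i.factorial * l.factorial * ((fr W).bp X ^ i * (fr W).bm X ^ l) ^ 2 ≤
      Module.finrank ℚ (𝟙_ C ⊗ (T A i ⊗ T B l) ⟶ 𝟙_ C ⊗ (T A i ⊗ T B l)) *
        ((∏ j ∈ Finset.range i, ((fr W).bp X ^ 2 + j)) *
          ∏ j ∈ Finset.range l, ((fr W).bm X ^ 2 + j)) := by
    have e1 : ((-((fr W).bm X : ℚ)) ^ 2) = (((fr W).bm X : ℚ)) ^ 2 := by ring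
    have e2 : (((fr W).bp X : ℚ) ^ i * (-((fr W).bm X : ℚ)) ^ l) ^ 2 =
        (((fr W).bp X : ℚ) ^ i * ((fr W).bm X : ℚ) ^ l) ^ 2 := by
      rw [mul_pow, mul_pow]
      congr 1
      rw [← pow_mul, mul_comm, pow_mul, e1, ← pow_mul, mul_comm, pow_mul]
    rw [e1, e2] at hG
    exact_mod_cast hG
  exact GRO.num hil hnum hE hG'

end

end MotP.HL
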