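import Pool.Agent.HL.St

/-!
# The half law, module HLF (helper28): the half law for a class of objects
-/

set_option autoImplicit false

open CategoryTheory MonoidalCategory BraidedCategory Limits Polynomial

universe v u

namespace MotP.HL

open Mot MotP.GGap

noncomputable section

variable (C : Type u) [Category.{v} C] [Preadditive C] [Linear ℚ C] [MonoidalCategory C]
  [SymmetricCategory C] [MonoidalPreadditive C] [MonoidalLinear ℚ C] [RightRigidCategory C]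

namespace HLF

set_option linter.unusedSectionVars false

variable {C}

/-- the transpose is additive -/
lemma mate_add {X Y : C} (f g : X ⟶ Y) : (f + g)ᘁ = fᘁ + gᘁ := by
  unfold rightAdjointMate
  simp only [MonoidalPreadditive.whiskerLeft_add, MonoidalPreadditive.add_whiskerRight,
    Preadditive.add_comp, Preadditive.comp_add]

lemma mate_zero {X Y : C} : (0 : X ⟶ Y)ᘁ = 0 := by
  unfold rightAdjointMate
  simp

/-- the dual of a direct sum -/
def dual {X Y Z : C} (d : Dec X Y Z) : Dec Xᘁ Yᘁ Zᘁ where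
  i := d.pᘁ
  p := d.iᘁ
  j := d.qᘁ
  q := d.jᘁ
  ip := by rw [← comp_rightAdjointMate, d.ip, rightAdjointMate_id]
  jq := by rw [← comp_rightAdjointMate, d.jq, rightAdjointMate_id]
  iq := by rw [← comp_rightAdjointMate, d.jp, mate_zero]
  jp := by rw [← comp_rightAdjointMate, d.iq, mate_zero]
  sum := by
    rw [← comp_rightAdjointMate, ← comp_rightAdjointMate, ← mate_add, d.sum, rightAdjointMate_id]

variable (C) in
/-- the dual of the unit (for the rigid structure of `C`) -/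
abbrev I : C := @HasRightDual.rightDual C _ _ (𝟙_ C) (RightRigidCategory.rightDual (𝟙_ C))

/-- the dual of the unit is the unit -/
def unitDual : I C ≅ 𝟙_ C :=
  rightDualIso (X := 𝟙_ C)
    (@HasRightDual.exact C _ _ (𝟙_ C) (RightRigidCategory.rightDual (𝟙_ C))) exactPairingUnit

lemma pow_mem (P : C → Prop) (h1 : P (𝟙_ C)) (ht : ∀ X Y, P X → P Y → P (X ⊗ Y)) (M : C)
    (hM : P M) : ∀ r, P (T M r)
  | 0 => h1
  | r + 1 => ht _ _ (pow_mem P h1 ht M hM r) hM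

end HLF

theorem t_HLF : M_HLF C := by
  intro hADD hADJ hTEN hBFA hEND _ _ W P h1 ht hd hs c hc hP X hX
  obtain ⟨M, hM, ⟨d⟩⟩ := hs (𝟙_ C) X h1 hX
  obtain ⟨a1, a2, a3, -, -, -⟩ := hADJ W
  obtain ⟨-, b2, -, -, -, b6, -⟩ := hBFA W
  -- the equality for `M`
  have hMM : h M M = m W (M ⊗ Mᘁ) := by
    apply hEND W M c hc
    intro r
    have h2 := HLF.pow_mem P h1 ht M hM r
    have h3 := hP (T M r ⊗ (T M r)ᘁ) (ht _ _ h2 (hd _ h2))
    have h4 : nn M r = n (T M r ⊗ (T M r)ᘁ) := a1 _ _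
    rw [h4]
    exact h3
  -- the dimensions
  obtain ⟨-, e2, e3, e4, -⟩ := hADD W M (𝟙_ C) X d
  have hh : h M M = h (𝟙_ C) (𝟙_ C) + h (𝟙_ C) X + (h X (𝟙_ C) + h X X) := by
    rw [e2 M, e3 (𝟙_ C), e3 X]
  -- the multiplicities
  have hm1 : m W (M ⊗ Mᘁ) = m W (𝟙_ C ⊗ Mᘁ) + m W (X ⊗ Mᘁ) := by
    obtain ⟨d'⟩ := e4 Mᘁ
    exact (b2 _ _ _ (hADD W _ _ _ d').1).2
  have hm2 : ∀ U : C, m W (U ⊗ Mᘁ) = m W (U ⊗ HLF.I C) + m W (U ⊗ Xᘁ) := by
    intro U
    obtain ⟨-, -, -, -, f5⟩ := hADD W _ _ _ (HLF.dual d)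
    obtain ⟨d'⟩ := f5 U
    exact (b2 _ _ _ (hADD W _ _ _ d').1).2
  have k1 : h (𝟙_ C) (𝟙_ C) ≤ m W (𝟙_ C ⊗ HLF.I C) := W.finrank_hom_le _ _
  have k2 : h (𝟙_ C) X ≤ m W (X ⊗ HLF.I C) := W.finrank_hom_le _ _
  have k3 : h X (𝟙_ C) ≤ m W (𝟙_ C ⊗ Xᘁ) := W.finrank_hom_le _ _
  have k4 : h X X ≤ m W (X ⊗ Xᘁ) := W.finrank_hom_le _ _
  have key : h (𝟙_ C) X = m W (X ⊗ HLF.I C) := by
    rw [hh, hm1, hm2, hm2] at hMM
    omega
  have hiso : X ⊗ HLF.I C ≅ X := whiskerLeftIso X HLF.unitDual ≪≫ ρ_ X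
  have hmX : m W (X ⊗ HLF.I C) = m W X := (b6 _ _ (a3 _ _ hiso).2.2).2
  rw [← hmX, ← key]
  rfl

end

end MotP.HL
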