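import Pool.Agent.HL.St3
import Pool.Agent.HL.P_END

/-!
# The half law, module INF: infinitely many powers
-/

set_option autoImplicit false

open CategoryTheory MonoidalCategory BraidedCategory Limits Polynomial

universe v u

namespace MotP.HL

open Mot MotP.GGap

noncomputable section

variable (C : Type u) [Category.{v} C] [Preadditive C] [Linear ℚ C] [MonoidalCategory C]
  [SymmetricCategory C] [MonoidalPreadditive C] [MonoidalLinear ℚ C] [RightRigidCategory C]

theorem t_INF : M_INF C := by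
  intro hBFA hGRO hLCV _ _ W X hX c hc hinf
  by_contra hcon
  have hcon' : ∀ r, 0 < r → nn X (r + 1) + 2 * nn X r ≤ b W X ^ 2 * nn X r + mm W X r := by
    intro r hr
    by_contra h
    exact hcon ⟨r, hr, not_le.mp h⟩
  obtain ⟨hten, -, hdual, -, hmb, -, -⟩ := hBFA W
  have hc0 : 0 < c := by linarith
  have hδ : 0 < 2 - 1 / c := by
    have h1 : 1 / c < 2 := by
      rw [div_lt_iff₀ hc0]
      linarith
    linarith
  -- the number of eigenvalues is positive
  have hb : 0 < b W X := by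
    have hfin : Module.Finite ℚ (X ⟶ X) := W.finite_hom _ _
    have hnt : Nontrivial (X ⟶ X) := ⟨𝟙 X, 0, hX⟩
    have h1 : 0 < h X X := Module.finrank_pos
    have h2 : h X X ≤ m W (X ⊗ Xᘁ) := W.finrank_hom_le X X
    have h3 := hmb (X ⊗ Xᘁ)
    rw [hten, hdual] at h3
    have h4 : 0 < b W X * b W X := lt_of_lt_of_le h1 (h2.trans h3)
    exact Nat.pos_of_mul_pos_left h4
  have hpos : ∀ r, 0 < nn X r := by
    intro r
    have h1 := hGRO W X r
    have h2 : 0 < b W X ^ (2 * r) := pow_pos hb _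
    exact Nat.pos_of_mul_pos_left (lt_of_lt_of_le h2 h1)
  -- the step for the good powers
  have hgood : ∀ r, 0 < r → c * mm W X r ≤ nn X r →
      (nn X (r + 1) : ℝ) ≤ ((b W X : ℝ) ^ 2 - (2 - 1 / c)) * nn X r := by
    intro r hr hcm
    have h1 := hcon' r hr
    have h2 : (nn X (r + 1) : ℝ) + 2 * nn X r ≤ (b W X : ℝ) ^ 2 * nn X r + mm W X r := by
      exact_mod_cast h1
    have h3 : (mm W X r : ℝ) ≤ nn X r / c := by
      rw [le_div_iff₀ hc0, mul_comm]
      exact hcm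
    have h6 : (nn X r : ℝ) / c = 1 / c * nn X r := by ring
    rw [h6] at h3
    nlinarith
  -- one step down
  have hdown : ∀ k, (nn X (k + 2) : ℝ) ≤ ((b W X : ℝ) ^ 2 - (2 - 1 / c)) * nn X (k + 1) →
      (nn X (k + 1) : ℝ) ≤ ((b W X : ℝ) ^ 2 - (2 - 1 / c)) * nn X k := by
    intro k hk
    have h1 : (nn X (k + 1) : ℝ) ^ 2 ≤ nn X k * nn X (k + 2) := by exact_mod_cast hLCV W X k
    have h2 : (0 : ℝ) < nn X (k + 1) := by exact_mod_cast hpos (k + 1)
    have h3 : (0 : ℝ) < nn X k := by exact_mod_cast hpos k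
    have h4 : (nn X (k + 1) : ℝ) * nn X (k + 1) ≤
        (((b W X : ℝ) ^ 2 - (2 - 1 / c)) * nn X k) * nn X (k + 1) := by
      calc (nn X (k + 1) : ℝ) * nn X (k + 1) = (nn X (k + 1) : ℝ) ^ 2 := by ring
        _ ≤ nn X k * nn X (k + 2) := h1
        _ ≤ nn X k * (((b W X : ℝ) ^ 2 - (2 - 1 / c)) * nn X (k + 1)) :=
          mul_le_mul_of_nonneg_left hk h3.le
        _ = _ := by ring
    exact le_of_mul_le_mul_right h4 h2
  have hall : ∀ j k : ℕ, (nn X (k + j + 1) : ℝ) ≤ ((b W X : ℝ) ^ 2 - (2 - 1 / c)) * nn X (k + j) →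
      (nn X (k + 1) : ℝ) ≤ ((b W X : ℝ) ^ 2 - (2 - 1 / c)) * nn X k := by
    intro j
    induction j with
    | zero => exact fun k hk => hk
    | succ j ih => exact fun k hk => ih k (hdown (k + j) hk)
  refine END.growth (fun r => (nn X r : ℝ)) ((b W X : ℝ) ^ 2) (2 - 1 / c)
    ((fr W).bp X ^ 2 + (fr W).bm X ^ 2 + 4) (fun r => Nat.cast_nonneg _) ?_ hδ ?_ ?_
  · exact_mod_cast hpos 0
  · intro k
    obtain ⟨r, hr, hcm⟩ := hinf (k + 1)
    obtain ⟨j, rfl⟩ := Nat.exists_eq_add_of_le (show k ≤ r by omega)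
    exact hall j k (hgood (k + j) (by omega) hcm)
  · intro r
    have h1 := hGRO W X r
    have h2 : ((b W X : ℝ)) ^ (2 * r) ≤
        ((r : ℝ) + 1) ^ ((fr W).bp X ^ 2 + (fr W).bm X ^ 2 + 4) * nn X r := by exact_mod_cast h1
    rw [← pow_mul]
    exact h2

end

end MotP.HL
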