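import Pool.Agent.HL.St3
import Pool.Agent.HL.P_ADJ

/-!
# The half law, module LCV: log-convexity of the dimensions of `End (X ^ (⊗ r))`
-/

set_option autoImplicit false
set_option linter.unusedSectionVars false

open CategoryTheory MonoidalCategory BraidedCategory Limits

universe v u

namespace MotP.HL

open Mot

noncomputable section

variable (C : Type u) [Category.{v} C] [Preadditive C] [Linear ℚ C] [MonoidalCategory C]
  [SymmetricCategory C] [MonoidalPreadditive C] [MonoidalLinear ℚ C] [RightRigidCategory C]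

namespace LCV

variable {C}

/-- the bidual -/
def bidual (X : C) : ((Xᘁ : C)ᘁ : C) ≅ X :=
  rightDualIso (X := (Xᘁ : C)) inferInstance (exactPairing_swap X Xᘁ)

theorem cross (U V X : C) : h U (V ⊗ Xᘁ) = h (U ⊗ X) V := by
  rw [ADJ.h_eq_n, ADJ.h_eq_n]
  exact ADJ.n_iso (α_ V Xᘁ Uᘁ ≪≫ whiskerLeftIso V (ADJ.dualTensor U X).symm)

theorem square (hADJ : S_ADJ C) (W : Frob C) (V X : C) :
    h (V ⊗ Xᘁ) (V ⊗ Xᘁ) = h (V ⊗ X) (V ⊗ X) := by
  obtain ⟨-, -, -, -, -, h6⟩ := hADJ W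
  rw [h6, h6]
  exact ADJ.n_iso (whiskerRightIso (β_ (Xᘁ : C) ((Xᘁ : C)ᘁ : C) ≪≫ whiskerRightIso (bidual X) Xᘁ) (V ⊗ Vᘁ))

end LCV

theorem t_LCV : M_LCV C := by
  intro hADJ hCSI _ _ W X r
  have h1 := hCSI W (T X r) (T X (r + 1) ⊗ Xᘁ)
  rw [LCV.cross, LCV.square hADJ W] at h1
  exact h1

end

end MotP.HL
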