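import Pool.Agent.HL.NumSt

/-!
# The half law, module NCL: closure properties of the class of motives generated by varieties
-/

set_option autoImplicit false

open CategoryTheory MonoidalCategory CartesianMonoidalCategory Limits

universe v u w

namespace MotP.HL

open CHM

noncomputable section

set_option linter.unusedSectionVars false

namespace NCL

section

variable {C : Type u} [Category.{v} C] [Preadditive C] [Linear ℚ C] [MonoidalCategory C]
  [MonoidalPreadditive C] [RightRigidCategory C]

/-- tensoring a decomposition on the right -/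
def decR {X Y Z : C} (D : Dec X Y Z) (U : C) : Dec (X ⊗ U) (Y ⊗ U) (Z ⊗ U) where
  i := D.i ▷ U
  p := D.p ▷ U
  j := D.j ▷ U
  q := D.q ▷ U
  ip := by rw [← MonoidalCategory.comp_whiskerRight, D.ip, MonoidalCategory.id_whiskerRight]
  jq := by rw [← MonoidalCategory.comp_whiskerRight, D.jq, MonoidalCategory.id_whiskerRight]
  iq := by rw [← MonoidalCategory.comp_whiskerRight, D.iq, MonoidalPreadditive.zero_whiskerRight]
  jp := by rw [← MonoidalCategory.comp_whiskerRight, D.jp, MonoidalPreadditive.zero_whiskerRight]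
  sum := by
    rw [← MonoidalCategory.comp_whiskerRight, ← MonoidalCategory.comp_whiskerRight,
      ← MonoidalPreadditive.add_whiskerRight, D.sum, MonoidalCategory.id_whiskerRight]

/-- tensoring a decomposition on the left -/
def decL {X Y Z : C} (U : C) (D : Dec X Y Z) : Dec (U ⊗ X) (U ⊗ Y) (U ⊗ Z) where
  i := U ◁ D.i
  p := U ◁ D.p
  j := U ◁ D.j
  q := U ◁ D.q
  ip := by rw [← MonoidalCategory.whiskerLeft_comp, D.ip, MonoidalCategory.whiskerLeft_id]
  jq := by rw [← MonoidalCategory.whiskerLeft_comp, D.jq, MonoidalCategory.whiskerLeft_id]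
  iq := by rw [← MonoidalCategory.whiskerLeft_comp, D.iq, MonoidalPreadditive.whiskerLeft_zero]
  jp := by rw [← MonoidalCategory.whiskerLeft_comp, D.jp, MonoidalPreadditive.whiskerLeft_zero]
  sum := by
    rw [← MonoidalCategory.whiskerLeft_comp, ← MonoidalCategory.whiskerLeft_comp,
      ← MonoidalPreadditive.whiskerLeft_add, D.sum, MonoidalCategory.whiskerLeft_id]

lemma mate_add {X Y : C} (f g : X ⟶ Y) : (f + g)ᘁ = fᘁ + gᘁ := by
  unfold rightAdjointMate
  simp [Preadditive.add_comp, Preadditive.comp_add]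

lemma mate_zero {X Y : C} : (0 : X ⟶ Y)ᘁ = 0 := by
  have h := mate_add (0 : X ⟶ Y) 0
  rw [add_zero] at h
  exact left_eq_add.mp h

/-- the dual of a decomposition -/
def decD {X Y Z : C} (D : Dec X Y Z) : Dec Xᘁ Yᘁ Zᘁ where
  i := D.pᘁ
  p := D.iᘁ
  j := D.qᘁ
  q := D.jᘁ
  ip := by rw [← comp_rightAdjointMate, D.ip, rightAdjointMate_id]
  jq := by rw [← comp_rightAdjointMate, D.jq, rightAdjointMate_id]
  iq := by rw [← comp_rightAdjointMate, D.jp, mate_zero]
  jp := by rw [← comp_rightAdjointMate, D.iq, mate_zero]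
  sum := by
    rw [← comp_rightAdjointMate, ← comp_rightAdjointMate, ← mate_add, D.sum,
      rightAdjointMate_id]

/-- the decomposition of a biproduct -/
def decB [HasBinaryBiproducts C] (X Y : C) : Dec (X ⊞ Y) X Y where
  i := biprod.inl
  p := biprod.fst
  j := biprod.inr
  q := biprod.snd
  ip := biprod.inl_fst
  jq := biprod.inr_snd
  iq := biprod.inl_snd
  jp := biprod.inr_fst
  sum := biprod.total

end

end NCL

open NCL

variable {V : Type u} [Category.{v} V] [CartesianMonoidalCategory V]

theorem t_NCL (T : CHM.ChowTheory.{v, u, w} V) : S_NCL T := by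
  intro S h1 h2
  refine ⟨?_, ?_, ?_, ?_⟩
  · rw [h_unit]
    exact Gen.h (𝟙_ V) 0 h1
  · intro X Y hX hY
    induction hX with
    | h X i hX =>
      induction hY with
      | h Y j hY =>
        rw [h_tensor]
        exact Gen.h (X ⊗ Y) (i + j) (h2 X Y hX hY)
      | sum D _ _ ih1 ih2 => exact Gen.sum (decL _ D) ih1 ih2
    | sum D _ _ ih1 ih2 => exact Gen.sum (decR D _) ih1 ih2
  · intro X hX
    induction hX with
    | h X i hX =>
      rw [h_dual]
      exact Gen.h X (T.dim X - i) hX
    | sum D _ _ ih1 ih2 => exact Gen.sum (decD D) ih1 ih2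
  · intro X Y hX hY
    exact ⟨X ⊞ Y, Gen.sum (decB X Y) hX hY, ⟨decB X Y⟩⟩

end

end MotP.HL
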