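import Pool.Agent.HL.NumSt

/-!
# The half law, module NEV: eigenvalues of Frobenius for numerical motives
-/

set_option autoImplicit false

open CategoryTheory MonoidalCategory CartesianMonoidalCategory Limits Polynomial

universe v u w x

namespace MotP.HL

open CHM

noncomputable section

variable {V : Type u} [Category.{v} V] [CartesianMonoidalCategory V]

namespace NEV

variable {T : CHM.ChowTheory.{v, u, w} V} {R : CHM.FrobeniusMaps T}
  (K : CHM.Cohomology.{v, u, w, x} T R)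

theorem cpow_mem {X : V} {f : T.CH (X ⊗ X)} (hf : f ∈ T.gr (X ⊗ X) (T.dim X)) (n : ℕ) :
    T.cpow f n ∈ T.gr (X ⊗ X) (T.dim X) := by
  induction n with
  | zero => exact T.gr'_mem (𝟙 X)
  | succ n ih =>
    have h1 := T.cp_mem ih hf
    have e : T.dim X + T.dim X - T.dim X = T.dim X := by ring
    rw [e] at h1
    exact h1

theorem act_cpow {X : V} (f : T.CH (X ⊗ X)) (n : ℕ) :
    K.act (T.cpow f n) = (show Module.End ℂ (K.H X) from K.act f) ^ n := by
  induction n with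
  | zero =>
    ext y
    exact K.act_diag X y
  | succ n ih =>
    rw [pow_succ', ← ih]
    ext y
    exact K.act_cp _ _ y

end NEV

open NEV

theorem t_NEV (T : CHM.ChowTheory.{v, u, w} V) : M_NEV.{v, u, w, x} T := by
  intro hNLA hNTC hG hU R K M
  obtain ⟨P, hP', hPM⟩ := (numQ_gr hG hU).1 M.deg
  have hP : P ∈ T.gr (M.X ⊗ M.X) (T.dim M.X) := hP'
  have hP0 : P ∈ T.gr (M.X ⊗ M.X) (T.dim M.X + 0) := by
    rw [add_zero]
    exact hP
  have hF : T.gr' (R.Fr M.X) ∈ T.gr (M.X ⊗ M.X) (T.dim M.X) := T.gr'_mem _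
  have hF0 : T.gr' (R.Fr M.X) ∈ T.gr (M.X ⊗ M.X) (T.dim M.X + 0) := by
    rw [add_zero]
    exact hF
  -- the scalars
  have hsc : ∀ k : ℕ, ∃ r : ℚ,
      MotP.tr M (Mot.pw ((frQ hG hU R).F.app M) k) = r • 𝟙 (𝟙_ (CHM.Mot (numQ T hG hU))) :=
    fun k => Mot.scalar _
  choose r hr using hsc
  have huniq : ∀ (k : ℕ) (s : ℚ),
      MotP.tr M (Mot.pw ((frQ hG hU R).F.app M) k) = s • 𝟙 (𝟙_ (CHM.Mot (numQ T hG hU))) →
      s = r k := by
    intro k s hs
    have h2 : (s - r k) • 𝟙 (𝟙_ (CHM.Mot (numQ T hG hU))) = 0 := by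
      rw [sub_smul, ← hs, hr, sub_self]
    rcases smul_eq_zero.1 h2 with h3 | h3
    · exact sub_eq_zero.1 h3
    · exact absurd h3 Mot.unit_ne
  let σ : Module.End ℂ (K.H M.X) := K.sgn M.X
  let F : Module.End ℂ (K.H M.X) := K.act (T.gr' (R.Fr M.X))
  let a : Module.End ℂ (K.H M.X) := K.act P
  let c : ℂ := (R.q : ℂ) ^ (-M.m)
  have h1 : σ * σ = 1 := by
    ext y
    exact K.sgn_sgn _ y
  have h2 : σ * (c • F) = (c • F) * σ := by
    rw [mul_smul_comm, smul_mul_assoc]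
    congr 1
    ext y
    exact K.sgn_act hF0 y
  have h3 : σ * a = a * σ := by
    ext y
    exact K.sgn_act hP0 y
  have hFa : F * a = a * F := by
    have h := R.gr'_comm hP
    rw [sub_self, zpow_zero, one_smul] at h
    ext y
    calc (F * a) y = K.act (T.cp P (T.gr' (R.Fr M.X))) y := (K.act_cp _ _ y).symm
      _ = K.act (T.cp (T.gr' (R.Fr M.X)) P) y := by rw [h]
      _ = (a * F) y := K.act_cp _ _ y
  have h4 : (c • F) * a = a * (c • F) := by
    rw [mul_smul_comm, smul_mul_assoc, hFa]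
  have h5 : ∀ k j : ℕ, LinearMap.trace ℂ (K.H M.X) (σ * (c • F) ^ k * a ^ (j + 1)) =
      ((r k : ℚ) : ℂ) := by
    intro k j
    have h6 := hNTC hG hU R M P hP hPM k j (r k) (hr k)
    have hmem : T.cp (T.cpow P (j + 1)) (T.cpow (T.gr' (R.Fr M.X)) k) ∈
        T.gr (M.X ⊗ M.X) (T.dim M.X) := by
      have h7 := T.cp_mem (cpow_mem hP (j + 1)) (cpow_mem hF k)
      have e : T.dim M.X + T.dim M.X - T.dim M.X = T.dim M.X := by ring
      rw [e] at h7
      exact h7
    have h8 := K.trace_formula M.X _ hmem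
    have h9 : (K.sgn M.X ∘ₗ K.act (T.cp (T.cpow P (j + 1)) (T.cpow (T.gr' (R.Fr M.X)) k)) :
        Module.End ℂ (K.H M.X)) = σ * F ^ k * a ^ (j + 1) := by
      ext y
      have e1 : K.act (T.cp (T.cpow P (j + 1)) (T.cpow (T.gr' (R.Fr M.X)) k)) y =
          (F ^ k) ((a ^ (j + 1)) y) := by
        rw [K.act_cp, act_cpow, act_cpow]
      exact congrArg (K.sgn M.X) e1
    rw [h9] at h8
    have h10 : σ * (c • F) ^ k * a ^ (j + 1) = (c ^ k) • (σ * F ^ k * a ^ (j + 1)) := by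
      rw [_root_.smul_pow, mul_smul_comm, smul_mul_assoc]
    rw [h10, map_smul, ← h8, h6, smul_eq_mul]
    push_cast
    rfl
  have h6 : ∀ y : K.H M.X, σ y = -y → (c • F) y = y → y = 0 := by
    intro y hy hy2
    refine K.one_not_odd (CHM.Mot.h T M.X M.m) y ⟨K.act_diag M.X y, hy⟩ ?_
    rw [K.act_onMot (CHM.Mot.h T M.X M.m) y (K.act_diag M.X y)]
    exact hy2
  obtain ⟨α, β, h7, h8⟩ := hNLA (K.H M.X) σ (c • F) a (fun k => ((r k : ℚ) : ℂ)) h1 h2 h3 h4 h5 h6
  refine ⟨α, β, fun k s hs => ?_, h8⟩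
  rw [huniq k s hs]
  exact h7 k

end

end MotP.HL
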