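import Pool.Agent.HL.NumSt

/-!
# The half law, module NFX: the finite criterion for one variety
-/

set_option autoImplicit false

open CategoryTheory MonoidalCategory CartesianMonoidalCategory Limits Polynomial

universe v u w x

namespace MotP.HL

open CHM

noncomputable section

variable {V : Type u} [Category.{v} V] [CartesianMonoidalCategory V]

theorem t_NFX (T : CHM.ChowTheory.{v, u, w} V) : M_NFX.{v, u, w, x} T := by
  intro hBFA hFIN hG hU hN hE hNMU hNPW R K X N M hNr hMr
  set W := frobQ hG hU hN R K hE with hW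
  set Y := CHM.Mot.h (numQ T hG hU) X 0 with hY
  obtain ⟨hF1, hF2⟩ := hFIN hG hU W Y
  have hb : b W Y = Module.finrank ℂ (K.H X) := (hNMU hG hU hN R K hE X).2
  have hn : ∀ r, nn Y r = N r := fun r => ((hNPW hG hU hN R K hE X r).1).trans (hNr r).symm
  have hm : ∀ r, mm W Y r = M r := fun r => ((hNPW hG hU hN R K hE X r).2.1).trans (hMr r).symm
  refine ⟨fun r hr => ?_, fun h0 hNM => ?_⟩
  · have h1 := hF1 r (by rw [hb, hn, hn, hm]; exact hr)
    rw [← (hNPW hG hU hN R K hE X r).2.2.1, ← (hNPW hG hU hN R K hE X r).2.2.2]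
    exact h1
  · have h1 : 𝟙 Y ≠ 0 := by
      intro h
      have h2 := W.t_split (𝟙 Y) (𝟙 Y) (Category.comp_id _) (𝟙 Y) (𝟙 Y) (Category.comp_id _)
        (by rw [h]; simp)
      have h3 := ((hBFA hG hU W).2.1 Y Y Y h2).1
      omega
    obtain ⟨r, hr0, hr⟩ := hF2 h1 (fun r => by rw [hn, hm, hNM])
    refine ⟨r, hr0, ?_⟩
    rw [hb, hn, hn, hm] at hr
    exact hr

end

end MotP.HL
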