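import Pool.Agent.HL.St2

/-!
# The half law, module NFY: one equality on `X × X` gives the equality on `X`
-/

set_option autoImplicit false

open CategoryTheory MonoidalCategory CartesianMonoidalCategory Limits Polynomial

universe v u w x

namespace MotP.HL

open CHM

noncomputable section

variable {V : Type u} [Category.{v} V] [CartesianMonoidalCategory V]

theorem t_NFY (T : CHM.ChowTheory.{v, u, w} V) : M_NFY.{v, u, w, x} T := by
  intro hADJ hSUM hG hU hN hE hNHO hNMU R K X hX i hi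
  have hho : ∀ (Y : V) (k : ℤ), n (CHM.Mot.h (numQ T hG hU) Y k) =
      Cardinal.toNat (Module.rank ℚ (T.gr Y k ⧸ T.num Y k)) := by
    intro Y k
    rw [hNHO hG hU Y k]
    rfl
  have hmu : ∀ (Y : V) (k : ℤ), m (frobQ hG hU hN R K hE) (CHM.Mot.h (numQ T hG hU) Y k) =
      K.mult Y k := fun Y k => (hNMU hG hU hN R K hE Y).1 k
  have ht : (CHM.Mot.h (numQ T hG hU) X i) ⊗ (CHM.Mot.h (numQ T hG hU) X i)ᘁ =
      CHM.Mot.h (numQ T hG hU) (X ⊗ X) (T.dim X) := by
    rw [h_dual, h_tensor]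
    congr 1
    change i + (T.dim X - i) = T.dim X
    ring
  have h1 : h (CHM.Mot.h (numQ T hG hU) X i) (CHM.Mot.h (numQ T hG hU) X i) =
      m (frobQ hG hU hN R K hE)
        ((CHM.Mot.h (numQ T hG hU) X i) ⊗ (CHM.Mot.h (numQ T hG hU) X i)ᘁ) := by
    rw [(hADJ hG hU (frobQ hG hU hN R K hE)).1, ht, hho, hmu]
    exact hX
  have h2 := hSUM hG hU (frobQ hG hU hN R K hE) (CHM.Mot.h (numQ T hG hU) X i) h1
    (by rw [hho]; exact hi)
  rw [hho, hmu] at h2
  exact h2

end

end MotP.HL
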