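import Pool.Agent.HL.St3

/-!
# The half law, module NFZ: infinitely many powers of a variety
-/

set_option autoImplicit false

open CategoryTheory MonoidalCategory CartesianMonoidalCategory Limits Polynomial

universe v u w x

namespace MotP.HL

open CHM

noncomputable section

variable {V : Type u} [Category.{v} V] [CartesianMonoidalCategory V]

theorem t_NFZ (T : CHM.ChowTheory.{v, u, w} V) : M_NFZ.{v, u, w, x} T := by
  intro hBFA hINF hG hU hN hE hNMU hNPW R K X N M hNr hMr h0 c hc hNM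
  set W := frobQ hG hU hN R K hE with hW
  set Y := CHM.Mot.h (numQ T hG hU) X 0 with hY
  have hb : b W Y = Module.finrank ℂ (K.H X) := (hNMU hG hU hN R K hE X).2
  have hn : ∀ r, nn Y r = N r := fun r => ((hNPW hG hU hN R K hE X r).1).trans (hNr r).symm
  have hm : ∀ r, mm W Y r = M r := fun r => ((hNPW hG hU hN R K hE X r).2.1).trans (hMr r).symm
  have h1 : 𝟙 Y ≠ 0 := by
    intro h
    have h2 := W.t_split (𝟙 Y) (𝟙 Y) (Category.comp_id _) (𝟙 Y) (𝟙 Y) (Category.comp_id _)
      (by rw [h]; simp)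
    have h3 := ((hBFA hG hU W).2.1 Y Y Y h2).1
    omega
  obtain ⟨r, hr0, hr⟩ := hINF hG hU W Y h1 c hc (fun k => by
    obtain ⟨r, hr, hr'⟩ := hNM k
    exact ⟨r, hr, by rw [hn, hm]; exact hr'⟩)
  refine ⟨r, hr0, ?_⟩
  rw [hb, hn, hn, hm] at hr
  exact hr

end

end MotP.HL
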