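import Pool.Agent.HL.NumB

/-!
# The half law, part N: cycles modulo numerical equivalence are graded
-/

set_option autoImplicit false

open CategoryTheory MonoidalCategory CartesianMonoidalCategory Limits

universe v u w

namespace MotP.HL

open CHM

noncomputable section

variable {V : Type u} [Category.{v} V] [CartesianMonoidalCategory V]
  (T : CHM.ChowTheory.{v, u, w} V)

namespace NGR

theorem top (X : V) : ⨆ i, grQ T X i = ⊤ := by
  have h1 := (DirectSum.Decomposition.isInternal (T.gr X)).submodule_iSup_eq_top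
  have h2 : ⨆ i, grQ T X i = (⨆ i, T.gr X i).map (pr T X).toLinearMap :=
    (Submodule.map_iSup _ _).symm
  rw [h2, h1, Submodule.map_top, LinearMap.range_eq_top]
  exact pr_surj T X

theorem indep (X : V) : iSupIndep (grQ T X) := by
  rw [iSupIndep_iff_finsetSum_eq_zero_imp_eq_zero]
  intro s y hy hs i hi
  have h1 : ∀ j, ∃ b, j ∈ s → b ∈ T.gr X j ∧ pr T X b = y j := by
    intro j
    by_cases hj : j ∈ s
    · obtain ⟨b, hb, hb'⟩ := hy j hj
      exact ⟨b, fun _ => ⟨hb, hb'⟩⟩
    · exact ⟨0, fun h => absurd h hj⟩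
  choose b hb using h1
  have h2 : ∑ j ∈ s, b j ∈ nt T X := by
    rw [← pr_eq_zero, map_sum, ← hs]
    exact Finset.sum_congr rfl fun j hj => (hb j hj).2
  rw [← (hb i hi).2, pr_eq_zero]
  refine nt_of_homog T (hb i hi).1 fun c hc => ?_
  have h3 := h2 c
  rw [Finset.sum_mul, map_sum, Finset.sum_eq_single i] at h3
  · exact h3
  · intro j hj hji
    exact deg_eq_zero T (T.mul_mem (hb j hj).1 hc) (by omega)
  · intro h
    exact absurd hi h

end NGR

/-- NGR. The cycles modulo numerical equivalence are graded. -/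
theorem t_NGR : S_NGR T := by
  classical
  intro X
  have hint : DirectSum.IsInternal (grQ T X) :=
    DirectSum.isInternal_submodule_of_iSupIndep_of_iSup_eq_top (NGR.indep T X) (NGR.top T X)
  have hmon : SetLike.GradedMonoid (grQ T X) :=
    { one_mem := ⟨1, T.one_mem X, map_one (pr T X)⟩
      mul_mem := by
        rintro i j _ _ ⟨a, ha, rfl⟩ ⟨b, hb, rfl⟩
        exact ⟨a * b, T.mul_mem ha hb, map_mul (pr T X) a b⟩ }
  let dec := hint.chooseDecomposition
  exact ⟨{ toGradedMonoid := hmon, toDecomposition := dec }⟩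

end

end MotP.HL
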