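import Pool.Agent.HL.NumSt

/-!
# The half law, module NHA: the half law for cycles (assembly)
-/

set_option autoImplicit false

open CategoryTheory MonoidalCategory CartesianMonoidalCategory Limits Polynomial

universe v u w x

namespace MotP.HL

open CHM

noncomputable section

variable {V : Type u} [Category.{v} V] [CartesianMonoidalCategory V]

theorem t_NHA (T : CHM.ChowTheory.{v, u, w} V) : M_NHA.{v, u, w, x} T := by
  intro hADD hBFA hHLF hG hU hN hE hHO hMU hCL R K
  obtain ⟨W, hW⟩ : ∃ W : MotP.Frob (CHM.Mot (numQ T hG hU)), W = frobQ hG hU hN R K hE := ⟨_, rfl⟩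
  have hm : ∀ (X : V) (i : ℤ), m W (CHM.Mot.h (numQ T hG hU) X i) = K.mult X i := by
    intro X i
    rw [hW]
    exact (hMU hG hU hN R K hE X).1 i
  have hn : ∀ (X : V) (i : ℤ), n (CHM.Mot.h (numQ T hG hU) X i) =
      Cardinal.toNat (Module.rank ℚ (T.gr X i ⧸ T.num X i)) := by
    intro X i
    rw [hHO hG hU X i]
    rfl
  have h1 : ∀ (X : V) (i : ℤ), Module.rank ℚ (T.gr X i ⧸ T.num X i) ≤ (K.mult X i : ℕ) := by
    intro X i
    rw [hHO hG hU X i, ← hm]
    exact W.rank_le _
  refine ⟨h1, ?_⟩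
  intro S hS1 hS2 c hc hh X i hX
  obtain ⟨c1, c2, c3, c4⟩ := hCL hG hU S hS1 hS2
  have hP : ∀ M, Gen (numQ T hG hU) S M → c * m W M ≤ n M := by
    intro M hM
    induction hM with
    | h Y j hY =>
      rw [hm, hn]
      exact hh Y j hY
    | sum D _ _ ihX ihY =>
      rename_i A B Z _ _
      have e1 := hADD hG hU W Z A B D
      have e2 := (hBFA hG hU W).2.1 Z A B e1.1
      have e3 : n Z = n A + n B := e1.2.2.1 (𝟙_ _)
      rw [e2.2, e3]
      push_cast
      linarith
  have h2 := hHLF hG hU W (Gen (numQ T hG hU) S) c1 c2 c3 c4 c hc hP _ (Gen.h X i hX)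
  rw [hm, hn] at h2
  have h3 : Module.rank ℚ (T.gr X i ⧸ T.num X i) < Cardinal.aleph0 :=
    (h1 X i).trans_lt (Cardinal.natCast_lt_aleph0)
  rw [← Cardinal.cast_toNat_of_lt_aleph0 h3, h2]

end

end MotP.HL
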