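import Pool.Agent.HL.NumSt
import Pool.Agent.CHM.Num
import Pool.Agent.CHM.RatNum

/-!
# The half law, module NND: sections are numerically nontrivial
-/

set_option autoImplicit false

open CategoryTheory MonoidalCategory CartesianMonoidalCategory Limits

universe v u w

namespace MotP.HL

open CHM

variable {V : Type u} [Category.{v} V] [CartesianMonoidalCategory V]

theorem t_NND (T : CHM.ChowTheory.{v, u, w} V) : S_NND T := by
  intro hG hU M f hf
  have h1 : MotP.NumTrivial f := fun g => CHM.Mot.trace_zero_of_zero _ (hf g)
  have h2 := (CHM.Mot.numTrivial_iff f).1 h1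
  have h3 : f.1 ∈ nt (numQ T hG hU) _ := nt_of_homog (numQ T hG hU) f.2.1 h2
  exact Subtype.ext (numQ_num hG hU f.1 h3)

end MotP.HL
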