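import Pool.Agent.HL.NumSt

/-!
# The half law, part N: powers of a variety
-/

set_option autoImplicit false

open CategoryTheory MonoidalCategory CartesianMonoidalCategory Limits Polynomial

universe v u w x

namespace MotP.HL

open CHM

noncomputable section

variable {V : Type u} [Category.{v} V] [CartesianMonoidalCategory V]

theorem NPW_dim (T : CHM.ChowTheory.{v, u, w} V) (X : V) (r : ℕ) :
    T.dim (CHM.pow X r) = r * T.dim X := by
  induction r with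
  | zero =>
    change T.dim (𝟙_ V) = _
    rw [T.dim_unit]
    simp
  | succ r ih =>
    change T.dim (CHM.pow X r ⊗ X) = _
    rw [T.dim_tensor, ih]
    push_cast
    ring

theorem NPW_ten (T : CHM.ChowTheory.{v, u, w} V) (Y : V) :
    CHM.Mot.h T Y 0 ⊗ (CHM.Mot.h T Y 0)ᘁ = CHM.Mot.h T (Y ⊗ Y) (T.dim Y) := by
  rw [h_dual, h_tensor]
  congr 1
  ring

theorem t_NPW (T : CHM.ChowTheory.{v, u, w} V) : M_NPW.{v, u, w, x} T := by
  intro hADJ hNHO hNMU hG hU hN R K hE X r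
  have e1 : ∀ (Y : V) (i : ℤ), n (CHM.Mot.h (numQ T hG hU) Y i) =
      Cardinal.toNat (Module.rank ℚ (T.gr Y i ⧸ T.num Y i)) := by
    intro Y i
    rw [hNHO hG hU Y i]
    rfl
  have e2 := (hADJ hG hU (frobQ hG hU hN R K hE)).1
  have e3 : (CHM.Mot.h (numQ T hG hU) (CHM.pow X r) 0 ⊗
      (CHM.Mot.h (numQ T hG hU) (CHM.pow X r) 0)ᘁ) =
      CHM.Mot.h (numQ T hG hU) (CHM.pow X r ⊗ CHM.pow X r) (r * T.dim X) := by
    rw [NPW_ten, NPW_dim]
    rfl
  have e4 : (CHM.Mot.h (numQ T hG hU) X 0 ⊗ (CHM.Mot.h (numQ T hG hU) X 0)ᘁ) =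
      CHM.Mot.h (numQ T hG hU) (X ⊗ X) (T.dim X) := NPW_ten _ _
  refine ⟨?_, ?_, ?_, ?_⟩
  · unfold nn
    rw [e2, CHM.Mot.T_h, e3, e1]
  · unfold mm
    rw [CHM.Mot.T_h, e3]
    exact (hNMU hG hU hN R K hE _).1 _
  · rw [e2, e4, e1]
  · rw [e4]
    exact (hNMU hG hU hN R K hE _).1 _

end

end MotP.HL
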