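import Pool.Agent.HL.St

/-!
# The half law: the norm bound (NRM)
-/

set_option autoImplicit false

open CategoryTheory MonoidalCategory BraidedCategory Limits Polynomial

universe v u

namespace MotP.HL

open Mot MotP.GGap

noncomputable section

namespace NRM

theorem pow_lower (a N : ℕ) : a ^ (N + 1) + (N + 1) * a ^ N ≤ (a + 1) ^ (N + 1) := by
  induction N with
  | zero => simp
  | succ N ih =>
    calc a ^ (N + 1 + 1) + (N + 1 + 1) * a ^ (N + 1)
        = a * (a ^ (N + 1) + (N + 1) * a ^ N) + a ^ (N + 1) := by ring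
      _ ≤ a * (a ^ (N + 1) + (N + 1) * a ^ N) + (a ^ (N + 1) + (N + 1) * a ^ N) := by
          apply Nat.add_le_add_left
          exact Nat.le_add_right _ _
      _ = (a + 1) * (a ^ (N + 1) + (N + 1) * a ^ N) := by ring
      _ ≤ (a + 1) * (a + 1) ^ (N + 1) := Nat.mul_le_mul_left _ ih
      _ = (a + 1) ^ (N + 1 + 1) := by ring

theorem num (x : ℕ → ℕ) (B y u : ℕ) (h1 : ∀ j, x j ^ 2 ≤ y * x (j + 1))
    (h2 : ∀ j, x j ≤ B ^ (2 ^ j) * u) : x 0 ≤ B * y := by
  by_contra hc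
  push Not at hc
  have h3 : ∀ j, y * x 0 ^ (2 ^ j) ≤ y ^ (2 ^ j) * x j := by
    intro j
    induction j with
    | zero => simp
    | succ j ih =>
      rcases Nat.eq_zero_or_pos y with hy | hy
      · subst hy
        simp
      · have h4 : (y * x 0 ^ (2 ^ j)) ^ 2 ≤ (y ^ (2 ^ j) * x j) ^ 2 := Nat.pow_le_pow_left ih 2
        have h5 : y * (y * x 0 ^ (2 ^ (j + 1))) ≤ y * (y ^ (2 ^ (j + 1)) * x (j + 1)) := by
          calc y * (y * x 0 ^ (2 ^ (j + 1))) = (y * x 0 ^ (2 ^ j)) ^ 2 := by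
                rw [pow_succ 2 j, pow_mul]; ring
            _ ≤ (y ^ (2 ^ j) * x j) ^ 2 := h4
            _ = (y ^ (2 ^ j)) ^ 2 * x j ^ 2 := by ring
            _ ≤ (y ^ (2 ^ j)) ^ 2 * (y * x (j + 1)) := Nat.mul_le_mul_left _ (h1 j)
            _ = y * (y ^ (2 ^ (j + 1)) * x (j + 1)) := by
                rw [pow_succ 2 j, pow_mul]; ring
        exact Nat.le_of_mul_le_mul_left h5 hy
  have hy : 0 < y := by
    rcases Nat.eq_zero_or_pos y with hy | hy
    · exfalso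
      have := h1 0
      rw [hy, zero_mul] at this
      have h6 : x 0 = 0 := by
        by_contra h7
        have := Nat.pos_of_ne_zero h7
        have : 0 < x 0 ^ 2 := by positivity
        omega
      omega
    · exact hy
  set a := B * y with ha
  -- `(a + 1) ^ N ≤ a ^ N * u`
  have h7 : ∀ j, (a + 1) ^ (2 ^ j) ≤ a ^ (2 ^ j) * u := by
    intro j
    calc (a + 1) ^ (2 ^ j) ≤ x 0 ^ (2 ^ j) := Nat.pow_le_pow_left hc _
      _ ≤ y * x 0 ^ (2 ^ j) := Nat.le_mul_of_pos_left _ hy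
      _ ≤ y ^ (2 ^ j) * x j := h3 j
      _ ≤ y ^ (2 ^ j) * (B ^ (2 ^ j) * u) := Nat.mul_le_mul_left _ (h2 j)
      _ = a ^ (2 ^ j) * u := by rw [ha, mul_pow]; ring
  obtain ⟨j, hj⟩ : ∃ j, a * u < 2 ^ j := ⟨a * u, Nat.lt_two_pow_self⟩
  obtain ⟨N, hN⟩ : ∃ N, 2 ^ j = N + 1 := ⟨2 ^ j - 1, by
    have : 0 < 2 ^ j := by positivity
    omega⟩
  have h8 := h7 j
  rw [hN] at h8
  rw [hN] at hj
  have h9 := (pow_lower a N).trans h8
  rcases Nat.eq_zero_or_pos a with h0 | h0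
  · have h10 := h7 0
    rw [h0] at h10
    simp at h10
  · have h10 : a ^ N * (N + 1) ≤ a ^ N * (a * u) := by
      calc a ^ N * (N + 1) ≤ a ^ (N + 1) + (N + 1) * a ^ N := by
            rw [mul_comm]; exact Nat.le_add_left _ _
        _ ≤ a ^ (N + 1) * u := h9
        _ = a ^ N * (a * u) := by ring
    have h11 := Nat.le_of_mul_le_mul_left h10 (by positivity)
    omega

end NRM

variable (C : Type u) [Category.{v} C] [Preadditive C] [Linear ℚ C] [MonoidalCategory C]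
  [SymmetricCategory C] [MonoidalPreadditive C] [MonoidalLinear ℚ C] [RightRigidCategory C]

namespace NRM

variable {C}

/-- the objects `Q_j` -/
def Q (R : C) : ℕ → C
  | 0 => R
  | j + 1 => (Q R j)ᘁ ⊗ Q R j

end NRM

theorem t_NRM : M_NRM C := by
  intro hADJ hBFA hCSI _ _ W R U
  obtain ⟨hA1, hA2, hA3, hA4, hA5, hA6⟩ := hADJ W
  obtain ⟨hB1, hB2, hB3, hB4, hB5, hB6, hB7⟩ := hBFA W
  have key := NRM.num (fun j => h U (NRM.Q R j ⊗ U)) (b W R) (h U U) (b W U * b W U) ?_ ?_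
  · exact key
  · intro j
    have h1 := hCSI W U (NRM.Q R j ⊗ U)
    rw [hA5] at h1
    exact h1
  · intro j
    have hb : ∀ j, b W (NRM.Q R j) = b W R ^ (2 ^ j) := by
      intro j
      induction j with
      | zero => simp [NRM.Q]
      | succ j ih =>
        show b W ((NRM.Q R j)ᘁ ⊗ NRM.Q R j) = _
        rw [hB1, hB3, ih, pow_succ 2 j, pow_mul]
        ring
    calc h U (NRM.Q R j ⊗ U) ≤ m W ((NRM.Q R j ⊗ U) ⊗ Uᘁ) := W.finrank_hom_le _ _
      _ ≤ b W ((NRM.Q R j ⊗ U) ⊗ Uᘁ) := hB5 _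
      _ = b W R ^ (2 ^ j) * (b W U * b W U) := by
          rw [hB1, hB1, hB3, hb j]
          ring

end

end MotP.HL
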