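import Pool.Agent.HL.NumSt

/-!
# The half law, module NTC: traces modulo numerical equivalence are traces of correspondences
-/

set_option autoImplicit false

open CategoryTheory MonoidalCategory CartesianMonoidalCategory Limits

universe v u w

namespace MotP.HL

open CHM

noncomputable section

namespace NTC

variable {V : Type u} [Category.{v} V] [CartesianMonoidalCategory V]

/-- the scalar of a trace -/
theorem scalar_eq {T : CHM.ChowTheory.{v, u, w} V} {M : CHM.Mot T} (f : M ⟶ M) (r : ℚ)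
    (h : MotP.tr M f = r • 𝟙 (𝟙_ _)) : r = T.trc f.1 := by
  have h1 : MotP.tr M f = T.deg (T.pull (lift (𝟙 M.X) (𝟙 M.X)) f.1) • 𝟙 (𝟙_ (CHM.Mot T)) :=
    CHM.Mot.trace_eq f
  have h2 : (r - T.trc f.1) • 𝟙 (𝟙_ (CHM.Mot T)) = 0 := by
    rw [sub_smul, ← h, h1]
    exact sub_self _
  rcases smul_eq_zero.1 h2 with h3 | h3
  · exact sub_eq_zero.1 h3
  · exact absurd h3 CHM.Mot.unit_ne

/-- powers of the graph of Frobenius commute with the projector -/
theorem cpow_comm {T : CHM.ChowTheory.{v, u, w} V} (R : CHM.FrobeniusMaps T) (M : CHM.Mot T)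
    (k : ℕ) : T.cp (T.cpow (T.gr' (R.Fr M.X)) k) M.p = T.cp M.p (T.cpow (T.gr' (R.Fr M.X)) k) := by
  induction k with
  | zero =>
    change T.cp (T.diag M.X) M.p = T.cp M.p (T.diag M.X)
    rw [T.diag_cp, T.cp_diag]
  | succ k ih =>
    change T.cp (T.cp (T.cpow (T.gr' (R.Fr M.X)) k) (T.gr' (R.Fr M.X))) M.p =
      T.cp M.p (T.cp (T.cpow (T.gr' (R.Fr M.X)) k) (T.gr' (R.Fr M.X)))
    rw [T.cp_assoc, R.cp_p_gr', ← T.cp_assoc, ih, T.cp_assoc]

/-- the value of a power of the Frobenius endomorphism -/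
theorem pw_val {T : CHM.ChowTheory.{v, u, w} V} (R : CHM.FrobeniusMaps T) (M : CHM.Mot T)
    (k : ℕ) : (_root_.Mot.pw (R.F.app M) k).1 =
      ((R.q : ℚ) ^ (-M.m)) ^ k • T.cp M.p (T.cpow (T.gr' (R.Fr M.X)) k) := by
  induction k with
  | zero =>
    change M.p = _ • T.cp M.p (T.diag M.X)
    rw [pow_zero, one_smul, T.cp_diag]
  | succ k ih =>
    change T.cp (_root_.Mot.pw (R.F.app M) k).1 (R.onMot M).1 = _ • T.cp M.p
      (T.cp (T.cpow (T.gr' (R.Fr M.X)) k) (T.gr' (R.Fr M.X)))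
    rw [ih, R.onMot_val, T.cp_smul, T.smul_cp, smul_smul, pow_succ']
    congr 1
    rw [← T.cp_assoc, T.cp_assoc M.p (T.cpow _ k) M.p, cpow_comm, ← T.cp_assoc M.p M.p, M.idem,
      T.cp_assoc]

variable {T : CHM.ChowTheory.{v, u, w} V} (hG : S_NGR T) (hU : S_NUN T)

theorem numQ_cpow {X : V} (f : T.CH (X ⊗ X)) (k : ℕ) :
    (numQ T hG hU).cpow (X := X) (pr T _ f) k = pr T _ (T.cpow f k) := by
  induction k with
  | zero => exact numQ_diag hG hU X
  | succ k ih =>
    change (numQ T hG hU).cp ((numQ T hG hU).cpow (X := X) (pr T _ f) k) (pr T _ f) =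
      pr T _ (T.cp (T.cpow f k) f)
    rw [ih]
    exact numQ_cp hG hU _ _

theorem cpow_idem {T : CHM.ChowTheory.{v, u, w} V} {X : V} (p : T.CH (X ⊗ X))
    (hp : T.cp p p = p) (k : ℕ) : T.cpow p (k + 1) = p := by
  induction k with
  | zero =>
    change T.cp (T.diag X) p = p
    rw [T.diag_cp]
  | succ k ih =>
    change T.cp (T.cpow p (k + 1)) p = p
    rw [ih, hp]

end NTC

open NTC

variable {V : Type u} [Category.{v} V] [CartesianMonoidalCategory V]

theorem t_NTC (T : CHM.ChowTheory.{v, u, w} V) : S_NTC T := by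
  intro hG hU R M P hP hPM k j r h
  rw [scalar_eq _ r h, pw_val (frQ hG hU R) M k]
  have h1 : ∀ (c : ℚ) (f : (numQ T hG hU).CH (M.X ⊗ M.X)),
      (numQ T hG hU).trc (c • f) = c * (numQ T hG hU).trc f := by
    intro c f
    unfold ChowTheory.trc
    rw [map_smul, map_smul, smul_eq_mul]
  rw [h1]
  congr 1
  have h2 : (numQ T hG hU).cpow (X := M.X) ((numQ T hG hU).gr' ((frQ hG hU R).Fr M.X)) k =
      pr T _ (T.cpow (T.gr' (R.Fr M.X)) k) := by
    rw [numQ_gr' hG hU]
    exact numQ_cpow hG hU _ k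
  have h3 : M.p = pr T _ (T.cpow P (j + 1)) := by
    rw [← numQ_cpow hG hU]
    refine Eq.trans ?_ (congrArg (fun p => (numQ T hG hU).cpow (X := M.X) p (j + 1)) hPM.symm)
    exact (cpow_idem (T := numQ T hG hU) M.p M.idem j).symm
  rw [h2, h3]
  refine Eq.trans ?_ (numQ_trc hG hU _)
  rw [← numQ_cp hG hU]

end

end MotP.HL
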