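import Pool.Agent.HL.NumSt

/-!
# The half law, module NTE: the traces of Frobenius of `h(X)(i)` are the same in `Mot T` and modulo
numerical equivalence
-/

set_option autoImplicit false

open CategoryTheory MonoidalCategory CartesianMonoidalCategory Limits Polynomial

universe v u w x

namespace MotP.HL

open CHM

noncomputable section

namespace NTE

variable {V : Type u} [Category.{v} V] [CartesianMonoidalCategory V]

variable (T : CHM.ChowTheory.{v, u, w} V)

theorem cpow_smul {X : V} (r : ℚ) (f : T.CH (X ⊗ X)) (k : ℕ) :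
    T.cpow (r • f) k = r ^ k • T.cpow f k := by
  induction k with
  | zero =>
    rw [pow_zero, one_smul]
    rfl
  | succ k ih =>
    change T.cp (T.cpow (r • f) k) (r • f) = r ^ (k + 1) • T.cp (T.cpow f k) f
    rw [ih, T.cp_smul, T.smul_cp, smul_smul, pow_succ']

theorem cpow_diag_one (X : V) : T.cpow (T.diag X) (0 + 1) = T.diag X := by
  change T.cp (T.diag X) (T.diag X) = T.diag X
  rw [T.cp_diag]

end NTE

open NTE in
/-- MODULE NTE -/
theorem t_NTE {V : Type u} [Category.{v} V] [CartesianMonoidalCategory V]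
    (T : CHM.ChowTheory.{v, u, w} V) : M_NTE.{v, u, w, x} T := by
  intro hC hG hU hN R K hE X i k
  have h1 := (frobQ hG hU hN R K hE).val_spec
    (MotP.tr (CHM.Mot.h (numQ T hG hU) X i)
      ((frobQ hG hU hN R K hE).Fp (CHM.Mot.h (numQ T hG hU) X i) k))
  have h2 := hC hG hU R (CHM.Mot.h (numQ T hG hU) X i) (T.diag X) (T.diag_mem X)
    (numQ_diag hG hU X).symm k 0 _ h1
  rw [cpow_diag_one, T.diag_cp] at h2
  have h3 : ((frobQ hG hU hN R K hE).t (CHM.Mot.h (numQ T hG hU) X i) k) =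
      ((R.q : ℚ) ^ (-i)) ^ k * T.trc (T.cpow (T.gr' (R.Fr X)) k) := h2
  rw [h3]
  refine K.frobenius.trace_formula (CHM.Mot.h T X i) k _ ?_
  rw [CHM.Mot.trace_eq]
  congr 1
  have h4 : (_root_.Mot.component K.frobenius.F (CHM.Mot.h T X i) ^ k :
      End (CHM.Mot.h T X i)).1 = T.cpow (R.onMot (CHM.Mot.h T X i)).1 k :=
    CHM.Mot.pow_val _ k
  have h5 : (R.onMot (CHM.Mot.h T X i)).1 = (R.q : ℚ) ^ (-i) • T.gr' (R.Fr X) := by
    rw [R.onMot_val]
    change (R.q : ℚ) ^ (-i) • T.cp (T.diag X) (T.gr' (R.Fr X)) = _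
    rw [T.diag_cp]
  rw [h4, h5, cpow_smul, map_smul, map_smul, smul_eq_mul]
  rfl

end

end MotP.HL
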