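import Pool.Agent.HL.St

/-!
# The half law, module NTR: splitting off the trivial summands
-/

set_option autoImplicit false

open CategoryTheory MonoidalCategory BraidedCategory Limits Polynomial

universe v u

namespace MotP.HL

open Mot MotP.GGap

noncomputable section

set_option linter.unusedSectionVars false

variable (C : Type u) [Category.{v} C] [Preadditive C] [Linear ℚ C] [MonoidalCategory C]
  [SymmetricCategory C] [MonoidalPreadditive C] [MonoidalLinear ℚ C] [RightRigidCategory C]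

namespace NTR

variable {C}

/-- splitting off one trivial summand -/
theorem split_one [IsIdempotentComplete C] (W : Frob C) (X : C) (hn : n X ≠ 0) :
    ∃ Y : C, Nonempty (Dec X (𝟙_ C) Y) := by
  have hex : ∃ f : 𝟙_ C ⟶ X, f ≠ 0 := by
    by_contra hcon
    push Not at hcon
    apply hn
    have : Subsingleton (𝟙_ C ⟶ X) := ⟨fun a b => by rw [hcon a, hcon b]⟩
    exact Module.finrank_zero_of_subsingleton
  obtain ⟨f, hf⟩ := hex
  have hex' : ∃ g : X ⟶ 𝟙_ C, f ≫ g ≠ 0 := by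
    by_contra hcon
    push Not at hcon
    exact hf (W.nd X f hcon)
  obtain ⟨g, hfg⟩ := hex'
  have h1 := W.val_spec (f ≫ g)
  have h2 : W.val (f ≫ g) ≠ 0 := by
    intro h3
    rw [h3, zero_smul] at h1
    exact hfg h1
  set g' : X ⟶ 𝟙_ C := (W.val (f ≫ g))⁻¹ • g with hg'
  have h3 : f ≫ g' = 𝟙 _ := by
    rw [hg', Linear.comp_smul, h1, W.val_smul, W.val_id, mul_one, smul_smul,
      inv_mul_cancel₀ h2, one_smul]
  have h4 : (𝟙 X - g' ≫ f) ≫ (𝟙 X - g' ≫ f) = 𝟙 X - g' ≫ f := by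
    rw [Preadditive.sub_comp, Preadditive.comp_sub, Preadditive.comp_sub, Category.id_comp,
      Category.comp_id, Category.id_comp, Category.assoc, ← Category.assoc f g', h3,
      Category.id_comp]
    abel
  obtain ⟨Y, i, p, h5, h6⟩ := IsIdempotentComplete.idempotents_split X _ h4
  refine ⟨Y, ⟨⟨f, g', i, p, h3, h5, ?_, ?_, ?_⟩⟩⟩
  · -- f ≫ p = 0
    have h7 : f ≫ (p ≫ i) = 0 := by
      rw [h6, Preadditive.comp_sub, Category.comp_id, ← Category.assoc, h3, Category.id_comp,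
        sub_self]
    calc f ≫ p = f ≫ p ≫ (i ≫ p) := by rw [h5, Category.comp_id]
      _ = (f ≫ (p ≫ i)) ≫ p := by simp only [Category.assoc]
      _ = 0 := by rw [h7, Limits.zero_comp]
  · -- i ≫ g' = 0
    have h7 : (p ≫ i) ≫ g' = 0 := by
      rw [h6, Preadditive.sub_comp, Category.id_comp, Category.assoc, h3, Category.comp_id,
        sub_self]
    calc i ≫ g' = (i ≫ p) ≫ i ≫ g' := by rw [h5, Category.id_comp]
      _ = i ≫ ((p ≫ i) ≫ g') := by simp only [Category.assoc]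
      _ = 0 := by rw [h7, Limits.comp_zero]
  · rw [h6]
    abel

theorem n_unit (W : Frob C) : n (𝟙_ C) = 1 := by
  unfold n
  refine finrank_eq_one (𝟙 (𝟙_ C)) ?_ ?_
  · intro h0
    have h1 := W.val_id
    rw [h0] at h1
    have h2 := W.val_smul (0 : ℚ) (0 : 𝟙_ C ⟶ 𝟙_ C)
    rw [smul_zero, h1, zero_mul] at h2
    exact one_ne_zero h2
  · intro w
    exact ⟨W.val w, (W.val_spec w).symm⟩

theorem n_unit_tensor (U : C) : n (𝟙_ C ⊗ U) = n U := by
  unfold n
  exact (Linear.homCongr ℚ (Iso.refl (𝟙_ C)) (λ_ U)).finrank_eq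

theorem nu_unit (W : Frob C) (hb : b W (𝟙_ C) = 1) (h1 : ν W (𝟙_ C) 1 = 1) (z : ℂ)
    (hz : z ≠ 1) : ν W (𝟙_ C) z = 0 := by
  classical
  have h := TVA.b_eq (fr W) (𝟙_ C) ((fr W).S (𝟙_ C) ∪ {1, z}) Finset.subset_union_left
  have h2 : ∑ w ∈ ({1, z} : Finset ℂ), |(fr W).ν (𝟙_ C) w| ≤
      ∑ w ∈ (fr W).S (𝟙_ C) ∪ {1, z}, |(fr W).ν (𝟙_ C) w| :=
    Finset.sum_le_sum_of_subset_of_nonneg Finset.subset_union_right fun _ _ _ => abs_nonneg _
  rw [Finset.sum_pair (Ne.symm hz), ← h] at h2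
  have h3 : (((fr W).b (𝟙_ C) : ℕ) : ℤ) = 1 := by exact_mod_cast hb
  have h4 : (fr W).ν (𝟙_ C) 1 = 1 := h1
  rw [h3, h4, abs_one] at h2
  have h5 : |(fr W).ν (𝟙_ C) z| ≤ 0 := by linarith
  exact abs_nonpos_iff.mp h5

end NTR

open NTR in
theorem t_NTR : M_NTR C := by
  intro hA hT hB inst W
  obtain ⟨-, hadd, -, hbu, -, -, -⟩ := hB W
  obtain ⟨-, -, hone, hnu, -⟩ := hT W
  have hmu : m W (𝟙_ C) = 1 := W.mult_unit
  have key : ∀ (N : ℕ) (X : C), n X = N → ∃ Y : C,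
      n Y = 0 ∧ b W X = n X + b W Y ∧ m W X = n X + m W Y ∧
      (∀ z : ℂ, z ≠ 1 → ν W Y z = ν W X z) ∧
      ∀ U : C, n (X ⊗ U) = n X * n U + n (Y ⊗ U) := by
    intro N
    induction N with
    | zero =>
      intro X hX
      refine ⟨X, hX, ?_, ?_, fun _ _ => rfl, ?_⟩
      · rw [hX, zero_add]
      · rw [hX, zero_add]
      · intro U
        rw [hX, zero_mul, zero_add]
    | succ N ih =>
      intro X hX
      obtain ⟨X', ⟨D⟩⟩ := split_one W X (by rw [hX]; exact Nat.succ_ne_zero N)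
      obtain ⟨ht, -, hh, hD, -⟩ := hA W X (𝟙_ C) X' D
      have h1 : n X = 1 + n X' := by
        have h2 := hh (𝟙_ C)
        have h3 : n X = n (𝟙_ C) + n X' := h2
        rw [h3, n_unit W]
      obtain ⟨Y, hY0, hYb, hYm, hYν, hYt⟩ := ih X' (by omega)
      obtain ⟨hb1, hm1⟩ := hadd X (𝟙_ C) X' ht
      refine ⟨Y, hY0, ?_, ?_, ?_, ?_⟩
      · rw [hb1, hbu, hYb, h1, add_assoc]
      · rw [hm1, hmu, hYm, h1, add_assoc]
      · intro z hz
        rw [hYν z hz, hnu X (𝟙_ C) X' ht z,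
          nu_unit W hbu (by rw [hone, hmu]; rfl) z hz, zero_add]
      · intro U
        obtain ⟨D'⟩ := hD U
        have h4 : n (X ⊗ U) = n (𝟙_ C ⊗ U) + n (X' ⊗ U) :=
          (hA W (X ⊗ U) (𝟙_ C ⊗ U) (X' ⊗ U) D').2.2.1 (𝟙_ C)
        rw [h4, n_unit_tensor, hYt U, h1]
        ring
  intro X
  exact key (n X) X rfl

end

end MotP.HL
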