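import Pool.Agent.HL.St

/-!
# The half law, module PAR: parity of the eigenvalues
-/

set_option autoImplicit false

open CategoryTheory MonoidalCategory BraidedCategory Limits Polynomial

universe v u

namespace MotP.HL

open Mot MotP.GGap

noncomputable section

set_option linter.unusedSectionVars false

variable (C : Type u) [Category.{v} C] [Preadditive C] [Linear ℚ C] [MonoidalCategory C]
  [SymmetricCategory C] [MonoidalPreadditive C] [MonoidalLinear ℚ C] [RightRigidCategory C]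

theorem t_PAR : M_PAR C := by
  intro hS hT inst W X Y z hXY
  obtain ⟨hX, hY⟩ := hXY
  obtain ⟨hten, hdual, hone, -, -⟩ := hT W
  have fX : Module.Finite ℚ (X ⟶ X) := W.finite_hom X X
  have fY : Module.Finite ℚ (Y ⟶ Y) := W.finite_hom Y Y
  have hX0 : (fr W).ν X z ≠ 0 := ne_of_gt hX
  have hY0 : (fr W).ν Y z ≠ 0 := ne_of_lt hY
  have hz0 : z ≠ 0 := (TVD.t_dual (fr W) X fX).2 z hX0
  obtain ⟨X₁, X₂, -, -, -, hr, hn⟩ := hS W X (minpoly ℚ z)
  obtain ⟨Y₁, Y₂, -, -, -, hr', hn'⟩ := hS W Y (minpoly ℚ z)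
  have hroot : aeval z (minpoly ℚ z) = 0 := minpoly.aeval ℚ z
  -- the terms
  have hterm : ∀ u : ℂ, ν W X₁ u * ν W Y₁ u ≤ 0 := by
    intro u
    by_cases hu : aeval u (minpoly ℚ z) = 0
    · have h1 : ν W X₁ u = ν W X z := by
        rw [(hr u hu).1]
        exact DEC.ν_galois (fr W) fX hX0 hu
      have h2 : ν W Y₁ u = ν W Y z := by
        rw [(hr' u hu).1]
        exact DEC.ν_galois (fr W) fY hY0 hu
      rw [h1, h2]
      exact (mul_neg_of_pos_of_neg hX hY).le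
    · rw [(hn u hu).1, zero_mul]
  have hzt : ν W X₁ z * ν W Y₁ z < 0 := by
    rw [(hr z hroot).1, (hr' z hroot).1]
    exact mul_neg_of_pos_of_neg hX hY
  have hzX : z ∈ (fr W).S X₁ := by
    apply DEC.mem_of_ν (fr W)
    intro h
    have h1 : ν W X₁ z = 0 := h
    rw [h1, zero_mul] at hzt
    exact lt_irrefl _ hzt
  have hzY : z⁻¹ ∈ (fr W).S Y₁ᘁ := by
    apply DEC.mem_of_ν (fr W)
    intro h
    have h1 : ν W Y₁ᘁ z⁻¹ = 0 := h
    rw [hdual, inv_inv] at h1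
    rw [h1, mul_zero] at hzt
    exact lt_irrefl _ hzt
  have key := hten X₁ Y₁ᘁ 1
  rw [hone] at key
  have hle : ∀ u ∈ (fr W).S X₁, ∀ u' ∈ (fr W).S Y₁ᘁ,
      (if u * u' = 1 then ν W X₁ u * ν W Y₁ᘁ u' else 0) ≤ 0 := by
    intro u _ u' _
    split_ifs with h
    · have h1 : u'⁻¹ = u := (eq_inv_of_mul_eq_one_left h).symm
      rw [hdual, h1]
      exact hterm u
    · exact le_refl _
  have hlt : ∑ u ∈ (fr W).S X₁, ∑ u' ∈ (fr W).S Y₁ᘁ,
      (if u * u' = 1 then ν W X₁ u * ν W Y₁ᘁ u' else 0) < 0 := by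
    refine Finset.sum_neg' (fun u hu => Finset.sum_nonpos (hle u hu)) ⟨z, hzX, ?_⟩
    refine Finset.sum_neg' (hle z hzX) ⟨z⁻¹, hzY, ?_⟩
    rw [if_pos (mul_inv_cancel₀ hz0), hdual, inv_inv]
    exact hzt
  rw [← key] at hlt
  have h0 : (0 : ℤ) ≤ (m W (X₁ ⊗ Y₁ᘁ) : ℤ) := Int.natCast_nonneg _
  omega

end

end MotP.HL
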