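import Pool.Agent.HL.St

/-!
# The half law: splitting by a polynomial in Frobenius
-/

set_option autoImplicit false

open CategoryTheory MonoidalCategory BraidedCategory Limits Polynomial

universe v u

namespace MotP.HL

open Mot MotP.GGap

noncomputable section

set_option linter.unusedSectionVars false

variable (C : Type u) [Category.{v} C] [Preadditive C] [Linear ℚ C] [MonoidalCategory C]
  [SymmetricCategory C] [MonoidalPreadditive C] [MonoidalLinear ℚ C] [RightRigidCategory C]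

namespace SPL

variable {C}

/-- polynomials in the Frobenius are natural -/
lemma nat (W : Fr C) {A B : C} (f : A ⟶ B) (g : ℚ[X]) :
    f ≫ (aeval (W.FE B) g : End B) = (aeval (W.FE A) g : End A) ≫ f := by
  induction g using Polynomial.induction_on' with
  | add p q hp hq =>
    rw [map_add, map_add]
    have h1 : f ≫ ((aeval (W.FE B) p + aeval (W.FE B) q : End B) : B ⟶ B) =
        f ≫ (aeval (W.FE B) p : End B) + f ≫ (aeval (W.FE B) q : End B) :=
      Preadditive.comp_add _ _ _ _ _ _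
    have h2 : ((aeval (W.FE A) p + aeval (W.FE A) q : End A) : A ⟶ A) ≫ f =
        (aeval (W.FE A) p : End A) ≫ f + (aeval (W.FE A) q : End A) ≫ f :=
      Preadditive.add_comp _ _ _ _ _ _
    rw [h1, h2, hp, hq]
  | monomial n a =>
    rw [aeval_monomial, aeval_monomial, Fr.FE_pow, Fr.FE_pow, ← Algebra.smul_def,
      ← Algebra.smul_def]
    have h1 : f ≫ ((a • (W.Fp B n : End B) : End B) : B ⟶ B) = a • (f ≫ W.Fp B n) :=
      Linear.comp_smul _ _ _ f a (W.Fp B n)
    have h2 : ((a • (W.Fp A n : End A) : End A) : A ⟶ A) ≫ f = a • (W.Fp A n ≫ f) :=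
      Linear.smul_comp _ _ _ a (W.Fp A n) f
    rw [h1, h2, W.Fp_nat]

/-- composition of polynomials in the Frobenius -/
lemma comp (W : Fr C) (A : C) (g h : ℚ[X]) :
    ((aeval (W.FE A) g : End A) : A ⟶ A) ≫ (aeval (W.FE A) h : End A) =
      (aeval (W.FE A) (g * h) : End A) := by
  rw [nat W]
  have h1 : (aeval (W.FE A) (g * h) : End A) = aeval (W.FE A) g * aeval (W.FE A) h := map_mul _ _ _
  rw [h1]
  rfl

end SPL

theorem t_SPL : S_SPL C := by
  classical
  intro _ W X g
  have hfin0 : Module.Finite ℚ (X ⟶ X) := W.finite_hom X X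
  have hfin : Module.Finite ℚ (End X) := hfin0
  obtain ⟨V, hV⟩ : ∃ V : Fr C, V = fr W := ⟨_, rfl⟩
  obtain ⟨k, N, hk1, hk2, hk3⟩ := DEC.fit (V.FE X) g
  obtain ⟨r, hr⟩ := hk1
  have he : ((aeval (V.FE X) (1 - k) : End X) : X ⟶ X) ≫ (aeval (V.FE X) (1 - k) : End X) =
      (aeval (V.FE X) (1 - k) : End X) := by
    rw [SPL.comp]
    have h1 : (1 - k) * (1 - k) = (1 - k) + (k * k - k) := by ring
    rw [h1, map_add, hk2, add_zero]
  have he' : ((aeval (V.FE X) k : End X) : X ⟶ X) ≫ (aeval (V.FE X) k : End X) =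
      (aeval (V.FE X) k : End X) := by
    rw [SPL.comp]
    have h1 : k * k = k + (k * k - k) := by ring
    rw [h1, map_add, hk2, add_zero]
  obtain ⟨Y, i, p, hip, hpi⟩ := IsIdempotentComplete.idempotents_split X _ he
  obtain ⟨Z, j, q, hjq, hqj⟩ := IsIdempotentComplete.idempotents_split X _ he'
  have hsum : p ≫ i + q ≫ j = 𝟙 X := by
    rw [hpi, hqj]
    have h1 : (aeval (V.FE X) (1 - k) + aeval (V.FE X) k : End X) = 1 := by
      rw [← map_add, sub_add_cancel, map_one]
    exact h1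
  have hz0 : (aeval (V.FE X) ((1 - k) * k) : End X) = 0 := by
    have h1 : (1 - k) * k = -(k * k - k) := by ring
    rw [h1, map_neg, hk2, neg_zero]
  have hz1 : (aeval (V.FE X) (k * (1 - k)) : End X) = 0 := by
    rw [mul_comm, hz0]
  have hiq : i ≫ q = 0 := by
    calc i ≫ q = (i ≫ p) ≫ (i ≫ q) ≫ (j ≫ q) := by
          rw [hip, hjq, Category.id_comp, Category.comp_id]
      _ = i ≫ ((p ≫ i) ≫ (q ≫ j)) ≫ q := by simp only [Category.assoc]
      _ = 0 := by
          rw [hpi, hqj, SPL.comp, hz0]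
          exact (congrArg (i ≫ ·) Limits.zero_comp).trans Limits.comp_zero
  have hjp : j ≫ p = 0 := by
    calc j ≫ p = (j ≫ q) ≫ (j ≫ p) ≫ (i ≫ p) := by
          rw [hip, hjq, Category.id_comp, Category.comp_id]
      _ = j ≫ ((q ≫ j) ≫ (p ≫ i)) ≫ p := by simp only [Category.assoc]
      _ = 0 := by
          rw [hpi, hqj, SPL.comp, hz1]
          exact (congrArg (j ≫ ·) Limits.zero_comp).trans Limits.comp_zero
  -- traces
  have hc : ∀ z : ℂ, V.ν X z ≠ 0 → (aeval z g = 0 → aeval z (1 - k) = 1) ∧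
      (aeval z g ≠ 0 → aeval z (1 - k) = 0) := by
    intro z hz
    refine ⟨fun h3 => ?_, fun h3 => ?_⟩
    · have h4 : aeval z (1 - k) = (1 : ℂ) := by
        rw [map_sub, map_one, hr, map_mul, h3, zero_mul, sub_zero]
      exact h4
    · obtain ⟨s, hs⟩ := hk3
      have h4 := congrArg (aeval z) hs
      rw [map_mul _ (minpoly ℚ (V.FE X)), DEC.ν_root V hfin0 hz, zero_mul, map_mul, map_pow] at h4
      rcases mul_eq_zero.mp h4 with h5 | h5
      · exact h5
      · exact absurd h5 (pow_ne_zero _ h3)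
  have htY : ∀ n, (V.t Y n : ℂ) =
      ∑ z ∈ V.S Y ∪ V.S X, (((if aeval z g = 0 then V.ν X z else 0 : ℤ)) : ℂ) * z ^ n := by
    intro n
    have h1 : V.t Y n = V.val (tr X (aeval (V.FE X) ((1 - k) * Polynomial.X ^ n) : End X)) := by
      rw [V.t_retract i p hip, hpi]
      congr 2
      have h2 : (V.Fp X n : X ⟶ X) = (aeval (V.FE X) ((Polynomial.X : ℚ[X]) ^ n) : End X) := by
        rw [map_pow, aeval_X, Fr.FE_pow]
      rw [h2, SPL.comp]
    rw [h1, DEC.tr_poly]
    have h3 : ∑ z ∈ V.S X, (V.ν X z : ℂ) * aeval z ((1 - k) * Polynomial.X ^ n) =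
        ∑ z ∈ V.S X, (((if aeval z g = 0 then V.ν X z else 0 : ℤ)) : ℂ) * z ^ n := by
      apply Finset.sum_congr rfl
      intro z _
      rw [map_mul, map_pow, aeval_X]
      by_cases hν : V.ν X z = 0
      · rw [hν]
        simp
      · by_cases hg : aeval z g = 0
        · rw [(hc z hν).1 hg, if_pos hg, one_mul]
        · rw [(hc z hν).2 hg, if_neg hg]
          simp
    rw [h3]
    apply Finset.sum_subset Finset.subset_union_right
    intro z _ hz
    have h4 : V.ν X z = 0 := nu_of_notMem hz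
    rw [h4]
    simp
  have hνY : ∀ z : ℂ, V.ν Y z = if aeval z g = 0 then V.ν X z else 0 := by
    intro z
    by_cases hz : z ∈ V.S Y ∪ V.S X
    · exact TVA.ν_eq V Y _ Finset.subset_union_left
        (fun z => if aeval z g = 0 then V.ν X z else 0) htY z hz
    · rw [Finset.mem_union, not_or] at hz
      have h2 : V.ν Y z = 0 := nu_of_notMem hz.1
      have h3 : V.ν X z = 0 := nu_of_notMem hz.2
      rw [h2, h3]
      simp
  have htZ : ∀ n, (V.t Z n : ℂ) =
      ∑ z ∈ V.S Z ∪ V.S X, (((V.ν X z - if aeval z g = 0 then V.ν X z else 0 : ℤ)) : ℂ) * z ^ n := by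
    intro n
    have h1 := V.t_split i p hip j q hjq hsum n
    have h2 : (V.t Z n : ℂ) = (V.t X n : ℂ) - (V.t Y n : ℂ) := by
      rw [h1]
      push_cast
      ring
    have h3 := TVA.t_sum' V Y (V.S Y ∪ (V.S Z ∪ V.S X)) Finset.subset_union_left n
    have h4 := TVA.t_sum' V X (V.S Y ∪ (V.S Z ∪ V.S X))
      (Finset.subset_union_right.trans Finset.subset_union_right) n
    rw [h2, h3, h4, ← Finset.sum_sub_distrib]
    have h5 : ∑ z ∈ V.S Y ∪ (V.S Z ∪ V.S X), ((V.ν X z : ℂ) * z ^ n - (V.ν Y z : ℂ) * z ^ n) =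
        ∑ z ∈ V.S Y ∪ (V.S Z ∪ V.S X),
          (((V.ν X z - if aeval z g = 0 then V.ν X z else 0 : ℤ)) : ℂ) * z ^ n := by
      apply Finset.sum_congr rfl
      intro z _
      rw [hνY z]
      push_cast
      ring
    rw [h5]
    symm
    apply Finset.sum_subset Finset.subset_union_right
    intro z _ hz
    have h6 : V.ν X z = 0 := nu_of_notMem fun h => hz (Finset.mem_union_right _ h)
    rw [h6]
    simp
  have hνZ : ∀ z : ℂ, V.ν Z z = V.ν X z - if aeval z g = 0 then V.ν X z else 0 := by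
    intro z
    by_cases hz : z ∈ V.S Z ∪ V.S X
    · exact TVA.ν_eq V Z _ Finset.subset_union_left
        (fun z => V.ν X z - if aeval z g = 0 then V.ν X z else 0) htZ z hz
    · rw [Finset.mem_union, not_or] at hz
      have h2 : V.ν Z z = 0 := nu_of_notMem hz.1
      have h3 : V.ν X z = 0 := nu_of_notMem hz.2
      rw [h2, h3]
      simp
  refine ⟨Y, Z, ⟨i, p, j, q, hip, hjq, hiq, hjp, hsum⟩, ⟨N, ?_⟩, ⟨r, ?_⟩, ?_, ?_⟩
  · rw [← hV]
    have h1 : ((aeval (V.FE Y) (g ^ N) : End Y) : Y ⟶ Y) ≫ i = 0 := by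
      rw [← SPL.nat V i (g ^ N)]
      have h2 : i = i ≫ (aeval (V.FE X) (1 - k) : End X) := by
        rw [← hpi, ← Category.assoc, hip, Category.id_comp]
      rw [h2, Category.assoc, SPL.comp]
      obtain ⟨s, hs⟩ := hk3
      have h3 : (aeval (V.FE X) ((1 - k) * g ^ N) : End X) = 0 := by
        rw [hs, map_mul, minpoly.aeval, zero_mul]
      rw [h3]
      exact Limits.comp_zero
    calc (aeval (V.FE Y) (g ^ N) : End Y)
        = ((aeval (V.FE Y) (g ^ N) : End Y) : Y ⟶ Y) ≫ i ≫ p := by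
          rw [hip]
          exact (Category.comp_id _).symm
      _ = 0 := by
          rw [← Category.assoc, h1]
          exact Limits.zero_comp
  · rw [← hV, ← hr]
    have h1 : ((aeval (V.FE Z) k : End Z) : Z ⟶ Z) ≫ j = j := by
      rw [← SPL.nat V j k, ← hqj, ← Category.assoc, hjq, Category.id_comp]
    have h2 : (aeval (V.FE Z) k : End Z) = ((aeval (V.FE Z) k : End Z) : Z ⟶ Z) ≫ j ≫ q := by
      rw [hjq]
      exact (Category.comp_id _).symm
    rw [h2, ← Category.assoc, h1, hjq]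
    rfl
  · intro z hz
    unfold ν
    rw [← hV, hνY z, hνZ z, if_pos hz, sub_self]
    exact ⟨rfl, rfl⟩
  · intro z hz
    unfold ν
    rw [← hV, hνY z, hνZ z, if_neg hz, sub_zero]
    exact ⟨rfl, rfl⟩

end

end MotP.HL
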