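import Pool.Agent.HL.St2
import Pool.Agent.HL.P_NCL

/-!
# The half law, module SUM: from `End A` to the sections of `A`
-/

set_option autoImplicit false

open CategoryTheory MonoidalCategory Limits

universe v u

namespace MotP.HL

noncomputable section

set_option linter.unusedSectionVars false

variable (C : Type u) [Category.{v} C] [Preadditive C] [Linear ℚ C] [MonoidalCategory C]
  [SymmetricCategory C] [MonoidalPreadditive C] [MonoidalLinear ℚ C] [RightRigidCategory C]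

namespace SUM

variable {C}

/-- a nonzero section splits off a unit object -/
theorem split_unit [IsIdempotentComplete C] (W : Frob C) (A : C) (hA : n A ≠ 0) :
    ∃ B : C, Nonempty (Dec A (𝟙_ C) B) := by
  have h0 : 0 < Module.finrank ℚ (𝟙_ C ⟶ A) := Nat.pos_of_ne_zero hA
  have hnt : Nontrivial (𝟙_ C ⟶ A) := Module.nontrivial_of_finrank_pos h0
  obtain ⟨f, hf⟩ := exists_ne (0 : 𝟙_ C ⟶ A)
  have h1 : ∃ g : A ⟶ 𝟙_ C, f ≫ g ≠ 0 := by
    by_contra hc
    push Not at hc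
    exact hf (W.nd A f hc)
  obtain ⟨g, hg⟩ := h1
  obtain ⟨r, hr⟩ := W.scalar (f ≫ g)
  have hr0 : r ≠ 0 := by
    rintro rfl
    rw [zero_smul] at hr
    exact hg hr
  have hfg : f ≫ (r⁻¹ • g) = 𝟙 (𝟙_ C) := by
    rw [Linear.comp_smul, hr, smul_smul, inv_mul_cancel₀ hr0, one_smul]
  set p : A ⟶ 𝟙_ C := r⁻¹ • g
  have h4 : (𝟙 A - p ≫ f) ≫ (𝟙 A - p ≫ f) = 𝟙 A - p ≫ f := by
    rw [Preadditive.sub_comp, Preadditive.comp_sub, Preadditive.comp_sub, Category.id_comp,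
      Category.comp_id, Category.id_comp, Category.assoc, ← Category.assoc f p, hfg,
      Category.id_comp]
    abel
  obtain ⟨B, j, q, h5, h6⟩ := IsIdempotentComplete.idempotents_split A _ h4
  refine ⟨B, ⟨⟨f, p, j, q, hfg, h5, ?_, ?_, ?_⟩⟩⟩
  · have e1 : f ≫ (q ≫ j) = 0 := by
      rw [h6, Preadditive.comp_sub, Category.comp_id, ← Category.assoc, hfg, Category.id_comp,
        sub_self]
    calc f ≫ q = (f ≫ (q ≫ j)) ≫ q := by
          rw [Category.assoc, Category.assoc, h5, Category.comp_id]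
      _ = 0 := by rw [e1, Limits.zero_comp]
  · have e1 : (q ≫ j) ≫ p = 0 := by
      rw [h6, Preadditive.sub_comp, Category.id_comp, Category.assoc, hfg, Category.comp_id,
        sub_self]
    calc j ≫ p = j ≫ ((q ≫ j) ≫ p) := by
          rw [Category.assoc, ← Category.assoc j q, h5, Category.id_comp]
      _ = 0 := by rw [e1, Limits.comp_zero]
  · rw [h6]
    abel

end SUM

open SUM NCL

theorem t_SUM : M_SUM C := by
  intro hADD hADJ _ hBFA inst W A hA hn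
  obtain ⟨B, ⟨D⟩⟩ := split_unit W A hn
  obtain ⟨-, -, hiso, -⟩ := hADJ W
  obtain ⟨-, hadd, -, -, -, heq, -⟩ := hBFA W
  -- the traces are additive
  have hm : ∀ {X Y Z : C} (_ : Dec X Y Z), m W X = m W Y + m W Z := fun {X Y Z} E =>
    (hadd X Y Z (hADD W X Y Z E).1).2
  have hl := fun U => (hADD W A (𝟙_ C) B D).2.1 U
  have hr := fun U => (hADD W A (𝟙_ C) B D).2.2.1 U
  have e1 : h A A = (h (𝟙_ C) (𝟙_ C) + h (𝟙_ C) B) + (h B (𝟙_ C) + h B B) := by
    rw [hl A, hr (𝟙_ C), hr B]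
  let J : C := @HasRightDual.rightDual C _ _ (𝟙_ C) (RightRigidCategory.rightDual (𝟙_ C))
  have e2 : m W (A ⊗ Aᘁ) = (m W (𝟙_ C ⊗ J) + m W (𝟙_ C ⊗ Bᘁ)) +
      (m W (B ⊗ J) + m W (B ⊗ Bᘁ)) := by
    rw [hm (decR D Aᘁ), hm (decL (𝟙_ C) (decD D)), hm (decL B (decD D))]
  have i1 : h (𝟙_ C) (𝟙_ C) ≤ m W (𝟙_ C ⊗ J) := W.finrank_hom_le _ _
  have i2 : h (𝟙_ C) B ≤ m W (B ⊗ J) := W.finrank_hom_le _ _
  have i3 : h B (𝟙_ C) ≤ m W (𝟙_ C ⊗ Bᘁ) := W.finrank_hom_le _ _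
  have i4 : h B B ≤ m W (B ⊗ Bᘁ) := W.finrank_hom_le _ _
  -- the dual of the unit
  have u : J ≅ 𝟙_ C :=
    rightDualIso (@HasRightDual.exact C _ _ (𝟙_ C) (RightRigidCategory.rightDual (𝟙_ C)))
      exactPairingUnit
  have hu : ∀ Z : C, m W (Z ⊗ J) = m W Z := by
    intro Z
    exact (heq _ _ (hiso _ _ (whiskerLeftIso Z u ≪≫ ρ_ Z)).2.2).2
  rw [hu] at i1 i2 e2
  rw [hu] at e2
  have e3 : m W A = m W (𝟙_ C) + m W B := hm D
  have e4 : n A = h (𝟙_ C) (𝟙_ C) + h (𝟙_ C) B := hr (𝟙_ C)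
  omega

end

end MotP.HL
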