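import Pool.Agent.HL.St
import Pool.Agent.GGap.P_TVA
import Pool.Agent.GGap.P_TVD
import Pool.Agent.GGap.P_NET

/-!
# The half law, module TEN: multiplicities of tensor products and duals
-/

set_option autoImplicit false
set_option linter.unusedSectionVars false

open CategoryTheory MonoidalCategory BraidedCategory Limits Polynomial

universe v u

namespace MotP.HL

open Mot MotP.GGap

noncomputable section

variable (C : Type u) [Category.{v} C] [Preadditive C] [Linear ℚ C] [MonoidalCategory C]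
  [SymmetricCategory C] [MonoidalPreadditive C] [MonoidalLinear ℚ C] [RightRigidCategory C]

namespace TEN

variable {C}

/-- the multiplicities of a tensor product, for a Frobenius structure of `GGap` -/
lemma nu_tensor (V : Fr C) (X Y : C) (w : ℂ) : V.ν (X ⊗ Y) w =
    ∑ z ∈ V.S X, ∑ z' ∈ V.S Y, if z * z' = w then V.ν X z * V.ν Y z' else 0 := by
  classical
  set P : Finset (ℂ × ℂ) := V.S X ×ˢ V.S Y with hP
  set U : Finset ℂ := P.image (fun q => q.1 * q.2) with hU
  have hmaps : ∀ q ∈ P, q.1 * q.2 ∈ U := by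
    intro q hq
    exact Finset.mem_image_of_mem (fun q : ℂ × ℂ => q.1 * q.2) hq
  have key : ∀ w : ℂ, (∑ z ∈ V.S X, ∑ z' ∈ V.S Y, if z * z' = w then V.ν X z * V.ν Y z' else 0) =
      ∑ q ∈ P with q.1 * q.2 = w, V.ν X q.1 * V.ν Y q.2 := by
    intro w
    rw [Finset.sum_filter, hP, Finset.sum_product]
  rw [key w]
  apply TVD.ν_unique V (X ⊗ Y) (fun w => ∑ q ∈ P with q.1 * q.2 = w, V.ν X q.1 * V.ν Y q.2) U
  · intro w hw
    apply Finset.sum_eq_zero
    intro q hq
    rw [Finset.mem_filter] at hq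
    exfalso
    apply hw
    rw [← hq.2]
    exact hmaps q hq.1
  · intro n
    rw [V.t_tensor]
    push_cast
    rw [TVA.t_sum V X n, TVA.t_sum V Y n, Finset.sum_mul_sum, ← Finset.sum_product',
      ← Finset.sum_fiberwise_of_maps_to (s := P) (t := U) (g := fun q => q.1 * q.2) hmaps]
    apply Finset.sum_congr rfl
    intro w _
    rw [Finset.sum_mul]
    apply Finset.sum_congr rfl
    intro q hq
    rw [Finset.mem_filter] at hq
    rw [← hq.2]
    ring

/-- the multiplicities of the dual -/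
lemma nu_dual (V : Fr C) (X : C) (hfin : Module.Finite ℚ (X ⟶ X)) (w : ℂ) :
    V.ν Xᘁ w = V.ν X w⁻¹ := by
  classical
  obtain ⟨ht, -⟩ := TVD.t_dual V X hfin
  have hinj : Function.Injective (fun z : ℂ => z⁻¹) := inv_injective
  revert w
  apply TVD.ν_unique V Xᘁ (fun w => V.ν X w⁻¹) ((V.S X).image fun z => z⁻¹)
  · intro w hw
    have h1 : w⁻¹ ∉ V.S X := by
      intro h2
      apply hw
      rw [Finset.mem_image]
      exact ⟨w⁻¹, h2, inv_inv w⟩
    exact nu_of_notMem h1
  · intro n
    rw [ht n, Finset.sum_image fun a _ b _ hab => hinj hab]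
    apply Finset.sum_congr rfl
    intro z _
    rw [inv_inv]

/-- additivity of the multiplicities -/
lemma nu_add (V : Fr C) (X Y Z : C) (h : ∀ k, V.t X k = V.t Y k + V.t Z k) (z : ℂ) :
    V.ν X z = V.ν Y z + V.ν Z z := by
  classical
  revert z
  apply TVD.ν_unique V X (fun w => V.ν Y w + V.ν Z w) (V.S Y ∪ V.S Z)
  · intro w hw
    rw [Finset.mem_union, not_or] at hw
    have h1 : V.ν Y w = 0 := nu_of_notMem hw.1
    have h2 : V.ν Z w = 0 := nu_of_notMem hw.2
    rw [h1, h2, add_zero]
  · intro n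
    rw [h n]
    push_cast
    rw [TVA.t_sum' V Y (V.S Y ∪ V.S Z) Finset.subset_union_left n,
      TVA.t_sum' V Z (V.S Y ∪ V.S Z) Finset.subset_union_right n, ← Finset.sum_add_distrib]
    apply Finset.sum_congr rfl
    intro w _
    ring

/-- the multiplicity of `1` -/
lemma nu_one (V : Fr C) (X : C) : V.ν X 1 = V.mult X := by
  have h1 : (V.β X).count 1 = 0 := Multiset.count_eq_zero.mpr (V.odd X)
  have h2 : V.ν X 1 = ((V.α X).count 1 : ℤ) - ((V.β X).count 1 : ℤ) := rfl
  rw [h2, h1, Nat.cast_zero, sub_zero]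
  rfl

end TEN

theorem t_TEN : S_TEN C := by
  intro _ W
  refine ⟨?_, ?_, ?_, ?_, ?_⟩
  · intro X Y w
    exact TEN.nu_tensor (fr W) X Y w
  · intro X z
    exact TEN.nu_dual (fr W) X (W.finite_hom X X) z
  · intro X
    exact TEN.nu_one (fr W) X
  · intro X Y Z h z
    exact TEN.nu_add (fr W) X Y Z h z
  · intro X Y h z
    exact NET.ν_eq (fr W) X Y h z

end

end MotP.HL
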