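import Pool.Agent.HL.P_ADD
import Pool.Agent.HL.P_ADJ
import Pool.Agent.HL.P_SPL
import Pool.Agent.HL.P_TEN
import Pool.Agent.HL.P_PAR
import Pool.Agent.HL.P_BFA
import Pool.Agent.HL.P_NTR
import Pool.Agent.HL.P_CSI
import Pool.Agent.HL.P_NRM
import Pool.Agent.HL.P_GRO
import Pool.Agent.HL.P_INE
import Pool.Agent.HL.P_END
import Pool.Agent.HL.P_HLF
import Pool.Agent.HL.P_FIN
import Pool.Agent.HL.P_SUM
import Pool.Agent.HL.P_NGR
import Pool.Agent.HL.P_NUN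
import Pool.Agent.HL.P_NLA
import Pool.Agent.HL.P_NND
import Pool.Agent.HL.P_NTC
import Pool.Agent.HL.P_NEV
import Pool.Agent.HL.P_NTE
import Pool.Agent.HL.P_NMU
import Pool.Agent.HL.P_NHO
import Pool.Agent.HL.P_NCL
import Pool.Agent.HL.P_NPW
import Pool.Agent.HL.P_NHA
import Pool.Agent.HL.P_NFX
import Pool.Agent.HL.P_NFY
import Pool.Agent.HL.P_LCV
import Pool.Agent.HL.P_INF
import Pool.Agent.HL.P_NFZ
import Pool.Agent.HL.Chs

/-!
# The half law: composition of the modules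
-/

set_option autoImplicit false

open CategoryTheory MonoidalCategory CartesianMonoidalCategory Limits

universe v u w x

namespace MotP.HL

section

variable (C : Type u) [Category.{v} C] [Preadditive C] [Linear ℚ C] [MonoidalCategory C]
  [SymmetricCategory C] [MonoidalPreadditive C] [MonoidalLinear ℚ C] [RightRigidCategory C]

theorem a_PAR : S_PAR C := t_PAR C (t_SPL C) (t_TEN C)

theorem a_BFA : S_BFA C := t_BFA C (t_SPL C) (t_TEN C) (a_PAR C)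

theorem a_NTR : S_NTR C := t_NTR C (t_ADD C) (t_TEN C) (a_BFA C)

theorem a_CSI : S_CSI C := t_CSI C (t_ADD C) (t_ADJ C)

theorem a_NRM : S_NRM C := t_NRM C (t_ADJ C) (a_BFA C) (a_CSI C)

theorem a_INE : S_INE C :=
  t_INE C (t_ADD C) (t_ADJ C) (t_SPL C) (t_TEN C) (a_BFA C) (a_NTR C) (a_NRM C)

theorem a_END : S_END C := t_END C (t_GRO C) (a_INE C)

theorem a_HLF : S_HLF C := t_HLF C (t_ADD C) (t_ADJ C) (t_TEN C) (a_BFA C) (a_END C)

theorem a_FIN : S_FIN C := t_FIN C (t_ADJ C) (a_BFA C) (a_NRM C) (t_GRO C) (a_INE C)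

theorem a_SUM : S_SUM C := t_SUM C (t_ADD C) (t_ADJ C) (t_TEN C) (a_BFA C)

theorem a_LCV : S_LCV C := t_LCV C (t_ADJ C) (a_CSI C)

theorem a_INF : S_INF C := t_INF C (a_BFA C) (t_GRO C) (a_LCV C)

end

section

variable {V : Type u} [Category.{v} V] [CartesianMonoidalCategory V]
  (T : CHM.ChowTheory.{v, u, w} V)

theorem a_NEV : S_NEV.{v, u, w, x} T := t_NEV T t_NLA (t_NTC T)

theorem a_NTE : S_NTE.{v, u, w, x} T := t_NTE T (t_NTC T)

theorem a_NMU : S_NMU.{v, u, w, x} T := t_NMU T (a_NTE T)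

theorem a_NPW : S_NPW.{v, u, w, x} T := t_NPW T (fun _ _ => t_ADJ _) (t_NHO T) (a_NMU T)

theorem a_NHA : S_NHA.{v, u, w, x} T :=
  t_NHA T (fun _ _ => t_ADD _) (fun _ _ => a_BFA _) (fun _ _ => a_HLF _) (t_NGR T) (t_NUN T)
    (t_NND T) (a_NEV T) (t_NHO T) (a_NMU T) (fun _ _ => t_NCL _)

theorem a_NFX : S_NFX.{v, u, w, x} T :=
  t_NFX T (fun _ _ => a_BFA _) (fun _ _ => a_FIN _) (t_NGR T) (t_NUN T) (t_NND T) (a_NEV T)
    (a_NMU T) (a_NPW T)

theorem a_NFY : S_NFY.{v, u, w, x} T :=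
  t_NFY T (fun _ _ => t_ADJ _) (fun _ _ => a_SUM _) (t_NGR T) (t_NUN T) (t_NND T) (a_NEV T)
    (t_NHO T) (a_NMU T)

theorem a_NFZ : S_NFZ.{v, u, w, x} T :=
  t_NFZ T (fun _ _ => a_BFA _) (fun _ _ => a_INF _) (t_NGR T) (t_NUN T) (t_NND T) (a_NEV T)
    (a_NMU T) (a_NPW T)

theorem a_NHZ : S_NHZ.{v, u, w, x} T :=
  t_NHZ T (fun _ _ => t_ADD _) (fun _ _ => t_ADJ _) (fun _ _ => a_BFA _) (t_NGR T) (t_NUN T)
    (t_NND T) (a_NEV T) (t_NHO T) (a_NMU T)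

end

end MotP.HL
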