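import Pool.Agent.HL.St4
import Pool.Agent.HL.P_INE
import Pool.Agent.HL.P_SPL
import Pool.Agent.GGap.P_TVA

/-!
# The half law, part Q: objects with trivial Frobenius
-/

set_option autoImplicit false

open CategoryTheory MonoidalCategory BraidedCategory Limits Polynomial

universe v u

namespace MotP.HL

open Mot MotP.GGap

noncomputable section

set_option linter.unusedSectionVars false

variable (C : Type u) [Category.{v} C] [Preadditive C] [Linear ℚ C] [MonoidalCategory C]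
  [SymmetricCategory C] [MonoidalPreadditive C] [MonoidalLinear ℚ C] [RightRigidCategory C]

namespace ONE

variable {C}

/-- the traces of an object with trivial Frobenius -/
theorem t_eq [IsIdempotentComplete C] (hT : S_TEN C) (W : Frob C) {Y : C} (h : One W Y) (k : ℕ) :
    W.t Y k = m W Y := by
  classical
  have h1 := TVA.t_sum' (fr W) Y ((fr W).S Y ∪ {1}) Finset.subset_union_left k
  have h2 : ∑ z ∈ (fr W).S Y ∪ {1}, (((fr W).ν Y z : ℤ) : ℂ) * z ^ k =
      (((fr W).ν Y 1 : ℤ) : ℂ) * 1 ^ k := by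
    refine Finset.sum_eq_single_of_mem 1 (by simp) fun z _ hz => ?_
    have h3 : (fr W).ν Y z = 0 := h z hz
    rw [h3, Int.cast_zero, zero_mul]
  have h3 : (fr W).ν Y 1 = m W Y := (hT W).2.2.1 Y
  rw [h2, h3, one_pow, mul_one] at h1
  have h4 : ((W.t Y k : ℚ) : ℂ) = ((m W Y : ℤ) : ℂ) := h1
  exact_mod_cast h4

/-- an object with zero identity has zero traces -/
theorem t_zero (W : Frob C) {Y : C} (h : 𝟙 Y = 0) (k : ℕ) : W.t Y k = 0 := by
  have h1 : W.Fp Y k = 0 := by
    rw [← Category.id_comp (W.Fp Y k), h, Limits.zero_comp]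
  unfold Frob.t
  rw [h1, tr_zero, W.val_zero]

end ONE

open ONE in
theorem t_ONE : M_ONE C := by
  classical
  intro hA hJ hS hT hP hB _ W
  obtain ⟨T1, T2, T3, T4, T5⟩ := hT W
  obtain ⟨B1, B2, B3, B4, B5, B6, B7⟩ := hB W
  have c6 : ∀ Y : C, 𝟙 Y ≠ 0 → 0 < b W Y := by
    intro Y hY
    have hfin : Module.Finite ℚ (Y ⟶ Y) := W.finite_hom _ _
    have hnt : Nontrivial (Y ⟶ Y) := ⟨𝟙 Y, 0, hY⟩
    have h1 : 0 < h Y Y := Module.finrank_pos
    have h2 : h Y Y ≤ m W (Y ⊗ Yᘁ) := W.finrank_hom_le Y Y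
    have h3 := B5 (Y ⊗ Yᘁ)
    rw [B1, B3] at h3
    have h4 : 0 < b W Y * b W Y := lt_of_lt_of_le h1 (h2.trans h3)
    exact Nat.pos_of_mul_pos_left h4
  refine ⟨?_, ?_, ?_, ?_, ?_, c6, ?_, ?_⟩
  · -- summands
    rintro R Y ⟨R', ⟨D⟩⟩ hY z hz
    have h1 := T4 Y R R' (hA W Y R R' D).1 z
    rw [hY z hz] at h1
    by_contra h2
    rcases lt_or_gt_of_ne h2 with h3 | h3
    · exact hP W R' R z ⟨by omega, h3⟩
    · exact hP W R R' z ⟨h3, by omega⟩
  · -- products
    intro Y Z hY hZ w hw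
    rw [T1 Y Z w]
    refine Finset.sum_eq_zero fun z _ => Finset.sum_eq_zero fun z' _ => ?_
    split_ifs with h
    · by_cases hz : z = 1
      · have hz' : z' ≠ 1 := by
          rintro rfl
          rw [hz, mul_one] at h
          exact hw h.symm
        rw [hZ z' hz', mul_zero]
      · rw [hY z hz, zero_mul]
    · rfl
  · -- duals
    intro Y hY z hz
    rw [T2 Y z]
    exact hY _ fun h => hz (inv_eq_one.1 h)
  · intro Y hY
    exact ⟨B7 Y hY, t_eq hT W hY⟩
  · -- no sections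
    intro Y Z hY hZ
    have h1 : m W (Y ⊗ Z) = 0 := by
      have h2 := T3 (Y ⊗ Z)
      rw [T1 Y Z 1] at h2
      have h3 : ∑ z ∈ (fr W).S Y, ∑ z' ∈ (fr W).S Z,
          (if z * z' = 1 then ν W Y z * ν W Z z' else 0) = 0 := by
        refine Finset.sum_eq_zero fun z _ => Finset.sum_eq_zero fun z' _ => ?_
        split_ifs with h
        · by_cases hz : z = 1
          · rw [hz, one_mul] at h
            rw [h, hZ, mul_zero]
          · rw [hY z hz, zero_mul]
        · rfl
      rw [h3] at h2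
      exact_mod_cast h2.symm
    have := INE.n_le W (Y ⊗ Z)
    omega
  · -- simple objects
    intro S hSi hSo
    obtain ⟨hS1, hS2⟩ := hSi
    obtain ⟨Y, Z, D, ⟨N, hN⟩, -, h1, -⟩ := hS W S (Polynomial.X - Polynomial.C 1)
    have hY1 : ν W Y 1 = ν W S 1 := (h1 1 ((INE.root_one 1).2 rfl)).1
    have hpi : (D.p ≫ D.i) ≫ (D.p ≫ D.i) = D.p ≫ D.i := by
      rw [Category.assoc, ← Category.assoc D.i, D.ip, Category.id_comp]
    have hne : D.p ≫ D.i ≠ 0 := by
      intro h0
      have h2 : 𝟙 Y = 0 := by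
        calc 𝟙 Y = (D.i ≫ D.p) ≫ (D.i ≫ D.p) := by rw [D.ip, Category.id_comp]
          _ = D.i ≫ (D.p ≫ D.i) ≫ D.p := by simp only [Category.assoc]
          _ = 0 := by rw [h0, Limits.zero_comp, Limits.comp_zero]
      have h3 : m W Y = 0 := W.mult_of_zero (t_zero W h2)
      have h4 := T3 Y
      rw [h3, hY1, T3 S] at h4
      have h5 := B7 S hSo
      have h6 := c6 S hS1
      omega
    have hid : D.p ≫ D.i = 𝟙 S := by
      obtain ⟨g, hg, -⟩ := hS2 _ hne
      calc D.p ≫ D.i = (D.p ≫ D.i) ≫ ((D.p ≫ D.i) ≫ g) := by rw [hg, Category.comp_id]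
        _ = ((D.p ≫ D.i) ≫ (D.p ≫ D.i)) ≫ g := by simp only [Category.assoc]
        _ = 𝟙 S := by rw [hpi, hg]
    -- the power of the Frobenius minus one
    have hnil : (aeval ((fr W).FE S) ((Polynomial.X - Polynomial.C 1 : ℚ[X]) ^ N) : End S) = 0 := by
      have h2 : (aeval ((fr W).FE S) ((Polynomial.X - Polynomial.C 1 : ℚ[X]) ^ N) : S ⟶ S) = 0 := by
        calc ((aeval ((fr W).FE S) ((Polynomial.X - Polynomial.C 1 : ℚ[X]) ^ N) : End S) : S ⟶ S)
            = (D.p ≫ D.i) ≫ ((aeval ((fr W).FE S)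
              ((Polynomial.X - Polynomial.C 1 : ℚ[X]) ^ N) : End S) : S ⟶ S) := by
              rw [hid, Category.id_comp]
          _ = D.p ≫ ((aeval ((fr W).FE Y)
              ((Polynomial.X - Polynomial.C 1 : ℚ[X]) ^ N) : End Y) : Y ⟶ Y) ≫ D.i := by
              rw [Category.assoc, SPL.nat]
          _ = 0 := by
              rw [hN]
              exact (congrArg (D.p ≫ ·) Limits.zero_comp).trans Limits.comp_zero
      exact h2
    rw [map_pow, map_sub, aeval_X, aeval_C, map_one] at hnil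
    by_contra hF
    have hf : ((fr W).FE S - 1 : End S) ≠ 0 := by
      intro h2
      have h3 : ((fr W).FE S : End S) = 1 := sub_eq_zero.1 h2
      exact hF h3
    obtain ⟨g, hg1, hg2⟩ := hS2 ((fr W).FE S - 1 : End S) hf
    have hu : IsUnit ((fr W).FE S - 1 : End S) := ⟨⟨(fr W).FE S - 1, g, hg2, hg1⟩, rfl⟩
    have hu2 := hu.pow N
    rw [hnil, isUnit_zero_iff] at hu2
    exact hS1 hu2.symm
  · -- the unit
    intro z hz
    have h1 : ∀ k, ((fr W).t (𝟙_ C) k : ℂ) = ∑ w ∈ (fr W).S (𝟙_ C) ∪ {1, z},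
        (((if w = 1 then 1 else 0 : ℤ)) : ℂ) * w ^ k := by
      intro k
      rw [Finset.sum_eq_single_of_mem (1 : ℂ) (by simp) (fun w _ hw => by rw [if_neg hw]; simp)]
      rw [(fr W).t_unit, if_pos rfl]
      simp
    have h2 := TVA.ν_eq (fr W) (𝟙_ C) _ Finset.subset_union_left (fun w => if w = 1 then 1 else 0)
      h1 z (by simp)
    rw [if_neg hz] at h2
    exact h2

end

end MotP.HL
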