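import Pool.Agent.HL.St4
import Pool.Agent.HL.P_CSI

/-!
# The half law, part Q, module SIM: simple objects and direct summands (by helper29)
-/

set_option autoImplicit false
set_option linter.unusedSectionVars false

open CategoryTheory MonoidalCategory BraidedCategory Limits

universe v u

namespace MotP.HL

open Mot MotP.GGap

noncomputable section

namespace SIM

variable {C : Type u} [Category.{v} C] [Preadditive C] [Linear ℚ C] [MonoidalCategory C]
  [SymmetricCategory C] [MonoidalPreadditive C] [MonoidalLinear ℚ C] [RightRigidCategory C]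

lemma smd_trans [IsIdempotentComplete C] {R Y Z : C} (h1 : Smd R Y) (h2 : Smd Y Z) : Smd R Z := by
  obtain ⟨R', ⟨d⟩⟩ := h1
  obtain ⟨Y', ⟨e⟩⟩ := h2
  refine CSI.dec_of_retract (d.i ≫ e.i) (e.p ≫ d.p) ?_
  rw [Category.assoc, ← Category.assoc e.i, e.ip, Category.id_comp, d.ip]

lemma dec_of_idem [IsIdempotentComplete C] {X : C} (e : X ⟶ X) (he : e ≫ e = e) :
    ∃ (A B : C) (d : Dec X A B), d.p ≫ d.i = e := by
  have h4 : (𝟙 X - e) ≫ (𝟙 X - e) = 𝟙 X - e := by
    rw [Preadditive.sub_comp, Preadditive.comp_sub, Preadditive.comp_sub, Category.id_comp,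
      Category.comp_id, Category.id_comp, he]
    abel
  obtain ⟨A, i, p, h1, h2⟩ := IsIdempotentComplete.idempotents_split X _ he
  obtain ⟨B, j, q, h5, h6⟩ := IsIdempotentComplete.idempotents_split X _ h4
  have hq : q = (𝟙 X - e) ≫ q := by
    rw [← h6, Category.assoc, h5, Category.comp_id]
  have hj : j = j ≫ (𝟙 X - e) := by
    rw [← h6, ← Category.assoc, h5, Category.id_comp]
  refine ⟨A, B, ⟨i, p, j, q, h1, h5, ?_, ?_, ?_⟩, h2⟩
  · rw [hq, ← h2, ← Category.assoc, Preadditive.comp_sub, Category.comp_id, ← Category.assoc, h1,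
      Category.id_comp, sub_self, Limits.zero_comp]
  · rw [hj, ← h2, Category.assoc, Preadditive.sub_comp, Category.id_comp, Category.assoc, h1,
      Category.comp_id, sub_self, Limits.comp_zero]
  · rw [h6, h2]
    abel

lemma smd_of_idem (hADD : S_ADD C) [IsIdempotentComplete C] (W : Frob C) {Y : C} (e : Y ⟶ Y)
    (he : e ≫ e = e) (h0 : e ≠ 0) (h1 : e ≠ 𝟙 Y) :
    ∃ A : C, Smd A Y ∧ 𝟙 A ≠ 0 ∧ h A A < h Y Y := by
  obtain ⟨A, B, d, hd⟩ := dec_of_idem e he
  have hA : 𝟙 A ≠ 0 := by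
    intro hz
    apply h0
    rw [← hd, ← Category.id_comp d.i, hz, Limits.zero_comp, Limits.comp_zero]
  have hB : 𝟙 B ≠ 0 := by
    intro hz
    apply h1
    have hs := d.sum
    have hq : d.q = 0 := by rw [← Category.comp_id d.q, hz, Limits.comp_zero]
    rw [hq, Limits.zero_comp, add_zero, hd] at hs
    exact hs
  refine ⟨A, ⟨B, ⟨d⟩⟩, hA, ?_⟩
  obtain ⟨-, a1, a2, -, -⟩ := hADD W Y A B d
  have e1 := a1 Y
  have e2 := a2 A
  have e3 := a2 B
  have hBB : 0 < h B B := CSI.h_pos_of_ne W (𝟙 B) hB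
  omega

lemma exists_simple (hADD : S_ADD C) [IsIdempotentComplete C] (W : Frob C) (N : ℕ) :
    ∀ Y : C, h Y Y = N → 𝟙 Y ≠ 0 → ∃ S, Smp S ∧ Smd S Y := by
  induction N using Nat.strong_induction_on with
  | _ N ih =>
    intro Y hN hY
    by_cases hs : ∀ f : Y ⟶ Y, f ≠ 0 → ∃ g : Y ⟶ Y, f ≫ g = 𝟙 Y ∧ g ≫ f = 𝟙 Y
    · exact ⟨Y, ⟨hY, hs⟩, CSI.dec_of_retract (𝟙 Y) (𝟙 Y) (Category.comp_id _)⟩
    · push Not at hs
      obtain ⟨f, hf, hng⟩ := hs
      obtain ⟨g, hg⟩ := W.regular f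
      have i1 : (f ≫ g) ≫ (f ≫ g) = f ≫ g := by
        rw [← Category.assoc, Category.assoc f g f, hg]
      have i2 : (g ≫ f) ≫ (g ≫ f) = g ≫ f := by
        rw [Category.assoc, hg]
      have n1 : f ≫ g ≠ 0 := by
        intro hz
        apply hf
        rw [← hg, ← Category.assoc, hz, Limits.zero_comp]
      have n2 : g ≫ f ≠ 0 := by
        intro hz
        apply hf
        rw [← hg, hz, Limits.comp_zero]
      have key : ∃ A : C, Smd A Y ∧ 𝟙 A ≠ 0 ∧ h A A < h Y Y := by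
        by_cases hc : f ≫ g = 𝟙 Y
        · exact smd_of_idem hADD W (g ≫ f) i2 n2 (hng g hc)
        · exact smd_of_idem hADD W (f ≫ g) i1 n1 hc
      obtain ⟨A, hAY, hA, hlt⟩ := key
      obtain ⟨S, hS, hSA⟩ := ih (h A A) (by omega) A rfl hA
      exact ⟨S, hS, smd_trans hSA hAY⟩

end SIM

variable (C : Type u) [Category.{v} C] [Preadditive C] [Linear ℚ C] [MonoidalCategory C]
  [SymmetricCategory C] [MonoidalPreadditive C] [MonoidalLinear ℚ C] [RightRigidCategory C]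

theorem t_SIM : M_SIM C := by
  intro hADD _ _ W
  refine ⟨fun R Y i p hip => CSI.dec_of_retract i p hip,
    fun Y => CSI.dec_of_retract (𝟙 Y) (𝟙 Y) (Category.comp_id _),
    fun R Y Z h1 h2 => SIM.smd_trans h1 h2, ⟨W.ne, fun f hf => ?_⟩, fun R Y Z hRY => ?_,
    fun Y hY => SIM.exists_simple hADD W (h Y Y) Y rfl hY, fun S Y hS hSY => ?_⟩
  · obtain ⟨r, hr⟩ := W.scalar f
    have hr0 : r ≠ 0 := by
      rintro rfl
      exact hf (by rw [hr, zero_smul])
    refine ⟨r⁻¹ • 𝟙 (𝟙_ C), ?_, ?_⟩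
    · rw [hr, Linear.smul_comp, Linear.comp_smul, Category.id_comp, smul_smul,
        mul_inv_cancel₀ hr0, one_smul]
    · rw [hr, Linear.smul_comp, Linear.comp_smul, Category.id_comp, smul_smul,
        inv_mul_cancel₀ hr0, one_smul]
  · obtain ⟨R', ⟨d⟩⟩ := hRY
    have := (hADD W Y R R' d).2.2.1 Z
    omega
  · obtain ⟨f, hf⟩ := CSI.exists_ne S Y hSY
    have hex : ∃ g : Y ⟶ S, tr S (f ≫ g) ≠ 0 := by
      by_contra hcon
      push Not at hcon
      exact hf (W.num_zero f hcon)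
    obtain ⟨g, hg⟩ := hex
    have hfg : f ≫ g ≠ 0 := by
      intro hz
      exact hg (by rw [hz, tr_zero])
    obtain ⟨k, hk, -⟩ := hS.2 _ hfg
    exact CSI.dec_of_retract f (g ≫ k) (by rw [← Category.assoc, hk])

end

end MotP.HL
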