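import Pool.Agent.HL.St4
import Pool.Agent.HL.P_HLF
import Pool.Agent.GGap.P_TVD

/-!
# The half law, module DIV: the square of the dimension is divisible by the rank
-/

set_option autoImplicit false
set_option linter.unusedSectionVars false

open CategoryTheory MonoidalCategory BraidedCategory Limits

universe v u

namespace MotP.HL

open Mot MotP.GGap

noncomputable section

variable (C : Type u) [Category.{v} C] [Preadditive C] [Linear ℚ C] [MonoidalCategory C]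
  [SymmetricCategory C] [MonoidalPreadditive C] [MonoidalLinear ℚ C] [RightRigidCategory C]

namespace DIV

variable {C}

/-- the transpose is linear -/
lemma mate_smul {X Y : C} (r : ℚ) (f : X ⟶ Y) : (r • f)ᘁ = r • fᘁ := by
  unfold rightAdjointMate
  simp only [MonoidalLinear.whiskerLeft_smul, MonoidalLinear.smul_whiskerRight,
    Linear.smul_comp, Linear.comp_smul]

/-- the trace of a transpose -/
lemma tr_mate {X : C} (f : X ⟶ X) : MotP.tr Xᘁ (fᘁ) = MotP.tr X f := by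
  apply TVD.tr_dual
  exact coevaluation_comp_rightAdjointMate f

lemma smul_tensor {X Y Z U : C} (r : ℚ) (f : X ⟶ Y) (g : Z ⟶ U) :
    ((r • f) ⊗ₘ g) = r • (f ⊗ₘ g) := by
  simp only [MonoidalCategory.tensorHom_def, MonoidalLinear.smul_whiskerRight, Linear.smul_comp]

lemma tensor_smul {X Y Z U : C} (r : ℚ) (f : X ⟶ Y) (g : Z ⟶ U) :
    (f ⊗ₘ (r • g)) = r • (f ⊗ₘ g) := by
  simp only [MonoidalCategory.tensorHom_def, MonoidalLinear.whiskerLeft_smul, Linear.comp_smul]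

lemma mate_comp_add {S : C} (u y v v' : S ⟶ S) :
    (u ⊗ₘ (y ≫ (v + v'))ᘁ) = (u ⊗ₘ (y ≫ v)ᘁ) + (u ⊗ₘ (y ≫ v')ᘁ) := by
  rw [Preadditive.comp_add, HLF.mate_add, MonoidalPreadditive.tensor_add]

lemma mate_comp_smul {S : C} (r : ℚ) (u y v : S ⟶ S) :
    (u ⊗ₘ (y ≫ (r • v))ᘁ) = r • (u ⊗ₘ (y ≫ v)ᘁ) := by
  rw [Linear.comp_smul, mate_smul, tensor_smul]

/-- `u ⊗ (y ≫ v)ᘁ` as a bilinear map -/
def bil (S : C) (y : S ⟶ S) : End S →ₗ[ℚ] End S →ₗ[ℚ] (S ⊗ Sᘁ ⟶ S ⊗ Sᘁ) :=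
  LinearMap.mk₂ ℚ (fun u v => ((u : S ⟶ S) ⊗ₘ (y ≫ (v : S ⟶ S))ᘁ))
    (fun u u' v => MonoidalPreadditive.add_tensor (u : S ⟶ S) (u' : S ⟶ S) ((y ≫ (v : S ⟶ S))ᘁ))
    (fun r u v => smul_tensor r (u : S ⟶ S) ((y ≫ (v : S ⟶ S))ᘁ))
    (fun u v v' => mate_comp_add (u : S ⟶ S) y v v')
    (fun r u v => mate_comp_smul r (u : S ⟶ S) y v)

/-- the idempotent -/
def pp (S : C) {N : ℕ} (x y : Fin N → (S ⟶ S)) : S ⊗ Sᘁ ⟶ S ⊗ Sᘁ :=
  ∑ j, (x j ⊗ₘ (y j)ᘁ)

lemma pp_idem (S : C) {N : ℕ} (x y : Fin N → (S ⟶ S)) (h1 : ∑ j, y j ≫ x j = 𝟙 S)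
    (h2 : ∀ a : End S, ∑ j, TensorProduct.tmul ℚ (a * (show End S from x j)) (show End S from y j) =
      ∑ j, TensorProduct.tmul ℚ (show End S from x j) ((show End S from y j) * a)) :
    pp S x y ≫ pp S x y = pp S x y := by
  have e1 : ∀ k, ∑ j, ((x j ≫ x k) ⊗ₘ (y k ≫ y j)ᘁ) = ∑ j, (x j ⊗ₘ (y k ≫ x k ≫ y j)ᘁ) := by
    intro k
    have h3 := congrArg (TensorProduct.lift (bil S (y k))) (h2 (x k : End S))
    rw [map_sum, map_sum] at h3
    simp only [TensorProduct.lift.tmul] at h3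
    exact h3
  have e2 : pp S x y ≫ pp S x y = ∑ k, ∑ j, ((x j ≫ x k) ⊗ₘ (y k ≫ y j)ᘁ) := by
    unfold pp
    rw [Preadditive.comp_sum]
    apply Finset.sum_congr rfl
    intro k _
    rw [Preadditive.sum_comp]
    apply Finset.sum_congr rfl
    intro j _
    rw [tensorHom_comp_tensorHom, comp_rightAdjointMate]
  rw [e2, Finset.sum_congr rfl fun k _ => e1 k, Finset.sum_comm]
  unfold pp
  apply Finset.sum_congr rfl
  intro j _
  have e3 : ∑ k, (x j ⊗ₘ (y k ≫ x k ≫ y j)ᘁ) = bil S (𝟙 S) (x j) ((∑ k, y k ≫ x k) ≫ y j) := by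
    rw [Preadditive.sum_comp]
    have e4 : bil S (𝟙 S) (x j) (∑ k, (y k ≫ x k) ≫ y j) =
        ∑ k, bil S (𝟙 S) (x j) ((y k ≫ x k) ≫ y j) := map_sum (bil S (𝟙 S) (x j)) _ _
    rw [e4]
    apply Finset.sum_congr rfl
    intro k _
    change _ = (x j ⊗ₘ (𝟙 S ≫ (y k ≫ x k) ≫ y j)ᘁ)
    rw [Category.id_comp, Category.assoc]
  rw [e3, h1, Category.id_comp]
  change (x j ⊗ₘ (𝟙 S ≫ y j)ᘁ) = _
  rw [Category.id_comp]

lemma tr_pp (W : Frob C) (S : C) {N : ℕ} (x y : Fin N → (S ⟶ S)) :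
    W.val (MotP.tr (S ⊗ Sᘁ) (pp S x y)) =
      ∑ j, W.val (MotP.tr S (x j)) * W.val (MotP.tr S (y j)) := by
  have h1 : ∀ s : Finset (Fin N), W.val (MotP.tr (S ⊗ Sᘁ) (∑ j ∈ s, (x j ⊗ₘ (y j)ᘁ))) =
      ∑ j ∈ s, W.val (MotP.tr S (x j)) * W.val (MotP.tr S (y j)) := by
    classical
    intro s
    induction s using Finset.induction_on with
    | empty =>
      rw [Finset.sum_empty, Finset.sum_empty, tr_zero, W.val_zero]
    | insert a s ha ih =>
      rw [Finset.sum_insert ha, Finset.sum_insert ha, tr_add, W.val_add, ih, W.tr_tensor,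
        W.val_smul, tr_mate, mul_comm (W.val (MotP.tr S (y a)))]
  exact h1 Finset.univ

/-- the trace as a linear map -/
def τ (W : Frob C) (S : C) : End S →ₗ[ℚ] ℚ where
  toFun f := W.val (MotP.tr S (f : S ⟶ S))
  map_add' f g := by
    change W.val (MotP.tr S ((f : S ⟶ S) + (g : S ⟶ S))) = _
    rw [tr_add, W.val_add]
  map_smul' r f := by
    change W.val (MotP.tr S (r • (f : S ⟶ S))) = _
    rw [tr_smul, W.val_smul]
    rfl

end DIV

open DIV in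
theorem t_DIV : M_DIV C := by
  intro hTRD hSEP hONE hSIM _ _ W hE S hS hS1
  obtain ⟨o1, o2, o3, o4, -, o6, o7, -⟩ := hONE W
  obtain ⟨s1, -⟩ := hSIM W
  have hfin : Module.Finite ℚ (End S) := W.finite_hom S S
  have hnt : Nontrivial (End S) := ⟨⟨(𝟙 S : S ⟶ S), (0 : S ⟶ S), hS.1⟩⟩
  have hdiv : ∀ x : End S, x ≠ 0 → ∃ y, x * y = 1 ∧ y * x = 1 := by
    intro x hx
    obtain ⟨g, hg1, hg2⟩ := hS.2 (x : S ⟶ S) hx
    exact ⟨g, hg2, hg1⟩
  have hF : W.F.app S = 𝟙 S := o7 S hS hS1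
  obtain ⟨hb, ht⟩ := o4 S hS1
  have hτ1 : τ W S 1 = (b W S : ℚ) := by
    have h1 : τ W S 1 = W.t S 0 := rfl
    rw [h1, ht 0, hb]
  have hT := hTRD (End S) hdiv (τ W S) (b W S) hτ1 (by
    intro f
    obtain ⟨α, hα⟩ := hE S (f : S ⟶ S) hF
    refine ⟨α, fun k => ?_⟩
    rw [← hα k, end_pow]
    rfl)
  obtain ⟨N, x, y, h1, h2, h3⟩ := hSEP (End S) hdiv
  have hδ : (0 : ℚ) < (Module.finrank ℚ (End S) : ℚ) := by
    exact_mod_cast Module.finrank_pos
  have hidem : pp S x y ≫ pp S x y = pp S x y := pp_idem S x y h1 h2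
  have htr : (Module.finrank ℚ (End S) : ℚ) * W.val (MotP.tr (S ⊗ Sᘁ) (pp S x y)) =
      (b W S : ℚ) ^ 2 := by
    have h4 : (Module.finrank ℚ (End S) : ℚ) * ((Module.finrank ℚ (End S) : ℚ) *
        W.val (MotP.tr (S ⊗ Sᘁ) (pp S x y))) =
        (Module.finrank ℚ (End S) : ℚ) * (b W S : ℚ) ^ 2 := by
      rw [tr_pp, Finset.mul_sum, Finset.mul_sum]
      have h5 : ∀ j, (Module.finrank ℚ (End S) : ℚ) * ((Module.finrank ℚ (End S) : ℚ) *
          (W.val (MotP.tr S (x j)) * W.val (MotP.tr S (y j)))) =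
          (b W S : ℚ) ^ 2 * (trL (End S) (x j) * trL (End S) (y j)) := by
        intro j
        have hx := hT (x j)
        have hy := hT (y j)
        have hx' : τ W S (x j) = W.val (MotP.tr S (x j)) := rfl
        have hy' : τ W S (y j) = W.val (MotP.tr S (y j)) := rfl
        rw [hx'] at hx
        rw [hy'] at hy
        calc (Module.finrank ℚ (End S) : ℚ) * ((Module.finrank ℚ (End S) : ℚ) *
            (W.val (MotP.tr S (x j)) * W.val (MotP.tr S (y j))))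
            = ((Module.finrank ℚ (End S) : ℚ) * W.val (MotP.tr S (x j))) *
              ((Module.finrank ℚ (End S) : ℚ) * W.val (MotP.tr S (y j))) := by ring
          _ = ((b W S : ℚ) * trL (End S) (x j)) * ((b W S : ℚ) * trL (End S) (y j)) := by
              rw [hx, hy]
          _ = (b W S : ℚ) ^ 2 * (trL (End S) (x j) * trL (End S) (y j)) := by ring
      rw [Finset.sum_congr rfl fun j _ => h5 j, ← Finset.mul_sum, h3]
      ring
    exact mul_left_cancel₀ hδ.ne' h4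
  obtain ⟨E, i, q, hiq, hqi⟩ := IsIdempotentComplete.idempotents_split _ _ hidem
  have hE1 : One W E := o1 E (S ⊗ Sᘁ) (s1 E (S ⊗ Sᘁ) i q hiq) (o2 S Sᘁ hS1 (o3 S hS1))
  obtain ⟨hbE, htE⟩ := o4 E hE1
  have hval : (b W E : ℚ) = W.val (MotP.tr (S ⊗ Sᘁ) (pp S x y)) := by
    have h4 : W.t E 0 = W.val (MotP.tr E (𝟙 E)) := rfl
    have h5 := htE 0
    rw [← hbE] at h5
    rw [← h5, h4, ← hiq, MotP.tr_comm, hqi]
  rw [← hval] at htr
  have hbS : 0 < b W S := o6 S hS.1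
  have hfinal : Module.finrank ℚ (End S) * b W E = b W S ^ 2 := by exact_mod_cast htr
  refine ⟨b W E, ?_, ?_⟩
  · rcases Nat.eq_zero_or_pos (b W E) with h0 | h0
    · rw [h0, mul_zero] at hfinal
      exact absurd hfinal.symm (pow_pos hbS 2).ne'
    · exact h0
  · rw [← hfinal, mul_comm]
    rfl

end

end MotP.HL
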