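import Pool.Agent.HL.St4
import Pool.Agent.HL.P_ADJ
import Pool.Agent.HL.P_LCV
import Pool.Agent.HL.P_HLF

/-!
# The half law, module GGX (helper8): the objects `GG X k`
-/

set_option autoImplicit false
set_option linter.unusedSectionVars false

open CategoryTheory MonoidalCategory BraidedCategory Limits

universe v u

namespace MotP.HL

open Mot MotP.GGap

noncomputable section

variable (C : Type u) [Category.{v} C] [Preadditive C] [Linear ℚ C] [MonoidalCategory C]
  [SymmetricCategory C] [MonoidalPreadditive C] [MonoidalLinear ℚ C] [RightRigidCategory C]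

namespace GGX

variable {C}

/-- the sum of exponents -/
def addIso (X : C) (r : ℕ) : ∀ k : ℕ, T X r ⊗ T X k ≅ T X (r + k)
  | 0 => ρ_ (T X r)
  | k + 1 => (α_ (T X r) (T X k) X).symm ≪≫ whiskerRightIso (addIso X r k) X

theorem h_iso {X Y : C} (e : X ≅ Y) : h X X = h Y Y := by
  rw [ADJ.h_left e, ADJ.h_right e]

/-- transport of a decomposition along an isomorphism of the sum -/
def trans {X X' Y Z : C} (d : Dec X Y Z) (e : X ≅ X') : Dec X' Y Z where
  i := d.i ≫ e.hom
  p := e.inv ≫ d.p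
  j := d.j ≫ e.hom
  q := e.inv ≫ d.q
  ip := by simp [d.ip]
  jq := by simp [d.jq]
  iq := by simp [d.iq]
  jp := by simp [d.jp]
  sum := by
    have h1 : e.inv ≫ (d.p ≫ d.i + d.q ≫ d.j) ≫ e.hom = 𝟙 X' := by
      rw [d.sum, Category.id_comp, e.inv_hom_id]
    rw [← h1]
    simp only [Preadditive.add_comp, Preadditive.comp_add, Category.assoc]

/-- `GG X k` is its own dual -/
def selfDual (X : C) (k : ℕ) : ((GG X k)ᘁ : C) ≅ GG X k :=
  ADJ.dualTensor (T X k) (T X k)ᘁ ≪≫ whiskerRightIso (LCV.bidual (T X k)) (T X k)ᘁ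

theorem b_T (hBFA : S_BFA C) [IsIdempotentComplete C] (W : Frob C) (X : C) (k : ℕ) :
    b W (T X k) = b W X ^ k := by
  obtain ⟨b1, -, -, b4, -⟩ := hBFA W
  induction k with
  | zero => rw [pow_zero]; exact b4
  | succ k ih =>
    change b W (T X k ⊗ X) = _
    rw [b1, ih, pow_succ]

/-- the decomposition with a zero summand -/
def isoDec [HasZeroObject C] {X Y : C} (e : X ≅ Y) : Dec X Y (HasZeroObject.zero' C).zero where
  i := e.inv
  p := e.hom
  j := 0
  q := 0
  ip := e.inv_hom_id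
  jq := (isZero_zero C).eq_of_src _ _
  iq := comp_zero
  jp := zero_comp
  sum := by rw [comp_zero, add_zero, e.hom_inv_id]

end GGX

theorem t_GGX : M_GGX C := by
  intro hADJ hBFA _ _ W X
  obtain ⟨-, -, -, -, -, a6⟩ := hADJ W
  obtain ⟨b1, -, b3, -⟩ := hBFA W
  refine ⟨?_, ?_, ?_, ?_, ?_⟩
  · intro k r
    exact (a6 (T X r) (T X k)).symm.trans (GGX.h_iso (GGX.addIso X r k))
  · intro r
    exact (ADJ.h_eq_n (T X r) (T X r)).symm
  · intro k
    change b W (T X k ⊗ (T X k)ᘁ) = _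
    rw [b1, b3, GGX.b_T hBFA W X k, two_mul, pow_add]
  · rintro S k ⟨S', ⟨d⟩⟩
    exact ⟨S'ᘁ, ⟨GGX.trans (HLF.dual d) (GGX.selfDual X k)⟩⟩
  · exact ⟨_, ⟨GGX.isoDec (λ_ (HLF.I C) ≪≫ HLF.unitDual)⟩⟩

end

end MotP.HL
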