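import Pool.Agent.HL.St4

/-!
# LIM: the ratios `m_r / n_r` are almost increasing
-/

set_option autoImplicit false

open CategoryTheory MonoidalCategory BraidedCategory Limits Polynomial Filter

universe v u

namespace MotP.HL

open Mot MotP.GGap

noncomputable section

variable (C : Type u) [Category.{v} C] [Preadditive C] [Linear ℚ C] [MonoidalCategory C]
  [SymmetricCategory C] [MonoidalPreadditive C] [MonoidalLinear ℚ C] [RightRigidCategory C]

omit [MonoidalPreadditive C] [MonoidalLinear ℚ C] in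
theorem t_LIM : M_LIM C := by
  intro hA hN hR hAs hP _ _ W X hX r ε hε
  obtain ⟨P, hPs, hPo, hPb, -, hPu⟩ := hP W (GG X r)
  have hr : (0 : ℝ) < nn X r := by exact_mod_cast (hR W X hX).2.1 r
  have hlim := hAs W X hX r P hPs
  have hev := hlim.eventually (lt_mem_nhds (show (b W P : ℝ) - ε * nn X r < b W P by
    have := mul_pos hε hr
    linarith))
  obtain ⟨N, hNs⟩ := eventually_atTop.1 hev
  refine ⟨N, fun s hs => ?_⟩
  have h1 := hNs s hs
  have hs0 : (0 : ℝ) < nn X s := by exact_mod_cast (hR W X hX).2.1 s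
  obtain ⟨Q, -, hQo, hQb, -, hQu⟩ := hP W (GG X s)
  have e1 : n (P ⊗ GG X s) = n (Q ⊗ GG X r) := by
    rw [hQu P hPo, hPu Q hQo]
    exact ((hA W).2.2.1 _ _ (β_ P Q)).2.1 (𝟙_ C)
  have e2 : n (P ⊗ GG X s) ≤ mm W X s * nn X r := by
    rw [e1]
    have h2 := (hA W).2.2.2.1 Q (T X r)
    have h3 := hN W Q (T X r)
    have h4 : b W Q = mm W X s := hQb
    rw [h4] at h3
    unfold GG
    rw [← h2]
    exact h3
  have e3 : (n (P ⊗ GG X s) : ℝ) ≤ mm W X s * nn X r := by exact_mod_cast e2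
  have e4 : b W P = mm W X r := hPb
  rw [e4] at h1
  rw [lt_div_iff₀ hs0] at h1
  rw [sub_le_iff_le_add, div_le_iff₀ hr]
  have e5 : ((mm W X s : ℝ) / nn X s + ε) * nn X r * nn X s
      = mm W X s * nn X r + ε * nn X r * nn X s := by
    field_simp
  have e6 : (mm W X r : ℝ) * nn X s ≤ ((mm W X s : ℝ) / nn X s + ε) * nn X r * nn X s := by
    rw [e5]
    nlinarith
  exact le_of_mul_le_mul_right e6 hs0

end

end MotP.HL
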