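import Pool.Agent.HL.St4
import Pool.Agent.HL.P_NEV
import Pool.Agent.HL.P_NTC

/-!
# The half law, module NEE: eigenvalues of endomorphisms of numerical motives with trivial Frobenius
-/

set_option autoImplicit false

open CategoryTheory MonoidalCategory CartesianMonoidalCategory Limits Polynomial

universe v u w x

namespace MotP.HL

open CHM

noncomputable section

variable {V : Type u} [Category.{v} V] [CartesianMonoidalCategory V]

namespace NEE

/-- powers of endomorphisms of motives -/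
theorem pw_val {T : CHM.ChowTheory.{v, u, w} V} {M : CHM.Mot T} (f : M ⟶ M) (k : ℕ) :
    (_root_.Mot.pw f (k + 1)).1 = T.cpow f.1 (k + 1) := by
  induction k with
  | zero =>
    change T.cp M.p f.1 = T.cp (T.diag M.X) f.1
    rw [CHM.Mot.p_cp f.2, T.diag_cp]
  | succ k ih =>
    change T.cp (_root_.Mot.pw f (k + 1)).1 f.1 = T.cp (T.cpow f.1 (k + 1)) f.1
    rw [ih]

/-- powers of endomorphisms are stable under the projector -/
theorem p_cpow {T : CHM.ChowTheory.{v, u, w} V} {M : CHM.Mot T} (f : M ⟶ M) (k : ℕ) :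
    T.cp M.p (T.cpow f.1 (k + 1)) = T.cpow f.1 (k + 1) := by
  rw [← pw_val]
  exact CHM.Mot.p_cp (_root_.Mot.pw f (k + 1)).2

/-- the graph of Frobenius acts on a motive with trivial Frobenius by a scalar -/
theorem gr'_cp {T : CHM.ChowTheory.{v, u, w} V} (R : CHM.FrobeniusMaps T) {M : CHM.Mot T}
    (hM : R.onMot M = 𝟙 M) {g : T.CH (M.X ⊗ M.X)} (hg : T.cp M.p g = g) :
    T.cp (T.gr' (R.Fr M.X)) g = (R.q : ℚ) ^ M.m • g := by
  have h1 : (R.q : ℚ) ^ (-M.m) • T.cp M.p (T.gr' (R.Fr M.X)) = M.p := congrArg (·.1) hM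
  have h2 : T.cp (T.gr' (R.Fr M.X)) M.p = (R.q : ℚ) ^ M.m • M.p := by
    rw [R.cp_p_gr']
    conv_rhs => rw [← h1]
    rw [smul_smul, ← zpow_add₀ R.q_ne, add_neg_cancel, zpow_zero, one_smul]
  conv_lhs => rw [← hg]
  rw [← T.cp_assoc, h2, T.smul_cp, hg]

/-- the same for the powers of the graph of Frobenius -/
theorem cpow_gr'_cp {T : CHM.ChowTheory.{v, u, w} V} (R : CHM.FrobeniusMaps T) {M : CHM.Mot T}
    (hM : R.onMot M = 𝟙 M) {g : T.CH (M.X ⊗ M.X)} (hg : T.cp M.p g = g) (j : ℕ) :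
    T.cp (T.cpow (T.gr' (R.Fr M.X)) j) g = ((R.q : ℚ) ^ M.m) ^ j • g := by
  induction j with
  | zero =>
    change T.cp (T.diag M.X) g = _
    rw [T.diag_cp, pow_zero, one_smul]
  | succ j ih =>
    change T.cp (T.cp (T.cpow (T.gr' (R.Fr M.X)) j) (T.gr' (R.Fr M.X))) g = _
    rw [T.cp_assoc, gr'_cp R hM hg, T.cp_smul, ih, smul_smul, pow_succ']

end NEE

open NEE

theorem t_NEE (T : CHM.ChowTheory.{v, u, w} V) : M_NEE.{v, u, w, x} T := by
  intro hNLB hG hU hN R K hE S f hS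
  obtain ⟨P, hP', hPf⟩ := (numQ_gr hG hU).1 f.2.1
  have hP : P ∈ T.gr (S.X ⊗ S.X) (T.dim S.X) := by
    have e : (numQ T hG hU).dim S.X + S.m - S.m = T.dim S.X := by
      rw [add_sub_cancel_right]
      rfl
    rw [← e]
    exact hP'
  have hP0 : P ∈ T.gr (S.X ⊗ S.X) (T.dim S.X + 0) := by
    rw [add_zero]
    exact hP
  have hF : T.gr' (R.Fr S.X) ∈ T.gr (S.X ⊗ S.X) (T.dim S.X) := T.gr'_mem _
  have hF0 : T.gr' (R.Fr S.X) ∈ T.gr (S.X ⊗ S.X) (T.dim S.X + 0) := by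
    rw [add_zero]
    exact hF
  have hq : (R.q : ℚ) ≠ 0 := R.q_ne
  have hS' : (frQ hG hU R).onMot S = 𝟙 S := hS
  let W := frobQ hG hU hN R K hE
  let σ : Module.End ℂ (K.H S.X) := K.sgn S.X
  let F : Module.End ℂ (K.H S.X) := K.act (T.gr' (R.Fr S.X))
  let a : Module.End ℂ (K.H S.X) := K.act P
  let c : ℂ := (R.q : ℂ) ^ (-S.m)
  have h1 : σ * σ = 1 := by
    ext y
    exact K.sgn_sgn _ y
  have h2 : σ * (c • F) = (c • F) * σ := by
    rw [mul_smul_comm, smul_mul_assoc]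
    congr 1
    ext y
    exact K.sgn_act hF0 y
  have h3 : σ * a = a * σ := by
    ext y
    exact K.sgn_act hP0 y
  have hFa : a * F = F * a := by
    have h := R.gr'_comm hP
    rw [sub_self, zpow_zero, one_smul] at h
    ext y
    calc (a * F) y = K.act (T.cp (T.gr' (R.Fr S.X)) P) y := (K.act_cp _ _ y).symm
      _ = K.act (T.cp P (T.gr' (R.Fr S.X))) y := by rw [h]
      _ = (F * a) y := K.act_cp _ _ y
  have h4 : a * (c • F) = (c • F) * a := by
    rw [mul_smul_comm, smul_mul_assoc, hFa]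
  have h5 : ∀ k j : ℕ, LinearMap.trace ℂ (K.H S.X) (σ * a ^ (k + 1) * (c • F) ^ (j + 1)) =
      ((W.val (MotP.tr S (_root_.Mot.pw f (k + 1))) : ℚ) : ℂ) := by
    intro k j
    have hval := NTC.scalar_eq (_root_.Mot.pw f (k + 1))
      (W.val (MotP.tr S (_root_.Mot.pw f (k + 1)))) (W.val_spec _)
    rw [pw_val] at hval
    have hmem : T.cp (T.cpow (T.gr' (R.Fr S.X)) (j + 1)) (T.cpow P (k + 1)) ∈
        T.gr (S.X ⊗ S.X) (T.dim S.X) := by
      have h7 := T.cp_mem (NEV.cpow_mem hF (j + 1)) (NEV.cpow_mem hP (k + 1))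
      have e : T.dim S.X + T.dim S.X - T.dim S.X = T.dim S.X := by ring
      rw [e] at h7
      exact h7
    have h8 := K.trace_formula S.X _ hmem
    have h9 : (K.sgn S.X ∘ₗ K.act (T.cp (T.cpow (T.gr' (R.Fr S.X)) (j + 1)) (T.cpow P (k + 1))) :
        Module.End ℂ (K.H S.X)) = σ * a ^ (k + 1) * F ^ (j + 1) := by
      ext y
      have e1 : K.act (T.cp (T.cpow (T.gr' (R.Fr S.X)) (j + 1)) (T.cpow P (k + 1))) y =
          (a ^ (k + 1)) ((F ^ (j + 1)) y) := by
        rw [K.act_cp, NEV.act_cpow, NEV.act_cpow]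
      exact congrArg (K.sgn S.X) e1
    rw [h9] at h8
    have h10 : σ * a ^ (k + 1) * (c • F) ^ (j + 1) =
        (c ^ (j + 1)) • (σ * a ^ (k + 1) * F ^ (j + 1)) := by
      rw [_root_.smul_pow, mul_smul_comm]
    have h11 : T.trc (T.cp (T.cpow (T.gr' (R.Fr S.X)) (j + 1)) (T.cpow P (k + 1))) =
        ((R.q : ℚ) ^ S.m) ^ (j + 1) * W.val (MotP.tr S (_root_.Mot.pw f (k + 1))) := by
      have e1 := cpow_gr'_cp (frQ hG hU R) hS' (p_cpow f k) (j + 1)
      have e2 : (numQ T hG hU).cpow (X := S.X) ((numQ T hG hU).gr' ((frQ hG hU R).Fr S.X)) (j + 1) =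
          pr T _ (T.cpow (T.gr' (R.Fr S.X)) (j + 1)) := by
        rw [numQ_gr' hG hU]
        exact NTC.numQ_cpow hG hU _ (j + 1)
      have e3 : (numQ T hG hU).cpow (X := S.X) f.1 (k + 1) = pr T _ (T.cpow P (k + 1)) := by
        rw [← NTC.numQ_cpow hG hU]
        exact congrArg (fun p => (numQ T hG hU).cpow (X := S.X) p (k + 1)) hPf.symm
      have e4 : (numQ T hG hU).trc (X := S.X) ((numQ T hG hU).cp (X := S.X) (Y := S.X) (Z := S.X)
          ((numQ T hG hU).cpow (X := S.X) ((numQ T hG hU).gr' ((frQ hG hU R).Fr S.X)) (j + 1))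
          ((numQ T hG hU).cpow (X := S.X) f.1 (k + 1))) =
          T.trc (T.cp (T.cpow (T.gr' (R.Fr S.X)) (j + 1)) (T.cpow P (k + 1))) := by
        rw [e2, e3]
        refine Eq.trans ?_ (numQ_trc hG hU _)
        rw [← numQ_cp hG hU]
      rw [← e4, hval]
      refine (congrArg (numQ T hG hU).trc e1).trans ?_
      unfold ChowTheory.trc
      rw [map_smul, map_smul, smul_eq_mul]
      rfl
    rw [h10, map_smul, ← h8, smul_eq_mul]
    have h12 : ((T.deg (T.pull (lift (𝟙 S.X) (𝟙 S.X))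
        (T.cp (T.cpow (T.gr' (R.Fr S.X)) (j + 1)) (T.cpow P (k + 1)))) : ℚ) : ℂ) =
        (((R.q : ℚ) ^ S.m) ^ (j + 1) * W.val (MotP.tr S (_root_.Mot.pw f (k + 1))) : ℚ) :=
      congrArg _ h11
    rw [h12]
    have hqc : (R.q : ℂ) ≠ 0 := by exact_mod_cast hq
    push_cast
    rw [← mul_assoc, ← mul_pow]
    have h13 : c * (R.q : ℂ) ^ S.m = 1 := by
      change (R.q : ℂ) ^ (-S.m) * (R.q : ℂ) ^ S.m = 1
      rw [← zpow_add₀ hqc, neg_add_cancel, zpow_zero]
    rw [h13, one_pow, one_mul]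
  have h6 : ∀ y : K.H S.X, σ y = -y → (c • F) y = y → y = 0 := by
    intro y hy hy2
    refine K.one_not_odd (CHM.Mot.h T S.X S.m) y ⟨K.act_diag S.X y, hy⟩ ?_
    rw [K.act_onMot (CHM.Mot.h T S.X S.m) y (K.act_diag S.X y)]
    exact hy2
  exact hNLB (K.H S.X) σ a (c • F)
    (fun k => ((W.val (MotP.tr S (_root_.Mot.pw f (k + 1))) : ℚ) : ℂ)) h1 h3 h2 h4 h5 h6

end

end MotP.HL
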