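import Pool.Agent.HL.St4

/-!
# The half law, part Q, module NLB: linear algebra
-/

set_option autoImplicit false

open Polynomial

universe x

namespace MotP.HL

noncomputable section

namespace NLB

variable {E : Type x} [AddCommGroup E] [Module ℂ E] [Module.Finite ℂ E]

/-- the idempotent of the eigenvalue `1` as a polynomial without constant term -/
theorem poly (a : Module.End ℂ E) : ∃ (g : ℂ[X]) (s : ℕ), g.coeff 0 = 0 ∧ g.eval 1 = 1 ∧
    aeval a (g * g - g) = 0 ∧ aeval a ((X - C (1 : ℂ)) ^ s * g) = 0 := by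
  have hm : a.charpoly ≠ 0 := (LinearMap.charpoly_monic a).ne_zero
  obtain ⟨q, hq, hdvd⟩ := Polynomial.exists_eq_pow_rootMultiplicity_mul_and_not_dvd
    (a.charpoly) hm 1
  set s := Polynomial.rootMultiplicity 1 a.charpoly
  have hirr : Irreducible (X - C (1 : ℂ)) := Polynomial.irreducible_X_sub_C 1
  have hnd : ¬ (X - C (1 : ℂ)) ∣ X * q := by
    intro h
    rcases (hirr.prime.dvd_or_dvd h) with h1 | h1
    · have h2 := Polynomial.dvd_iff_isRoot.1 h1
      rw [IsRoot, eval_X] at h2
      exact one_ne_zero h2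
    · exact hdvd h1
  have hcop : IsCoprime (X * q) ((X - C (1 : ℂ)) ^ (s + 1)) :=
    (((hirr.coprime_iff_not_dvd).2 hnd).pow_left).symm
  obtain ⟨u, v, huv⟩ := hcop
  refine ⟨u * (X * q), s, ?_, ?_, ?_, ?_⟩
  · rw [coeff_zero_eq_eval_zero]
    simp
  · have h := congrArg (eval 1) huv
    rw [eval_add, eval_mul (p := v), eval_pow, eval_sub, eval_X, eval_C, sub_self,
      zero_pow (Nat.succ_ne_zero s), mul_zero, add_zero, eval_one] at h
    exact h
  · have h1 : u * (X * q) * (u * (X * q)) - u * (X * q) =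
        -(u * v * X * (X - C 1)) * a.charpoly := by
      rw [hq]
      have h2 : u * (X * q) - 1 = -(v * (X - C (1 : ℂ)) ^ (s + 1)) := by
        rw [← huv]
        ring
      calc u * (X * q) * (u * (X * q)) - u * (X * q) = u * (X * q) * (u * (X * q) - 1) := by ring
        _ = _ := by
          rw [h2]
          ring
    rw [h1, map_mul, LinearMap.aeval_self_charpoly, mul_zero]
  · have h1 : (X - C (1 : ℂ)) ^ s * (u * (X * q)) = u * X * a.charpoly := by
      rw [hq]
      ring
    rw [h1, map_mul, LinearMap.aeval_self_charpoly, mul_zero]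

omit [Module.Finite ℂ E] in
theorem trace_poly (B a : Module.End ℂ E) (c : ℂ)
    (h : ∀ j : ℕ, LinearMap.trace ℂ E (B * a ^ (j + 1)) = c) (g : ℂ[X]) (h0 : g.coeff 0 = 0) :
    LinearMap.trace ℂ E (B * aeval a g) = g.eval 1 * c := by
  rw [aeval_eq_sum_range, Finset.mul_sum, map_sum, eval_eq_sum_range, Finset.sum_mul]
  apply Finset.sum_congr rfl
  intro i _
  rw [mul_smul_comm, map_smul, smul_eq_mul, one_pow, mul_one]
  rcases i with _ | j
  · rw [h0, zero_mul, zero_mul]
  · rw [h j]

end NLB

open NLB

theorem t_NLB : S_NLB.{x} := by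
  classical
  intro E _ _ _ σ f a r hσ hσf hσa hfa htr hodd
  obtain ⟨g, s, hg0, hg1, hgi, hgs⟩ := NLB.poly a
  set e : Module.End ℂ E := aeval a g with he
  have hee : e * e = e := by
    have h := hgi
    rw [map_sub, map_mul, sub_eq_zero] at h
    exact h
  have hse : (a - 1) ^ s * e = 0 := by
    have h := hgs
    rw [map_mul, map_pow, map_sub, aeval_X, aeval_C, map_one] at h
    exact h
  have comm_g : ∀ B : Module.End ℂ E, B * a = a * B → B * e = e * B := by
    intro B hB
    have h1 : Commute B a := hB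
    have h2 : Commute B e := by
      rw [he, aeval_eq_sum_range]
      apply Commute.sum_right
      intro i _
      exact (h1.pow_right i).smul_right _
    exact h2
  have hσe : σ * e = e * σ := comm_g σ hσa
  have hfe : f * e = e * f := comm_g f hfa
  have hσfk : ∀ k, σ * f ^ k = f ^ k * σ := fun k => (Commute.pow_right (show Commute σ f from hσf) k)
  have hfke : ∀ k, f ^ k * e = e * f ^ k := fun k => (Commute.pow_left (show Commute f e from hfe) k)
  let P : Submodule ℂ E :=
    { carrier := {y | e y = y ∧ σ y = y}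
      add_mem' := fun {y z} hy hz => by
        refine ⟨?_, ?_⟩
        · rw [map_add, hy.1, hz.1]
        · rw [map_add, hy.2, hz.2]
      zero_mem' := ⟨map_zero _, map_zero _⟩
      smul_mem' := fun c y hy => by
        refine ⟨?_, ?_⟩
        · rw [map_smul, hy.1]
        · rw [map_smul, hy.2] }
  let N : Submodule ℂ E :=
    { carrier := {y | e y = y ∧ σ y = -y}
      add_mem' := fun {y z} hy hz => by
        refine ⟨?_, ?_⟩
        · rw [map_add, hy.1, hz.1]
        · rw [map_add, hy.2, hz.2, neg_add]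
      zero_mem' := ⟨map_zero _, by rw [map_zero, neg_zero]⟩
      smul_mem' := fun c y hy => by
        refine ⟨?_, ?_⟩
        · rw [map_smul, hy.1]
        · rw [map_smul, hy.2, smul_neg] }
  -- the odd part is zero: `(a - 1) ^ k y = 0` implies `y = 0`
  have hN0 : ∀ (k : ℕ) (y : E), σ y = -y → ((a - 1) ^ k) y = 0 → y = 0 := by
    intro k
    induction k with
    | zero => exact fun y _ h => h
    | succ k ih =>
      intro y hy h
      have hσ1 : σ * (a - 1) = (a - 1) * σ := by
        rw [mul_sub, sub_mul, hσa, mul_one, one_mul]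
      have h1 : σ ((a - 1) y) = -((a - 1) y) := by
        have h2 := LinearMap.congr_fun hσ1 y
        change σ ((a - 1) y) = (a - 1) (σ y) at h2
        rw [h2, hy, map_neg]
      have h3 : (a - 1) y = 0 := by
        apply ih _ h1
        rw [pow_succ] at h
        exact h
      apply hodd y hy
      have h4 : a y - y = 0 := h3
      exact sub_eq_zero.1 h4
  have hNbot : ∀ y ∈ N, y = 0 := by
    intro y hy
    apply hN0 s y hy.2
    have h1 := LinearMap.congr_fun hse y
    change ((a - 1) ^ s) (e y) = 0 at h1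
    rwa [hy.1] at h1
  have hfP : ∀ y ∈ P, f y ∈ P := by
    intro y hy
    refine ⟨?_, ?_⟩
    · have h1 := LinearMap.congr_fun hfe y
      change f (e y) = e (f y) at h1
      rw [← h1, hy.1]
    · have h1 := LinearMap.congr_fun hσf y
      change σ (f y) = f (σ y) at h1
      rw [h1, hy.2]
  -- powers
  have hkP : ∀ k : ℕ, ∀ y ∈ P, (f ^ k) y ∈ P := by
    intro k
    induction k with
    | zero => exact fun y hy => hy
    | succ k ih =>
      intro y hy
      rw [pow_succ']
      exact hfP _ (ih y hy)
  have hAP : ∀ k : ℕ, ∀ y ∈ P, (f ^ k * e) y ∈ P := by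
    intro k y hy
    change (f ^ k) (e y) ∈ P
    rw [hy.1]
    exact hkP k y hy
  have hAN : ∀ k : ℕ, ∀ y ∈ N, (f ^ k * e) y ∈ N := by
    intro k y hy
    rw [hNbot y hy, map_zero]
    exact N.zero_mem
  have hrP : ∀ k : ℕ, LinearMap.restrict (f ^ k * e) (hAP k) = (LinearMap.restrict f hfP) ^ k := by
    intro k
    ext y
    have h1 : ∀ j : ℕ, (((LinearMap.restrict f hfP) ^ j) y : E) = (f ^ j) y := by
      intro j
      induction j with
      | zero => rfl
      | succ j ih =>
        rw [pow_succ', pow_succ']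
        change f (((LinearMap.restrict f hfP) ^ j) y : E) = f ((f ^ j) y)
        rw [ih]
    rw [h1]
    change (f ^ k) (e y) = (f ^ k) y
    rw [(y.2 : e y = y ∧ _).1]
  have hrN : ∀ k : ℕ, LinearMap.restrict (f ^ k * e) (hAN k) = 0 := by
    intro k
    ext y
    change (f ^ k * e) (y : E) = 0
    rw [hNbot y y.2, map_zero]
  refine ⟨(LinearMap.restrict f hfP).charpoly.roots, ?_⟩
  intro k
  have h1 := trace_poly (σ * f ^ (k + 1)) a (r k) (fun j => htr k j) g hg0
  rw [hg1, one_mul, ← he] at h1
  have h2 := CHM.Lin.trace_sgn σ e (f ^ (k + 1) * e) hσ hσe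
    (by
      change e * (f ^ (k + 1) * e) = f ^ (k + 1) * e
      rw [← mul_assoc, ← hfke, mul_assoc, hee])
    (by
      change σ * (f ^ (k + 1) * e) = f ^ (k + 1) * e * σ
      rw [← mul_assoc, hσfk, mul_assoc, hσe, mul_assoc])
    P N (fun x => Iff.rfl) (fun x => Iff.rfl) (hAP (k + 1)) (hAN (k + 1))
  rw [hrP, hrN, map_zero, sub_zero, CHM.Lin.trace_pow_eq] at h2
  rw [← h2, ← h1]
  congr 1

end

end MotP.HL
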