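import Pool.Agent.HL.St4

/-!
# The half law, part Q: QUA, the quantization theorem in the category (helper62)
-/

set_option autoImplicit false

open CategoryTheory MonoidalCategory BraidedCategory Limits Polynomial Filter

universe v u

namespace MotP.HL

open Mot MotP.GGap

noncomputable section

variable (C : Type u) [Category.{v} C] [Preadditive C] [Linear ℚ C] [MonoidalCategory C]
  [SymmetricCategory C] [MonoidalPreadditive C] [MonoidalLinear ℚ C] [RightRigidCategory C]

theorem t_QUA : M_QUA C := by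
  intro hADJ hRTO hGGX hLIM hONE hSIM hLOW hDIV _ _ W hE X hX
  obtain ⟨hb, hn, -⟩ := hRTO W X hX
  have hnm : ∀ r, nn X r ≤ mm W X r := fun r => W.finrank_hom_le (T X r) (T X r)
  have hm : ∀ r, 0 < mm W X r := fun r => lt_of_lt_of_le (hn r) (hnm r)
  refine ⟨fun r => ⟨hn r, hnm r⟩, ?_⟩
  -- the weight of a family is a natural number
  have hwt : ∀ (N : ℕ) (S : Fin N → C), Fam W X S → ∃ k : ℕ, N ≤ k ∧ wt W S = k := by
    intro N S hS
    have h1 : ∀ i, ∃ t : ℕ, 0 < t ∧ (b W (S i) : ℝ) ^ 2 / h (S i) (S i) = t := by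
      intro i
      obtain ⟨hsi, hoi, -⟩ := hS.1 i
      obtain ⟨t, ht, hbt⟩ := hDIV W hE (S i) hsi hoi
      have hbp : 0 < b W (S i) := (hONE W).2.2.2.2.2.1 (S i) hsi.1
      have hh : 0 < h (S i) (S i) := by
        rcases Nat.eq_zero_or_pos (h (S i) (S i)) with h0 | h0
        · exfalso
          rw [h0, mul_zero] at hbt
          exact absurd hbt (pow_pos hbp 2).ne'
        · exact h0
      refine ⟨t, ht, ?_⟩
      have hh' : ((h (S i) (S i) : ℕ) : ℝ) ≠ 0 := by exact_mod_cast hh.ne'
      rw [div_eq_iff hh']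
      exact_mod_cast hbt
    choose t ht hbt using h1
    refine ⟨∑ i, t i, ?_, ?_⟩
    · calc N = ∑ _i : Fin N, 1 := by simp
        _ ≤ ∑ i, t i := Finset.sum_le_sum fun i _ => ht i
    · unfold wt
      rw [Nat.cast_sum]
      exact Finset.sum_congr rfl fun i _ => hbt i
  by_cases hall : ∀ N : ℕ, ∃ S : Fin N → C, Fam W X S
  · refine ⟨0, Or.inl rfl, ?_, fun r => by positivity⟩
    have htop : Tendsto (fun r => (mm W X r : ℝ) / nn X r) atTop atTop := by
      rw [tendsto_atTop]
      intro B
      obtain ⟨K, hK⟩ := exists_nat_ge B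
      obtain ⟨S, hS⟩ := hall (K + 1)
      obtain ⟨k, hk, hwk⟩ := hwt (K + 1) S hS
      obtain ⟨N₀, hN₀⟩ := (hLOW W X hX (K + 1) S hS).1 1 one_pos
      filter_upwards [eventually_ge_atTop N₀] with r hr
      have h2 := hN₀ r hr
      have h3 : ((K + 1 : ℕ) : ℝ) ≤ k := by exact_mod_cast hk
      push_cast at h3
      rw [hwk] at h2
      linarith
    have h4 := htop.inv_tendsto_atTop
    refine h4.congr fun r => ?_
    simp [Pi.inv_apply, inv_div]
  · have hex : ∃ N : ℕ, ¬ ∃ S : Fin N → C, Fam W X S := by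
      by_contra hcon
      exact hall fun N => by
        by_contra hN
        exact hcon ⟨N, hN⟩
    classical
    obtain ⟨N, hN, hmin⟩ : ∃ N : ℕ, (¬ ∃ S : Fin N → C, Fam W X S) ∧
        ∀ M < N, ∃ S : Fin M → C, Fam W X S :=
      ⟨Nat.find hex, Nat.find_spec hex, fun M hM => not_not.1 (Nat.find_min hex hM)⟩
    rcases N with _ | N
    · exact absurd ⟨Fin.elim0, ⟨fun i => Fin.elim0 i, fun i => Fin.elim0 i⟩⟩ hN
    obtain ⟨S, hS⟩ := hmin N (Nat.lt_succ_self N)
    have hcomp : ∀ S' : C, Smp S' → One W S' → (∃ k, Smd S' (GG X k)) → ∃ i, h (S i) S' ≠ 0 := by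
      intro S' hs ho hk
      by_contra hcon
      have hz : ∀ i, h (S i) S' = 0 := fun i => by
        by_contra hi
        exact hcon ⟨i, hi⟩
      refine hN ⟨Fin.cons S' S, ?_, ?_⟩
      · intro i
        refine Fin.cases ?_ (fun j => ?_) i
        · simpa using ⟨hs, ho, hk⟩
        · simpa using hS.1 j
      · intro i
        refine Fin.cases ?_ (fun i' => ?_) i
        · intro j
          refine Fin.cases ?_ (fun j' => ?_) j
          · intro h0; exact absurd rfl h0
          · intro _
            rw [Fin.cons_zero, Fin.cons_succ, (hADJ W).2.1]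
            exact hz j'
        · intro j
          refine Fin.cases ?_ (fun j' => ?_) j
          · intro _
            rw [Fin.cons_zero, Fin.cons_succ]
            exact hz i'
          · intro hij
            rw [Fin.cons_succ, Fin.cons_succ]
            exact hS.2 i' j' fun h0 => hij (by rw [h0])
    have hlim := (hLOW W X hX N S hS).2 hcomp
    obtain ⟨k, -, hwk⟩ := hwt N S hS
    rw [hwk] at hlim
    have hle : ∀ r, (mm W X r : ℝ) / nn X r ≤ k := by
      intro r
      refine le_of_forall_pos_sub_le fun ε hε => ?_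
      obtain ⟨N₀, hN₀⟩ := hLIM W X hX r ε hε
      exact ge_of_tendsto hlim (by
        filter_upwards [eventually_ge_atTop N₀] with s hs
        exact hN₀ s hs)
    have hk0 : 0 < k := by
      rcases Nat.eq_zero_or_pos k with h0 | h0
      · exfalso
        have h5 := hle 0
        rw [h0, Nat.cast_zero] at h5
        have h6 : (0 : ℝ) < (mm W X 0 : ℝ) / nn X 0 :=
          div_pos (by exact_mod_cast hm 0) (by exact_mod_cast hn 0)
        linarith
      · exact h0
    have hk0' : (0 : ℝ) < k := by exact_mod_cast hk0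
    refine ⟨1 / k, Or.inr ⟨k, hk0, rfl⟩, ?_, ?_⟩
    · have h7 := hlim.inv₀ hk0'.ne'
      rw [one_div]
      refine h7.congr fun r => ?_
      rw [inv_div]
    · intro r
      have hmr : (0 : ℝ) < mm W X r := by exact_mod_cast hm r
      have hnr : (0 : ℝ) < nn X r := by exact_mod_cast hn r
      have h8 := hle r
      rw [div_le_iff₀ hnr] at h8
      rw [div_le_div_iff₀ hk0' hmr]
      linarith

end

end MotP.HL
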