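import Pool.Agent.HL.St4

/-!
# SEP: the separability idempotent of a division algebra over the rationals
-/

set_option autoImplicit false

open TensorProduct

universe u

namespace MotP.HL

namespace SEP

noncomputable section

variable {D : Type u} [Ring D] [Algebra ℚ D]

theorem trL_apply (f : D) : trL D f = LinearMap.trace ℚ D (LinearMap.mul ℚ D f) := rfl

theorem trL_comm (f g : D) : trL D (f * g) = trL D (g * f) := by
  rw [trL_apply, trL_apply]
  have h1 : ∀ f g : D, LinearMap.mul ℚ D (f * g) = LinearMap.mul ℚ D f * LinearMap.mul ℚ D g := by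
    intro f g
    ext x
    simp [mul_assoc]
  rw [h1, h1, LinearMap.trace_mul_comm]

theorem trL_one [Module.Finite ℚ D] : trL D (1 : D) = Module.finrank ℚ D := by
  rw [trL_apply]
  have h1 : LinearMap.mul ℚ D (1 : D) = 1 := by
    ext x
    simp
  rw [h1, LinearMap.trace_one]

variable (D) in
/-- the trace form -/
def form : LinearMap.BilinForm ℚ D := (LinearMap.mul ℚ D).compr₂ (trL D)

theorem form_apply (f g : D) : form D f g = trL D (f * g) := rfl

theorem form_symm : (form D).IsSymm := by
  refine ⟨fun f g => ?_⟩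
  rw [form_apply, form_apply, trL_comm]

theorem form_nondeg [Module.Finite ℚ D] [Nontrivial D]
    (hD : ∀ x : D, x ≠ 0 → ∃ y, x * y = 1 ∧ y * x = 1) : (form D).Nondegenerate := by
  have hpos : (Module.finrank ℚ D : ℚ) ≠ 0 := by
    have h := Module.finrank_pos (R := ℚ) (M := D)
    positivity
  constructor
  · intro x hx
    by_contra h0
    obtain ⟨y, hy, -⟩ := hD x h0
    have h1 := hx y
    rw [form_apply, hy, trL_one] at h1
    exact hpos h1
  · intro x hx
    by_contra h0
    obtain ⟨y, -, hy⟩ := hD x h0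
    have h1 := hx y
    rw [form_apply, hy, trL_one] at h1
    exact hpos h1

theorem main [Module.Finite ℚ D] [Nontrivial D]
    (hD : ∀ x : D, x ≠ 0 → ∃ y, x * y = 1 ∧ y * x = 1) : ∃ (N : ℕ) (x y : Fin N → D),
    ∑ j, x j * y j = 1 ∧
    (∀ a : D, ∑ j, TensorProduct.tmul ℚ (a * x j) (y j) =
      ∑ j, TensorProduct.tmul ℚ (x j) (y j * a)) ∧
    ∑ j, trL D (x j) * trL D (y j) = Module.finrank ℚ D := by
  classical
  have hB := form_nondeg hD
  obtain ⟨b, -⟩ : ∃ b : Module.Basis (Fin (Module.finrank ℚ D)) ℚ D, True :=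
    ⟨Module.finBasis ℚ D, trivial⟩
  have hy : ∀ v : D, ∑ j, trL D (v * b j) • (form D).dualBasis hB b j = v := by
    intro v
    have h1 := ((form D).dualBasis hB b).sum_repr v
    simp only [LinearMap.BilinForm.dualBasis_repr_apply, form_apply] at h1
    exact h1
  have hrx : ∀ (v : D) (j), b.repr v j = trL D (v * (form D).dualBasis hB b j) := by
    intro v j
    have h1 := LinearMap.BilinForm.dualBasis_repr_apply hB ((form D).dualBasis hB b) v j
    rw [LinearMap.BilinForm.dualBasis_dualBasis hB form_symm, form_apply] at h1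
    exact h1
  have hx : ∀ v : D, ∑ j, trL D (v * (form D).dualBasis hB b j) • b j = v := by
    intro v
    have h1 := b.sum_repr v
    simp only [hrx] at h1
    exact h1
  refine ⟨_, b, (form D).dualBasis hB b, ?_, ?_, ?_⟩
  · refine sub_eq_zero.1 (hB.1 _ ?_)
    intro a
    have h1 : trL D a = ∑ j, trL D (a * b j * (form D).dualBasis hB b j) := by
      rw [trL_apply, LinearMap.trace_eq_matrix_trace ℚ b, Matrix.trace]
      refine Finset.sum_congr rfl fun j _ => ?_
      rw [Matrix.diag_apply, LinearMap.toMatrix_apply, LinearMap.mul_apply', hrx]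
    rw [form_apply, trL_comm, mul_sub, map_sub, mul_one, Finset.mul_sum, map_sum, h1,
      sub_eq_zero]
    refine Finset.sum_congr rfl fun j _ => ?_
    rw [mul_assoc]
  · intro a
    have h1 : ∀ j, (a * b j) ⊗ₜ[ℚ] ((form D).dualBasis hB b j) =
        ∑ i, trL D (a * b j * (form D).dualBasis hB b i) •
          (b i ⊗ₜ[ℚ] (form D).dualBasis hB b j) := by
      intro j
      conv_lhs => rw [← hx (a * b j)]
      rw [TensorProduct.sum_tmul]
      refine Finset.sum_congr rfl fun i _ => ?_
      rw [TensorProduct.smul_tmul']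
    have h2 : ∀ i, (b i) ⊗ₜ[ℚ] ((form D).dualBasis hB b i * a) =
        ∑ j, trL D ((form D).dualBasis hB b i * a * b j) •
          (b i ⊗ₜ[ℚ] (form D).dualBasis hB b j) := by
      intro i
      conv_lhs => rw [← hy ((form D).dualBasis hB b i * a)]
      rw [TensorProduct.tmul_sum]
      refine Finset.sum_congr rfl fun j _ => ?_
      rw [TensorProduct.tmul_smul]
    rw [Finset.sum_congr rfl fun j _ => h1 j, Finset.sum_congr rfl fun i _ => h2 i,
      Finset.sum_comm]
    refine Finset.sum_congr rfl fun i _ => Finset.sum_congr rfl fun j _ => ?_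
    rw [trL_comm (a * b j), ← mul_assoc]
  · have h1 := congrArg (trL D) (hy 1)
    rw [map_sum, trL_one] at h1
    rw [← h1]
    refine Finset.sum_congr rfl fun j _ => ?_
    rw [one_mul, map_smul, smul_eq_mul]

end

end SEP

theorem t_SEP : S_SEP.{u} := by
  intro D _ _ _ _ hD
  exact SEP.main hD

end MotP.HL
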