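import Pool.Agent.HL.St4
import Pool.Agent.CHM.Lin
import Pool.Agent.GGap.P_TVD
import Pool.Agent.Mot.Gal

/-!
# The half law, module TRD: traces on a division algebra
-/

set_option autoImplicit false

open Polynomial

universe u

namespace MotP.HL

noncomputable section

namespace TRD

variable {D : Type u} [Ring D] [Algebra ℚ D] [Module.Finite ℚ D] [Nontrivial D]

/-- the minimal polynomial of an element of a division algebra is irreducible -/
theorem irr (hD : ∀ x : D, x ≠ 0 → ∃ y, x * y = 1 ∧ y * x = 1) (f : D) :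
    Irreducible (minpoly ℚ f) := by
  have hint : IsIntegral ℚ f := IsIntegral.of_finite ℚ f
  have hnz : NoZeroDivisors D := by
    refine ⟨fun {a b} h => ?_⟩
    by_contra hc
    rw [not_or] at hc
    obtain ⟨y, -, hy⟩ := hD a hc.1
    apply hc.2
    calc b = y * a * b := by rw [hy, one_mul]
      _ = 0 := by rw [mul_assoc, h, mul_zero]
  have : IsDomain D := NoZeroDivisors.to_isDomain D
  exact minpoly.irreducible hint

/-- a functional whose values at the powers of `f` are power sums -/
theorem uu (hD : ∀ x : D, x ≠ 0 → ∃ y, x * y = 1 ∧ y * x = 1) (f : D) (hf : f ≠ 0)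
    (τ : D →ₗ[ℚ] ℚ) (α : Multiset ℂ)
    (h : ∀ k : ℕ, (τ (f ^ (k + 1)) : ℂ) = (α.map fun z => z ^ (k + 1)).sum) :
    ∃ μ : ℕ, ∀ p : ℚ[X], (τ (aeval f p) : ℂ) =
      (μ : ℂ) * ∑ z ∈ ((minpoly ℚ f).aroots ℂ).toFinset, aeval z p := by
  classical
  have hint : IsIntegral ℚ f := IsIntegral.of_finite ℚ f
  obtain ⟨y, hy, -⟩ := hD f hf
  obtain ⟨P, hP1, hP2⟩ := MotP.GGap.TVD.inv_poly f y hy
  set g := minpoly ℚ f with hg
  have hg0 : g ≠ 0 := minpoly.ne_zero hint
  have hirr : Irreducible g := irr hD f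
  -- the formula for polynomials without constant term
  have h1 : ∀ p : ℚ[X], (τ (aeval f (X * p)) : ℂ) = (α.map fun z => z * aeval z p).sum := by
    intro p
    induction p using Polynomial.induction_on' with
    | add p q hp hq =>
      rw [mul_add, map_add, map_add]
      push_cast
      rw [hp, hq, ← Multiset.sum_map_add]
      congr 1
      apply Multiset.map_congr rfl
      intro z _
      rw [map_add, mul_add]
    | monomial n a =>
      have h2 : aeval f (X * monomial n a) = a • f ^ (n + 1) := by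
        rw [map_mul, aeval_X, aeval_monomial, ← Algebra.smul_def, mul_smul_comm, ← pow_succ']
      rw [h2, map_smul, smul_eq_mul]
      push_cast
      rw [h n, ← Multiset.sum_map_mul_left]
      congr 1
      apply Multiset.map_congr rfl
      intro z _
      rw [aeval_monomial, pow_succ']
      simp only [eq_ratCast]
      ring
  -- the nonzero members of `α` are roots of `g`
  have h2 : ∀ z ∈ α, z ≠ 0 → aeval z g = 0 := by
    have h3 : ∀ k : ℕ, ∑ z ∈ α.toFinset, ((α.count z : ℂ) * (z * aeval z g)) * z ^ k = 0 := by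
      intro k
      have h4 := h1 (g * X ^ k)
      have h5 : aeval f (X * (g * X ^ k)) = 0 := by
        rw [map_mul, map_mul, hg, minpoly.aeval, zero_mul, mul_zero]
      rw [h5, map_zero, Rat.cast_zero, Finset.sum_multiset_map_count] at h4
      rw [h4]
      apply Finset.sum_congr rfl
      intro z _
      rw [nsmul_eq_mul, map_mul, map_pow, aeval_X]
      ring
    intro z hz hz0
    have h4 := Mot.lag α.toFinset (fun z => (α.count z : ℂ) * (z * aeval z g)) h3 z
      (Multiset.mem_toFinset.mpr hz)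
    have h5 : (α.count z : ℂ) ≠ 0 := by
      have := Multiset.count_pos.mpr hz
      exact_mod_cast this.ne'
    rcases mul_eq_zero.mp h4 with h6 | h6
    · exact absurd h6 h5
    · rcases mul_eq_zero.mp h6 with h7 | h7
      · exact absurd h7 hz0
      · exact h7
  -- the nonzero members
  set β := α.filter (fun z => z ≠ 0) with hβ
  have h3 : ∀ z ∈ β, aeval z g = 0 := by
    intro z hz
    rw [hβ, Multiset.mem_filter] at hz
    exact h2 z hz.1 hz.2
  have hsumβ : ∀ F : ℂ → ℂ, F 0 = 0 → (α.map F).sum = (β.map F).sum := by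
    intro F hF
    have h4 : α = β + α.filter (fun z => ¬ z ≠ 0) := by
      rw [hβ]; exact (Multiset.filter_add_not _ _).symm
    conv_lhs => rw [h4, Multiset.map_add, Multiset.sum_add]
    have h5 : ((α.filter (fun z => ¬ z ≠ 0)).map F).sum = 0 := by
      apply Multiset.sum_eq_zero
      intro x hx
      rw [Multiset.mem_map] at hx
      obtain ⟨z, hz, rfl⟩ := hx
      rw [Multiset.mem_filter, not_not] at hz
      rw [hz.2, hF]
    rw [h5, add_zero]
  have h4 : ∀ p : ℚ[X], (τ (aeval f p) : ℂ) = (β.map fun z => aeval z p).sum := by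
    intro p
    have h5 : aeval f p = aeval f (X * (P * p)) := by
      rw [← mul_assoc, map_mul, hP1, one_mul]
    rw [h5, h1 (P * p), hsumβ (fun z => z * aeval z (P * p)) (by simp)]
    congr 1
    apply Multiset.map_congr rfl
    intro z hz
    obtain ⟨q, hq⟩ := hP2
    have h6 := congrArg (aeval z) hq
    rw [map_mul, h3 z hz, zero_mul, map_sub, map_one, map_mul, aeval_X, sub_eq_zero] at h6
    rw [map_mul, ← mul_assoc, h6, one_mul]
  have hcount : ∀ z : ℂ, Mot.nu β 0 z = (β.count z : ℤ) := by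
    intro z
    unfold Mot.nu
    simp
  have hmin : ∀ z : ℂ, aeval z g = 0 → minpoly ℚ z = g := by
    intro z hz
    exact (minpoly.eq_of_irreducible_of_monic hirr hz (minpoly.monic hint)).symm
  have hconst : ∀ z w : ℂ, aeval z g = 0 → aeval w g = 0 → β.count z ≠ 0 →
      β.count w = β.count z := by
    intro z w hz hw hc
    have h5 := Mot.galois β 0 (fun p => ⟨τ (aeval f p), ?_⟩) ?_ z w (by rw [hcount]; exact_mod_cast hc)
      (by rw [hmin z hz]; exact hw)
    · rw [hcount, hcount] at h5
      exact_mod_cast h5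
    · rw [h4, ← Mot.sum_nu]
      simp
    · intro y hy
      rw [hcount] at hy
      have h6 : y ∈ β := by
        rw [← Multiset.count_pos]
        exact Nat.pos_of_ne_zero (by exact_mod_cast hy)
      exact ⟨g, minpoly.monic hint, by rw [← aeval_def]; exact h3 y h6⟩
  have hZ : ∀ z : ℂ, z ∈ (g.aroots ℂ).toFinset ↔ aeval z g = 0 := by
    intro z
    rw [Multiset.mem_toFinset, mem_aroots]
    exact ⟨fun h => h.2, fun h => ⟨hg0, h⟩⟩
  have hsub : β.toFinset ⊆ (g.aroots ℂ).toFinset := by
    intro z hz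
    rw [hZ]
    exact h3 z (Multiset.mem_toFinset.mp hz)
  obtain ⟨μ, hμ⟩ : ∃ μ : ℕ, ∀ z ∈ (g.aroots ℂ).toFinset, β.count z = μ := by
    by_cases hβ0 : β = 0
    · exact ⟨0, fun z _ => by rw [hβ0]; simp⟩
    · obtain ⟨z, hz⟩ := Multiset.exists_mem_of_ne_zero hβ0
      refine ⟨β.count z, fun w hw => hconst z w (h3 z hz) ((hZ w).mp hw) ?_⟩
      exact (Multiset.count_pos.mpr hz).ne'
  refine ⟨μ, fun p => ?_⟩
  rw [h4 p, Finset.sum_multiset_map_count, Finset.mul_sum]
  have h5 : ∑ z ∈ β.toFinset, β.count z • aeval z p =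
      ∑ z ∈ (g.aroots ℂ).toFinset, β.count z • aeval z p := by
    apply Finset.sum_subset hsub
    intro z _ hz
    rw [Multiset.mem_toFinset] at hz
    rw [Multiset.count_eq_zero.mpr hz, zero_smul]
  rw [h5]
  apply Finset.sum_congr rfl
  intro z hz
  rw [hμ z hz, nsmul_eq_mul]

/-- the trace of the multiplication by a power is a power sum -/
theorem trL_pow (f : D) : ∃ α : Multiset ℂ, ∀ k : ℕ,
    (trL D (f ^ k) : ℂ) = (α.map fun z => z ^ k).sum := by
  refine ⟨((LinearMap.mulLeft ℚ f).baseChange ℂ).charpoly.roots, fun k => ?_⟩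
  have h1 : trL D (f ^ k) = LinearMap.trace ℚ D ((LinearMap.mulLeft ℚ f) ^ k) := by
    rw [LinearMap.pow_mulLeft]
    rfl
  rw [h1, ← CHM.Lin.trace_pow_eq, ← LinearMap.baseChange_pow, LinearMap.trace_baseChange]
  simp

end TRD

theorem t_TRD : S_TRD.{u} := by
  intro D _ _ _ _ hD τ n hn hτ f
  by_cases hf : f = 0
  · subst hf
    simp
  obtain ⟨α, hα⟩ := hτ f
  obtain ⟨μ, hμ⟩ := TRD.uu hD f hf τ α hα
  obtain ⟨β, hβ⟩ := TRD.trL_pow f
  obtain ⟨ν, hν⟩ := TRD.uu hD f hf (trL D) β (fun k => hβ (k + 1))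
  have h1 := hμ 1
  have h2 := hμ X
  have h3 := hν 1
  have h4 := hν X
  have h5 : trL D 1 = Module.finrank ℚ D := by
    have : trL D 1 = LinearMap.trace ℚ D (1 : Module.End ℚ D) := by
      unfold trL
      rw [LinearMap.comp_apply]
      congr 1
      ext x
      simp
    rw [this, LinearMap.trace_one]
  simp only [map_one, aeval_X] at h1 h2 h3 h4
  rw [hn] at h1
  rw [h5] at h3
  have h6 : (((Module.finrank ℚ D : ℚ) * τ f : ℚ) : ℂ) = ((n * trL D f : ℚ) : ℂ) := by
    push_cast at h1 h3 ⊢
    rw [h1, h3, h2, h4]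
    ring
  exact_mod_cast h6

end

end MotP.HL
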