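import Pool.Agent.HL.QDefs

/-!
# The half law, part Q (quantization): statements of the modules (architect helper39)

THEOREM (`S_NQU`). For every smooth projective variety `X` over a finite field, `N_r` = dimension of the cycles of codimension `r dim X` on `X^r × X^r` modulo numerical equivalence,
`M_r` = multiplicity of the corresponding eigenvalue of Frobenius: the ratio `N_r / M_r` converges, its limit `L` is `0` or `1 / k` for a natural number `k ≥ 1`, and `L ≤ N_r / M_r` for all `r`.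
In particular, if `N_r ≥ c M_r` for infinitely many `r` with one `c > 1/2`, then `N_r = M_r` for all `r`.

Module `X` proves `theorem t_X : S_X C` (or `M_X C`, `S_X`, `M_X T`, ..., the hypotheses of `M_X` are statements of other modules) in the namespace `MotP.HL`, in the file `Pool/Agent/HL/P_X.lean`, importing this file.
`S_ADD`, `S_ADJ`, `S_SPL`, `S_TEN`, `S_PAR`, `S_BFA`, `S_NRM`, `S_GRO`, `S_LCV` are in `St.lean`, `St3.lean` (see the proofs `P_ADD.lean`, `P_ADJ.lean`, `P_INE.lean`, `P_HLF.lean`, `P_INF.lean` for useful lemmas, e.g. `INE.n_le : n X ≤ m W X`, `INE.split_one_part`, `HLF.dual`, `HLF.unitDual`, `END.growth`,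
`ADJ.h_eq_n`, `ADJ.n_iso`, `ADJ.dualTensor`, `LCV.bidual`). `nn X r = h (T X r) (T X r)`, `mm W X r = m W (GG X r)` (`rfl`), `T X 0 = 𝟙_ C`, `T X (r + 1) = T X r ⊗ X`.
-/

set_option autoImplicit false

open CategoryTheory MonoidalCategory BraidedCategory Limits Polynomial Filter

universe v u w x

namespace MotP.HL

open Mot MotP.GGap

noncomputable section

section

variable (C : Type u) [Category.{v} C] [Preadditive C] [Linear ℚ C] [MonoidalCategory C]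
  [SymmetricCategory C] [MonoidalPreadditive C] [MonoidalLinear ℚ C] [RightRigidCategory C]

/-! ## Asymptotics -/

/-- RTO. The ratio of consecutive dimensions. `n_r = nn X r`, `b = b W X`. `b > 0` and `n_r > 0`: as in `P_INF.lean`. `n_(r+1) ≤ b² n_r`: `n_(r+1) = n ((X ⊗ Xᘁ) ⊗ (U ⊗ Uᘁ)) = h U ((X ⊗ Xᘁ) ⊗ U) ≤ b (X ⊗ Xᘁ) n_r`, `U = T X r` (ADJ 6, 4, NRM, BFA; see `P_FIN.lean`). `n_(r+1) / n_r` is monotone by LCV and bounded by `b²`, so it converges to its supremum `θ ≤ b²`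
(`tendsto_atTop_ciSup`). If `θ < b²`, then `n_(r+1) ≤ θ n_r` for all `r`, a contradiction to GRO by `END.growth` (`P_END.lean`, `δ = b² - θ`), as in `P_INF.lean`. For `k`: induction, `n_(r+k+1) / n_r = (n_(r+k+1) / n_(r+k)) (n_(r+k) / n_r)`. -/
def S_RTO : Prop := ∀ [HasFiniteBiproducts C] [IsIdempotentComplete C] (W : Frob C) (X : C), 𝟙 X ≠ 0 →
  0 < b W X ∧ (∀ r, 0 < nn X r) ∧
  ∀ k : ℕ, Tendsto (fun r => (nn X (r + k) : ℝ) / nn X r) atTop (nhds ((b W X : ℝ) ^ (2 * k)))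

def M_RTO : Prop := S_ADJ C → S_BFA C → S_NRM C → S_GRO C → S_LCV C → S_RTO C

/-- GGX. The objects `GG X k`. (1) ADJ 6 with `U = T X r`, `X = T X k`: `n (GG X k ⊗ GG X r) = h (T X r ⊗ T X k) (T X r ⊗ T X k)`, and `T X r ⊗ T X k ≅ T X (r + k)` (induction on `k`: `ρ_`, `α_`). (2) ADJ 1. (3) BFA 1, 3, 4: `b (T X k) = b ^ k`. (4) the dual of the decomposition (`HLF.dual`) and `(GG X k)ᘁ ≅ (T X k)ᘁᘁ ⊗ (T X k)ᘁ ≅ GG X k`
(`ADJ.dualTensor`, `LCV.bidual`); `Dec` is transported along an isomorphism of the first object. (5) `𝟙_ C ⊗ (𝟙_ C)ᘁ ≅ 𝟙_ C` (`HLF.unitDual`); `Dec (GG X 0) (𝟙_ C) 0` with the zero object. -/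
def S_GGX : Prop := ∀ [HasFiniteBiproducts C] [IsIdempotentComplete C] (W : Frob C) (X : C),
  (∀ k r, n (GG X k ⊗ GG X r) = nn X (r + k)) ∧ (∀ r, n (GG X r) = nn X r) ∧
  (∀ k, b W (GG X k) = b W X ^ (2 * k)) ∧ (∀ (S : C) (k : ℕ), Smd S (GG X k) → Smd Sᘁ (GG X k)) ∧
  Smd (𝟙_ C) (GG X 0)

def M_GGX : Prop := S_ADJ C → S_BFA C → S_GGX C

/-- ASY. Let `Dec (GG X k) R R'`. `n (R ⊗ GG X r) + n (R' ⊗ GG X r) = n (GG X k ⊗ GG X r) = nn X (r + k)` (ADD 4, 3, GGX 1), `n (R ⊗ GG X r) = h (T X r) (R ⊗ T X r) ≤ b R * nn X r` (ADJ 4, NRM), the same for `R'`, and `b R + b R' = b (GG X k) = b ^ (2 k)` (ADD 1, BFA 2, GGX 3). So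
`nn X (r + k) / nn X r - b R' ≤ n (R ⊗ GG X r) / nn X r ≤ b R`, and the left hand side converges to `b ^ (2 k) - b R' = b R` (RTO). -/
def S_ASY : Prop := ∀ [HasFiniteBiproducts C] [IsIdempotentComplete C] (W : Frob C) (X : C), 𝟙 X ≠ 0 →
  ∀ (k : ℕ) (R : C), Smd R (GG X k) →
    Tendsto (fun r => (n (R ⊗ GG X r) : ℝ) / nn X r) atTop (nhds (b W R : ℝ))

def M_ASY : Prop := S_ADD C → S_ADJ C → S_BFA C → S_NRM C → S_RTO C → S_GGX C → S_ASY C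

/-! ## Objects with trivial Frobenius -/

/-- ONE. (1) `ν Y z = ν R z + ν R' z` (ADD 1, TEN 4); if this is `0` and `ν R z ≠ 0`, then `ν R z` and `ν R' z` have different signs, a contradiction to PAR. (2) TEN 1. (3) TEN 2. (4) BFA 7; `t Y k = ∑_z ν z * z ^ k` (`TVA.t_sum'` with `U = S ∪ {1}`), `ν 1 = m` (TEN 3). (5) `n ≤ m = ν 1 = 0` by TEN 3, 1 (see `s5` in `P_INE.lean`).
(6) `1 ≤ h Y Y ≤ m (Y ⊗ Yᘁ) ≤ b²` (see `P_INF.lean`). (7) SPL for `S` and `g = X - 1`: `Dec S Y Z`; the idempotent `p ≫ i` of `S` is `0` or invertible, so `Y` or `Z` is zero. If `𝟙 Y = 0`, then `ν S 1 = ν Y 1 = 0` (its traces are zero), `m S = 0`, so `b S = 0` by (4), a contradiction to (6). If `𝟙 Z = 0`, then `i : Y ⟶ S` is an isomorphism, so `(F_S - 1) ^ N = 0` for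
some `N` (naturality of `F`), and `F_S - 1` is `0` or invertible, so it is `0`. (8) `ν (𝟙_) z = 0` for `z ≠ 1`: `W.t_unit`, `TVA.ν_eq`. -/
def S_ONE : Prop := ∀ [IsIdempotentComplete C] (W : Frob C),
  (∀ R Y : C, Smd R Y → One W Y → One W R) ∧
  (∀ Y Z : C, One W Y → One W Z → One W (Y ⊗ Z)) ∧
  (∀ Y : C, One W Y → One W Yᘁ) ∧
  (∀ Y : C, One W Y → b W Y = m W Y ∧ ∀ k, W.t Y k = m W Y) ∧
  (∀ Y Z : C, One W Y → ν W Z 1 = 0 → n (Y ⊗ Z) = 0) ∧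
  (∀ Y : C, 𝟙 Y ≠ 0 → 0 < b W Y) ∧
  (∀ S : C, Smp S → One W S → W.F.app S = 𝟙 S) ∧
  One W (𝟙_ C)

def M_ONE : Prop := S_ADD C → S_ADJ C → S_SPL C → S_TEN C → S_PAR C → S_BFA C → S_ONE C

/-- PRT. The part with eigenvalue `1`. `INE.split_one_part` (`P_INE.lean`): `Dec Y P Z`, `ν Z 1 = 0`. `n (U ⊗ Y) = n (U ⊗ P) + n (U ⊗ Z)` (ADD 5, 3) and `n (U ⊗ Z) = 0` by ONE 5. -/
def S_PRT : Prop := ∀ [IsIdempotentComplete C] (W : Frob C) (Y : C), ∃ P : C,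
  Smd P Y ∧ One W P ∧ b W P = m W Y ∧ n P = n Y ∧ ∀ U : C, One W U → n (U ⊗ Y) = n (U ⊗ P)

def M_PRT : Prop := S_ADD C → S_SPL C → S_TEN C → S_BFA C → S_ONE C → S_PRT C

/-- LIM. `P_r` = the object of PRT for `Y = GG X r`, `m_r = mm W X r`, `n_r = nn X r`. `n (P_r ⊗ GG X s) = n (P_r ⊗ P_s)` (PRT), `n (P_s ⊗ GG X r) = n (P_s ⊗ P_r) = n (P_r ⊗ P_s)` (braiding, ADJ 3), `n (P_s ⊗ GG X r) = h (T X r) (P_s ⊗ T X r) ≤ b P_s * n_r = m_s n_r` (ADJ 4, NRM). So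
`m_s / n_s ≥ (n (P_r ⊗ GG X s) / n_s) / n_r`, which converges to `b P_r / n_r = m_r / n_r` for `s → ∞` (ASY for `R = P_r`). -/
def S_LIM : Prop := ∀ [HasFiniteBiproducts C] [IsIdempotentComplete C] (W : Frob C) (X : C), 𝟙 X ≠ 0 →
  ∀ (r : ℕ) (ε : ℝ), 0 < ε → ∃ N : ℕ, ∀ s, N ≤ s → (mm W X r : ℝ) / nn X r - ε ≤ mm W X s / nn X s

def M_LIM : Prop := S_ADJ C → S_NRM C → S_RTO C → S_ASY C → S_PRT C → S_LIM C

/-! ## Simple objects -/

/-- SIM. (1) Split `𝟙 - p ≫ i`. (2) `Dec Y Y 0` with the zero object. (3) compose. (4) `W.ne` and `W.scalar`. (5) ADD 3. (6) Induction on `h Y Y`: if every nonzero endomorphism of `Y` is invertible, `S = Y`. Otherwise let `f : Y ⟶ Y`, `f ≠ 0`, not invertible, `f ≫ g ≫ f = f` (`W.regular`); the idempotents `f ≫ g`, `g ≫ f` are not `0` and not both `1`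
(otherwise `g` is the inverse). Splitting the one which is not `1` gives `Dec Y A B` with `𝟙 A ≠ 0`, `𝟙 B ≠ 0`, `h Y Y = h A A + h A B + h B A + h B B > h A A` (ADD 2, 3), use the induction hypothesis for `A`, and (3). (7) A nonzero `f : S ⟶ Y`: `W.num_zero` gives `g` with `tr (f ≫ g) ≠ 0`, so `f ≫ g ≠ 0` is invertible; (1). -/
def S_SIM : Prop := ∀ [HasFiniteBiproducts C] [IsIdempotentComplete C] (_ : Frob C),
  (∀ (R Y : C) (i : R ⟶ Y) (p : Y ⟶ R), i ≫ p = 𝟙 R → Smd R Y) ∧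
  (∀ Y : C, Smd Y Y) ∧ (∀ R Y Z : C, Smd R Y → Smd Y Z → Smd R Z) ∧ Smp (𝟙_ C) ∧
  (∀ R Y Z : C, Smd R Y → h Z R ≤ h Z Y) ∧ (∀ Y : C, 𝟙 Y ≠ 0 → ∃ S, Smp S ∧ Smd S Y) ∧
  ∀ S Y : C, Smp S → h S Y ≠ 0 → Smd S Y

def M_SIM : Prop := S_ADD C → S_SIM C

/-- ISO. Multiplicities. Induction on `h Y Y`. If all `h (S i) Y = 0`, take `Y' = Y`. Otherwise `h (S j) Y ≠ 0` for some `j`, `Smd (S j) Y` (SIM 7), `Dec Y (S j) Y₁`: `b Y = b (S j) + b Y₁` (ADD 1, BFA 2), `h (S i) Y = h (S i) (S j) + h (S i) Y₁` (ADD 3), `h Y Y ≥ h (S j) (S j) + h Y₁ Y₁ > h Y₁ Y₁` (ADD 2, 3, `𝟙 (S j) ≠ 0`). Use the induction hypothesis for `Y₁`;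
`h (S j) (S j) / h (S j) (S j) = 1`. -/
def S_ISO : Prop := ∀ [HasFiniteBiproducts C] [IsIdempotentComplete C] (W : Frob C) (N : ℕ) (S : Fin N → C),
  (∀ i, Smp (S i)) → (∀ i j, i ≠ j → h (S i) (S j) = 0) → ∀ Y : C, ∃ Y' : C,
    Smd Y' Y ∧ (∀ i, h (S i) Y' = 0) ∧
    (b W Y : ℝ) = ∑ i, (h (S i) Y : ℝ) / h (S i) (S i) * b W (S i) + b W Y'

def M_ISO : Prop := S_ADD C → S_BFA C → S_SIM C → S_ISO C

/-- LOW. `P_r` = the object of PRT for `GG X r`. `h (S i) P_r = n (P_r ⊗ (S i)ᘁ) = n ((S i)ᘁ ⊗ P_r) = n ((S i)ᘁ ⊗ GG X r)` (ADJ 1, braiding and ADJ 3, ONE 3, PRT), so `h (S i) P_r / n_r → b (S i)ᘁ = b (S i)` (GGX 4, ASY, BFA 3). ISO for `Y = P_r`: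
`m_r = b P_r = ∑ i, h (S i) P_r / h (S i) (S i) * b (S i) + b Y'_r`, so `m_r / n_r ≥ ∑ i, (h (S i) P_r / n_r) / h (S i) (S i) * b (S i)`, which converges to `wt W S`: the first part. Second part: `𝟙 Y'_r = 0`, because otherwise `Y'_r` has a simple summand `S'` (SIM 6), it is a summand of `P_r` and of `GG X r` (SIM 3), `One W S'` (ONE 1), so `h (S i) S' ≠ 0` for some `i`,
but `h (S i) S' ≤ h (S i) Y'_r = 0` (SIM 5). So `b Y'_r = 0` (all traces are zero, `ν = 0`, BFA 6 with the object `𝟙_`-free argument: `b` of an object with `𝟙 = 0`: `Dec Y' Y' Y'` with the zero maps gives `b Y' = b Y' + b Y'` by BFA 2), and `m_r / n_r` is the sum, which converges to `wt W S`. -/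
def S_LOW : Prop := ∀ [HasFiniteBiproducts C] [IsIdempotentComplete C] (W : Frob C) (X : C), 𝟙 X ≠ 0 →
  ∀ (N : ℕ) (S : Fin N → C), Fam W X S →
    (∀ ε : ℝ, 0 < ε → ∃ N₀ : ℕ, ∀ r, N₀ ≤ r → wt W S - ε ≤ mm W X r / nn X r) ∧
    ((∀ S' : C, Smp S' → One W S' → (∃ k, Smd S' (GG X k)) → ∃ i, h (S i) S' ≠ 0) →
      Tendsto (fun r => (mm W X r : ℝ) / nn X r) atTop (nhds (wt W S)))

def M_LOW : Prop := S_ADJ C → S_BFA C → S_RTO C → S_GGX C → S_ASY C → S_ONE C → S_PRT C → S_SIM C → S_ISO C → S_LOW C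

end

/-! ## The integer `b(S)^2 / dim End S` -/

/-- TRD. Traces on a division algebra (`trL D f` is the trace of the multiplication by `f`: `LinearMap.trace ℚ D (LinearMap.mul ℚ D f)`, `rfl`). Let `f ≠ 0` (`f = 0` is trivial), `g = minpoly ℚ f`: irreducible (`D` has no zero divisors), `g(0) ≠ 0`; `Z` = the set of its complex roots. (U) Let `τ : D →ₗ[ℚ] ℚ` and `α : Multiset ℂ` with `τ (f ^ (k + 1)) = ∑ z ∈ α, z ^ (k + 1)` for all `k`. Then there is a natural number `μ` with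
`τ (p(f)) = μ ∑ z ∈ Z, p(z)` for all `p : ℚ[X]`. Proof of (U): let `P : ℚ[X]`, `f P(f) = 1`, `g ∣ X P - 1` (`MotP.GGap.TVD.inv_poly` in `Pool/Agent/GGap/P_TVD.lean`). `τ (f p(f)) = ∑ z ∈ α, z p(z)`. With `p = g X ^ k`: `∑_z (count z) z g(z) z ^ k = 0` for all `k`, so `g(z) = 0` for all `z ∈ α`, `z ≠ 0` (`Mot.lag`, `Pool/Agent/Mot/Gal.lean`). Let `α'` be the nonzero elements of `α`:
`τ (p(f)) = τ (f (P p)(f)) = ∑ z ∈ α', z P(z) p(z) = ∑ z ∈ α', p(z)`; `Mot.galois` for `a = α'`, `b = 0`: the multiplicity in `α'` is the same for all roots of `g` (`minpoly ℚ z = g` for a root `z`). (T) (U) holds for `τ = trL D`: `α` = the roots of the characteristic polynomial (over `ℂ`) of the multiplication by `f` (`LinearMap.trace_baseChange` or a matrix of the multiplication, `CHM.Lin.trace_pow_eq`).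
Now `n = τ 1 = μ card Z`, `dim D = Tr 1 = μ' card Z`, `τ f = μ ∑ z`, `Tr f = μ' ∑ z`. -/
def S_TRD : Prop := ∀ (D : Type u) [Ring D] [Algebra ℚ D] [Module.Finite ℚ D] [Nontrivial D],
  (∀ x : D, x ≠ 0 → ∃ y, x * y = 1 ∧ y * x = 1) → ∀ (τ : D →ₗ[ℚ] ℚ) (n : ℕ), τ 1 = n →
  (∀ f : D, ∃ α : Multiset ℂ, ∀ k : ℕ, (τ (f ^ (k + 1)) : ℂ) = (α.map fun z => z ^ (k + 1)).sum) →
  ∀ f : D, (Module.finrank ℚ D : ℚ) * τ f = n * trL D f

/-- SEP. The separability idempotent. `Tr = trL D`, the form `Tr (x y)` is symmetric (`LinearMap.trace_mul_comm`) and nondegenerate (`Tr (x x⁻¹) = Tr 1 = dim D ≠ 0`). `x` a basis, `y` the dual basis (`LinearMap.BilinForm.dualBasis`), `Tr (x i * y j) = δ_ij`; `v = ∑ j, Tr (v * x j) • y j = ∑ j, Tr (v * y j) • x j`.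
(1) `Tr (a ∑ x j y j) = ∑ Tr (a x j y j) = ∑` of the coefficients of `x j` in `a x j` `= Tr a` for all `a`, so `∑ x j y j = 1`. (2) `a x j = ∑ i, Tr (a x j y i) x i`, `y i a = ∑ j, Tr (y i a x j) y j`, and `Tr (a x j y i) = Tr (y i a x j)`. (3) `1 = ∑ j, Tr (x j) • y j`, so `∑ Tr (x j) Tr (y j) = Tr 1 = dim D`. -/
def S_SEP : Prop := ∀ (D : Type u) [Ring D] [Algebra ℚ D] [Module.Finite ℚ D] [Nontrivial D],
  (∀ x : D, x ≠ 0 → ∃ y, x * y = 1 ∧ y * x = 1) → ∃ (N : ℕ) (x y : Fin N → D),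
    ∑ j, x j * y j = 1 ∧
    (∀ a : D, ∑ j, TensorProduct.tmul ℚ (a * x j) (y j) = ∑ j, TensorProduct.tmul ℚ (x j) (y j * a)) ∧
    ∑ j, trL D (x j) * trL D (y j) = Module.finrank ℚ D

section

variable (C : Type u) [Category.{v} C] [Preadditive C] [Linear ℚ C] [MonoidalCategory C]
  [SymmetricCategory C] [MonoidalPreadditive C] [MonoidalLinear ℚ C] [RightRigidCategory C]

/-- DIV. `D = End S` (careful: `f * g = g ≫ f` in `End S`), `δ = h S S`, `F_S = 𝟙` (ONE 7), `τ f = val (tr S f)`, `τ 1 = t S 0 = m S = b S` (ONE 4), `τ (f ^ (k + 1))`: `Eig` and `end_pow`. TRD: `δ τ f = b S * Tr f`. SEP: `x j`, `y j` with `∑ y j ≫ x j = 𝟙` and `∑ (x j ≫ a) ⊗ y j = ∑ x j ⊗ (a ≫ y j)`.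
Let `p = ∑ j, x j ⊗ₘ (y j)ᘁ : S ⊗ Sᘁ ⟶ S ⊗ Sᘁ`. `p ≫ p = ∑_(j, k) (x j ≫ x k) ⊗ₘ (y k ≫ y j)ᘁ` (`comp_rightAdjointMate : (f ≫ g)ᘁ = gᘁ ≫ fᘁ`, `tensorHom_comp_tensorHom`); for fixed `k` the bilinear map `(u, v) ↦ u ⊗ₘ (y k ≫ v)ᘁ` and (2) for `a = x k` give `∑_j x j ⊗ₘ (y k ≫ x k ≫ y j)ᘁ`; sum over `k`: `p ≫ p = p`
(the mate is additive and `ℚ`-linear: `HLF.mate_add`). `tr p = ∑ tr (x j) * tr (y j)ᘁ = ∑ τ (x j) τ (y j)` (`W.tr_tensor`, `GGap.TVD.tr_dual` with `coevaluation_comp_rightAdjointMate`), so `δ² val (tr p) = (b S)² ∑ Tr (x j) Tr (y j) = (b S)² δ`, `δ val (tr p) = (b S)²`. Split `p`: `i : E ⟶ S ⊗ Sᘁ`, `q`, `i ≫ q = 𝟙`, `q ≫ i = p`; `val (tr E 𝟙) = val (tr p)` (`tr_comm`); `Smd E (S ⊗ Sᘁ)` (SIM 1),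
`One W E` (ONE 1, 2, 3), so `b E = t E 0 = val (tr E 𝟙)` (ONE 4). So `δ b E = (b S)²`; `t = b E`, which is not `0` because `b S ≠ 0` (ONE 6). -/
def S_DIV : Prop := ∀ [HasFiniteBiproducts C] [IsIdempotentComplete C] (W : Frob C), Eig W →
  ∀ S : C, Smp S → One W S → ∃ t : ℕ, 0 < t ∧ b W S ^ 2 = t * h S S

def M_DIV : Prop := S_TRD.{v} → S_SEP.{v} → S_ONE C → S_SIM C → S_DIV C

/-- QUA. `n_r = nn X r > 0` (RTO), `n_r ≤ m_r = mm W X r` (`W.finrank_hom_le`). By DIV `wt W S` is a natural number `≥ N` for every `Fam W X S`, `S : Fin N → C`. Case 1: there is a family `S : Fin N → C` for every `N`. Then `m_r / n_r → ∞` (LOW 1 with `ε = 1`), `n_r / m_r → 0`, `L = 0`. Case 2: not. Let `N` be minimal without a family (`Nat.find`); `N ≠ 0`, `N = N' + 1`, `S : Fin N' → C` a family. It is complete: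
a simple `S'` with `One W S'`, `Smd S' (GG X k)` and `h (S i) S' = 0` for all `i` would give the family `Fin.cons S' S` (`h S' (S i) = h (S i) S'`: ADJ 2) of length `N`. So `m_r / n_r → wt W S = k` (LOW 2), a natural number, `k ≥ 1` because the family is not empty (`𝟙_ C` is simple, `One`, `Smd (𝟙_ C) (GG X 0)`: SIM 4, ONE 8, GGX 5). `L = 1 / k`; `m_r / n_r ≤ k` for all `r` by LIM (`le_of_forall_pos_sub_le`, `ge_of_tendsto`). -/
def S_QUA : Prop := ∀ [HasFiniteBiproducts C] [IsIdempotentComplete C] (W : Frob C), Eig W →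
  ∀ X : C, 𝟙 X ≠ 0 → (∀ r, 0 < nn X r ∧ nn X r ≤ mm W X r) ∧
    ∃ L : ℝ, (L = 0 ∨ ∃ k : ℕ, 0 < k ∧ L = 1 / k) ∧
      Tendsto (fun r => (nn X r : ℝ) / mm W X r) atTop (nhds L) ∧ ∀ r, L ≤ nn X r / mm W X r

def M_QUA : Prop := S_ADJ C → S_RTO C → S_GGX C → S_LIM C → S_ONE C → S_SIM C → S_LOW C → S_DIV C → S_QUA C

end

/-! ## Varieties -/

/-- NLB. As NLA (`P_NLA.lean`), with one more property of the polynomial `g` of `NLA.poly`: `g ∣ ...`, `(a - 1) ^ (s + 1) g(a) = 0` (`g = u X q`, `(X - 1) ^ (s + 1) u X q = u X (X - 1) charpoly`). `e = g(a)`, `P`, `N` as there. `N = 0`: otherwise `a` has an eigenvector `y ≠ 0` in `N` (`N` is stable under `a`), `a y = λ y`, `(λ - 1) ^ (s + 1) y = (a - 1) ^ (s + 1) g(a) y = 0`,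
so `λ = 1`, and `σ y = - y`, so `y = 0` by the last hypothesis. So the trace of `σ f ^ (k + 1) e` is the trace of `f ^ (k + 1)` on `P`. -/
def S_NLB : Prop := ∀ (E : Type x) [AddCommGroup E] [Module ℂ E] [Module.Finite ℂ E] (σ f a : Module.End ℂ E) (r : ℕ → ℂ),
  σ * σ = 1 → σ * f = f * σ → σ * a = a * σ → f * a = a * f →
  (∀ k j : ℕ, LinearMap.trace ℂ E (σ * f ^ (k + 1) * a ^ (j + 1)) = r k) → (∀ y : E, σ y = -y → a y = y → y = 0) →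
  ∃ α : Multiset ℂ, ∀ k, r k = (α.map fun z => z ^ (k + 1)).sum

variable {V : Type u} [Category.{v} V] [CartesianMonoidalCategory V]

/-- NEE. Eigenvalues of endomorphisms of numerical motives with trivial Frobenius. As `P_NEV.lean`. Let `M = (X, p, m)`, `(onMot M) = 𝟙 M`, i.e. `q ^ (-m) • cp p (gr' Fr) = p` in `numQ`, `f : M ⟶ M`, `f.1 = pr Φ` with `Φ ∈ gr (dim X)`. NLB with `E = K.H X`, `σ = K.sgn X`, `f = K.act Φ`, `a = q ^ (-m) • K.act (gr' Fr)`, `r k = val (tr (pw f (k + 1)))`: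
by the trace formula `tr (σ f ^ (k + 1) a ^ (j + 1)) = q ^ (-m (j + 1)) * trc (cp (cpow (gr' Fr) (j + 1)) (cpow Φ (k + 1)))` (`K.trace_formula`, `K.act_cp`, `NEV.act_cpow`, `R.gr'_comm`), the same number for `f.1` in `numQ` (`numQ_trc`, `numQ_cp`, `NTC.numQ_cpow`, `numQ_gr'`), where `q ^ (-m) • cp (gr' Fr) f.1 = q ^ (-m) • cp (gr' Fr) (cp p f.1) = cp p f.1 = f.1` (`NTC.cpow_comm` for
`k = 1` or `R.cp_p_gr'`), so it is `trc (cpow f.1 (k + 1)) = val (tr (pw f (k + 1)))` (`NTC.scalar_eq`; `(pw f (k + 1)).1 = cpow f.1 (k + 1)`). The last hypothesis: as in `P_NEV.lean` (`K.one_not_odd`). (`(frobQ ..).F = (frQ ..).F`, `(frobQ ..).val`: `W.val_spec`.) -/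
def S_NEE (T : CHM.ChowTheory.{v, u, w} V) : Prop := ∀ (hG : S_NGR T) (hU : S_NUN T) (hN : S_NND T) (R : CHM.FrobeniusMaps T)
  (K : CHM.Cohomology.{v, u, w, x} T R) (hE : S_NEV.{v, u, w, x} T), Eig (frobQ hG hU hN R K hE)

def M_NEE (T : CHM.ChowTheory.{v, u, w} V) : Prop := S_NLB.{x} → S_NEE.{v, u, w, x} T

/-- NQU. THE QUANTIZATION THEOREM for a variety `X`, `N r = N^(r dim X)(X^r × X^r)`. As NFX (2), NFZ (`P_NFX.lean`, `P_NFZ.lean`), with QUA for `W = frobQ ..` (NEE) and the motive `h X 0`. -/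
def S_NQU (T : CHM.ChowTheory.{v, u, w} V) : Prop := ∀ (R : CHM.FrobeniusMaps T) (K : CHM.Cohomology.{v, u, w, x} T R)
  (X : V) (N M : ℕ → ℕ), (∀ r, N r = Cardinal.toNat (Module.rank ℚ (T.gr (CHM.pow X r ⊗ CHM.pow X r) (r * T.dim X) ⧸
      T.num (CHM.pow X r ⊗ CHM.pow X r) (r * T.dim X)))) →
  (∀ r, M r = K.mult (CHM.pow X r ⊗ CHM.pow X r) (r * T.dim X)) → 0 < Module.finrank ℂ (K.H X) →
    (∀ r, 0 < N r ∧ N r ≤ M r) ∧ ∃ L : ℝ, (L = 0 ∨ ∃ k : ℕ, 0 < k ∧ L = 1 / k) ∧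
      Tendsto (fun r => (N r : ℝ) / M r) atTop (nhds L) ∧ ∀ r, L ≤ N r / M r

def M_NQU (T : CHM.ChowTheory.{v, u, w} V) : Prop := (∀ hG hU, S_BFA (CHM.Mot (numQ T hG hU))) →
  (∀ hG hU, S_QUA (CHM.Mot (numQ T hG hU))) → S_NGR T → S_NUN T → S_NND T →
  S_NEV.{v, u, w, x} T → S_NMU.{v, u, w, x} T → S_NPW.{v, u, w, x} T → S_NEE.{v, u, w, x} T → S_NQU.{v, u, w, x} T

end

end MotP.HL
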