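import Pool.Agent.HL.Chs
import Pool.Agent.HL.St4

/-!
# The quantization theorem for Chow groups (MP_6c4da4_ag): assembly
-/

set_option autoImplicit false

open CategoryTheory MonoidalCategory CartesianMonoidalCategory Limits Filter

universe v u w x

namespace CHS

variable {V : Type u} [Category.{v} V] [CartesianMonoidalCategory V]

namespace Cohomology

variable {T : ChowTheory.{v, u, w} V} (K : Cohomology.{v, u, w, x} T)

/-- THE QUANTIZATION THEOREM for Chow groups. -/
theorem quantum (hQ : MotP.HL.S_NQU.{v, u, w, x} T.toOld) (X : V) (hX : K.B X ≠ 0) :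
    (∀ r, 0 < T.NN X r ∧ T.NN X r ≤ K.MM X r) ∧
    ∃ L : ℝ, (L = 0 ∨ ∃ k : ℕ, 0 < k ∧ L = 1 / k) ∧
      Tendsto (fun r => (T.NN X r : ℝ) / K.MM X r) atTop (nhds L) ∧
      ∀ r, L ≤ T.NN X r / K.MM X r :=
  hQ T.frob K.toOld X (T.NN X) (K.MM X)
    (fun r => by unfold ChowTheory.NN; rw [T.N_eq, T.dim_pow, ← pow_old]; rfl)
    (fun r => by unfold MM; rw [K.M_eq, T.dim_pow, ← pow_old]; rfl)
    (Nat.pos_of_ne_zero hX)

/-- more than one half is everything -/
theorem eq_of_half (hQ : MotP.HL.S_NQU.{v, u, w, x} T.toOld) (X : V) (hX : K.B X ≠ 0)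
    (c : ℝ) (hc : 1 / 2 < c) (h : ∀ k : ℕ, ∃ r, k ≤ r ∧ c * K.MM X r ≤ T.NN X r) (r : ℕ) :
    T.NN X r = K.MM X r := by
  obtain ⟨h1, L, h2, h3, h4⟩ := K.quantum hQ X hX
  have hcL : c ≤ L := by
    by_contra hlt
    push_neg at hlt
    have h5 := (h3.eventually_lt_const hlt)
    obtain ⟨N, hN⟩ := eventually_atTop.1 h5
    obtain ⟨r, hr, hr2⟩ := h N
    have h6 := hN r hr
    have h7 : (0 : ℝ) < K.MM X r := by
      have := (h1 r).1.trans_le (h1 r).2
      exact_mod_cast this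
    rw [div_lt_iff₀ h7] at h6
    linarith
  have hL : L = 1 := by
    rcases h2 with h2 | ⟨k, hk, h2⟩
    · rw [h2] at hcL
      linarith
    · have h8 : (0 : ℝ) < k := by exact_mod_cast hk
      have h9 : (1 : ℝ) / 2 < 1 / k := by
        rw [← h2]
        linarith
      have h10 : (k : ℝ) < 2 := (one_div_lt_one_div (by norm_num) h8).1 h9
      have h11 : k < 2 := by exact_mod_cast h10
      have h12 : k = 1 := by omega
      rw [h2, h12]
      norm_num
  have h13 := h4 r
  have h7 : (0 : ℝ) < K.MM X r := by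
    have := (h1 r).1.trans_le (h1 r).2
    exact_mod_cast this
  rw [hL, le_div_iff₀ h7, one_mul] at h13
  have h14 : K.MM X r ≤ T.NN X r := by exact_mod_cast h13
  exact le_antisymm (h1 r).2 h14

/-- one variety and its powers -/
theorem tate_of_eq (hY : MotP.HL.S_NFY.{v, u, w, x} T.toOld) (X : V) (r : ℕ)
    (hr : T.NN X r = K.MM X r) (i : ℤ) (hi : T.N (pow X r) i ≠ 0) :
    T.N (pow X r) i = K.M (pow X r) i := by
  have h4 : T.N (pow X r ⊗ pow X r) (T.dim (pow X r)) =
    K.M (pow X r ⊗ pow X r) (T.dim (pow X r)) := hr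
  rw [T.N_eq, K.M_eq] at h4
  rw [T.N_eq, K.M_eq]
  rw [T.N_eq] at hi
  exact hY T.frob K.toOld (pow X r) h4 i hi

end Cohomology

end CHS
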