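import Pool.Agent.HL.All
import Pool.Agent.HL.P_RTO
import Pool.Agent.HL.P_GGX
import Pool.Agent.HL.P_ASY
import Pool.Agent.HL.P_ONE
import Pool.Agent.HL.P_PRT
import Pool.Agent.HL.P_LIM
import Pool.Agent.HL.P_SIM
import Pool.Agent.HL.P_ISO
import Pool.Agent.HL.P_LOW
import Pool.Agent.HL.P_TRD
import Pool.Agent.HL.P_SEP
import Pool.Agent.HL.P_DIV
import Pool.Agent.HL.P_QUA
import Pool.Agent.HL.P_NLB
import Pool.Agent.HL.P_NEE
import Pool.Agent.HL.P_NQU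
import Pool.Agent.HL.Qhs

/-!
# The quantization theorem: composition of the modules
-/

set_option autoImplicit false

open CategoryTheory MonoidalCategory CartesianMonoidalCategory Limits

universe v u w x

namespace MotP.HL

section

variable (C : Type u) [Category.{v} C] [Preadditive C] [Linear ℚ C] [MonoidalCategory C]
  [SymmetricCategory C] [MonoidalPreadditive C] [MonoidalLinear ℚ C] [RightRigidCategory C]

theorem a_RTO : S_RTO C := t_RTO C (t_ADJ C) (a_BFA C) (a_NRM C) (t_GRO C) (a_LCV C)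

theorem a_GGX : S_GGX C := t_GGX C (t_ADJ C) (a_BFA C)

theorem a_ASY : S_ASY C :=
  t_ASY C (t_ADD C) (t_ADJ C) (a_BFA C) (a_NRM C) (a_RTO C) (a_GGX C)

theorem a_ONE : S_ONE C :=
  t_ONE C (t_ADD C) (t_ADJ C) (t_SPL C) (t_TEN C) (a_PAR C) (a_BFA C)

theorem a_PRT : S_PRT C := t_PRT C (t_ADD C) (t_SPL C) (t_TEN C) (a_BFA C) (a_ONE C)

theorem a_LIM : S_LIM C := t_LIM C (t_ADJ C) (a_NRM C) (a_RTO C) (a_ASY C) (a_PRT C)

theorem a_SIM : S_SIM C := t_SIM C (t_ADD C)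

theorem a_ISO : S_ISO C := t_ISO C (t_ADD C) (a_BFA C) (a_SIM C)

theorem a_LOW : S_LOW C :=
  t_LOW C (t_ADJ C) (a_BFA C) (a_RTO C) (a_GGX C) (a_ASY C) (a_ONE C) (a_PRT C) (a_SIM C)
    (a_ISO C)

theorem a_DIV : S_DIV C := t_DIV C t_TRD t_SEP (a_ONE C) (a_SIM C)

theorem a_QUA : S_QUA C :=
  t_QUA C (t_ADJ C) (a_RTO C) (a_GGX C) (a_LIM C) (a_ONE C) (a_SIM C) (a_LOW C) (a_DIV C)

end

section

variable {V : Type u} [Category.{v} V] [CartesianMonoidalCategory V]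
  (T : CHM.ChowTheory.{v, u, w} V)

theorem a_NEE : S_NEE.{v, u, w, x} T := t_NEE T t_NLB

theorem a_NQU : S_NQU.{v, u, w, x} T :=
  t_NQU T (fun _ _ => a_BFA _) (fun _ _ => a_QUA _) (t_NGR T) (t_NUN T) (t_NND T) (a_NEV T)
    (a_NMU T) (a_NPW T) (a_NEE T)

end

end MotP.HL
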