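import Pool.Agent.HL.St5

/-!
# HL_DVD: `dim D` divides `dim V` for modules over a local ring with residue division algebra `D`
-/

set_option autoImplicit false

universe v₁ v w

namespace MotP.HL

noncomputable section

namespace DVD

variable {E : Type v₁} [Ring E] [Algebra ℚ E] {V : Type w} [AddCommGroup V] [Module ℚ V]
  (φ : E →ₐ[ℚ] Module.End ℚ V)

/-- stable subspaces -/
def Stb (p : Submodule ℚ V) : Prop := ∀ (e : E), ∀ x ∈ p, φ e x ∈ p

/-- `e ↦ φ e v` -/
def orb (v : V) : E →ₗ[ℚ] V := (LinearMap.applyₗ (R := ℚ) v).comp φ.toLinearMap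

theorem orb_apply (v : V) (e : E) : orb φ v e = φ e v := rfl

theorem mul_app (e e' : E) (v : V) : φ (e * e') v = φ e (φ e' v) := by
  rw [map_mul]
  rfl

/-- the action on the quotient -/
def quo (W : Submodule ℚ V) (hW : Stb φ W) : E →ₐ[ℚ] Module.End ℚ (V ⧸ W) :=
  AlgHom.ofLinearMap
    { toFun := fun e => W.mapQ W (φ e) (fun x hx => hW e x hx)
      map_add' := fun e e' => by
        apply Submodule.linearMap_qext
        ext x
        change W.mkQ (φ (e + e') x) = W.mkQ (φ e x) + W.mkQ (φ e' x)
        rw [map_add φ e e', LinearMap.add_apply]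
        exact map_add W.mkQ _ _
      map_smul' := fun q e => by
        apply Submodule.linearMap_qext
        ext x
        change W.mkQ (φ (q • e) x) = q • W.mkQ (φ e x)
        rw [map_smul φ q e, LinearMap.smul_apply]
        exact map_smul W.mkQ _ _ }
    (by
      apply Submodule.linearMap_qext
      ext x
      change W.mkQ (φ 1 x) = W.mkQ x
      rw [map_one]
      rfl)
    (fun e e' => by
      apply Submodule.linearMap_qext
      ext x
      change W.mkQ (φ (e * e') x) = W.mkQ (φ e (φ e' x))
      rw [mul_app])

theorem unit_app {e : E} (he : IsUnit e) {v : V} (h : φ e v = 0) : v = 0 := by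
  obtain ⟨u, rfl⟩ := he
  have h1 : φ ((↑u⁻¹ : E) * (u : E)) v = 0 := by
    rw [mul_app, h, map_zero]
  rw [Units.inv_mul, map_one] at h1
  exact h1

end DVD

open DVD in
theorem t_DVD : S_DVD.{v₁, v, w} := by
  classical
  intro E D _ _ _ _ _ _ ρ hρ hu
  have hD : 0 < Module.finrank ℚ D := Module.finrank_pos
  have main : ∀ (n : ℕ) (V : Type w) [AddCommGroup V] [Module ℚ V] [Module.Finite ℚ V]
      (_ : E →ₐ[ℚ] Module.End ℚ V), Module.finrank ℚ V = n → Module.finrank ℚ D ∣ n := by
    intro n
    induction n using Nat.strong_induction_on with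
    | _ n ih =>
      intro V _ _ _ φ hn
      by_cases h0 : n = 0
      · rw [h0]
        exact dvd_zero _
      -- a minimal stable subspace
      have hex : ∃ k : ℕ, ∃ p : Submodule ℚ V, p ≠ ⊥ ∧ Stb φ p ∧ Module.finrank ℚ p = k := by
        refine ⟨_, ⊤, ?_, fun e x _ => Submodule.mem_top, rfl⟩
        intro h1
        have h2 : Module.finrank ℚ (⊤ : Submodule ℚ V) = 0 := by
          rw [h1]
          exact finrank_bot ℚ V
        rw [finrank_top] at h2
        omega
      obtain ⟨p, hp0, hps, hpk⟩ := Nat.find_spec hex
      have hmin : ∀ p' : Submodule ℚ V, p' ≠ ⊥ → Stb φ p' → p' ≤ p → p' = p := by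
        intro p' h1 h2 h3
        refine Submodule.eq_of_le_of_finrank_le h3 ?_
        rw [hpk]
        exact Nat.find_min' hex ⟨p', h1, h2, rfl⟩
      obtain ⟨v, hv, hv0⟩ := Submodule.exists_mem_ne_zero_of_ne_bot hp0
      -- the kernel of `ρ` acts trivially on `v`
      have hker : ∀ j : E, ρ j = 0 → φ j v = 0 := by
        by_contra hcon
        push Not at hcon
        obtain ⟨j₀, hj₀, hne⟩ := hcon
        have hq := hmin ((LinearMap.ker ρ.toLinearMap).map (orb φ v)) ?_ ?_ ?_
        · rw [← hq] at hv
          obtain ⟨j, hj, hjv⟩ := hv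
          have hj' : ρ j = 0 := hj
          rw [orb_apply] at hjv
          have h1 : φ (1 - j) v = 0 := by
            rw [map_sub, map_one, LinearMap.sub_apply, hjv]
            exact sub_self v
          refine hv0 (unit_app φ (hu (1 - j) ?_) h1)
          rw [map_sub, map_one, hj', sub_zero]
          exact one_ne_zero
        · intro hbot
          apply hne
          have h1 : orb φ v j₀ ∈ (LinearMap.ker ρ.toLinearMap).map (orb φ v) :=
            Submodule.mem_map_of_mem (show ρ j₀ = 0 from hj₀)
          rw [hbot] at h1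
          exact (Submodule.mem_bot ℚ).1 h1
        · rintro e x ⟨j, hj, rfl⟩
          refine ⟨e * j, ?_, ?_⟩
          · change ρ (e * j) = 0
            rw [map_mul, show ρ j = 0 from hj, mul_zero]
          · rw [orb_apply, orb_apply, mul_app]
        · rintro x ⟨j, hj, rfl⟩
          exact hps j v hv
      have hkeq : LinearMap.ker (orb φ v) = LinearMap.ker ρ.toLinearMap := by
        ext e
        rw [LinearMap.mem_ker, LinearMap.mem_ker, orb_apply]
        constructor
        · intro h1
          by_contra h2
          exact hv0 (unit_app φ (hu e h2) h1)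
        · exact hker e
      have hfr : Module.finrank ℚ (LinearMap.range (orb φ v)) = Module.finrank ℚ D := by
        have e1 := (orb φ v).quotKerEquivRange
        have e2 := Submodule.quotEquivOfEq _ _ hkeq
        have e3 := ρ.toLinearMap.quotKerEquivOfSurjective hρ
        exact ((e1.symm.trans e2).trans e3).finrank_eq
      have hst : Stb φ (LinearMap.range (orb φ v)) := by
        rintro e x ⟨e', rfl⟩
        exact ⟨e * e', by rw [orb_apply, orb_apply, mul_app]⟩
      have hsum := Submodule.finrank_quotient_add_finrank (LinearMap.range (orb φ v))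
      have hlt : Module.finrank ℚ (V ⧸ LinearMap.range (orb φ v)) < n := by omega
      have hdv := ih _ hlt (V ⧸ LinearMap.range (orb φ v)) (quo φ _ hst) rfl
      rw [← hn, ← hsum, hfr]
      exact dvd_add hdv dvd_rfl
  intro V _ _ _ φ
  exact main _ V φ rfl

end

end MotP.HL
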