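import Pool.Agent.HL.St5

/-!
# The half law, part R: LDV (helper83)
-/

set_option autoImplicit false

open CategoryTheory MonoidalCategory CartesianMonoidalCategory Limits Polynomial Filter

universe v₁ u₁ v u w

namespace MotP.HL

open Mot MotP.GGap

noncomputable section

namespace LDV_aux

variable {C : Type u₁} [Category.{v₁} C] [Preadditive C] [Linear ℚ C]
variable {D : Type u} [Category.{v} D] [Preadditive D] [Linear ℚ D]

/-- The homomorphism of the endomorphism algebras. -/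
def rho (π : C ⥤ D) [π.Additive] [Functor.Linear ℚ π] (Y : C) :
    End Y →ₐ[ℚ] End (π.obj Y) where
  toFun e := π.map e
  map_one' := π.map_id Y
  map_mul' e e' := π.map_comp e' e
  map_zero' := π.map_zero Y Y
  map_add' _ _ := π.map_add
  commutes' r := by
    rw [Algebra.algebraMap_eq_smul_one, Algebra.algebraMap_eq_smul_one]
    change π.map (r • 𝟙 Y) = r • 𝟙 (π.obj Y)
    rw [Functor.map_smul, π.map_id]

/-- The ring homomorphism. -/
def rhoHom (π : C ⥤ D) [π.Additive] (Y : C) : End Y →+* End (π.obj Y) where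
  toFun e := π.map e
  map_one' := π.map_id Y
  map_mul' e e' := π.map_comp e' e
  map_zero' := π.map_zero Y Y
  map_add' _ _ := π.map_add

/-- The action on the morphisms from `U`. -/
def phi (U Y : C) : End Y →ₐ[ℚ] Module.End ℚ (U ⟶ Y) where
  toFun e := Linear.rightComp ℚ U (e : Y ⟶ Y)
  map_one' := by
    ext f
    exact Category.comp_id f
  map_mul' e e' := by
    ext f
    exact (Category.assoc f (e' : Y ⟶ Y) (e : Y ⟶ Y)).symm
  map_zero' := by
    ext f
    exact comp_zero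
  map_add' e e' := by
    ext f
    exact Preadditive.comp_add _ _ _ _ _ _
  commutes' r := by
    ext f
    rw [Algebra.algebraMap_eq_smul_one, Algebra.algebraMap_eq_smul_one]
    change f ≫ (r • 𝟙 Y) = r • f
    rw [Linear.comp_smul, Category.comp_id]

omit [Linear ℚ C] [Linear ℚ D] in
theorem unit (π : C ⥤ D) [π.Additive] [π.Full] (Y : C) (hN : Nl π Y) (hS : Smp (π.obj Y))
    (e : End Y) (he : π.map (e : Y ⟶ Y) ≠ 0) : IsUnit e := by
  obtain ⟨g', h1, h2⟩ := hS.2 _ he
  obtain ⟨g, rfl⟩ := π.map_surjective g'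
  have key : ∀ a : End Y, π.map (a : Y ⟶ Y) = 𝟙 (π.obj Y) → IsUnit a := by
    intro a ha
    have h3 : IsNilpotent (a - 1 : End Y) := by
      refine hN _ ?_
      have h5 : LDV_aux.rhoHom π Y (a - 1) = 0 := by
        rw [map_sub, map_one, sub_eq_zero]
        exact ha
      exact h5
    have h4 := h3.isUnit_add_one
    rwa [sub_add_cancel] at h4
  let g0 : End Y := g
  have h3 : IsUnit (g0 * e) := by
    refine key _ ?_
    change π.map ((e : Y ⟶ Y) ≫ g) = _
    rw [π.map_comp, h1]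
  have h4 : IsUnit (e * g0) := by
    refine key _ ?_
    change π.map (g ≫ (e : Y ⟶ Y)) = _
    rw [π.map_comp, h2]
  obtain ⟨u, hu⟩ := h3
  obtain ⟨w, hw⟩ := h4
  rw [isUnit_iff_exists]
  have h5 : ((↑u⁻¹ : End Y) * g0) * e = 1 := by
    rw [mul_assoc, ← hu, Units.inv_mul]
  have h6 : e * (g0 * (↑w⁻¹ : End Y)) = 1 := by
    rw [← mul_assoc, ← hw, Units.mul_inv]
  have h7 : ((↑u⁻¹ : End Y) * g0) = (g0 * (↑w⁻¹ : End Y)) := left_inv_eq_right_inv h5 h6
  exact ⟨g0 * (↑w⁻¹ : End Y), h6, by rw [← h7]; exact h5⟩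

/-- A local algebra which acts on a nonzero finite-dimensional space has a finite-dimensional
residue algebra. -/
theorem fin {E : Type v₁} {D : Type v} [Ring E] [Algebra ℚ E] [Ring D] [Algebra ℚ D]
    (ρ : E →ₐ[ℚ] D) (hs : Function.Surjective ρ) (hu : ∀ e, ρ e ≠ 0 → IsUnit e)
    {V : Type w} [AddCommGroup V] [Module ℚ V] [Module.Finite ℚ V] [Nontrivial V]
    (φ : E →ₐ[ℚ] Module.End ℚ V) : Module.Finite ℚ D := by
  have h1 : LinearMap.ker φ.toLinearMap ≤ LinearMap.ker ρ.toLinearMap := by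
    intro e he
    rw [LinearMap.mem_ker] at he ⊢
    by_contra h2
    obtain ⟨u, rfl⟩ := hu e h2
    obtain ⟨v, hv⟩ := exists_ne (0 : V)
    have h3 : φ ((↑u⁻¹ : E) * (u : E)) = 0 := by
      rw [map_mul]
      have h4 : φ (u : E) = 0 := he
      rw [h4, mul_zero]
    rw [Units.inv_mul, map_one] at h3
    exact hv (by simpa using LinearMap.congr_fun h3 v)
  have h2 : Module.Finite ℚ (E ⧸ LinearMap.ker φ.toLinearMap) :=
    Module.Finite.equiv (LinearMap.quotKerEquivRange φ.toLinearMap).symm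
  refine Module.Finite.of_surjective ((LinearMap.ker φ.toLinearMap).liftQ ρ.toLinearMap h1) ?_
  intro d
  obtain ⟨e, rfl⟩ := hs d
  exact ⟨Submodule.Quotient.mk e, by simp⟩

end LDV_aux

theorem t_LDV : M_LDV.{v₁, u₁, v, u} := by
  intro hDVD
  intro C _ _ _ D _ _ _ _ _ _ _ _ W π _ _ _ U Y hN hS hfin
  rcases subsingleton_or_nontrivial (U ⟶ Y) with hV | hV
  · rw [Module.finrank_zero_of_subsingleton]
    exact dvd_zero _
  have hnt : Nontrivial (End (π.obj Y)) := ⟨⟨(1 : End (π.obj Y)), 0, hS.1⟩⟩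
  have hsur : Function.Surjective (LDV_aux.rho π Y) := fun g => by
    obtain ⟨f, hf⟩ := π.map_surjective (g : π.obj Y ⟶ π.obj Y)
    exact ⟨f, hf⟩
  have hun : ∀ e, LDV_aux.rho π Y e ≠ 0 → IsUnit e := fun e he => LDV_aux.unit π Y hN hS e he
  have hf : Module.Finite ℚ (End (π.obj Y)) :=
    LDV_aux.fin (LDV_aux.rho π Y) hsur hun (LDV_aux.phi U Y)
  exact hDVD (End Y) (End (π.obj Y)) (LDV_aux.rho π Y) hsur hun (U ⟶ Y) (LDV_aux.phi U Y)

end

end MotP.HL
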