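import Pool.Agent.HL.P_LSM

/-!
# Project HLR (MP_6c4da4_ag): LIO, multiplicities of lifts of simple objects
-/

set_option autoImplicit false

open CategoryTheory MonoidalCategory Limits

universe v₁ u₁ v u

namespace MotP.HL

noncomputable section

theorem t_LIO : M_LIO.{v₁, u₁, v, u} := by
  intro hL C _ _ _ _ D _ _ _ _ _ _ _ _ _ _ W π _ _ U N Y hY hd
  have hL1 := (hL C D π).1
  have hS7 := (a_SIM D W).2.2.2.2.2.2
  have key : ∀ (n : ℕ) (Z : C), Nl π Z → h (π.obj Z) (π.obj Z) = n →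
      ∃ (a : Fin N → ℕ) (Z' : C), Smd Z' Z ∧ (∀ i, h (π.obj (Y i)) (π.obj Z') = 0) ∧
        (∀ i, h (π.obj (Y i)) (π.obj Z) = a i * h (π.obj (Y i)) (π.obj (Y i))) ∧
        Module.rank ℚ (U ⟶ Z) = ∑ i, (a i : Cardinal.{v₁}) * Module.rank ℚ (U ⟶ Y i) +
          Module.rank ℚ (U ⟶ Z') := by
    intro n
    induction n using Nat.strong_induction_on with
    | _ n ih =>
      intro Z hZ hn
      by_cases h0 : ∀ i, h (π.obj (Y i)) (π.obj Z) = 0
      · refine ⟨fun _ => 0, Z, LSM.smd_of_retract (𝟙 Z) (𝟙 Z) (Category.comp_id _), h0,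
          fun i => by rw [h0 i, zero_mul], ?_⟩
        simp
      · push Not at h0
        obtain ⟨j, hj⟩ := h0
        obtain ⟨Z₁, ⟨d⟩⟩ := hL1 (Y j) Z (hY j).1 (hS7 _ _ (hY j).2 hj)
        have hZ₁ : Nl π Z₁ := LSM.nl_of_retract d.j d.q d.jq hZ
        have hA := t_ADD D W _ _ _ (LSM.mapDec (π := π) d)
        have hlt : h (π.obj Z₁) (π.obj Z₁) < n := by
          have e1 := hA.2.1 (π.obj Z)
          have e2 := hA.2.2.1 (π.obj Z₁)
          have e3 : 0 < h (π.obj (Y j)) (π.obj Z) := Nat.pos_of_ne_zero hj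
          omega
        obtain ⟨a, Z', h1, h2, h3, h4⟩ := ih _ hlt Z₁ hZ₁ rfl
        refine ⟨fun i => a i + if i = j then 1 else 0, Z',
          LSM.smd_trans h1 (LSM.smd_of_retract d.j d.q d.jq), h2, fun i => ?_, ?_⟩
        · rw [hA.2.2.1, h3 i, add_mul, add_comm]
          congr 1
          by_cases hij : i = j
          · rw [if_pos hij, one_mul, hij]
          · rw [if_neg hij, zero_mul, hd i j hij]
        · rw [LSM.rank_dec U Z (Y j) Z₁ d, h4, ← add_assoc]
          congr 1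
          push_cast
          simp_rw [add_mul, ite_mul, one_mul, zero_mul]
          rw [Finset.sum_add_distrib, Finset.sum_ite_eq' Finset.univ j, if_pos (Finset.mem_univ j),
            add_comm]
  intro Z hZ
  exact key _ Z hZ rfl

end

end MotP.HL
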