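import Pool.Agent.HL.St5

/-!
# The half law, part R, module LVS: a simple lift with morphisms from `U` (helper26)
-/

set_option autoImplicit false

open CategoryTheory MonoidalCategory CartesianMonoidalCategory Limits Polynomial Filter

universe v₁ u₁ v u

namespace MotP.HL

open Mot MotP.GGap

noncomputable section

namespace LVS

section

variable {C : Type u₁} [Category.{v₁} C] [Preadditive C] [IsIdempotentComplete C]

lemma smd_trans {R Y Z : C} (h1 : Smd R Y) (h2 : Smd Y Z) : Smd R Z := by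
  obtain ⟨R', ⟨d⟩⟩ := h1
  obtain ⟨Y', ⟨e⟩⟩ := h2
  refine CSI.dec_of_retract (d.i ≫ e.i) (e.p ≫ d.p) ?_
  rw [Category.assoc, ← Category.assoc e.i, e.ip, Category.id_comp, d.ip]

end

section

variable {D : Type u} [Category.{v} D] [Preadditive D]

lemma smp_iso {S T : D} (e : T ≅ S) (hS : Smp S) : Smp T := by
  refine ⟨?_, ?_⟩
  · intro h0
    apply hS.1
    rw [← e.inv_hom_id, ← Category.id_comp e.hom, h0, Limits.zero_comp, Limits.comp_zero]
  · intro f hf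
    have h1 : e.inv ≫ f ≫ e.hom ≠ 0 := by
      intro h0
      apply hf
      have h2 : e.hom ≫ (e.inv ≫ f ≫ e.hom) ≫ e.inv = f := by simp
      rw [← h2, h0, Limits.zero_comp, Limits.comp_zero]
    obtain ⟨g, hg1, hg2⟩ := hS.2 _ h1
    refine ⟨e.hom ≫ g ≫ e.inv, ?_, ?_⟩
    · have h3 : f ≫ e.hom ≫ g ≫ e.inv = e.hom ≫ ((e.inv ≫ f ≫ e.hom) ≫ g) ≫ e.inv := by
        simp
      rw [h3, hg1]
      simp
    · have h3 : (e.hom ≫ g ≫ e.inv) ≫ f = e.hom ≫ (g ≫ (e.inv ≫ f ≫ e.hom)) ≫ e.inv := by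
        simp
      rw [h3, hg2]
      simp

end

end LVS

theorem t_LVS : M_LVS.{v₁, u₁, v, u} := by
  intro hLSM C _ _ _ _ D _ _ _ _ _ _ _ _ _ _ W π _ _ U
  obtain ⟨-, L2, L3, L4, L5, L6⟩ := hLSM C D π
  suffices H : ∀ (N : ℕ) (Z : C), h (π.obj Z) (π.obj Z) = N → Nl π Z →
      Module.rank ℚ (U ⟶ Z) ≠ 0 →
      ∃ A : C, Smd A Z ∧ Smp (π.obj A) ∧ Module.rank ℚ (U ⟶ A) ≠ 0 by
    intro Z hZ hv
    exact H _ Z rfl hZ hv
  intro N
  induction N using Nat.strong_induction_on with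
  | _ N ih =>
    intro Z hN hZ hv
    have h1 : 𝟙 (π.obj Z) ≠ 0 := by
      intro h0
      have h2 := L4 Z hZ h0
      apply hv
      have h3 : Subsingleton (U ⟶ Z) := by
        refine ⟨fun f g => ?_⟩
        rw [← Category.comp_id f, ← Category.comp_id g, h2, Limits.comp_zero, Limits.comp_zero]
      exact rank_subsingleton' ℚ (U ⟶ Z)
    obtain ⟨S, hS, hSZ⟩ := (a_SIM D W).2.2.2.2.2.1 (π.obj Z) h1
    obtain ⟨A, ⟨B, ⟨d⟩⟩, ⟨e⟩⟩ := L2 Z S hZ hSZ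
    have hA : Smp (π.obj A) := LVS.smp_iso e hS
    by_cases hvA : Module.rank ℚ (U ⟶ A) = 0
    · have h4 := L6 U Z A B ⟨d⟩
      rw [hvA, zero_add] at h4
      have hvB : Module.rank ℚ (U ⟶ B) ≠ 0 := by rw [← h4]; exact hv
      have hBZ : Smd B Z := ⟨A, ⟨⟨d.j, d.q, d.i, d.p, d.jq, d.ip, d.jp, d.iq, by
        rw [add_comm]; exact d.sum⟩⟩⟩
      have hB : Nl π B := L3 B Z hBZ hZ
      obtain ⟨dD⟩ := L5 Z A B ⟨d⟩
      obtain ⟨-, a1, a2, -, -⟩ := t_ADD D W (π.obj Z) (π.obj A) (π.obj B) dD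
      have e1 := a1 (π.obj Z)
      have e2 := a2 (π.obj A)
      have e3 := a2 (π.obj B)
      have hAA : 0 < h (π.obj A) (π.obj A) := CSI.h_pos_of_ne W (𝟙 (π.obj A)) hA.1
      obtain ⟨A', hA'B, hA's, hA'v⟩ := ih (h (π.obj B) (π.obj B)) (by omega) B rfl hB hvB
      exact ⟨A', LVS.smd_trans hA'B hBZ, hA's, hA'v⟩
    · exact ⟨A, ⟨B, ⟨d⟩⟩, hA, hvA⟩

end

end MotP.HL
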