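import Pool.Agent.HL.P_RCW

/-!
# Project HLR (MP_6c4da4_ag): RCW (helper57), variant

If all numerically trivial cycles in `CH^(dim X)(X × X)` are zero for all `X` with a numerically
nontrivial cycle, then all numerically trivial cycles are zero.
-/

set_option autoImplicit false

open CategoryTheory MonoidalCategory CartesianMonoidalCategory Limits

universe v u w

namespace MotP.HL

open CHM

noncomputable section

variable {V : Type u} [Category.{v} V] [CartesianMonoidalCategory V]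

namespace RCW2

open RCW

variable (T : CHM.ChowTheory.{v, u, w} V)

/-- homogeneous numerically trivial correspondences between varieties of the same dimension are zero -/
theorem zero_of_nt (h : ∀ X : V, (∃ i : ℤ, T.num X i ≠ ⊤) → T.num (X ⊗ X) (T.dim X) = ⊥) {X Y : V}
    (hd : T.dim X = T.dim Y) (ω : T.CH X) (hω : ω ∈ T.gr X (T.dim X)) (hωd : T.deg ω ≠ 0)
    {f : T.CH (X ⊗ Y)} (hf : f ∈ T.gr (X ⊗ Y) (T.dim X)) (hn : f ∈ nt T (X ⊗ Y)) : f = 0 := by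
  obtain ⟨Z, i, j, hZ, hu⟩ := T.union X Y hd
  obtain ⟨a, -, ha1, -⟩ := (hu X).2 (T.dim X) (T.diag X) 0 (T.diag_mem X) (zero_mem _)
  obtain ⟨b, hb, -, hb2⟩ := (hu Y).2 (T.dim X) 0 (T.diag Y) (zero_mem _)
    (by rw [hd]; exact T.diag_mem Y)
  have h1 : T.cp (T.gr' i) (T.cp f b) ∈ nt T (Z ⊗ Z) := cp_nt_right T _ (cp_nt_left T hn b)
  have h2 : T.cp (T.gr' i) (T.cp f b) ∈ T.gr (Z ⊗ Z) (T.dim Z) := by
    refine T.gr_congr ?_ (T.cp_mem (T.gr'_mem i) (T.cp_mem hf hb))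
    rw [hZ, ← hd]
    ring
  have h3 : (⟨_, h2⟩ : T.gr (Z ⊗ Z) (T.dim Z)) ∈ T.num (Z ⊗ Z) (T.dim Z) := fun c _ => h1 c
  have hω2 : T.push i ω ∈ T.gr Z (T.dim Z) := by
    refine T.gr_congr ?_ (T.push_mem i _ _ hω)
    ring
  have hZt : ∃ k : ℤ, T.num Z k ≠ ⊤ := by
    refine ⟨T.dim Z, fun ht => ?_⟩
    have h4 : (⟨_, hω2⟩ : T.gr Z (T.dim Z)) ∈ T.num Z (T.dim Z) := by
      rw [ht]
      trivial
    have h5 := h4 1 (T.gr_congr (sub_self _).symm (T.one_mem Z))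
    rw [mul_one, deg_push] at h5
    exact hωd h5
  rw [h Z hZt, Submodule.mem_bot] at h3
  have h4 : T.cp (T.gr' i) (T.cp f b) = 0 := congrArg Subtype.val h3
  have h5 : T.cp a (T.cp (T.cp (T.gr' i) (T.cp f b)) (T.gr' j)) = f := by
    rw [T.cp_assoc, T.cp_assoc, ← T.cp_assoc a, T.cp_gr' a, ha1, T.diag_cp, T.cp_gr' b, hb2,
      T.cp_diag]
  rw [← h5, h4]
  simp [ChowTheory.cp]

/-- powers of the line -/
theorem lines (a : ℕ) : ∃ Y : V, T.dim Y = a ∧ (∃ ω ∈ T.gr Y a, T.deg ω ≠ 0) ∧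
    ∀ α : ℤ, 0 ≤ α → α ≤ a → ∃ η ∈ T.gr Y α, ∃ η' : T.CH Y, T.deg (η' * η) ≠ 0 := by
  induction a with
  | zero =>
    have hone : T.deg (1 : T.CH (𝟙_ V)) ≠ 0 := by
      rw [deg_one' T (by rw [toUnit_unique (toUnit (𝟙_ V)) (𝟙 _), T.push_id])]
      exact one_ne_zero
    refine ⟨𝟙_ V, by rw [T.dim_unit, Nat.cast_zero], ⟨1, T.one_mem _, hone⟩, fun α h0 h1 => ?_⟩
    have h2 : α = 0 := le_antisymm (by exact_mod_cast h1) h0
    subst h2
    refine ⟨1, T.one_mem _, 1, ?_⟩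
    rw [mul_one, deg_one' T (by rw [toUnit_unique (toUnit (𝟙_ V)) (𝟙 _), T.push_id])]
    exact one_ne_zero
  | succ a ih =>
    obtain ⟨Y, hY, ⟨ω, hω, hωd⟩, hY2⟩ := ih
    obtain ⟨E, c, hE, hc, hc2⟩ := T.line
    have hdc : T.deg c ≠ 0 := by
      rw [deg_one' T hc2]
      exact one_ne_zero
    refine ⟨Y ⊗ E, by rw [T.dim_tensor, hY, hE]; push_cast; ring,
      ⟨T.pull (fst Y E) ω * T.pull (snd Y E) c, T.gr_congr (by push_cast; ring)
        (T.mul_mem (T.pull_mem _ _ _ hω) (T.pull_mem _ _ _ hc)), ?_⟩, fun α h0 h1 => ?_⟩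
    · rw [deg_times]
      exact mul_ne_zero hωd hdc
    have key : ∀ (η η' : T.CH Y) (d d' : T.CH E), T.deg (η' * η) ≠ 0 → T.deg (d' * d) ≠ 0 →
        T.deg ((T.pull (fst Y E) η' * T.pull (snd Y E) d') *
          (T.pull (fst Y E) η * T.pull (snd Y E) d)) ≠ 0 := by
      intro η η' d d' g1 g2
      have e1 : (T.pull (fst Y E) η' * T.pull (snd Y E) d') *
          (T.pull (fst Y E) η * T.pull (snd Y E) d) =
          T.pull (fst Y E) (η' * η) * T.pull (snd Y E) (d' * d) := by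
        rw [map_mul, map_mul]
        ring
      rw [e1, deg_times]
      exact mul_ne_zero g1 g2
    by_cases h2 : α ≤ a
    · obtain ⟨η, hη, η', hd⟩ := hY2 α h0 h2
      refine ⟨T.pull (fst Y E) η * T.pull (snd Y E) 1,
        T.gr_congr (add_zero α) (T.mul_mem (T.pull_mem _ _ _ hη) (T.pull_mem _ _ _ (T.one_mem _))),
        _, key η η' 1 c hd ?_⟩
      rwa [mul_one]
    · obtain ⟨η, hη, η', hd⟩ := hY2 (α - 1) (by omega) (by omega)
      refine ⟨T.pull (fst Y E) η * T.pull (snd Y E) c,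
        T.gr_congr (sub_add_cancel α 1) (T.mul_mem (T.pull_mem _ _ _ hη) (T.pull_mem _ _ _ hc)),
        _, key η η' c 1 hd ?_⟩
      rwa [one_mul]

end RCW2

theorem t_RCW2 (T : CHM.ChowTheory.{v, u, w} V) : S_RCW2 T := by
  intro hX X i
  obtain ⟨a, ha⟩ : ∃ a : ℕ, (a : ℤ) = |i| + |T.dim X| :=
    ⟨(|i| + |T.dim X|).toNat, Int.toNat_of_nonneg (by positivity)⟩
  obtain ⟨b, hb⟩ : ∃ b : ℕ, (b : ℤ) = T.dim X + a := by
    refine ⟨(T.dim X + a).toNat, Int.toNat_of_nonneg ?_⟩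
    have h1 := neg_abs_le (T.dim X)
    have h2 := abs_nonneg i
    omega
  obtain ⟨α, β, h1, h2, h3, h4, h5⟩ : ∃ α β : ℤ, 0 ≤ α ∧ α ≤ a ∧ 0 ≤ β ∧ β ≤ b ∧
      i + α + β = b := by
    have e1 := neg_abs_le (T.dim X)
    have e2 := le_abs_self i
    have e3 := neg_abs_le i
    have e4 := abs_nonneg (T.dim X)
    by_cases hi : 0 ≤ i
    · exact ⟨0, b - i, by omega, by omega, by omega, by omega, by omega⟩
    · exact ⟨-i, b, by omega, by omega, by omega, by omega, by omega⟩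
  obtain ⟨A, hA, -, hA2⟩ := RCW2.lines T a
  obtain ⟨B, hB, ⟨ζ, hζ, hζd⟩, hB2⟩ := RCW2.lines T b
  obtain ⟨ω, hω, ω', hωd⟩ := hA2 α h1 h2
  obtain ⟨η, hη, η', hηd⟩ := hB2 β h3 h4
  have hd : T.dim B = T.dim (A ⊗ X) := by
    rw [T.dim_tensor, hA, hB, hb]
    ring
  rw [eq_bot_iff]
  intro x hx
  have hx1 : x.1 ∈ nt T X := nt_of_homog T x.2 hx
  have g1 : T.pull (fst B (A ⊗ X)) η * T.pull (snd B (A ⊗ X))
      (T.pull (fst A X) ω * T.pull (snd A X) x.1) = 0 := by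
    refine RCW2.zero_of_nt T hX hd ζ (by rw [hB]; exact hζ) hζd ?_ ?_
    · refine T.gr_congr ?_ (T.mul_mem (T.pull_mem _ _ _ hη) (T.pull_mem _ _ _
        (T.mul_mem (T.pull_mem _ _ _ hω) (T.pull_mem _ _ _ x.2))))
      rw [hB, ← h5]
      ring
    · exact Ideal.mul_mem_left _ _ (pull_nt T _ (Ideal.mul_mem_left _ _ (pull_nt T _ hx1)))
  have g2 := RSV.zero_of_times T η' η _ hηd g1
  have g3 := RSV.zero_of_times T ω' ω _ hωd g2
  exact (Submodule.mem_bot ℚ).2 (Subtype.ext g3)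

end

end MotP.HL
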