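import Pool.Agent.HL.St5
import Pool.Agent.CHM.Num

/-!
# Project HLR (MP_6c4da4_ag): RED, the functor from Chow motives to numerical motives
-/

set_option autoImplicit false

open CategoryTheory MonoidalCategory CartesianMonoidalCategory Limits

universe v u w

namespace MotP.HL

open CHM

noncomputable section

variable {V : Type u} [Category.{v} V] [CartesianMonoidalCategory V]

namespace RED

variable {T : CHM.ChowTheory.{v, u, w} V}

theorem cut_mem {M N : CHM.Mot T} {a : T.CH (M.X ⊗ N.X)}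
    (ha : a ∈ T.gr (M.X ⊗ N.X) (T.dim M.X + N.m - M.m)) :
    T.cp (T.cp M.p a) N.p ∈ CHM.Mot.hom M N := by
  refine ⟨?_, ?_⟩
  · refine T.gr_congr ?_ (T.cp_mem (T.cp_mem M.deg ha) N.deg)
    ring
  · rw [← T.cp_assoc M.p, ← T.cp_assoc M.p, M.idem, T.cp_assoc _ N.p N.p, N.idem]

theorem cut_val (hG : S_NGR T) (hU : S_NUN T) {M N : CHM.Mot T} (a : T.CH (M.X ⊗ N.X))
    (g : (redObj hG hU M) ⟶ (redObj hG hU N))
    (ha : (show (numQ T hG hU).CH (M.X ⊗ N.X) from pr T _ a) = g.1) :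
    (show (numQ T hG hU).CH (M.X ⊗ N.X) from pr T _ (T.cp (T.cp M.p a) N.p)) = g.1 := by
  have h1 := CHM.Mot.p_cp g.2
  have h2 := CHM.Mot.cp_p g.2
  have h3 : (numQ T hG hU).cp (redObj hG hU M).p g.1 =
      (show (numQ T hG hU).CH (M.X ⊗ N.X) from pr T _ (T.cp M.p a)) := by
    rw [← ha]
    exact numQ_cp hG hU M.p a
  rw [h1] at h3
  have h4 : (numQ T hG hU).cp g.1 (redObj hG hU N).p =
      (show (numQ T hG hU).CH (M.X ⊗ N.X) from pr T _ (T.cp (T.cp M.p a) N.p)) := by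
    rw [h3]
    exact numQ_cp hG hU (T.cp M.p a) N.p
  exact h4.symm.trans h2

end RED

theorem t_RED (T : CHM.ChowTheory.{v, u, w} V) : S_RED T := by
  intro hG hU
  refine ⟨⟨fun {M N f g} => ?_⟩, ⟨fun {M N} f r => ?_⟩, ⟨fun {M N} g => ?_⟩, fun M N f => ?_⟩
  · apply Subtype.ext
    exact map_add (pr T (M.X ⊗ N.X)) f.1 g.1
  · apply Subtype.ext
    exact map_smul (pr T (M.X ⊗ N.X)) r f.1
  · obtain ⟨a, ha, hag⟩ := (numQ_gr hG hU).1 g.2.1
    exact ⟨⟨_, RED.cut_mem (M := M) (N := N) ha⟩, Subtype.ext (RED.cut_val hG hU a g hag)⟩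
  · rw [CHM.Mot.numTrivial_iff]
    constructor
    · intro h b _
      have h1 : pr T (M.X ⊗ N.X) f.1 = 0 := congrArg Subtype.val h
      exact (pr_eq_zero T).1 h1 b
    · intro h
      apply Subtype.ext
      exact (pr_eq_zero T).2 (nt_of_homog T f.2.1 h)

end

end MotP.HL
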