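import Pool.Agent.HL.St5

/-!
# The half law, part R, module RLO (helper8): the limits for families of lifts
-/

set_option autoImplicit false

open CategoryTheory MonoidalCategory CartesianMonoidalCategory BraidedCategory Limits Polynomial Filter

universe v₁ u₁ v u

namespace MotP.HL

open Mot MotP.GGap

noncomputable section

namespace RLO

section

variable {ι : Type} [Fintype ι] {V : ι → Type v} [∀ i, AddCommGroup (V i)] [∀ i, Module ℚ (V i)]
  {V0 V1 : Type v} [AddCommGroup V0] [Module ℚ V0] [AddCommGroup V1] [Module ℚ V1]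

/-- A finite-dimensional space is at least as large as the parts of a decomposition. -/
lemma finrank_ge (a : ι → ℕ)
    (h : Module.rank ℚ V0 = ∑ i, (a i : Cardinal.{v}) * Module.rank ℚ (V i) + Module.rank ℚ V1)
    [Module.Finite ℚ V0] :
    ∑ i, a i * Module.finrank ℚ (V i) ≤ Module.finrank ℚ V0 := by
  have h1 : ∀ i, ((Module.finrank ℚ (V i) : ℕ) : Cardinal.{v}) ≤ Module.rank ℚ (V i) := by
    intro i
    by_cases hf : Module.Finite ℚ (V i)
    · exact (Module.finrank_eq_rank ℚ (V i)).le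
    · rw [Module.finrank_of_not_finite hf, Nat.cast_zero]
      exact zero_le
  have h2 : ((∑ i, a i * Module.finrank ℚ (V i) : ℕ) : Cardinal.{v}) ≤
      ((Module.finrank ℚ V0 : ℕ) : Cardinal.{v}) := by
    rw [Module.finrank_eq_rank ℚ V0, h]
    push_cast
    refine le_trans ?_ (le_add_right le_rfl)
    refine Finset.sum_le_sum fun i _ => ?_
    exact mul_le_mul_right (h1 i) _
  exact_mod_cast h2

/-- The case of finite-dimensional parts. -/
lemma finrank_eq (a : ι → ℕ)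
    (h : Module.rank ℚ V0 = ∑ i, (a i : Cardinal.{v}) * Module.rank ℚ (V i))
    (hf : ∀ i, Module.Finite ℚ (V i)) :
    Module.Finite ℚ V0 ∧ Module.finrank ℚ V0 = ∑ i, a i * Module.finrank ℚ (V i) := by
  have h2 : Module.rank ℚ V0 =
      ((∑ i, a i * Module.finrank ℚ (V i) : ℕ) : Cardinal.{v}) := by
    rw [h]
    push_cast
    refine Finset.sum_congr rfl fun i _ => ?_
    have := hf i
    rw [Module.finrank_eq_rank ℚ (V i)]
  refine ⟨?_, ?_⟩
  · rw [← Module.rank_lt_aleph0_iff, h2]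
    exact Cardinal.natCast_lt_aleph0
  · exact Module.finrank_eq_of_rank_eq h2

/-- An infinite-dimensional part. -/
lemma not_finite (a : ι → ℕ)
    (h : Module.rank ℚ V0 = ∑ i, (a i : Cardinal.{v}) * Module.rank ℚ (V i) + Module.rank ℚ V1)
    (i : ι) (hi : ¬ Module.Finite ℚ (V i)) (ha : 0 < a i) : ¬ Module.Finite ℚ V0 := by
  intro hf
  rw [← Module.rank_lt_aleph0_iff, h] at hf
  apply hi
  rw [← Module.rank_lt_aleph0_iff]
  refine lt_of_le_of_lt ?_ hf
  refine le_trans ?_ (le_add_right le_rfl)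
  refine le_trans ?_ (Finset.single_le_sum (f := fun i => (a i : Cardinal.{v}) * Module.rank ℚ (V i))
    (fun _ _ => zero_le) (Finset.mem_univ i))
  have h1 : (1 : Cardinal.{v}) ≤ (a i : Cardinal.{v}) := by exact_mod_cast ha
  calc Module.rank ℚ (V i) = 1 * Module.rank ℚ (V i) := (one_mul _).symm
    _ ≤ (a i : Cardinal.{v}) * Module.rank ℚ (V i) := mul_le_mul_left h1 _

end

section

variable {C : Type u} [Category.{v} C] [Preadditive C]

/-- summands of isomorphic objects -/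
lemma smd_iso {A Y Z : C} (e : Y ≅ Z) (h : Smd A Y) : Smd A Z := by
  obtain ⟨B, ⟨D⟩⟩ := h
  refine ⟨B, ⟨⟨D.i ≫ e.hom, e.inv ≫ D.p, D.j ≫ e.hom, e.inv ≫ D.q, ?_, ?_, ?_, ?_, ?_⟩⟩⟩
  · rw [Category.assoc, Iso.hom_inv_id_assoc, D.ip]
  · rw [Category.assoc, Iso.hom_inv_id_assoc, D.jq]
  · rw [Category.assoc, Iso.hom_inv_id_assoc, D.iq]
  · rw [Category.assoc, Iso.hom_inv_id_assoc, D.jp]
  · have h1 : (e.inv ≫ D.p) ≫ D.i ≫ e.hom + (e.inv ≫ D.q) ≫ D.j ≫ e.hom =
        e.inv ≫ (D.p ≫ D.i + D.q ≫ D.j) ≫ e.hom := by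
      simp only [Preadditive.add_comp, Preadditive.comp_add, Category.assoc]
    rw [h1, D.sum, Category.id_comp, e.inv_hom_id]

end

end RLO

theorem t_RLO : M_RLO.{v₁, u₁, v, u} := by
  intro hLSM hLVS hLIO C _ _ _ _ D _ _ _ _ _ _ _ _ _ _ W X hX π _ _ U Z hZ hN N Y hF
  obtain ⟨a1, -, a3, a4, -, -⟩ := t_ADJ D W
  obtain ⟨-, -, b3, -, -, -, -⟩ := a_BFA D W
  obtain ⟨-, hpos, -⟩ := a_RTO D W X hX
  obtain ⟨-, -, -, g4, -⟩ := a_GGX D W X
  obtain ⟨-, -, -, -, -, o6, -, -⟩ := a_ONE D W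
  obtain ⟨-, -, s3, -, s5, -, -⟩ := a_SIM D W
  obtain ⟨-, -, l3, -, l5, -⟩ := hLSM C D π
  obtain ⟨hF1, hF2⟩ := hF
  have hposR : ∀ r, (0 : ℝ) < nn X r := fun r => by exact_mod_cast hpos r
  choose a Z' hs hz hm hr using fun r =>
    hLIO C D W π U N Y (fun i => ⟨(hF1 i).1, (hF1 i).2.1⟩) hF2 (Z r) (hN r)
  -- the multiplicities
  have hδ : ∀ i, 0 < h (π.obj (Y i)) (π.obj (Y i)) := by
    intro i
    have h0 := (hF1 i).2.1.1
    have := W.finite_hom (π.obj (Y i)) (π.obj (Y i))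
    have : Nontrivial (π.obj (Y i) ⟶ π.obj (Y i)) := ⟨⟨_, _, h0⟩⟩
    exact Module.finrank_pos
  have hmul : ∀ (i : Fin N) (r : ℕ),
      a r i * h (π.obj (Y i)) (π.obj (Y i)) = n ((π.obj (Y i))ᘁ ⊗ GG X r) := by
    intro i r
    obtain ⟨e⟩ := hZ r
    rw [← hm r i, (a3 _ _ e).2.1 (π.obj (Y i)), a1]
    exact (a3 _ _ (β_ (GG X r) (π.obj (Y i))ᘁ)).2.1 (𝟙_ D)
  have hlim : ∀ i : Fin N,
      Tendsto (fun r => (a r i : ℝ) / nn X r) atTop
        (nhds ((b W (π.obj (Y i)) : ℝ) / h (π.obj (Y i)) (π.obj (Y i)))) := by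
    intro i
    obtain ⟨k, hk⟩ := (hF1 i).2.2.1
    have h1 := a_ASY D W X hX k (π.obj (Y i))ᘁ (g4 _ _ hk)
    rw [b3 (π.obj (Y i))] at h1
    refine (h1.div_const _).congr fun r => ?_
    rw [← hmul i r]
    have h2 : (h (π.obj (Y i)) (π.obj (Y i)) : ℝ) ≠ 0 := by exact_mod_cast (hδ i).ne'
    have h3 := (hposR r).ne'
    push_cast
    field_simp
  have hle : ∀ (i : Fin N) (r : ℕ), (a r i : ℝ) ≤
      (b W (π.obj (Y i)) : ℝ) / h (π.obj (Y i)) (π.obj (Y i)) * nn X r := by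
    intro i r
    have h1 : a r i * h (π.obj (Y i)) (π.obj (Y i)) ≤ b W (π.obj (Y i)) * nn X r := by
      rw [hmul i r]
      unfold GG
      rw [← a4 (π.obj (Y i))ᘁ (T X r), ← b3 (π.obj (Y i))]
      exact a_NRM D W _ _
    have h2 : (0 : ℝ) < h (π.obj (Y i)) (π.obj (Y i)) := by exact_mod_cast hδ i
    have h3 : (a r i : ℝ) * h (π.obj (Y i)) (π.obj (Y i)) ≤ b W (π.obj (Y i)) * nn X r := by
      exact_mod_cast h1
    rw [div_mul_eq_mul_div, le_div_iff₀ h2]
    exact h3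
  -- the sum
  have hw : wtR W π U Y = ∑ i, ((b W (π.obj (Y i)) : ℝ) / h (π.obj (Y i)) (π.obj (Y i))) *
      Module.finrank ℚ (U ⟶ Y i) := by
    unfold wtR
    refine Finset.sum_congr rfl fun i _ => ?_
    ring
  have hsum : Tendsto (fun r => ∑ i, ((a r i : ℝ) / nn X r) * Module.finrank ℚ (U ⟶ Y i)) atTop
      (nhds (wtR W π U Y)) := by
    rw [hw]
    exact tendsto_finsetSum _ fun i _ => (hlim i).mul_const _
  have hsum' : ∀ r, ∑ i, ((a r i : ℝ) / nn X r) * Module.finrank ℚ (U ⟶ Y i) =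
      ((∑ i, a r i * Module.finrank ℚ (U ⟶ Y i) : ℕ) : ℝ) / nn X r := by
    intro r
    push_cast
    rw [Finset.sum_div]
    refine Finset.sum_congr rfl fun i _ => ?_
    ring
  refine ⟨?_, ?_, ?_⟩
  · rintro ⟨i, hi⟩
    have h1 : (0 : ℝ) < (b W (π.obj (Y i)) : ℝ) / h (π.obj (Y i)) (π.obj (Y i)) :=
      div_pos (by exact_mod_cast o6 _ (hF1 i).2.1.1) (by exact_mod_cast hδ i)
    obtain ⟨N₀, hN₀⟩ := eventually_atTop.mp ((hlim i).eventually (lt_mem_nhds h1))
    refine ⟨N₀, fun r hr0 => ?_⟩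
    have h2 := hN₀ r hr0
    have h3 : 0 < a r i := by
      rcases Nat.eq_zero_or_pos (a r i) with h0 | h0
      · rw [h0, Nat.cast_zero, zero_div] at h2
        exact absurd h2 (lt_irrefl _)
      · exact h0
    exact RLO.not_finite (V := fun i => U ⟶ Y i) (a r) (hr r) i hi h3
  · intro ε hε
    obtain ⟨N₀, hN₀⟩ := eventually_atTop.mp
      (hsum.eventually (lt_mem_nhds (show wtR W π U Y - ε < wtR W π U Y by linarith)))
    refine ⟨N₀, fun r hr0 hfin => ?_⟩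
    have h2 := hN₀ r hr0
    rw [hsum' r] at h2
    refine h2.le.trans ?_
    have h3 := RLO.finrank_ge (V := fun i => U ⟶ Y i) (a r) (hr r)
    exact div_le_div_of_nonneg_right (by exact_mod_cast h3) (hposR r).le
  · intro hfin hcomp
    have h0 : ∀ r, Module.rank ℚ (U ⟶ Z' r) = 0 := by
      intro r
      by_contra hne
      have hN' : Nl π (Z' r) := l3 _ _ (hs r) (hN r)
      obtain ⟨A, hA1, hA2, hA3⟩ := hLVS C D W π U (Z' r) hN' hne
      have hA4 : Smd (π.obj A) (π.obj (Z' r)) := by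
        obtain ⟨B, hB⟩ := hA1
        exact ⟨π.obj B, l5 _ _ _ hB⟩
      have hA5 : Smd (π.obj (Z' r)) (π.obj (Z r)) := by
        obtain ⟨B, hB⟩ := hs r
        exact ⟨π.obj B, l5 _ _ _ hB⟩
      obtain ⟨e⟩ := hZ r
      obtain ⟨i, hi⟩ := hcomp A (l3 _ _ hA1 hN') hA2
        ⟨r, RLO.smd_iso e (s3 _ _ _ hA4 hA5)⟩ hA3
      have h3 := s5 _ _ (π.obj (Y i)) hA4
      rw [hz r i] at h3
      omega
    have h1 : ∀ r, Module.Finite ℚ (U ⟶ Z r) ∧
        Module.finrank ℚ (U ⟶ Z r) = ∑ i, a r i * Module.finrank ℚ (U ⟶ Y i) := by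
      intro r
      refine RLO.finrank_eq (V := fun i => U ⟶ Y i) (a r) ?_ hfin
      rw [hr r, h0 r, add_zero]
    refine ⟨fun r => ⟨(h1 r).1, ?_⟩, ?_⟩
    · rw [(h1 r).2, hw, Finset.sum_mul]
      push_cast
      refine Finset.sum_le_sum fun i _ => ?_
      have h2 := mul_le_mul_of_nonneg_right (hle i r)
        (show (0 : ℝ) ≤ Module.finrank ℚ (U ⟶ Y i) by positivity)
      calc (a r i : ℝ) * Module.finrank ℚ (U ⟶ Y i) ≤ _ := h2
        _ = _ := by ring
    · refine hsum.congr fun r => ?_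
      rw [hsum' r, (h1 r).2]

end

end MotP.HL
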