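import Pool.Agent.HL.St5
import Pool.Agent.GGap.FinC

/-!
# The half law, part R, module RNI (helper67): numerically trivial endomorphisms which are not nilpotent
-/

set_option autoImplicit false

open CategoryTheory MonoidalCategory BraidedCategory Limits Polynomial Filter

universe v u

namespace MotP.HL

open Mot MotP.GGap

noncomputable section

variable (C : Type u) [Category.{v} C] [Preadditive C] [Linear ℚ C] [MonoidalCategory C]
  [SymmetricCategory C] [MonoidalPreadditive C] [MonoidalLinear ℚ C] [RightRigidCategory C]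

namespace RNI

variable {C}

omit [Preadditive C] [Linear ℚ C] [SymmetricCategory C] [MonoidalPreadditive C]
  [MonoidalLinear ℚ C] [RightRigidCategory C] in
/-- the addition of exponents -/
def addIso (X : C) (r : ℕ) : ∀ k : ℕ, T X r ⊗ T X k ≅ T X (r + k)
  | 0 => ρ_ (T X r)
  | k + 1 => (α_ (T X r) (T X k) X).symm ≪≫ whiskerRightIso (addIso X r k) X

omit [Preadditive C] [Linear ℚ C] [SymmetricCategory C] [MonoidalPreadditive C]
  [MonoidalLinear ℚ C] [RightRigidCategory C] in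
/-- the multiplication of exponents -/
def mulIso (X : C) (k : ℕ) : ∀ s : ℕ, T (T X k) s ≅ T X (k * s)
  | 0 => Iso.refl _
  | s + 1 => whiskerRightIso (mulIso X k s) (T X k) ≪≫ addIso X (k * s) k

/-- `g ↦ g ⊗ t` -/
def L {Q x : C} (t : x ⟶ x) : (Q ⟶ Q) →ₗ[ℚ] (Q ⊗ x ⟶ Q ⊗ x) where
  toFun g := g ▷ x ≫ Q ◁ t
  map_add' f g := by
    rw [MonoidalPreadditive.add_whiskerRight, Preadditive.add_comp]
  map_smul' r f := by
    rw [MonoidalLinear.smul_whiskerRight, Linear.smul_comp]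
    rfl

lemma L_inj (W : Fr C) {Q x : C} (t : x ⟶ x) (ht : tr x t ≠ 0) :
    Function.Injective (L (Q := Q) t) := by
  rw [injective_iff_map_eq_zero]
  intro g hg
  obtain ⟨c, hc⟩ := W.scalar (tr x t)
  have hc0 : c ≠ 0 := by
    rintro rfl
    apply ht
    rw [hc, zero_smul]
  have h1 : MotP.ptr (g ▷ x ≫ Q ◁ t) = g ≫ MotP.ptr (Q ◁ t) := MotP.ptr_left g (Q ◁ t)
  have h2 : MotP.ptr (Q ◁ t) = c • 𝟙 Q := by
    rw [MotP.GGap.DIM.ptr_whisker, hc, MonoidalLinear.whiskerLeft_smul, Linear.smul_comp, Linear.comp_smul]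
    simp
  have h3 : (g ▷ x ≫ Q ◁ t) = 0 := hg
  have h4 : MotP.ptr (0 : Q ⊗ x ⟶ Q ⊗ x) = 0 := by
    unfold MotP.ptr
    simp
  rw [h3, h4, h2, Linear.comp_smul, Category.comp_id] at h1
  exact (smul_eq_zero.mp h1.symm).resolve_left hc0

lemma desc (W : Fr C) (x : C) (t : x ⟶ x) (ht : tr x t ≠ 0) (r : ℕ) : ∀ d : ℕ,
    Module.Finite ℚ (T x (r + d) ⟶ T x (r + d)) →
      Module.Finite ℚ (T x r ⟶ T x r) ∧ Module.finrank ℚ (T x r ⟶ T x r) ≤
        Module.finrank ℚ (T x (r + d) ⟶ T x (r + d))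
  | 0 => fun h => ⟨h, le_refl _⟩
  | d + 1 => by
    intro h
    have hi := L_inj W (Q := T x (r + d)) t ht
    have h' : Module.Finite ℚ (T x (r + d) ⊗ x ⟶ T x (r + d) ⊗ x) := h
    have h1 : Module.Finite ℚ (T x (r + d) ⟶ T x (r + d)) := Module.Finite.of_injective _ hi
    obtain ⟨h2, h3⟩ := desc W x t ht r d h1
    refine ⟨h2, h3.trans ?_⟩
    exact LinearMap.finrank_le_finrank_of_injective hi

lemma lim (B : ℝ) (hB : 1 ≤ B) (k c : ℕ) (hk : k ≠ 0) :
    Tendsto (fun r : ℕ => B ^ (2 * k) * (((r / k : ℕ) : ℝ) + 1) ^ c *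
      ((B ^ k / (B ^ k + 1)) ^ 2) ^ (r / k)) atTop (nhds 0) := by
  have h0 : 0 < B ^ k := by positivity
  set θ : ℝ := (B ^ k / (B ^ k + 1)) ^ 2 with hθ
  have hθ0 : 0 < θ := by positivity
  have h1 : B ^ k / (B ^ k + 1) < 1 := by
    rw [div_lt_one (by positivity)]
    linarith
  have hθ1 : θ < 1 := by
    rw [hθ]
    exact pow_lt_one₀ (by positivity) h1 (by norm_num)
  have h2 : Tendsto (fun n : ℕ => (n : ℝ) ^ c * θ ^ n) atTop (nhds 0) :=
    tendsto_pow_const_mul_const_pow_of_abs_lt_one c (by rw [abs_of_pos hθ0]; exact hθ1)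
  have h3 : Tendsto (fun s : ℕ => B ^ (2 * k) * θ⁻¹ * (((s + 1 : ℕ) : ℝ) ^ c * θ ^ (s + 1)))
      atTop (nhds (B ^ (2 * k) * θ⁻¹ * 0)) :=
    ((tendsto_add_atTop_iff_nat 1).mpr h2).const_mul _
  rw [mul_zero] at h3
  have h4 : Tendsto (fun r : ℕ => r / k) atTop atTop := Nat.tendsto_div_const_atTop hk
  have h5 := h3.comp h4
  refine h5.congr ?_
  intro r
  simp only [Function.comp]
  push_cast
  rw [pow_succ θ]
  field_simp

end RNI

open RNI in
theorem t_RNI : S_RNI C := by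
  intro _ W x t ht hb k f hf hn
  have hk : k ≠ 0 := by
    rintro rfl
    apply hn
    have hz : ∀ g : 𝟙_ C ⟶ 𝟙_ C, NT g → g = 0 := by
      intro g hg
      obtain ⟨c, hc⟩ := W.scalar g
      have h1 := hg (𝟙 (𝟙_ C))
      rw [Category.comp_id, hc, MotP.tr_smul, MotP.GGap.Fr.tr_unit] at h1
      rw [hc, h1]
    have h2 : f = 0 := hz f hf
    rw [h2]
    exact IsNilpotent.zero
  have hgap := fun s hs h => f_GAP C W (T x k) s hs h f hf hn
  rcases Nat.eq_zero_or_pos (W.b x) with hb0 | hb0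
  · refine tendsto_const_nhds.congr' ?_
    filter_upwards [eventually_gt_atTop 0] with r hr
    rw [hb0]
    simp [hr.ne']
  have hB : (1 : ℝ) ≤ (W.b x : ℝ) := by exact_mod_cast hb0
  set c : ℕ := W.bp (T x k) ^ 2 + W.bm (T x k) ^ 2 + 4 with hc
  refine squeeze_zero' ?_ ?_ (lim (W.b x : ℝ) hB k c hk)
  · exact Eventually.of_forall fun r => by positivity
  filter_upwards [eventually_ge_atTop k] with r hr
  have hBk : 0 < (W.b x : ℝ) ^ k := by positivity
  by_cases hfin : Module.Finite ℚ (T x r ⟶ T x r)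
  · have hs : 0 < r / k := Nat.div_pos hr (Nat.pos_of_ne_zero hk)
    set s := r / k with hsd
    have hks : k * s ≤ r := Nat.mul_div_le r k
    obtain ⟨d, hd⟩ := Nat.exists_eq_add_of_le hks
    have hlt : r < k * (s + 1) := by
      rw [hsd]
      exact Nat.lt_mul_div_succ r (Nat.pos_of_ne_zero hk)
    have hfin' : Module.Finite ℚ (T x (k * s + d) ⟶ T x (k * s + d)) := by
      rw [← hd]
      exact hfin
    obtain ⟨h1, h2⟩ := desc W x t ht (k * s) d hfin'
    rw [← hd] at h2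
    have e : (T (T x k) s ⟶ T (T x k) s) ≃ₗ[ℚ] (T x (k * s) ⟶ T x (k * s)) :=
      Linear.homCongr ℚ (mulIso x k s) (mulIso x k s)
    have h3 : Module.Finite ℚ (T (T x k) s ⟶ T (T x k) s) := Module.Finite.equiv e.symm
    have h4 := hgap s hs h3
    rw [e.finrank_eq, hb k] at h4
    have h5 : ((W.b x : ℝ) ^ k + 1) ^ (2 * s) ≤ ((s : ℝ) + 1) ^ c *
        (Module.finrank ℚ (T x (k * s) ⟶ T x (k * s)) : ℝ) := by exact_mod_cast h4
    set e₁ : ℝ := (Module.finrank ℚ (T x (k * s) ⟶ T x (k * s)) : ℝ) with he₁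
    set e₂ : ℝ := (Module.finrank ℚ (T x r ⟶ T x r) : ℝ) with he₂
    have h6 : e₁ ≤ e₂ := by
      rw [he₁, he₂]
      exact Nat.cast_le.mpr h2
    have hp : (0 : ℝ) < ((W.b x : ℝ) ^ k + 1) ^ (2 * s) := by positivity
    have hq : (0 : ℝ) < ((s : ℝ) + 1) ^ c := by positivity
    have h7 : ((W.b x : ℝ) ^ k + 1) ^ (2 * s) ≤ ((s : ℝ) + 1) ^ c * e₂ :=
      h5.trans (mul_le_mul_of_nonneg_left h6 hq.le)
    have he : 0 < e₂ := by
      by_contra hneg
      have := mul_nonpos_of_nonneg_of_nonpos hq.le (not_lt.mp hneg)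
      linarith
    have h8 : (W.b x : ℝ) ^ (2 * r) ≤ (W.b x : ℝ) ^ (2 * k) * ((W.b x : ℝ) ^ k) ^ (2 * s) := by
      rw [← pow_mul, ← pow_add]
      apply pow_le_pow_right₀ hB
      nlinarith
    rw [div_le_iff₀ he]
    have h9 : (((W.b x : ℝ) ^ k / ((W.b x : ℝ) ^ k + 1)) ^ 2) ^ s =
        ((W.b x : ℝ) ^ k) ^ (2 * s) / ((W.b x : ℝ) ^ k + 1) ^ (2 * s) := by
      rw [← pow_mul, div_pow]
    rw [h9]
    have h10 : (W.b x : ℝ) ^ (2 * k) * ((s : ℝ) + 1) ^ c *
        (((W.b x : ℝ) ^ k) ^ (2 * s) / ((W.b x : ℝ) ^ k + 1) ^ (2 * s)) * e₂ =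
        ((W.b x : ℝ) ^ (2 * k) * ((W.b x : ℝ) ^ k) ^ (2 * s)) *
          ((((s : ℝ) + 1) ^ c * e₂) / ((W.b x : ℝ) ^ k + 1) ^ (2 * s)) := by
      field_simp
    rw [h10]
    refine h8.trans (le_mul_of_one_le_right (by positivity) ?_)
    rw [one_le_div hp]
    exact h7
  · have h1 : Module.finrank ℚ (T x r ⟶ T x r) = 0 := Module.finrank_of_not_finite hfin
    rw [h1]
    simp only [Nat.cast_zero, div_zero]
    positivity

end

end MotP.HL
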