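import Pool.Agent.HL.St5

/-!
# The half law, module RNL (helper49): nilpotence for `h (X^r ⊗ X^r) i`
-/

set_option autoImplicit false

open CategoryTheory MonoidalCategory CartesianMonoidalCategory Limits

universe v u w

namespace MotP.HL

noncomputable section

variable {V : Type u} [Category.{v} V] [CartesianMonoidalCategory V]
  {T : CHM.ChowTheory.{v, u, w} V}

namespace RNL

/-- The numerically trivial endomorphisms are nilpotent. -/
def Nn (M : CHM.Mot T) : Prop :=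
  ∀ f : End M, MotP.NumTrivial (f : M ⟶ M) → IsNilpotent f

theorem nn_iso {M N : CHM.Mot T} (e : M ≅ N) (h : Nn N) : Nn M := by
  intro f hf
  have hg : MotP.NumTrivial (e.inv ≫ (f : M ⟶ M) ≫ e.hom) := by
    intro g
    have h1 := hf (e.hom ≫ g ≫ e.inv)
    rw [CHM.Mot.trace_zero_iff] at h1 ⊢
    have e1 : ((e.inv ≫ (f : M ⟶ M) ≫ e.hom) ≫ g).1 =
        T.cp e.inv.1 ((f : M ⟶ M) ≫ e.hom ≫ g).1 := by
      rw [← CHM.Mot.comp_val]
      congr 1
      simp only [Category.assoc]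
    have e2 : ((f : M ⟶ M) ≫ e.hom ≫ g ≫ e.inv).1 =
        T.cp ((f : M ⟶ M) ≫ e.hom ≫ g).1 e.inv.1 := by
      rw [← CHM.Mot.comp_val]
      congr 1
      simp only [Category.assoc]
    rw [e2] at h1
    rw [e1, T.trc_comm]
    exact h1
  obtain ⟨G, hG⟩ : ∃ G : End N, (G : N ⟶ N) = e.inv ≫ (f : M ⟶ M) ≫ e.hom := ⟨_, rfl⟩
  rw [← hG] at hg
  obtain ⟨n, hn⟩ := h G hg
  have key : ∀ n : ℕ, ((f ^ n : End M) : M ⟶ M) = e.hom ≫ ((G ^ n : End N) : N ⟶ N) ≫ e.inv := by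
    intro n
    induction n with
    | zero =>
      have e1 : (G ^ 0 : End N) = 𝟙 _ := pow_zero _
      have e2 : (f ^ 0 : End M) = 𝟙 _ := pow_zero _
      rw [e1, e2, Category.id_comp, e.hom_inv_id]
    | succ n ih =>
      have e1 : ((f ^ (n + 1) : End M) : M ⟶ M) = ((f ^ n : End M) : M ⟶ M) ≫ (f : M ⟶ M) :=
        pow_succ' f n
      have e2 : ((G ^ (n + 1) : End N) : N ⟶ N) = ((G ^ n : End N) : N ⟶ N) ≫ (G : N ⟶ N) :=
        pow_succ' G n
      rw [e1, e2, ih, hG]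
      simp only [Category.assoc]
      rw [e.hom_inv_id, Category.comp_id]
  refine ⟨n, ?_⟩
  have h1 := key n
  rw [hn] at h1
  have h2 : ((f ^ n : End M) : M ⟶ M) = 0 := by
    rw [h1]
    change e.hom ≫ (0 : N ⟶ N) ≫ e.inv = 0
    rw [Limits.zero_comp, Limits.comp_zero]
  exact h2

theorem nn_twist {Y : V} {i : ℤ} (j : ℤ) (h : Nn (CHM.Mot.h T Y i)) : Nn (CHM.Mot.h T Y j) := by
  intro f hf
  obtain ⟨a, ha⟩ := (CHM.Mot.endEquiv T Y j).surjective (f : CHM.Mot.h T Y j ⟶ CHM.Mot.h T Y j)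
  rw [← ha, CHM.Mot.numTrivial_end] at hf
  obtain ⟨G, hG⟩ : ∃ G : End (CHM.Mot.h T Y i), (G : CHM.Mot.h T Y i ⟶ CHM.Mot.h T Y i) =
    CHM.Mot.endEquiv T Y i a := ⟨_, rfl⟩
  obtain ⟨n, hn⟩ := h G (by rw [hG, CHM.Mot.numTrivial_end]; exact hf)
  refine ⟨n, ?_⟩
  have h1 := congrArg Subtype.val hn
  rw [CHM.Mot.pow_val] at h1
  apply Subtype.ext
  rw [CHM.Mot.pow_val]
  have h2 : f.1 = a.1 := congrArg Subtype.val ha.symm
  have h3 : G.1 = a.1 := congrArg Subtype.val hG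
  rw [h2, ← h3]
  exact h1

end RNL

open RNL in
theorem t_RNL (T : CHM.ChowTheory.{v, u, w} V) : M_RNL T := by
  intro hRED hG hU X H
  have hN : ∀ M : CHM.Mot T, Nn M → Nl (red hG hU) M := fun M hM a ha =>
    hM a (((hRED hG hU).2.2.2 M M a).1 ha)
  refine ⟨hN _ (H 0), ?_⟩
  intro r i
  apply hN
  have h1 : Nn (_root_.Mot.T (CHM.Mot.h T X 0) r ⊗ _root_.Mot.T (CHM.Mot.h T X 0) r) :=
    nn_iso (GGX.addIso (CHM.Mot.h T X 0) r r) (H (r + r))
  rw [CHM.Mot.T_h, CHM.Mot.h_tensor] at h1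
  exact nn_twist i h1

end

end MotP.HL
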