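import Pool.Agent.HL.St5

/-!
# The half law, part R: RQU, the quantization theorem R in the abstract form (helper41)
-/

set_option autoImplicit false

open CategoryTheory MonoidalCategory CartesianMonoidalCategory Limits Polynomial Filter

universe v₁ u₁ v u

namespace MotP.HL

open Mot MotP.GGap

noncomputable section

namespace RQU

theorem nn_le {C : Type u₁} [Category.{v₁} C] [Preadditive C] [Linear ℚ C]
    {D : Type u} [Category.{v} D] [Preadditive D] [Linear ℚ D] [MonoidalCategory D]
    [SymmetricCategory D] [MonoidalPreadditive D] [MonoidalLinear ℚ D] [RightRigidCategory D]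
    [HasFiniteBiproducts D] [IsIdempotentComplete D] (W : Frob D)
    (X : D) (π : C ⥤ D) [π.Additive] [Functor.Linear ℚ π] [π.Full] (U Z : C) (r : ℕ)
    (e : π.obj U ≅ 𝟙_ D) (e' : π.obj Z ≅ GG X r) (hf : Module.Finite ℚ (U ⟶ Z)) :
    nn X r ≤ Module.finrank ℚ (U ⟶ Z) := by
  have h1 : n (GG X r) = nn X r := (a_GGX D W X).2.1 r
  have h2 : h (π.obj U) (π.obj Z) = n (GG X r) := by
    rw [((t_ADJ D W).2.2.1 _ _ e).1, ((t_ADJ D W).2.2.1 _ _ e').2.1]
    rfl
  have h3 : Function.Surjective (π.mapLinearMap ℚ (X := U) (Y := Z)) := fun f => by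
    obtain ⟨g, hg⟩ := π.map_surjective f
    exact ⟨g, hg⟩
  have h4 : Module.finrank ℚ (π.obj U ⟶ π.obj Z) ≤ Module.finrank ℚ (U ⟶ Z) := by
    have h5 := LinearMap.finrank_range_le (π.mapLinearMap ℚ (X := U) (Y := Z))
    rw [LinearMap.range_eq_top.2 h3, finrank_top] at h5
    exact h5
  rw [← h1, ← h2]
  exact h4

end RQU

theorem t_RQU : M_RQU.{v₁, u₁, v, u} := by
  intro hLSM hLDV hRLO C _ _ _ _ D _ _ _ _ _ _ _ _ _ _ W X hX π _ _ _ U hU hNU Z hZ hNZ
  obtain ⟨eU⟩ := hU
  obtain ⟨-, hn, -⟩ := a_RTO D W X hX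
  have hle : ∀ r, Module.Finite ℚ (U ⟶ Z r) → nn X r ≤ Module.finrank ℚ (U ⟶ Z r) := fun r hr =>
    RQU.nn_le W X π U (Z r) r eU (hZ r).some hr
  have hn' : ∀ r, (0 : ℝ) < nn X r := fun r => by exact_mod_cast hn r
  by_cases hinf : ∃ (N : ℕ) (Y : Fin N → C), FamR π U X Y ∧ ∃ i, ¬ Module.Finite ℚ (U ⟶ Y i)
  · obtain ⟨N, Y, hY, hi⟩ := hinf
    obtain ⟨N₀, hN₀⟩ := (hRLO C D W X hX π U Z hZ hNZ N Y hY).1 hi
    refine ⟨0, Or.inl rfl, ?_, fun r => by positivity, fun h0 => absurd rfl h0⟩
    refine (tendsto_const_nhds (x := (0 : ℝ))).congr' ?_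
    filter_upwards [eventually_ge_atTop N₀] with r hr
    have h1 : Module.finrank ℚ (U ⟶ Z r) = 0 := Module.finrank_of_not_finite (hN₀ r hr)
    rw [h1]
    simp
  · have hfin : ∀ (N : ℕ) (Y : Fin N → C), FamR π U X Y → ∀ i, Module.Finite ℚ (U ⟶ Y i) := by
      intro N Y hY i
      by_contra hi
      exact hinf ⟨N, Y, hY, i, hi⟩
    -- the weight of a family is a natural number
    have hwt : ∀ (N : ℕ) (Y : Fin N → C), FamR π U X Y → ∃ k : ℕ, N ≤ k ∧ wtR W π U Y = k := by
      intro N Y hY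
      have h1 : ∀ i, ∃ t : ℕ, 0 < t ∧ (b W (π.obj (Y i)) : ℝ) * Module.finrank ℚ (U ⟶ Y i) /
          h (π.obj (Y i)) (π.obj (Y i)) = t := by
        intro i
        obtain ⟨hNi, hsi, -, hri⟩ := hY.1 i
        have := hfin N Y hY i
        obtain ⟨c, hc⟩ := hLDV C D W π U (Y i) hNi hsi this
        have hbp : 0 < b W (π.obj (Y i)) := (a_ONE D W).2.2.2.2.2.1 _ hsi.1
        have hfr : 0 < Module.finrank ℚ (U ⟶ Y i) := by
          rcases Nat.eq_zero_or_pos (Module.finrank ℚ (U ⟶ Y i)) with h0 | h0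
          · exfalso
            apply hri
            rw [← Module.finrank_eq_rank, h0]
            simp
          · exact h0
        have hh : 0 < h (π.obj (Y i)) (π.obj (Y i)) := by
          rcases Nat.eq_zero_or_pos (h (π.obj (Y i)) (π.obj (Y i))) with h0 | h0
          · rw [h0, zero_mul] at hc
            omega
          · exact h0
        have hcp : 0 < c := by
          rcases Nat.eq_zero_or_pos c with h0 | h0
          · rw [h0, mul_zero] at hc
            omega
          · exact h0
        refine ⟨b W (π.obj (Y i)) * c, Nat.mul_pos hbp hcp, ?_⟩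
        have hh' : ((h (π.obj (Y i)) (π.obj (Y i)) : ℕ) : ℝ) ≠ 0 := by exact_mod_cast hh.ne'
        rw [div_eq_iff hh', hc]
        push_cast
        ring
      choose t ht hbt using h1
      refine ⟨∑ i, t i, ?_, ?_⟩
      · calc N = ∑ _i : Fin N, 1 := by simp
          _ ≤ ∑ i, t i := Finset.sum_le_sum fun i _ => ht i
      · unfold wtR
        rw [Nat.cast_sum]
        exact Finset.sum_congr rfl fun i _ => hbt i
    by_cases hall : ∀ N : ℕ, ∃ Y : Fin N → C, FamR π U X Y
    · refine ⟨0, Or.inl rfl, ?_, fun r => by positivity, fun h0 => absurd rfl h0⟩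
      rw [Metric.tendsto_atTop]
      intro ε hε
      obtain ⟨K, hK⟩ := exists_nat_gt (1 / ε)
      obtain ⟨Y, hY⟩ := hall (K + 1)
      obtain ⟨k, hk, hwk⟩ := hwt (K + 1) Y hY
      obtain ⟨N₀, hN₀⟩ := (hRLO C D W X hX π U Z hZ hNZ (K + 1) Y hY).2.1 1 one_pos
      refine ⟨N₀, fun r hr => ?_⟩
      rw [Real.dist_eq, sub_zero, abs_of_nonneg (by positivity)]
      by_cases hf : Module.Finite ℚ (U ⟶ Z r)
      · have h2 := hN₀ r hr hf
        have h3 : ((K + 1 : ℕ) : ℝ) ≤ k := by exact_mod_cast hk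
        push_cast at h3
        rw [hwk] at h2
        have h4 : (1 / ε) < (Module.finrank ℚ (U ⟶ Z r) : ℝ) / nn X r := by linarith
        have h5 : (0 : ℝ) < Module.finrank ℚ (U ⟶ Z r) :=
          lt_of_lt_of_le (hn' r) (by exact_mod_cast hle r hf)
        rw [div_lt_div_iff₀ hε (hn' r), one_mul] at h4
        rw [div_lt_iff₀ h5]
        linarith
      · have h1 : Module.finrank ℚ (U ⟶ Z r) = 0 := Module.finrank_of_not_finite hf
        rw [h1]
        simpa using hε
    · have hex : ∃ N : ℕ, ¬ ∃ Y : Fin N → C, FamR π U X Y := by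
        by_contra hcon
        exact hall fun N => by
          by_contra hN
          exact hcon ⟨N, hN⟩
      classical
      obtain ⟨N, hN, hmin⟩ : ∃ N : ℕ, (¬ ∃ Y : Fin N → C, FamR π U X Y) ∧
          ∀ M < N, ∃ Y : Fin M → C, FamR π U X Y :=
        ⟨Nat.find hex, Nat.find_spec hex, fun M hM => not_not.1 (Nat.find_min hex hM)⟩
      rcases N with _ | N
      · exact absurd ⟨Fin.elim0, ⟨fun i => Fin.elim0 i, fun i => Fin.elim0 i⟩⟩ hN
      obtain ⟨Y, hY⟩ := hmin N (Nat.lt_succ_self N)
      have hcomp : ∀ A : C, Nl π A → Smp (π.obj A) → (∃ k, Smd (π.obj A) (GG X k)) →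
          Module.rank ℚ (U ⟶ A) ≠ 0 → ∃ i, h (π.obj (Y i)) (π.obj A) ≠ 0 := by
        intro A hA hs hk hr
        by_contra hcon
        have hz : ∀ i, h (π.obj (Y i)) (π.obj A) = 0 := fun i => by
          by_contra hi
          exact hcon ⟨i, hi⟩
        refine hN ⟨Fin.cons A Y, ?_, ?_⟩
        · intro i
          refine Fin.cases ?_ (fun j => ?_) i
          · exact ⟨hA, hs, hk, hr⟩
          · exact hY.1 j
        · intro i
          refine Fin.cases ?_ (fun i' => ?_) i
          · intro j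
            refine Fin.cases ?_ (fun j' => ?_) j
            · intro h0; exact absurd rfl h0
            · intro _
              rw [Fin.cons_zero, Fin.cons_succ, (t_ADJ D W).2.1]
              exact hz j'
          · intro j
            refine Fin.cases ?_ (fun j' => ?_) j
            · intro _
              rw [Fin.cons_zero, Fin.cons_succ]
              exact hz i'
            · intro hij
              rw [Fin.cons_succ, Fin.cons_succ]
              exact hY.2 i' j' fun h0 => hij (by rw [h0])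
      obtain ⟨hbd, hlim⟩ := (hRLO C D W X hX π U Z hZ hNZ N Y hY).2.2 (hfin N Y hY) hcomp
      obtain ⟨k, -, hwk⟩ := hwt N Y hY
      rw [hwk] at hlim hbd
      have hpos : ∀ r, (0 : ℝ) < Module.finrank ℚ (U ⟶ Z r) := fun r =>
        lt_of_lt_of_le (hn' r) (by exact_mod_cast hle r (hbd r).1)
      have hk0 : 0 < k := by
        rcases Nat.eq_zero_or_pos k with h0 | h0
        · exfalso
          have h5 := (hbd 0).2
          rw [h0, Nat.cast_zero, zero_mul] at h5
          exact absurd h5 (not_le.2 (hpos 0))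
        · exact h0
      have hk0' : (0 : ℝ) < k := by exact_mod_cast hk0
      refine ⟨1 / k, Or.inr ⟨k, hk0, rfl⟩, ?_, ?_, fun _ r => (hbd r).1⟩
      · have h7 := hlim.inv₀ hk0'.ne'
        rw [one_div]
        refine h7.congr fun r => ?_
        rw [inv_div]
      · intro r
        have h8 := (hbd r).2
        rw [div_le_div_iff₀ hk0' (hpos r)]
        linarith

end

end MotP.HL
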