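import Pool.Agent.HL.St5

/-!
# The half law, module RQV: rational and numerical equivalence, theorem R for a variety (helper43)
-/

set_option autoImplicit false

open CategoryTheory MonoidalCategory CartesianMonoidalCategory Limits Polynomial Filter

universe v u w x

namespace MotP.HL

open CHM

noncomputable section

variable {V : Type u} [Category.{v} V] [CartesianMonoidalCategory V]

namespace RQV

theorem finrank_End (T : CHM.ChowTheory.{v, u, w} V) (X : V) (r : ℕ) :
    Module.finrank ℚ (_root_.Mot.T (CHM.Mot.h T X 0) r ⟶ _root_.Mot.T (CHM.Mot.h T X 0) r) =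
      Module.finrank ℚ (T.gr (CHM.pow X r ⊗ CHM.pow X r) (r * T.dim X)) := by
  rw [CHM.Mot.T_h, ← (CHM.Mot.endEquiv T (CHM.pow X r) 0).finrank_eq, NPW_dim]

theorem GG_h (T : CHM.ChowTheory.{v, u, w} V) (X : V) (r : ℕ) :
    GG (CHM.Mot.h T X 0) r = CHM.Mot.h T (CHM.pow X r ⊗ CHM.pow X r) (r * T.dim X) := by
  unfold GG
  rw [CHM.Mot.T_h, NPW_ten, NPW_dim]

/-- a bound -/
theorem toNat_le {T : CHM.ChowTheory.{v, u, w} V} {R : CHM.FrobeniusMaps T}
    (K : CHM.Cohomology.{v, u, w, x} T R) (X : V) (r : ℕ) :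
    Cardinal.toNat (Module.rank ℚ (T.gr (CHM.pow X r ⊗ CHM.pow X r) (r * T.dim X) ⧸
      T.num (CHM.pow X r ⊗ CHM.pow X r) (r * T.dim X))) ≤ Module.finrank ℂ (K.H X) ^ (2 * r) := by
  have h1 := (a_NHA T R K).1 (CHM.pow X r ⊗ CHM.pow X r) (r * T.dim X)
  have h2 := Cardinal.toNat_le_toNat h1 Cardinal.natCast_lt_aleph0
  rw [Cardinal.toNat_natCast] at h2
  refine h2.trans ((K.mult_le _ _).trans ?_)
  rw [K.finrank_tensor, K.finrank_pow, ← pow_add]
  exact le_of_eq (by congr 1; ring)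

end RQV

open RQV in
theorem t_RQV (T : CHM.ChowTheory.{v, u, w} V) : M_RQV.{v, u, w, x} T := by
  intro hRQU hRNI hRED hRNL R K X N hNr h0
  have hG : S_NGR T := t_NGR T
  have hU : S_NUN T := t_NUN T
  have hN : S_NND T := t_NND T
  have hE : S_NEV.{v, u, w, x} T := a_NEV T
  set W := frobQ hG hU hN R K hE with hW
  set Y := CHM.Mot.h (numQ T hG hU) X 0 with hY
  have hb : b W Y = Module.finrank ℂ (K.H X) := (a_NMU T hG hU hN R K hE X).2
  have hn : ∀ r, nn Y r = N r := fun r => ((a_NPW T hG hU hN R K hE X r).1).trans (hNr r).symm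
  have h1 : 𝟙 Y ≠ 0 := by
    intro h
    have h2 := W.t_split (𝟙 Y) (𝟙 Y) (Category.comp_id _) (𝟙 Y) (𝟙 Y) (Category.comp_id _)
      (by rw [h]; simp)
    have h3 := ((a_BFA _ W).2.1 Y Y Y h2).1
    omega
  obtain ⟨i1, i2, i3, hker⟩ := hRED hG hU
  by_cases hcase : ∀ (k : ℕ) (f : End (_root_.Mot.T (CHM.Mot.h T X 0) k)),
      MotP.NumTrivial (f : _root_.Mot.T (CHM.Mot.h T X 0) k ⟶ _root_.Mot.T (CHM.Mot.h T X 0) k) →
        IsNilpotent f
  · -- all numerically trivial endomorphisms are nilpotent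
    obtain ⟨hNU, hNZ⟩ := hRNL hG hU X hcase
    obtain ⟨L, hL, hlim, hle, hfin⟩ := hRQU (CHM.Mot T) (CHM.Mot (numQ T hG hU)) W Y h1
      (red hG hU) (𝟙_ (CHM.Mot T)) ⟨eqToIso (red_h hG hU (𝟙_ V) 0)⟩ hNU
      (fun r => CHM.Mot.h T (CHM.pow X r ⊗ CHM.pow X r) (r * T.dim X))
      (fun r => ⟨eqToIso ((red_h hG hU _ _).trans (GG_h (numQ T hG hU) X r).symm)⟩)
      (fun r => hNZ r _)
    have hR : ∀ r, Module.finrank ℚ (𝟙_ (CHM.Mot T) ⟶
        CHM.Mot.h T (CHM.pow X r ⊗ CHM.pow X r) (r * T.dim X)) =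
        Module.finrank ℚ (T.gr (CHM.pow X r ⊗ CHM.pow X r) (r * T.dim X)) := fun r =>
      (CHM.Mot.secEquiv T _ _).finrank_eq.symm
    refine ⟨L, hL, ?_, ?_, ?_⟩
    · have h2 : (fun r => (N r : ℝ) /
          Module.finrank ℚ (T.gr (CHM.pow X r ⊗ CHM.pow X r) (r * T.dim X))) =
          fun r => (nn Y r : ℝ) / Module.finrank ℚ (𝟙_ (CHM.Mot T) ⟶
            CHM.Mot.h T (CHM.pow X r ⊗ CHM.pow X r) (r * T.dim X)) := by
        funext r
        rw [hn, hR]
      rw [h2]
      exact hlim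
    · intro r
      have h2 := hle r
      rw [hn, hR] at h2
      exact h2
    · intro hL1 r
      have hf := hfin (by rw [hL1]; exact one_ne_zero) r
      have hf' : Module.Finite ℚ (T.gr (CHM.pow X r ⊗ CHM.pow X r) (r * T.dim X)) :=
        Module.Finite.equiv (CHM.Mot.secEquiv T _ _).symm
      have h2 := hle r
      rw [hn, hR, hL1] at h2
      have h3 : 0 < Module.finrank ℚ (T.gr (CHM.pow X r ⊗ CHM.pow X r) (r * T.dim X)) := by
        rcases Nat.eq_zero_or_pos (Module.finrank ℚ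
          (T.gr (CHM.pow X r ⊗ CHM.pow X r) (r * T.dim X))) with h | h
        · rw [h, Nat.cast_zero, div_zero] at h2
          exact absurd h2 (by norm_num)
        · exact h
      have h4 : (0 : ℝ) < Module.finrank ℚ
          (T.gr (CHM.pow X r ⊗ CHM.pow X r) (r * T.dim X)) := by exact_mod_cast h3
      rw [le_div_iff₀ h4, one_mul] at h2
      have h5 : Module.finrank ℚ (T.gr (CHM.pow X r ⊗ CHM.pow X r) (r * T.dim X)) ≤ N r := by
        exact_mod_cast h2
      have h6 : N r = Module.finrank ℚ (T.gr (CHM.pow X r ⊗ CHM.pow X r) (r * T.dim X) ⧸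
          T.num (CHM.pow X r ⊗ CHM.pow X r) (r * T.dim X)) := hNr r
      have h7 := Submodule.finrank_quotient_add_finrank
        (T.num (CHM.pow X r ⊗ CHM.pow X r) (r * T.dim X))
      have h8 : Module.finrank ℚ (T.num (CHM.pow X r ⊗ CHM.pow X r) (r * T.dim X)) = 0 := by
        omega
      exact Submodule.finrank_eq_zero.1 h8
  · -- a numerically trivial endomorphism which is not nilpotent
    push Not at hcase
    obtain ⟨k, f, hf1, hf2⟩ := hcase
    have hnt : ∃ t : CHM.Mot.h T X 0 ⟶ CHM.Mot.h T X 0, MotP.tr (CHM.Mot.h T X 0) t ≠ 0 := by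
      by_contra hcon
      push Not at hcon
      have h2 : MotP.NumTrivial (𝟙 (CHM.Mot.h T X 0)) := fun g => hcon _
      have h3 := (hker _ _ _).2 h2
      rw [CategoryTheory.Functor.map_id, red_h hG hU X 0] at h3
      exact h1 h3
    obtain ⟨t, ht⟩ := hnt
    have hbT : ∀ j, (MotP.GGap.ofFrobenius K.frobenius).b (_root_.Mot.T (CHM.Mot.h T X 0) j) =
        (MotP.GGap.ofFrobenius K.frobenius).b (CHM.Mot.h T X 0) ^ j := by
      intro j
      rw [CHM.Mot.T_h]
      have e1 := K.number_eq (CHM.pow X j)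
      have e2 := K.number_eq X
      rw [K.finrank_pow, ← e2] at e1
      exact e1
    have hlim := hRNI (MotP.GGap.ofFrobenius K.frobenius) (CHM.Mot.h T X 0) t ht hbT k f hf1 hf2
    have hbX : (MotP.GGap.ofFrobenius K.frobenius).b (CHM.Mot.h T X 0) =
        Module.finrank ℂ (K.H X) := K.number_eq X
    have hlim' : Tendsto (fun r => (N r : ℝ) /
        Module.finrank ℚ (T.gr (CHM.pow X r ⊗ CHM.pow X r) (r * T.dim X))) atTop (nhds 0) := by
      refine squeeze_zero (fun r => by positivity) (fun r => ?_) hlim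
      rw [finrank_End, hbX]
      have h2 := toNat_le K X r
      rw [← hNr r] at h2
      have h3 : (N r : ℝ) ≤ (Module.finrank ℂ (K.H X) : ℝ) ^ (2 * r) := by exact_mod_cast h2
      exact div_le_div_of_nonneg_right h3 (Nat.cast_nonneg _)
    exact ⟨0, Or.inl rfl, hlim', fun r => by positivity, fun h => absurd h (by norm_num)⟩

end

end MotP.HL
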