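import Pool.Agent.HL.St5

/-!
# Project HLR (MP_6c4da4_ag): RSV

If all numerically trivial cycles in `CH^(dim X)(X × X)` are zero and `CH^i(X)` has a numerically
nontrivial cycle, then the numerically trivial cycles in `CH^i(X)` are zero.
-/

set_option autoImplicit false

open CategoryTheory MonoidalCategory CartesianMonoidalCategory Limits

universe v u w

namespace MotP.HL

open CHM

noncomputable section

variable {V : Type u} [Category.{v} V] [CartesianMonoidalCategory V]

namespace RSV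

variable (T : CHM.ChowTheory.{v, u, w} V)

theorem push_pull {X Y : V} (b : T.CH X) :
    T.push (snd X Y) (T.pull (fst X Y) b) = algebraMap ℚ (T.CH Y) (T.deg b) := by
  have h1 := T.bc (P := X ⊗ Y) (fst X Y) (snd X Y) (toUnit X) (toUnit Y) (𝟙 Y)
    ⟨snd _ _, by simp, by ext; simp⟩ ⟨𝟙 _, by ext <;> simp, by ext <;> simp⟩ (by ext) b
  rw [← h1, ← T.algebraMap_deg, AlgHom.commutes]

/-- A cycle `a` on `Y` such that `γ × a = 0` on `X × Y` for a numerically nontrivial `γ` is `0`. -/
theorem zero_of_times {X Y : V} (β γ : T.CH X) (a : T.CH Y) (h : T.deg (β * γ) ≠ 0)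
    (h0 : T.pull (fst X Y) γ * T.pull (snd X Y) a = 0) : a = 0 := by
  have h1 : T.push (snd X Y) (T.pull (fst X Y) β * (T.pull (fst X Y) γ * T.pull (snd X Y) a)) = 0 := by
    rw [h0, mul_zero, map_zero]
  have h2 : T.pull (fst X Y) β * (T.pull (fst X Y) γ * T.pull (snd X Y) a) =
      T.pull (snd X Y) a * T.pull (fst X Y) (β * γ) := by
    rw [map_mul]
    ring
  rw [h2, T.projection, push_pull, ← Algebra.commutes, ← Algebra.smul_def] at h1
  exact (smul_eq_zero.1 h1).resolve_left h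

/-- The product of a cycle with a numerically trivial cycle is numerically trivial. -/
theorem times_deg {X Y : V} {i j k : ℤ} {γ : T.CH X} (hγ : γ ∈ T.gr X j) (a : T.gr Y i)
    (ha : a ∈ T.num Y i) {c : T.CH (X ⊗ Y)} (hc : c ∈ T.gr (X ⊗ Y) k)
    (hk : i + j + k = T.dim X + T.dim Y) :
    T.deg (T.pull (fst X Y) γ * T.pull (snd X Y) a.1 * c) = 0 := by
  have h2 : T.pull (fst X Y) γ * T.pull (snd X Y) a.1 * c =
      T.pull (snd X Y) a.1 * (T.pull (fst X Y) γ * c) := by ring
  rw [h2, ← deg_push T (snd X Y), T.projection]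
  refine ha _ ?_
  refine T.gr_congr ?_ (T.push_mem (snd X Y) _ _ (T.mul_mem (T.pull_mem _ _ _ hγ) hc))
  rw [T.dim_tensor]
  omega

end RSV

/-- One codimension: `X` has a numerically nontrivial cycle of codimension `i`. -/
theorem RSV.main (T : CHM.ChowTheory.{v, u, w} V) (X : V)
    (hX : T.num (X ⊗ X) (T.dim X) = ⊥) (i : ℤ) (h1 : T.num X i ≠ ⊤) : T.num X i = ⊥ := by
  obtain ⟨β, hβ⟩ : ∃ β : T.gr X i, β ∉ T.num X i := by
    by_contra hne
    push Not at hne
    exact h1 (eq_top_iff.2 fun x _ => hne x)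
  obtain ⟨γ, hγ, hdeg⟩ : ∃ γ ∈ T.gr X (T.dim X - i), T.deg (β.1 * γ) ≠ 0 := by
    by_contra hne
    push Not at hne
    exact hβ hne
  rw [eq_bot_iff]
  intro a ha
  have hmem : T.pull (fst X X) γ * T.pull (snd X X) a.1 ∈ T.gr (X ⊗ X) (T.dim X) := by
    refine T.gr_congr ?_ (T.mul_mem (T.pull_mem (fst X X) _ _ hγ) (T.pull_mem (snd X X) _ _ a.2))
    ring
  have hnum : (⟨_, hmem⟩ : T.gr (X ⊗ X) (T.dim X)) ∈ T.num (X ⊗ X) (T.dim X) := by
    intro c hc
    refine RSV.times_deg T hγ a ha hc ?_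
    rw [T.dim_tensor]
    ring
  rw [hX, Submodule.mem_bot] at hnum
  have h0 := congrArg Subtype.val hnum
  exact (Submodule.mem_bot ℚ).2 (Subtype.ext (RSV.zero_of_times T β.1 γ a.1 hdeg h0))

theorem t_RSV (T : CHM.ChowTheory.{v, u, w} V) : S_RSV T := by
  intro X hX i hi
  refine RSV.main T X hX i fun h => ?_
  have : Subsingleton (T.gr X i ⧸ T.num X i) := by
    rw [h]
    infer_instance
  rw [rank_subsingleton', map_zero] at hi
  exact hi rfl

/-- RCW, in the form needed: only the varieties with a numerically nontrivial cycle matter. -/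
def S_RCW2 (T : CHM.ChowTheory.{v, u, w} V) : Prop :=
  (∀ X : V, (∃ i : ℤ, T.num X i ≠ ⊤) → T.num (X ⊗ X) (T.dim X) = ⊥) →
    ∀ (X : V) (i : ℤ), T.num X i = ⊥

end

end MotP.HL
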