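import Pool.Agent.HL.ChsDefs

/-!
# The ranks of Chow groups: definitions (MP_6c4da4_ag)
-/

set_option autoImplicit false

open CategoryTheory MonoidalCategory CartesianMonoidalCategory Limits

universe v u w x

namespace CHS

variable {V : Type u} [Category.{v} V] [CartesianMonoidalCategory V]

/-- `RR X r = R_r` is the dimension of `CH^(r d)(X^r × X^r)`, `d = dim X`, and `0` if this
dimension is infinite. -/
noncomputable def ChowTheory.RR (T : ChowTheory.{v, u, w} V) (X : V) (r : ℕ) : ℕ :=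
  Cardinal.toNat (T.rank (T.cyc (pow X r ⊗ pow X r) (T.dim (pow X r))))

/-- The sequence `a` converges to `L`, `L` is `0` or `1 / n` for a natural number `n ≥ 1`, and
`L ≤ a r` for all `r`. -/
def Quantized (a : ℕ → ℝ) (L : ℝ) : Prop :=
  (L = 0 ∨ ∃ n : ℕ, 0 < n ∧ L = 1 / n) ∧ Filter.Tendsto a Filter.atTop (nhds L) ∧ ∀ r, L ≤ a r

/-- There is a constant `c > 1 / 2` with `c ≤ a r` for infinitely many `r`. -/
def MoreThanHalf (a : ℕ → ℝ) : Prop := ∃ c : ℝ, 1 / 2 < c ∧ ∀ k : ℕ, ∃ r, k ≤ r ∧ c ≤ a r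

end CHS
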