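import Pool.Agent.HL.Qhs
import Pool.Agent.HL.P_RSV
import Pool.Agent.HL.RhsDefs
import Pool.Agent.MotE.Main

/-!
# Quantization and the ranks of Chow groups (MP_6c4da4_ag): assembly
-/

set_option autoImplicit false

open CategoryTheory MonoidalCategory CartesianMonoidalCategory Limits Filter

universe v u w x

namespace CHS

variable {V : Type u} [Category.{v} V] [CartesianMonoidalCategory V]

/-! ### Quantized sequences -/

theorem Quantized.eq_one {a : ℕ → ℝ} {L : ℝ} (h : Quantized a L) (hL : 1 / 2 < L) : L = 1 := by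
  rcases h.1 with h2 | ⟨k, hk, h2⟩
  · rw [h2] at hL
    norm_num at hL
  · have h8 : (0 : ℝ) < k := by exact_mod_cast hk
    have h9 : (1 : ℝ) / 2 < 1 / k := by rwa [← h2]
    have h10 : (k : ℝ) < 2 := (one_div_lt_one_div (by norm_num) h8).1 h9
    have h11 : k < 2 := by exact_mod_cast h10
    have h12 : k = 1 := by omega
    rw [h2, h12]
    norm_num

theorem Quantized.of_half {a : ℕ → ℝ} {L : ℝ} (h : Quantized a L) (ha : MoreThanHalf a) :
    1 / 2 < L := by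
  obtain ⟨c, hc, hk⟩ := ha
  refine lt_of_lt_of_le hc ?_
  by_contra hlt
  push Not at hlt
  obtain ⟨N, hN⟩ := eventually_atTop.1 (h.2.1.eventually_lt_const hlt)
  obtain ⟨r, hr, hr2⟩ := hk N
  exact absurd (hN r hr) (not_lt.2 hr2)

theorem moreThanHalf_of_one {a : ℕ → ℝ} (h : ∀ r, a r = 1) : MoreThanHalf a :=
  ⟨1, by norm_num, fun k => ⟨k, le_rfl, (h k).ge⟩⟩

/-! ### Numerically trivial cycles -/

theorem ChowTheory.RR_eq (T : ChowTheory.{v, u, w} V) (X : V) (r : ℕ) :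
    T.RR X r = Module.finrank ℚ (T.toOld.gr (pow X r ⊗ pow X r) (r * T.dim X)) := by
  unfold ChowTheory.RR
  rw [T.rank_cyc, T.dim_pow]
  rfl

theorem ChowTheory.zero_of_num {T : ChowTheory.{v, u, w} V} {X : V} {i : ℤ}
    (h : T.toOld.num X i = ⊥) {a : T.CH X} (ha : a ∈ T.cyc X i) (hn : T.NumTrivial a) : a = 0 := by
  have h1 := (T.numTrivial_num ⟨a, ha⟩).2 hn
  rw [h, Submodule.mem_bot] at h1
  exact congrArg Subtype.val h1

theorem ChowTheory.num_of_zero {T : ChowTheory.{v, u, w} V} {X : V} (i : ℤ)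
    (h : ∀ a : T.CH X, T.NumTrivial a → a = 0) : T.toOld.num X i = ⊥ := by
  rw [eq_bot_iff]
  intro a ha
  exact (Submodule.mem_bot ℚ).2 (Subtype.ext (h a.1 ((T.numTrivial_num a).1 ha)))

theorem ChowTheory.num_ne_top {T : ChowTheory.{v, u, w} V} {X : V} {i : ℤ} (h : T.N X i ≠ 0) :
    T.toOld.num X i ≠ ⊤ := by
  intro h1
  have : Subsingleton (T.toOld.gr X i ⧸ T.toOld.num X i) := by
    rw [h1]
    infer_instance
  rw [T.N_eq, rank_subsingleton', map_zero] at h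
  exact h rfl

theorem ChowTheory.zero_of_iso {T : ChowTheory.{v, u, w} V} {X Y : V} (e : X ≅ Y)
    (a : T.CH (X ⊗ X)) (h : T.pull (e.inv ⊗ₘ e.inv) a = 0) : a = 0 := by
  have h6 : T.pull (e.hom ⊗ₘ e.hom) (T.pull (e.inv ⊗ₘ e.inv) a) = a := by
    rw [← T.pull_comp]
    have h7 : (e.hom ⊗ₘ e.hom) ≫ (e.inv ⊗ₘ e.inv) = 𝟙 (X ⊗ X) := by
      rw [MonoidalCategory.tensorHom_comp_tensorHom, e.hom_inv_id]
      exact MonoidalCategory.id_tensorHom_id _ _
    rw [h7, T.pull_id]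
  rw [← h6, h]
  exact map_zero (T.toOld.pull (e.hom ⊗ₘ e.hom))

/-- numerically trivial cycles on `X × X` and on an isomorphic variety -/
theorem ChowTheory.num_iso {T : ChowTheory.{v, u, w} V} {X Y : V} (e : X ≅ Y) {i : ℤ}
    (h : T.toOld.num (Y ⊗ Y) i = ⊥) : T.toOld.num (X ⊗ X) i = ⊥ := by
  rw [eq_bot_iff]
  intro a ha
  have h1 : T.NumTrivial a.1 := (T.numTrivial_num a).1 ha
  have h2 : T.NumTrivial (T.pull (e.inv ⊗ₘ e.inv) a.1) := by
    intro b
    have h3 : a.1 ∈ MotP.HL.nt T.toOld (X ⊗ X) := by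
      intro b
      exact (T.old_deg _).trans (h1 b)
    have h4 := MotP.HL.pull_nt T.toOld (e.inv ⊗ₘ e.inv) h3 b
    exact (T.old_deg _).symm.trans h4
  have h5 : T.pull (e.inv ⊗ₘ e.inv) a.1 = 0 :=
    ChowTheory.zero_of_num h (T.pull_mem _ _ _ a.2) h2
  exact (Submodule.mem_bot ℚ).2 (Subtype.ext (ChowTheory.zero_of_iso e a.1 h5))

/-- if numerically trivial cycles are zero, the two ranks are equal -/
theorem ChowTheory.RR_eq_NN {T : ChowTheory.{v, u, w} V}
    (h : ∀ (X : V) (a : T.CH X), T.NumTrivial a → a = 0) (X : V) (r : ℕ) :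
    T.RR X r = T.NN X r := by
  unfold ChowTheory.RR ChowTheory.NN
  rw [T.N_eq, T.rank_cyc, ChowTheory.num_of_zero _ (h _)]
  exact congrArg Cardinal.toNat (Submodule.quotEquivOfEqBot _ rfl).rank_eq.symm

namespace Cohomology

variable {T : ChowTheory.{v, u, w} V} (K : Cohomology.{v, u, w, x} T)

/-- abelian categories of Chow motives and the strong Tate conjecture: rational and numerical
equivalence agree -/
theorem numTrivial_of_abelian (hH : MotP.HL.S_NHA.{v, u, w, x} T.toOld) (hA : IsAbelian (Mot T))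
    (hT : ∀ (X : V) (i : ℤ), T.N X i = K.M X i) (X : V) (a : T.CH X) (ha : T.NumTrivial a) :
    a = 0 := by
  refine T.eq_zero_of_numTrivial (fun i a ha hn => ?_) a ha
  obtain ⟨-, g2, -⟩ := K.growth
  have h1 := (g2 hA).1 X (T.dim X - i)
  rw [sub_sub_cancel] at h1
  have h2 := (K.N_le hH X (T.dim X - i)).1
  have h3 : T.numRank (T.cyc X (T.dim X - i)) ≤ T.rank (T.cyc X (T.dim X - i)) := by
    rw [T.numRank_cyc, T.rank_cyc]
    exact rank_quotient_le _
  have h4 : ((T.N X (T.dim X - i) : ℕ) : Cardinal.{w}) +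
      T.rank {b | b ∈ T.cyc X i ∧ T.NumTrivial b} ≤ (T.N X (T.dim X - i) : ℕ) := by
    have h5 : (K.mult (Mot.h T X) ((T.q : ℂ) ^ (T.dim X - i)) : ℕ) = T.N X (T.dim X - i) :=
      (hT X (T.dim X - i)).symm
    rw [h5] at h1
    refine le_trans ?_ h1
    rw [← h2]
    gcongr
  have h6 : T.rank {b | b ∈ T.cyc X i ∧ T.NumTrivial b} = 0 := by
    by_contra hne
    have h7 : (T.rank {b | b ∈ T.cyc X i ∧ T.NumTrivial b}) < Cardinal.aleph0 := by
      refine lt_of_le_of_lt (le_trans (self_le_add_left _ _) h4) Cardinal.natCast_lt_aleph0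
    obtain ⟨n, hn⟩ := Cardinal.lt_aleph0.1 h7
    rw [hn] at h4 hne
    have h8 : T.N X (T.dim X - i) + n ≤ T.N X (T.dim X - i) := by exact_mod_cast h4
    have h9 : n ≠ 0 := by
      intro h0
      exact hne (by rw [h0, Nat.cast_zero])
    omega
  rw [T.rank_num] at h6
  have h7 : Subsingleton (T.toOld.num X i) := rank_zero_iff.1 h6
  have h8 : (⟨a, ha⟩ : T.toOld.gr X i) ∈ T.toOld.num X i := (T.numTrivial_num _).2 hn
  have h9 := congrArg (fun z : T.toOld.num X i => z.1.1) (h7.elim ⟨_, h8⟩ 0)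
  exact h9

/-- The ratio of the numerical rank and the rank. -/
theorem quantumR (hR : MotP.HL.S_RQV.{v, u, w, x} T.toOld) (X : V) (hX : K.B X ≠ 0) :
    ∃ L : ℝ, Quantized (fun r => (T.NN X r : ℝ) / T.RR X r) L ∧
      (1 / 2 < L → ∀ r, T.toOld.num (pow X r ⊗ pow X r) (T.dim (pow X r)) = ⊥) := by
  obtain ⟨L, h1, h2, h3, h4⟩ := hR T.frob K.toOld X (T.NN X)
    (fun r => by unfold ChowTheory.NN; rw [T.N_eq, T.dim_pow, ← pow_old]; rfl)
    (Nat.pos_of_ne_zero hX)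
  have e : ∀ r, Module.finrank ℚ (T.toOld.gr (CHM.pow X r ⊗ CHM.pow X r) (r * T.toOld.dim X)) =
      T.RR X r := by
    intro r
    rw [T.RR_eq, pow_old]
    rfl
  simp only [e] at h2 h3
  refine ⟨L, ⟨h1, h2, h3⟩, fun hL r => ?_⟩
  have h5 := h4 (Quantized.eq_one ⟨h1, h2, h3⟩ hL) r
  rw [T.dim_pow, ← pow_old]
  exact h5

/-- THE THEOREM. -/
theorem ranks (hH : MotP.HL.S_NHA.{v, u, w, x} T.toOld)
    (hX : MotP.HL.S_NFX.{v, u, w, x} T.toOld) (hY : MotP.HL.S_NFY.{v, u, w, x} T.toOld)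
    (hZ : MotP.HL.S_NFZ.{v, u, w, x} T.toOld) (hW : MotP.HL.S_NHZ.{v, u, w, x} T.toOld)
    (hQ : MotP.HL.S_NQU.{v, u, w, x} T.toOld) (hR : MotP.HL.S_RQV.{v, u, w, x} T.toOld)
    (hC : MotP.HL.S_RCW2 T.toOld) :
    (∀ (X : V) (i : ℤ), T.numRank (T.cyc X i) = (T.N X i : ℕ) ∧ T.N X i ≤ K.M X i) ∧
    (∀ X : V, K.B X ≠ 0 → ∃ L L' : ℝ,
      Quantized (fun r => (T.NN X r : ℝ) / K.MM X r) L ∧
      Quantized (fun r => (T.NN X r : ℝ) / T.RR X r) L' ∧
      (1 / 2 < L → ∀ (r : ℕ) (i : ℤ), T.N (pow X r) i ≠ 0 → T.N (pow X r) i = K.M (pow X r) i) ∧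
      (1 / 2 < L' → ∀ (r : ℕ) (i : ℤ), T.N (pow X r) i ≠ 0 → ∀ a ∈ T.cyc (pow X r) i,
        T.NumTrivial a → a = 0)) ∧
    ((∀ (X : V) (a : T.CH X), T.NumTrivial a → a = 0) ↔
      ∀ X : V, K.B X ≠ 0 → MoreThanHalf fun r => (T.NN X r : ℝ) / T.RR X r) ∧
    ((∀ (X : V) (a : T.CH X), T.NumTrivial a → a = 0) → IsAbelian (Mot T)) ∧
    ((IsAbelian (Mot T) ∧ ∀ (X : V) (i : ℤ), T.N X i = K.M X i) ↔
      ∀ X : V, K.B X ≠ 0 → MoreThanHalf (fun r => (T.NN X r : ℝ) / K.MM X r) ∧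
        MoreThanHalf fun r => (T.NN X r : ℝ) / T.RR X r) := by
  have hle := fun X i => K.N_le hH X i
  have hB : ∀ (X : V) (i : ℤ), K.M X i ≤ K.B X := by
    intro X i
    rw [K.M_eq]
    exact K.toOld.mult_le X i
  have hpos : ∀ (X : V), K.B X ≠ 0 → ∀ r, 0 < T.NN X r := fun X hX r => ((K.quantum hQ X hX).1 r).1
  have hLq : ∀ X : V, K.B X ≠ 0 → ∃ L : ℝ, Quantized (fun r => (T.NN X r : ℝ) / K.MM X r) L ∧
      (1 / 2 < L → ∀ r, T.NN X r = K.MM X r) := by
    intro X hX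
    obtain ⟨h1, L, h2, h3, h4⟩ := K.quantum hQ X hX
    refine ⟨L, ⟨h2, h3, h4⟩, fun hL r => ?_⟩
    have h5 : L = 1 := Quantized.eq_one ⟨h2, h3, h4⟩ hL
    have h6 := h4 r
    have h7 : (0 : ℝ) < K.MM X r := by
      have := (h1 r).1.trans_le (h1 r).2
      exact_mod_cast this
    rw [h5, le_div_iff₀ h7, one_mul] at h6
    have h8 : K.MM X r ≤ T.NN X r := by exact_mod_cast h6
    exact le_antisymm (h1 r).2 h8
  have hRn : (∀ X : V, K.B X ≠ 0 → MoreThanHalf fun r => (T.NN X r : ℝ) / T.RR X r) →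
      ∀ (X : V) (a : T.CH X), T.NumTrivial a → a = 0 := by
    intro h X a ha
    have h1 : ∀ (X : V) (i : ℤ), T.toOld.num X i = ⊥ := by
      refine hC fun X hX => ?_
      obtain ⟨i, hi⟩ := hX
      have hBX : K.B X ≠ 0 := by
        intro h0
        have h2 : T.N X i = 0 := by
          have h3 := (hle X i).2
          have h4 := hB X i
          omega
        have h3 := (hle X i).1
        rw [h2, Nat.cast_zero, T.numRank_cyc] at h3
        have h4 : Subsingleton (T.toOld.gr X i ⧸ T.toOld.num X i) := rank_zero_iff.1 h3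
        exact hi (eq_top_iff.2 fun x _ =>
          (Submodule.Quotient.mk_eq_zero _).1 (Subsingleton.elim _ _))
      obtain ⟨L, hL, hL2⟩ := K.quantumR hR X hBX
      have h4 := hL2 (hL.of_half (h X hBX)) 1
      have e : X ≅ pow X 1 := (λ_ X).symm
      have h5 := ChowTheory.num_iso e h4
      have h6 : T.dim (pow X 1) = T.toOld.dim X := by
        rw [T.dim_pow, Nat.cast_one, one_mul]
        rfl
      rwa [h6] at h5
    exact T.eq_zero_of_numTrivial (fun i a ha hn => ChowTheory.zero_of_num (h1 X i) ha hn) a ha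
  have hRb : (∀ (X : V) (a : T.CH X), T.NumTrivial a → a = 0) →
      ∀ X : V, K.B X ≠ 0 → MoreThanHalf fun r => (T.NN X r : ℝ) / T.RR X r := by
    intro h X hX
    refine moreThanHalf_of_one fun r => ?_
    rw [ChowTheory.RR_eq_NN h]
    have h1 : (0 : ℝ) < T.NN X r := by exact_mod_cast hpos X hX r
    exact div_self h1.ne'
  refine ⟨hle, fun X hX => ?_, ⟨hRb, hRn⟩, fun h => K.abelian_of_zero h, ?_, ?_⟩
  · obtain ⟨L, hL, hL2⟩ := hLq X hX
    obtain ⟨L', hL', hL2'⟩ := K.quantumR hR X hX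
    refine ⟨L, L', hL, hL', fun h r i hi => K.tate_of_eq hY X r (hL2 h r) i hi,
      fun h r i hi a ha hn => ?_⟩
    exact ChowTheory.zero_of_num (MotP.HL.RSV.main T.toOld (pow X r) (hL2' h r) i
      (ChowTheory.num_ne_top hi)) ha hn
  · rintro ⟨hA, hT⟩ X hX
    refine ⟨moreThanHalf_of_one fun r => ?_, hRb (K.numTrivial_of_abelian hH hA hT) X hX⟩
    have h1 : (0 : ℝ) < T.NN X r := by exact_mod_cast hpos X hX r
    have h2 : K.MM X r = T.NN X r := (hT _ _).symm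
    rw [h2]
    exact div_self h1.ne'
  · intro h
    refine ⟨K.abelian_of_zero (hRn fun X hX => (h X hX).2), fun X i => ?_⟩
    rw [T.N_eq, K.M_eq]
    refine hW T.frob K.toOld (fun Y => ?_) X i
    by_cases hY0 : K.B Y = 0
    · have h1 := hB (Y ⊗ Y) (T.dim Y)
      have h2 := (hle (Y ⊗ Y) (T.dim Y)).2
      rw [K.B_tensor, hY0] at h1
      have h3 : T.N (Y ⊗ Y) (T.dim Y) = K.M (Y ⊗ Y) (T.dim Y) := by omega
      rwa [T.N_eq, K.M_eq] at h3
    · obtain ⟨L, hL, hL2⟩ := hLq Y hY0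
      obtain ⟨c, hc, hk⟩ := (h Y hY0).1
      have hMM : ∀ r, (0 : ℝ) < K.MM Y r := by
        intro r
        have h1 := (K.quantum hQ Y hY0).1 r
        exact_mod_cast h1.1.trans_le h1.2
      obtain ⟨r, hr⟩ := K.large_of_half hH hZ Y c hc fun k => by
        obtain ⟨r, hr, hr2⟩ := hk k
        exact ⟨r, hr, (le_div_iff₀ (hMM r)).1 hr2⟩
      have h1 := (K.tate_of_large hX hY Y r hr).1
      rwa [T.N_eq, K.M_eq] at h1

end Cohomology

end CHS
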