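import Pool.Agent.HL.AllQ
import Pool.Agent.HL.P_LVS
import Pool.Agent.HL.P_LIO
import Pool.Agent.HL.P_DVD
import Pool.Agent.HL.P_LDV
import Pool.Agent.HL.P_RLO
import Pool.Agent.HL.P_RQU
import Pool.Agent.HL.P_RNI
import Pool.Agent.HL.P_RED
import Pool.Agent.HL.P_RNL
import Pool.Agent.HL.P_RQV
import Pool.Agent.HL.P_RCW2
import Pool.Agent.HL.Rhs

/-!
# Rational and numerical equivalence, quantization: composition of the modules
-/

set_option autoImplicit false

open CategoryTheory MonoidalCategory CartesianMonoidalCategory Limits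

universe v₁ u₁ v u w x

namespace MotP.HL

theorem a_LVS : S_LVS.{v₁, u₁, v, u} := t_LVS t_LSM

theorem a_LIO : S_LIO.{v₁, u₁, v, u} := t_LIO t_LSM

theorem a_LDV : S_LDV.{v₁, u₁, v, u} := t_LDV t_DVD

theorem a_RLO : S_RLO.{v₁, u₁, v, u} := t_RLO t_LSM a_LVS a_LIO

theorem a_RQU : S_RQU.{v₁, u₁, v, u} := t_RQU t_LSM a_LDV a_RLO

section

variable {V : Type u} [Category.{v} V] [CartesianMonoidalCategory V]
  (T : CHM.ChowTheory.{v, u, w} V)

theorem a_RNL : S_RNL T := t_RNL T (t_RED T)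

theorem a_RQV : S_RQV.{v, u, w, x} T := t_RQV T a_RQU (t_RNI _) (t_RED T) (a_RNL T)

end

end MotP.HL
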