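import Pool.Agent.HL.WeSt

/-!
# The half law, module PTS: nonsingular matrices of values
-/

set_option autoImplicit false

universe u w

namespace MotP.HL

theorem t_PTS : S_PTS.{u, w} := by
  classical
  intro F _ κ r f hf
  -- the columns
  set col : κ → (Fin r → F) := fun k i => f i k with hcol
  have hspan : Submodule.span F (Set.range col) = ⊤ := by
    by_contra hne
    obtain ⟨φ, hφ0, hφ⟩ := Submodule.exists_le_ker_of_lt_top _ (lt_top_iff_ne_top.mpr hne)
    have h1 : ∀ k, ∑ i, φ (Pi.single i 1) * f i k = 0 := by
      intro k
      have h2 : φ (col k) = 0 := hφ (Submodule.subset_span ⟨k, rfl⟩)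
      rw [LinearMap.pi_apply_eq_sum_univ φ (col k)] at h2
      rw [← h2]
      apply Finset.sum_congr rfl
      intro i _
      rw [smul_eq_mul, mul_comm]
      congr 2
      funext j
      simp [Pi.single_apply, eq_comm]
    have h3 : ∑ i, φ (Pi.single i 1) • f i = 0 := by
      funext k
      rw [Finset.sum_apply]
      exact h1 k
    have h4 := Fintype.linearIndependent_iff.mp hf _ h3
    apply hφ0
    apply LinearMap.pi_ext'
    intro i
    ext
    simpa using h4 i
  obtain ⟨κ', a, -, hsp, hli⟩ := exists_linearIndependent' F col
  rw [hspan] at hsp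
  let B : Module.Basis κ' F (Fin r → F) := Module.Basis.mk hli (by rw [hsp])
  have hfin : Finite κ' := Module.Finite.finite_basis B
  have hft : Fintype κ' := Fintype.ofFinite κ'
  have hcard : Fintype.card κ' = r := by
    rw [← Module.finrank_eq_card_basis B, Module.finrank_fin_fun]
  let e : Fin r ≃ κ' := (Fintype.equivFinOfCardEq hcard).symm
  refine ⟨fun j => a (e j), ?_⟩
  have h5 : LinearIndependent F (fun j : Fin r => col (a (e j))) :=
    hli.comp _ e.injective
  have h6 : LinearIndependent F (Matrix.of fun (j i : Fin r) => f i (a (e j))).row := h5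
  rw [Matrix.linearIndependent_rows_iff_isUnit, Matrix.isUnit_iff_isUnit_det] at h6
  have h7 := h6.ne_zero
  rw [← Matrix.det_transpose] at h7
  exact h7

end MotP.HL
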