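import Pool.Agent.HL.WeSt
import Pool.Agent.CHS.Num

/-!
# WNR: the numerical rank as the size of nonsingular matrices of intersection numbers
-/

set_option autoImplicit false

open CategoryTheory MonoidalCategory CartesianMonoidalCategory Limits Polynomial

universe v u w

namespace MotP.HL

namespace WNR

/-- The rank of the span of functions. -/
theorem rank_iff (h : S_PTS.{0, 0}) (ι κ : Type) (f : ι → κ → ℚ) (r : ℕ) :
    (∃ (a : Fin r → ι) (b : Fin r → κ), (Matrix.of fun i j => f (a i) (b j)).det ≠ 0) ↔
      (r : Cardinal.{0}) ≤ Module.rank ℚ (Submodule.span ℚ (Set.range f)) := by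
  constructor
  · rintro ⟨a, b, hdet⟩
    have h1 := Matrix.linearIndependent_rows_of_det_ne_zero hdet
    have h2 : LinearIndependent ℚ (fun i => f (a i)) :=
      LinearIndependent.of_comp (LinearMap.funLeft ℚ ℚ b) h1
    have h3 : LinearIndependent ℚ
        (fun i => (⟨f (a i), Submodule.subset_span ⟨a i, rfl⟩⟩ : Submodule.span ℚ (Set.range f))) :=
      LinearIndependent.of_comp (Submodule.subtype _) h2
    have h4 := h3.cardinal_le_rank
    rwa [Cardinal.mk_fin] at h4
  · intro hr
    obtain ⟨σ, pre, _, hs2, hs3⟩ := exists_linearIndependent' ℚ f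
    have h5 : Module.rank ℚ (Submodule.span ℚ (Set.range f)) = Cardinal.mk σ := by
      rw [← hs2, rank_span hs3]
      exact Cardinal.mk_range_eq _ hs3.injective
    rw [h5, ← Cardinal.mk_fin] at hr
    obtain ⟨e⟩ := (Cardinal.le_def _ _).1 hr
    have h6 : LinearIndependent ℚ (fun i => f (pre (e i))) := hs3.comp e e.injective
    obtain ⟨b, hb⟩ := h ℚ κ r _ h6
    exact ⟨fun i => pre (e i), b, hb⟩

end WNR

theorem t_WNR : M_WNR.{v, u, w} := by
  intro hP V _ _ T X n m hnm ι κ α β hα hβ hsα hsβ D hD r
  let Φ : T.CH X →ₗ[ℚ] (T.CH X → ℚ) :=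
    { toFun := fun a b => T.deg (a * b)
      map_add' := fun a a' => by
        funext b
        rw [add_mul, T.deg_add]
        rfl
      map_smul' := fun c a => by
        funext b
        rw [smul_mul_assoc, T.deg_smul]
        rfl }
  let R : (T.CH X → ℚ) →ₗ[ℚ] (κ → ℚ) := LinearMap.funLeft ℚ ℚ β
  let f : ι → κ → ℚ := fun z g => (D z g : ℚ)
  have hspan : Submodule.span ℚ ((fun a b : T.CH X => T.deg (a * b)) '' T.cyc X n) =
      (T.gr X n).map Φ := by
    have h1 : ((fun a b : T.CH X => T.deg (a * b)) '' T.cyc X n) =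
        (((T.gr X n).map Φ : Submodule ℚ (T.CH X → ℚ)) : Set (T.CH X → ℚ)) := by
      rw [Submodule.map_coe]
      rfl
    rw [h1, Submodule.span_eq]
  have hgr : T.gr X n = Submodule.span ℚ (Set.range α) := by
    refine le_antisymm (fun a ha => hsα a ha) ?_
    rw [Submodule.span_le]
    rintro _ ⟨z, rfl⟩
    exact hα z
  -- the restriction to the cycles `β g` is injective
  have hinj : Function.Injective (R.domRestrict ((T.gr X n).map Φ)) := by
    rw [← LinearMap.ker_eq_bot, LinearMap.ker_eq_bot']
    rintro ⟨x, hx⟩ h0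
    obtain ⟨c, hc, rfl⟩ := hx
    have h1 : ∀ g, T.deg (c * β g) = 0 := fun g => congrFun h0 g
    have h2 : ∀ b ∈ Submodule.span ℚ (Set.range β), T.deg (c * b) = 0 := by
      intro b hb
      induction hb using Submodule.span_induction with
      | mem b hb =>
        obtain ⟨g, rfl⟩ := hb
        exact h1 g
      | zero => rw [mul_zero, T.deg_zero]
      | add b b' _ _ hb hb' => rw [mul_add, T.deg_add, hb, hb', add_zero]
      | smul q b _ hb => rw [mul_smul_comm, T.deg_smul, hb, mul_zero]
    have h3 : T.NumTrivial c := (T.numTrivial_iff (i := n) hc).2 fun b hb => h2 b (hsβ b (by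
      have h4 : T.dim X - n = m := by omega
      rwa [h4] at hb))
    apply Subtype.ext
    funext b
    exact h3 b
  have hmap : LinearMap.range (R.domRestrict ((T.gr X n).map Φ)) =
      Submodule.span ℚ (Set.range f) := by
    rw [LinearMap.range_domRestrict, ← Submodule.map_comp, hgr, Submodule.map_span,
      ← Set.range_comp]
    congr 1
    refine congrArg Set.range (funext fun z => funext fun g => ?_)
    exact hD z g
  have hrank := (LinearEquiv.ofInjective _ hinj).lift_rank_eq
  rw [hmap] at hrank
  have hdet : ∀ (a : Fin r → ι) (b : Fin r → κ),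
      (Matrix.of fun i j => D (a i) (b j)).det ≠ 0 ↔
        (Matrix.of fun i j => f (a i) (b j)).det ≠ 0 := by
    intro a b
    have h1 : (Matrix.of fun i j => f (a i) (b j)) =
        (Matrix.of fun i j => D (a i) (b j)).map (Int.castRingHom ℚ) := by
      ext i j
      rfl
    rw [h1, ← RingHom.mapMatrix_apply, ← RingHom.map_det]
    simp
  simp only [hdet]
  rw [WNR.rank_iff hP ι κ f r]
  unfold CHS.ChowTheory.numRank
  rw [hspan, ← Cardinal.nat_le_lift_iff.{0, w}, ← hrank, Cardinal.nat_le_lift_iff]

end MotP.HL
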