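import Pool.Agent.HL.WeSt

/-!
# The half law and Weil-etale motivic cohomology: the Tate conjecture and semisimplicity from
nonsingular matrices of intersection numbers (module WTS)
-/

set_option autoImplicit false

open CategoryTheory MonoidalCategory CartesianMonoidalCategory Limits Polynomial

noncomputable section

namespace MotP.HL

open WE WE.PRE in
/-- The proof for the structure `WE.Theory`. -/
theorem wts_old (X : WE.Theory) (ℓ : Nat.Primes) (n m : ℕ) (hd : n + m = X.d) (r : ℕ)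
    (hr : r = (X.P n (2 * (n : ℤ))).rootMultiplicity 1)
    (a : Fin r → (X.W n).H (2 * (n : ℤ))) (b : Fin r → (X.W m).H (2 * (m : ℤ)))
    (hdet : (Matrix.of fun i j => X.pair n m hd (eW X n (a i)) (b j)).det ≠ 0) :
    X.TC ℓ n ∧ X.SS ℓ n := by
  obtain ⟨Δ, hΔ⟩ : ∃ Δ : ℤ, Δ = (Matrix.of fun i j => X.pair n m hd (eW X n (a i)) (b j)).det :=
    ⟨_, rfl⟩
  have hΔ0 : Δ ≠ 0 := by rw [hΔ]; exact hdet
  have hrk : Module.finrank ℤ_[ℓ] ((X.E ℓ n).H (2 * (n : ℤ))) ≤ r := by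
    rw [hr]
    exact rank_even X rk ℓ n _ rfl
  let φ' : Fin r → ((X.E ℓ n).H (2 * (n : ℤ) + 1) →ₗ[ℤ_[ℓ]] ℤ_[ℓ]) := fun k =>
    (X.pairE ℓ n m hd).flip (X.cH ℓ m _ (b k))
  let φ : Fin r → ((X.E ℓ n).H (2 * (n : ℤ)) →ₗ[ℤ_[ℓ]] ℤ_[ℓ]) := fun k => (φ' k).comp (eE X ℓ n)
  have hφ' : ∀ (k : Fin r) (x : (X.W n).H (2 * (n : ℤ) + 1)),
      φ' k (X.cH ℓ n _ x) = ((X.pair n m hd x (b k) : ℤ) : ℤ_[ℓ]) := by
    intro k x
    simp [φ', X.pair_cH]
  have hφ : ∀ (k : Fin r) (x : (X.W n).H (2 * (n : ℤ))),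
      φ k (X.cH ℓ n _ x) = ((X.pair n m hd (eW X n x) (b k) : ℤ) : ℤ_[ℓ]) := by
    intro k x
    rw [← hφ', ← eE_cH]
    rfl
  have hdc : (Matrix.of fun j k : Fin r =>
      ((X.pair n m hd (eW X n (a j)) (b k) : ℤ) : ℤ_[ℓ])).det = (Δ : ℤ_[ℓ]) := by
    rw [hΔ]
    exact ((Int.castRingHom ℤ_[ℓ]).map_det
      (Matrix.of fun j k => X.pair n m hd (eW X n (a j)) (b k))).symm
  -- every class has a multiple in the span
  have hloc : ∀ x : (X.E ℓ n).H (2 * (n : ℤ)),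
      ∃ c : Fin r → ℤ_[ℓ], Tors (Δ • x - ∑ j, c j • X.cH ℓ n _ (a j)) := by
    intro x
    refine loc ℓ _ r (fun j => X.cH ℓ n _ (a j)) φ Δ hΔ0 ?_ hrk x
    rw [← hdc]
    congr 1
    ext j k
    simp only [Matrix.of_apply]
    rw [hφ]
  -- independence
  have hco : ∀ x : Fin r → ℤ_[ℓ], Tors (∑ j, x j • X.cH ℓ n _ (eW X n (a j))) → x = 0 := by
    intro x h
    have h1 : ∀ k, ∑ j, x j * ((X.pair n m hd (eW X n (a j)) (b k) : ℤ) : ℤ_[ℓ]) = 0 := by
      intro k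
      have h2 := (h.lmap (φ' k)).eq_zero
      rw [map_sum] at h2
      rw [← h2]
      refine Finset.sum_congr rfl fun j _ => ?_
      rw [map_smul, hφ', smul_eq_mul]
    have h3 : (Matrix.of fun j k : Fin r =>
        ((X.pair n m hd (eW X n (a j)) (b k) : ℤ) : ℤ_[ℓ])).det ≠ 0 := by
      rw [hdc]
      exact int_ne hΔ0
    refine Matrix.eq_zero_of_vecMul_eq_zero h3 ?_
    ext k
    simpa [Matrix.vecMul, dotProduct] using h1 k
  refine ⟨?_, ?_⟩
  · intro y hy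
    obtain ⟨e, he⟩ := ((X.E ℓ n).res_mem _ _).mpr hy
    obtain ⟨c, N, hN, hc⟩ := hloc e
    refine ⟨N * Δ, mul_ne_zero hN hΔ0, ?_⟩
    have h1 : (N * Δ) • y = N • ∑ j, c j • X.cC ℓ n _ ((X.W n).res _ (a j)) := by
      have h2 : N • (Δ • e - ∑ j, c j • X.cH ℓ n _ (a j)) = 0 := hc
      have h3 := congrArg ((X.E ℓ n).res (2 * (n : ℤ))) h2
      rw [map_zsmul, map_sub, map_zsmul, map_zero, he, map_sum, smul_sub, sub_eq_zero] at h3
      rw [mul_smul, h3]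
      congr 1
      refine Finset.sum_congr rfl fun j _ => ?_
      rw [map_smul, X.res_cH]
    rw [h1, ← Int.cast_smul_eq_zsmul ℤ_[ℓ]]
    refine Submodule.smul_mem _ _ (Submodule.sum_mem _ fun j _ => Submodule.smul_mem _ _ ?_)
    exact Submodule.subset_span ⟨(X.W n).res _ (a j), ((X.W n).res_mem _ _).mp ⟨_, rfl⟩, rfl⟩
  · intro z hz
    obtain ⟨e0, he0⟩ := ((X.E ℓ n).res_mem _ _).mpr hz
    obtain ⟨c, hc⟩ := hloc e0
    have h1 : eE X ℓ n e0 = 0 := by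
      change (X.E ℓ n).inc _ ((X.E ℓ n).res _ e0) = 0
      rw [he0]
      exact ((X.E ℓ n).inc_eq_zero _ _).mpr ⟨z, rfl⟩
    have h2 := hc.lmap (eE X ℓ n)
    rw [map_sub, map_zsmul, h1, smul_zero, zero_sub, map_sum] at h2
    have h3 : c = 0 := by
      apply hco
      have h4 := h2.neg
      rw [neg_neg] at h4
      convert h4 using 3 with j
      rw [map_smul, eE_cH]
    rw [h3] at hc
    simp only [Pi.zero_apply, zero_smul, Finset.sum_const_zero, sub_zero] at hc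
    rw [← he0]
    exact (Tors.of_zsmul hΔ0 hc).lmap _

/-- WTS. -/
theorem t_WTS : S_WTS := by
  intro X n m e ℓ _ r hr a b h
  exact wts_old X.old ℓ n m e r hr a b h

end MotP.HL
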