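import Pool.Agent.HL.WeSt
import Pool.Agent.WEt.Single

/-!
# The half law and Weil-etale motivic cohomology (MP_cb388a_ag): assembly
-/

set_option autoImplicit false

open CategoryTheory MonoidalCategory CartesianMonoidalCategory Limits

universe x

namespace CHS.WeilEtale

open MotP.HL

variable {V : Type} [Category.{0} V] [CartesianMonoidalCategory V] {T : ChowTheory.{0, 0, 0} V}
  {K : Cohomology.{0, 0, 0, x} T} (G : WeilEtale K)

/-- numerical rank and matrices of intersection numbers -/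
theorem rank_iff (hR : S_WNR.{0, 0, 0}) (X : G.M.V) (n m : ℕ) (e : n + m = (G.M.coh X).d)
    (r : ℕ) :
    (∃ (a : Fin r → (G.M.coh X).Cyc n) (b : Fin r → (G.M.coh X).Cyc m),
      (Matrix.of fun i j => MotP.GGap.deg ((G.M.coh X).duality n m e)
        ((((G.M.coh X).W n).res _).ap (a i)) (b j)).det ≠ 0) ↔
      (r : Cardinal) ≤ T.numRank (T.cyc (G.v X) n) := by
  refine hR V T (G.v X) n m ?_ _ _ (G.cyc X n) (G.cyc X m) (G.mem X n) (G.mem X m) (G.span X n)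
    (G.span X m) (fun z g => MotP.GGap.deg ((G.M.coh X).duality n m e)
        ((((G.M.coh X).W n).res _).ap z) g) (G.deg X n m e) r
  rw [G.dim, ← e]
  push_cast
  rfl

theorem numRank_eq_of (h0 : ∀ (X : V) (i : ℤ), T.numRank (T.cyc X i) ≤ (K.M X i : ℕ)) (X : V)
    (i : ℤ) (h : T.N X i = K.M X i) : T.numRank (T.cyc X i) = (K.M X i : ℕ) := by
  have h1 : T.numRank (T.cyc X i) < Cardinal.aleph0 :=
    lt_of_le_of_lt (h0 X i) (Cardinal.natCast_lt_aleph0)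
  rw [← h]
  exact (Cardinal.cast_toNat_of_lt_aleph0 h1).symm

/-- enough numerically independent cycles -/
theorem tate (h0 : ∀ (X : V) (i : ℤ), T.numRank (T.cyc X i) ≤ (K.M X i : ℕ)) (hT : S_WTS)
    (hR : S_WNR.{0, 0, 0}) (X : G.M.V) (n : ℕ) (hn : n ≤ (G.M.coh X).d)
    (h : T.N (G.v X) n = K.M (G.v X) n) (ℓ : Nat.Primes) (hℓ : ℓ ≠ (G.M.coh X).p) :
    (G.M.coh X).TC ℓ n ∧ (G.M.coh X).SS ℓ n := by
  obtain ⟨m, e⟩ := Nat.exists_eq_add_of_le hn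
  have e' : n + m = (G.M.coh X).d := e.symm
  have h1 := numRank_eq_of h0 (G.v X) n h
  obtain ⟨a, b, hab⟩ := (G.rank_iff hR X n m e' (K.M (G.v X) n)).2 h1.ge
  exact hT (G.M.coh X) n m e' ℓ hℓ _ (G.mult X n).symm a b hab

/-- finite generation gives enough numerically independent cycles -/
theorem eq_of_L (h0 : ∀ (X : V) (i : ℤ), T.numRank (T.cyc X i) ≤ (K.M X i : ℕ)) (hQ : S_WQN)
    (hR : S_WNR.{0, 0, 0}) (X : G.M.V) (hL : ∀ n, (G.M.coh X).L n) (n : ℕ)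
    (hn : n ≤ (G.M.coh X).d) : T.N (G.v X) n = K.M (G.v X) n := by
  obtain ⟨m, e⟩ := Nat.exists_eq_add_of_le hn
  have e' : n + m = (G.M.coh X).d := e.symm
  obtain ⟨ℓ, hℓ⟩ := WE.Fam.exists_ne (G.M.coh X).p
  obtain ⟨t1, t2, -⟩ := WE.single_fwd (G.M.coh X).old ℓ n (hL n _)
  obtain ⟨t3, -, -⟩ := WE.single_fwd (G.M.coh X).old ℓ m (hL m _)
  obtain ⟨a, b, hab⟩ := hQ (G.M.coh X) n m e' ℓ hℓ t1 t3 t2
  have h2 := (G.rank_iff hR X n m e' _).1 ⟨a, b, hab⟩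
  rw [G.mult X n] at h2
  have h3 := le_antisymm (h0 (G.v X) n) h2
  unfold ChowTheory.N
  rw [h3, Cardinal.toNat_natCast]

theorem small_motive (X : G.M.V) (r : ℕ) :
    K.Small (G.v X) r ↔ MotP.GGap.Small K.toOld.frobenius (G.M.h X) r := by
  rw [K.small_old, K.toOld.small_iff, G.motive]

theorem number_motive (X : G.M.V) : MotP.GGap.number K.toOld.frobenius (G.M.h X) =
    K.B (G.v X) := by
  rw [G.motive, K.toOld.number_eq]
  rfl

theorem rank_motive (X : G.M.V) : Module.rank ℚ (G.M.h X ⟶ G.M.h X) =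
    T.rank (T.cyc (G.v X ⊗ G.v X) (T.dim (G.v X))) := by
  rw [T.rank_cyc, G.motive]
  exact (CHM.Mot.endEquiv T.toOld (G.v X) 0).rank_eq.symm

theorem _root_.CHS.nil_end (T : ChowTheory.{0, 0, 0} V) (X : V)
    (hX : ∀ f ∈ T.cyc (X ⊗ X) (T.dim X), T.NumTrivial f → ∃ n, (T.cp f)^[n] f = 0)
    (A : CHM.Mot T.toOld) (hA : A = CHM.Mot.h T.toOld X 0) (a : End A)
    (ha : MotP.NumTrivial (a : A ⟶ A)) : IsNilpotent a := by
  subst hA
  obtain ⟨b, hb⟩ := (CHM.Mot.endEquiv T.toOld X 0).surjective a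
  rw [← hb, CHM.Mot.numTrivial_end] at ha
  obtain ⟨n, hn⟩ := hX b.1 b.2 ((T.numTrivial_num b).1 ha)
  refine ⟨n + 1, Subtype.ext ?_⟩
  have h1 : a.1 = b.1 := congrArg Subtype.val hb.symm
  rw [T.iterate_cp] at hn
  have h2 := CHM.Mot.pow_val a (n + 1)
  rw [h1] at h2
  exact h2.trans hn

/-- nilpotence of the homologically trivial correspondences -/
theorem nil_motive (X : G.M.V) (hX : ∀ f ∈ T.cyc (G.v X ⊗ G.v X) (T.dim (G.v X)),
    T.NumTrivial f → ∃ n, (T.cp f)^[n] f = 0) : G.M.old.Nil X := by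
  rintro a ⟨ℓ, hℓ, n, ha⟩
  exact CHS.nil_end T (G.v X) hX (G.M.h X) (G.motive X) a (G.M.old.triv X ℓ hℓ n a ha)

theorem pow_mem (X : G.M.V) (r : ℕ) : ∃ Z, G.v Z = pow (G.v X) r := by
  induction r with
  | zero => exact G.point
  | succ r ih =>
    obtain ⟨Z, hZ⟩ := ih
    obtain ⟨Y, hY⟩ := G.prod Z X
    refine ⟨Y, hY.trans ?_⟩
    rw [hZ]
    unfold pow
    exact (Function.iterate_succ_apply' (fun Y : V => Y ⊗ G.v X) r (𝟙_ V)).symm

/-- THE HALF LAW and finite generation of Weil-etale motivic cohomology. -/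
theorem main (hH : S_NHA.{0, 0, 0, x} T.toOld) (hX : S_NFX.{0, 0, 0, x} T.toOld)
    (hY : S_NFY.{0, 0, 0, x} T.toOld) (hZ : S_NFZ.{0, 0, 0, x} T.toOld) (hT : S_WTS)
    (hQ : S_WQN) (hR : S_WNR.{0, 0, 0}) :
    (∀ X : G.M.V, ((∃ r, K.Large (G.v X) r) ∨ ∃ c : ℝ, 1 / 2 < c ∧ ∀ k : ℕ, ∃ r, k ≤ r ∧
        c * K.MM (G.v X) r ≤ T.NN (G.v X) r) →
      ((∃ r, 0 < r ∧ K.Small (G.v X) r) ∨ ∀ f ∈ T.cyc (G.v X ⊗ G.v X) (T.dim (G.v X)),
        T.NumTrivial f → ∃ n, (T.cp f)^[n] f = 0) → ∀ n, (G.M.coh X).L n) ∧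
    [∀ (X : G.M.V) (n : ℕ), (G.M.coh X).L n,
      ∃ c : ℝ, 1 / 2 < c ∧ ∃ C : ℕ, ∀ X : G.M.V,
        c * K.M (G.v X ⊗ G.v X) (T.dim (G.v X)) ≤ T.N (G.v X ⊗ G.v X) (T.dim (G.v X)) ∧
          T.rank (T.cyc (G.v X ⊗ G.v X) (T.dim (G.v X))) ≤ (C * K.B (G.v X) ^ 2 : ℕ),
      ∀ X : G.M.V, (∃ r, K.Large (G.v X) r) ∧ ∃ r, 0 < r ∧ K.Small (G.v X) r].TFAE := by
  obtain ⟨-, -, hNil⟩ := K.growth
  have h0 : ∀ (X : V) (i : ℤ), T.numRank (T.cyc X i) ≤ (K.M X i : ℕ) := by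
    intro X i
    rw [(K.N_le hH X i).1]
    exact_mod_cast (K.N_le hH X i).2
  have hm := G.M.main
  have hone : ∀ X : G.M.V, ((∃ r, K.Large (G.v X) r) ∨ ∃ c : ℝ, 1 / 2 < c ∧
        ∀ k : ℕ, ∃ r, k ≤ r ∧ c * K.MM (G.v X) r ≤ T.NN (G.v X) r) →
      ((∃ r, 0 < r ∧ K.Small (G.v X) r) ∨ ∀ f ∈ T.cyc (G.v X ⊗ G.v X) (T.dim (G.v X)),
        T.NumTrivial f → ∃ n, (T.cp f)^[n] f = 0) → ∀ n, (G.M.coh X).L n := by
    intro X hL hSm n
    have hSm' : ∀ f ∈ T.cyc (G.v X ⊗ G.v X) (T.dim (G.v X)), T.NumTrivial f →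
        ∃ n, (T.cp f)^[n] f = 0 := by
      rcases hSm with ⟨s, hs, hSm⟩ | hSm
      · exact hNil (G.v X) s hs hSm
      · exact hSm
    have hLr : ∃ r, K.Large (G.v X) r := by
      rcases hL with hL | ⟨c, hc, hL⟩
      · exact hL
      · exact K.large_of_half hH hZ (G.v X) c hc hL
    obtain ⟨r, hL⟩ := hLr
    have hN := G.nil_motive X hSm'
    by_cases hn : n ≤ (G.M.coh X).d
    · refine G.M.old.L_of_TS MotP.GGap.t_PR0 MotP.GGap.t_NPR X hN (fun n hn => ?_) n hn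
      obtain ⟨ℓ, hℓ⟩ := WE.Fam.exists_ne G.M.p
      exact ⟨ℓ, hℓ, G.tate h0 hT hR X n hn
        ((K.tate_of_large hX hY (G.v X) r hL).2 n (G.pol X n hn)) ℓ (by rw [G.M.char]; exact hℓ)⟩
    · exact MotP.GGap.t_NGD G.M.old X n (not_le.1 hn) hN
  refine ⟨hone, ?_⟩
  tfae_have 1 → 2 := by
    intro hL
    obtain ⟨-, C, hC⟩ := (hm.out 0 1).1 hL
    refine ⟨1, by norm_num, C, fun X => ⟨?_, ?_⟩⟩
    · obtain ⟨Y, hY⟩ := G.prod X X
      have h1 : ((G.M.coh X).d : ℕ) ≤ (G.M.coh Y).d := by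
        have h2 := G.dim Y
        have h3 := G.dim X
        rw [hY, T.dim_tensor, h3] at h2
        omega
      have h2 := G.eq_of_L h0 hQ hR Y (hL Y) (G.M.coh X).d h1
      rw [hY, ← G.dim X] at h2
      rw [one_mul, h2]
    · have h1 := hC X
      rw [G.rank_motive, G.number_motive] at h1
      exact h1
  tfae_have 2 → 3 := by
    rintro ⟨c, hc, C, h⟩
    have h2 : G.M.Bounded := ⟨C, fun X => by
      rw [G.rank_motive, G.number_motive]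
      exact (h X).2⟩
    have h3 : ∀ X, ∃ r, 0 < r ∧ MotP.GGap.Small K.toOld.frobenius (G.M.h X) r :=
      fun X => G.M.old.small_of_bounded MotP.GGap.t_GRW (MotP.GGap.t_TVA _)
        (MotP.GGap.t_NET _) h2 X
    intro X
    obtain ⟨r, hr, h4⟩ := h3 X
    refine ⟨K.large_of_half hH hZ (G.v X) c hc fun k => ⟨k, le_rfl, ?_⟩, r, hr,
      (G.small_motive X r).2 h4⟩
    obtain ⟨Z, hZ⟩ := G.pow_mem X k
    have h5 := (h Z).1
    rw [hZ] at h5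
    exact h5
  tfae_have 3 → 1 := by
    intro h X n
    exact hone X (Or.inl (h X).1) (Or.inl (h X).2) n
  tfae_finish

end CHS.WeilEtale
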