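import Pool.Agent.HL.All
import Pool.Agent.HL.We
import Pool.Agent.HL.P_PTS
import Pool.Agent.HL.P_WTS
import Pool.Agent.HL.P_WQN
import Pool.Agent.HL.P_WNR

/-!
# The half law and Weil-etale cohomology: composition of the modules
-/

set_option autoImplicit false

universe v u w

namespace MotP.HL

theorem a_WQN : S_WQN := t_WQN t_PTS

theorem a_WNR : S_WNR.{v, u, w} := t_WNR t_PTS

end MotP.HL
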