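import Pool.Agent.HL.ClOld

/-!
# Bijectivity of the cycle class map on `Z × Z` in the middle codimension (library version)
-/

set_option autoImplicit false

open CategoryTheory MonoidalCategory CartesianMonoidalCategory Limits TensorProduct

universe v u w x

section linear

variable {E : Type x} [AddCommGroup E] [Module ℂ E] [Module.Finite ℂ E]

/-- the trace of an operator of rank one -/
theorem CHM.trace_rank_one (φ : Module.Dual ℂ E) (w : E) :
    LinearMap.trace ℂ E (φ.smulRight w) = φ w := by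
  have h := LinearMap.trace_eq_contract_apply (R := ℂ) (M := E) (φ ⊗ₜ[ℂ] w)
  rw [contractLeft_apply] at h
  rw [← h]
  congr 1

/-- Let `A` be an operator, and let `D` be a space of operators which commute with `A`, of
dimension at least the sum of the squares of the dimensions of the generalized eigenspaces. If
`g` in `D` satisfies `tr (σ h g) = 0` for all `h` in `D`, where `σ` is an involution
which commutes with `A`, then `g = 0`. -/
theorem CHM.block (A : Module.End ℂ E) (D : Submodule ℂ (Module.End ℂ E))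
    (hD : ∀ g ∈ D, Commute A g) (s : Finset ℂ)
    (hs : ∀ z, z ∉ s → A.maxGenEigenspace z = ⊥)
    (hdim : ∑ z ∈ s, Module.finrank ℂ (A.maxGenEigenspace z) ^ 2 ≤ Module.finrank ℂ D)
    (σ : Module.End ℂ E) (hσ : Commute A σ) (hσ2 : ∀ x, σ (σ x) = x)
    (g : Module.End ℂ E) (hg : g ∈ D) (htr : ∀ h ∈ D, LinearMap.trace ℂ E (σ * h * g) = 0) :
    g = 0 := by
  classical
  have hmap : ∀ g ∈ D, ∀ z : ℂ, ∀ x ∈ A.maxGenEigenspace z, g x ∈ A.maxGenEigenspace z :=
    fun g hg z x hx => Module.End.mapsTo_maxGenEigenspace_of_comm (hD g hg) z hx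
  let ρ : D →ₗ[ℂ] ((z : s) → (A.maxGenEigenspace (z : ℂ) →ₗ[ℂ] A.maxGenEigenspace (z : ℂ))) :=
    { toFun := fun g z => g.1.restrict (hmap g.1 g.2 z)
      map_add' := fun _ _ => rfl
      map_smul' := fun _ _ => rfl }
  have htop : ∀ P : Submodule ℂ E, (∀ z ∈ s, A.maxGenEigenspace z ≤ P) → P = ⊤ := by
    intro P hP
    rw [eq_top_iff, ← Module.End.iSup_maxGenEigenspace_eq_top A, iSup_le_iff]
    intro z
    by_cases hz : z ∈ s
    · exact hP z hz
    · rw [hs z hz]
      exact bot_le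
  have hinj : Function.Injective ρ := by
    rw [injective_iff_map_eq_zero]
    intro g hg
    apply Subtype.ext
    have h1 : LinearMap.ker g.1 = ⊤ := by
      refine htop _ fun z hz x hx => ?_
      have h2 := congrArg (fun f => ((f ⟨z, hz⟩) ⟨x, hx⟩).1) hg
      exact h2
    exact LinearMap.ker_eq_top.1 h1
  have hsurj : Function.Surjective ρ := by
    have h1 : Module.finrank ℂ D = Module.finrank ℂ
        ((z : s) → (A.maxGenEigenspace (z : ℂ) →ₗ[ℂ] A.maxGenEigenspace (z : ℂ))) := by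
      refine le_antisymm (LinearMap.finrank_le_finrank_of_injective hinj) ?_
      rw [Module.finrank_pi_fintype]
      simp only [Module.finrank_linearMap, ← pow_two]
      rw [Finset.sum_coe_sort s fun z => Module.finrank ℂ (A.maxGenEigenspace z) ^ 2]
      exact hdim
    exact (LinearMap.injective_iff_surjective_of_finrank_eq_finrank h1).1 hinj
  have key : ∀ z ∈ s, ∀ x ∈ A.maxGenEigenspace z, g x = 0 := by
    intro z hz x hx
    let P := A.maxGenEigenspace z
    have hgx : g x ∈ P := hmap g hg z x hx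
    have h0 : (⟨g x, hgx⟩ : P) = 0 := by
      rw [← Module.forall_dual_apply_eq_zero_iff ℂ]
      intro φ
      have hσP : ∀ y ∈ P, σ y ∈ P := fun y hy =>
        Module.End.mapsTo_maxGenEigenspace_of_comm hσ z hy
      let φ' : Module.Dual ℂ P := φ
      -- the operator `y ↦ φ y • σ x` on the eigenspace
      obtain ⟨h, hh⟩ := hsurj (Pi.single (M := fun z : s =>
        (A.maxGenEigenspace (z : ℂ) →ₗ[ℂ] A.maxGenEigenspace (z : ℂ))) ⟨z, hz⟩
        (φ'.smulRight (⟨σ x, hσP x hx⟩ : P)))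
      have hz1 : ∀ y (hy : y ∈ P), h.1 y = φ ⟨y, hy⟩ • σ x := by
        intro y hy
        have h1 := congrArg (fun f => ((f ⟨z, hz⟩) ⟨y, hy⟩).1) hh
        simp only [Pi.single_eq_same] at h1
        exact h1
      have hz2 : ∀ z' ∈ s, z' ≠ z → ∀ y ∈ A.maxGenEigenspace z', h.1 y = 0 := by
        intro z' hz' hne y hy
        have h1 := congrArg (fun f => ((f ⟨z', hz'⟩) ⟨y, hy⟩).1) hh
        have hne' : (⟨z', hz'⟩ : s) ≠ ⟨z, hz⟩ := fun e => hne (congrArg Subtype.val e)
        simp only [Pi.single_eq_of_ne hne'] at h1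
        exact h1
      have h3 := htr h.1 h.2
      -- the image is in `P`
      have h4 : ∀ y, (σ * h.1 * g) y ∈ P := by
        have h5 : Submodule.comap (σ * h.1 * g) P = ⊤ := by
          refine htop _ fun z' hz' y hy => ?_
          change σ (h.1 (g y)) ∈ P
          have h6 := hmap g hg z' y hy
          by_cases hne : z' = z
          · subst hne
            rw [hz1 _ h6]
            rw [map_smul, hσ2]
            exact Submodule.smul_mem _ _ hx
          · rw [hz2 z' hz' hne _ h6, map_zero]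
            exact zero_mem _
        intro y
        have h6 : y ∈ Submodule.comap (σ * h.1 * g) P := by
          rw [h5]
          exact Submodule.mem_top
        exact h6
      have h5 := LinearMap.trace_restrict_eq_of_forall_mem P (σ * h.1 * g) h4
      rw [h3] at h5
      have h6 : (σ * h.1 * g).restrict (fun y _ => h4 y) =
          ((φ'.comp (g.restrict (hmap g hg z))).smulRight (⟨x, hx⟩ : P)) := by
        refine LinearMap.ext fun y => Subtype.ext ?_
        change σ (h.1 (g y.1)) = φ' ((g.restrict (hmap g hg z)) y) • x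
        rw [hz1 _ (hmap g hg z y.1 y.2), map_smul, hσ2]
        rfl
      rw [h6, CHM.trace_rank_one] at h5
      exact h5
    exact congrArg Subtype.val h0
  have h1 : LinearMap.ker g = ⊤ := htop _ fun z hz x hx => key z hz x hx
  exact LinearMap.ker_eq_top.1 h1

end linear

namespace CHM

variable {V : Type u} [Category.{v} V] [CartesianMonoidalCategory V]

namespace Cohomology

variable {T : ChowTheory.{v, u, w} V} {R : FrobeniusMaps T} (K : Cohomology.{v, u, w, x} T R)

theorem multM_h (Z : V) (z : ℂ) : K.multM (Mot.h T Z 0) z =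
    Module.finrank ℂ (Module.End.maxGenEigenspace (K.fr Z) z) := by
  rw [multM_eq]
  have h1 : ∀ y : K.H Z, K.act (Mot.h T Z 0).p y = y := K.act_diag Z
  have h2 : K.real (Mot.h T Z 0) = ⊤ := eq_top_iff.2 fun y _ => h1 y
  have h3 : (K.act (R.onMot (Mot.h T Z 0)).1 : K.H Z →ₗ[ℂ] K.H Z) = K.fr Z := by
    refine LinearMap.ext fun y => ?_
    rw [K.act_onMot (Mot.h T Z 0) y (h1 y)]
    change ((R.q : ℂ) ^ (-(0 : ℤ))) • K.fr Z y = K.fr Z y
    rw [neg_zero, zpow_zero, one_smul]
  rw [h2, top_inf_eq]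
  exact congrArg (fun A : Module.End ℂ (K.H Z) => Module.finrank ℂ (A.maxGenEigenspace z)) h3

theorem mult_square (Z : V) : ∃ s : Finset ℂ,
    (∀ z, z ∉ s → Module.End.maxGenEigenspace (K.fr Z) z = ⊥) ∧
    K.mult (Z ⊗ Z) (T.dim Z) =
      ∑ z ∈ s, Module.finrank ℂ (Module.End.maxGenEigenspace (K.fr Z) z) ^ 2 := by
  classical
  refine ⟨(K.frobM (Mot.h T Z 0)).charpoly.roots.toFinset, ?_, ?_⟩
  · intro z hz
    rw [Multiset.mem_toFinset] at hz
    have h1 : K.multM (Mot.h T Z 0) z = 0 := by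
      unfold multM
      rw [← Polynomial.count_roots]
      exact Multiset.count_eq_zero.2 hz
    rw [K.multM_h] at h1
    exact Submodule.finrank_eq_zero.1 h1
  · have h1 := K.count_square (Mot.h T Z 0)
    rw [Mot.h_square, K.count_even] at h1
    rw [h1]
    exact Finset.sum_congr rfl fun z _ => by rw [K.multM_h]

/-- correspondences of degree `0` commute with Frobenius -/
theorem act_fr {Z : V} {a : T.CH (Z ⊗ Z)} (ha : a ∈ T.gr (Z ⊗ Z) (T.dim Z)) (y : K.H Z) :
    K.act a (K.fr Z y) = K.fr Z (K.act a y) := by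
  unfold fr
  rw [← K.act_cp, ← K.act_cp, R.gr'_comm ha, sub_self, zpow_zero, one_smul]

/-- the class of a correspondence is determined by its action on cohomology -/
noncomputable def detect (e : K.H (𝟙_ V)) (Z : V) :
    (K.H Z →ₗ[ℂ] K.H Z) →ₗ[ℂ] K.H (Z ⊗ Z) :=
  { toFun := fun g => K.kunneth Z Z
      (TensorProduct.map LinearMap.id g ((K.kunneth Z Z).symm (K.cyl e (T.diag Z))))
    map_add' := fun g h => by
      rw [TensorProduct.map_add_right, LinearMap.add_apply, map_add]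
    map_smul' := fun c g => by
      rw [TensorProduct.map_smul_right, LinearMap.smul_apply, map_smul]
      rfl }

theorem detect_act (e : K.H (𝟙_ V)) {Z : V} (a : T.CH (Z ⊗ Z)) :
    K.detect e Z (K.act a) = K.cyl e a := by
  change K.kunneth Z Z (TensorProduct.map LinearMap.id (K.act a)
    ((K.kunneth Z Z).symm (K.cyl e (T.diag Z)))) = K.cyl e a
  have h1 : (K.act (T.diag Z) : K.H Z →ₗ[ℂ] K.H Z) = LinearMap.id :=
    LinearMap.ext fun y => K.act_diag Z y
  have h2 := LinearMap.congr_fun (K.act_ten (T.diag Z) a)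
    ((K.kunneth Z Z).symm (K.cyl e (T.diag Z)))
  rw [h1] at h2
  have h3 : K.kunneth Z Z (TensorProduct.map LinearMap.id (K.act a)
      ((K.kunneth Z Z).symm (K.cyl e (T.diag Z)))) =
      K.act (T.ten (T.diag Z) a) (K.cyl e (T.diag Z)) := by
    refine h2.symm.trans ?_
    change K.act (T.ten (T.diag Z) a) (K.kunneth Z Z ((K.kunneth Z Z).symm _)) = _
    rw [LinearEquiv.apply_symm_apply]
  rw [h3]
  change K.act (T.ten (T.diag Z) a) (K.act (T.coev (T.diag Z)) e) = K.act (T.coev a) e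
  rw [← K.act_cp, T.coev_ten, T.tr_diag, T.diag_cp, T.diag_cp]

theorem trace_num {Z : V} {a : T.CH (Z ⊗ Z)} (ha : a ∈ T.gr (Z ⊗ Z) (T.dim Z))
    (hn : (⟨a, ha⟩ : T.gr (Z ⊗ Z) (T.dim Z)) ∈ T.num (Z ⊗ Z) (T.dim Z)) {b : T.CH (Z ⊗ Z)}
    (hb : b ∈ T.gr (Z ⊗ Z) (T.dim Z)) :
    LinearMap.trace ℂ (K.H Z) (K.sgn Z ∘ₗ K.act b ∘ₗ K.act a) = 0 := by
  have h1 := (Mot.numTrivial_end (m := 0) ⟨a, ha⟩).2 hn (Mot.endEquiv T Z 0 ⟨b, hb⟩)
  rw [Mot.trace_eq] at h1
  have h2 : T.deg (T.pull (lift (𝟙 Z) (𝟙 Z)) (T.cp a b)) = 0 := by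
    by_contra hne
    have h3 : 𝟙 (𝟙_ (Mot T)) = 0 := by
      rw [← one_smul ℚ (𝟙 (𝟙_ (Mot T))), ← inv_mul_cancel₀ hne, mul_smul]
      exact (congrArg _ h1).trans (smul_zero _)
    exact Mot.unit_ne h3
  have h3 := T.cp_mem ha hb
  have h4 := K.trace_formula Z (T.cp a b) (T.gr_congr (by ring) h3)
  rw [h2, Rat.cast_zero] at h4
  rw [h4]
  congr 1
  refine LinearMap.ext fun y => ?_
  change K.sgn Z (K.act b (K.act a y)) = K.sgn Z (K.act (T.cp a b) y)
  rw [K.act_cp]

/-- **Bijectivity of the cycle class map and semisimplicity in the middle codimension of `Z × Z`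
imply that numerically trivial cycles are zero.** -/
theorem middle {e : K.H (𝟙_ V)} (Z : V)
    (hinj : ∀ (n : ℕ) (a : Fin n → T.CH (Z ⊗ Z)), (∀ k, a k ∈ T.gr (Z ⊗ Z) (T.dim Z)) →
      LinearIndependent ℚ a → LinearIndependent ℂ fun k => K.cyl e (a k))
    (hsurj : K.tate (Z ⊗ Z) (T.dim Z) ≤ K.clSpan e (Z ⊗ Z) (T.dim Z))
    (hss : K.SS (Z ⊗ Z) (T.dim Z)) :
    T.num (Z ⊗ Z) (T.dim Z) = ⊥ ∧
      Module.rank ℚ (T.gr (Z ⊗ Z) (T.dim Z)) = ((K.mult (Z ⊗ Z) (T.dim Z) : ℕ) : Cardinal.{w}) := by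
  classical
  have hS : K.clSpan e (Z ⊗ Z) (T.dim Z) =
      Module.End.maxGenEigenspace (K.fr (Z ⊗ Z)) ((R.q : ℂ) ^ (T.dim Z)) :=
    le_antisymm ((K.clSpan_le e _ _).trans (K.tate_le _ _)) ((K.gen_le_tate hss).trans hsurj)
  have hm : K.mult (Z ⊗ Z) (T.dim Z) = Module.finrank ℂ (K.clSpan e (Z ⊗ Z) (T.dim Z)) := by
    rw [K.mult_eq, hS]
  have hrank : Module.rank ℚ (T.gr (Z ⊗ Z) (T.dim Z)) ≤
      ((K.mult (Z ⊗ Z) (T.dim Z) : ℕ) : Cardinal.{w}) := by
    refine rank_le fun s hs => ?_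
    let φ : Fin s.card ≃ s := s.equivFin.symm
    have h1 : LinearIndependent ℚ fun k : Fin s.card => ((φ k).1 : T.CH (Z ⊗ Z)) := by
      have h2 := hs.comp φ φ.injective
      exact h2.map' (T.gr (Z ⊗ Z) (T.dim Z)).subtype (Submodule.ker_subtype _)
    have h2 := hinj s.card _ (fun k => (φ k).1.2) h1
    have h3 := finrank_span_eq_card h2
    rw [Fintype.card_fin] at h3
    rw [hm, ← h3]
    refine Submodule.finrank_mono (Submodule.span_le.2 ?_)
    rintro _ ⟨k, rfl⟩
    exact Submodule.subset_span ⟨_, (φ k).1.2, rfl⟩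
  have hfin : Module.Finite ℚ (T.gr (Z ⊗ Z) (T.dim Z)) := by
    rw [← Module.rank_lt_aleph0_iff]
    exact hrank.trans_lt Cardinal.natCast_lt_aleph0
  let β := Module.finBasis ℚ (T.gr (Z ⊗ Z) (T.dim Z))
  have hβ : LinearIndependent ℚ fun k => ((β k) : T.CH (Z ⊗ Z)) :=
    β.linearIndependent.map' (T.gr (Z ⊗ Z) (T.dim Z)).subtype (Submodule.ker_subtype _)
  have hβc := hinj _ _ (fun k => (β k).2) hβ
  have hspan : K.clSpan e (Z ⊗ Z) (T.dim Z) ≤
      Submodule.span ℂ (Set.range fun k => K.cyl e ((β k) : T.CH (Z ⊗ Z))) := by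
    refine Submodule.span_le.2 ?_
    rintro _ ⟨c, hc, rfl⟩
    have h1 := congrArg (Subtype.val : T.gr (Z ⊗ Z) (T.dim Z) → T.CH (Z ⊗ Z))
      (β.sum_repr ⟨c, hc⟩)
    rw [AddSubmonoidClass.coe_finsetSum] at h1
    change ∑ k, β.repr ⟨c, hc⟩ k • ((β k) : T.CH (Z ⊗ Z)) = c at h1
    change K.cyl e c ∈ _
    rw [← h1, K.cyl_sum]
    exact Submodule.sum_mem _ fun k _ => Submodule.smul_mem _ _ (Submodule.subset_span ⟨k, rfl⟩)
  have hk : K.mult (Z ⊗ Z) (T.dim Z) = Module.finrank ℚ (T.gr (Z ⊗ Z) (T.dim Z)) := by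
    refine le_antisymm ?_ ?_
    · rw [hm]
      refine (Submodule.finrank_mono hspan).trans ?_
      refine (finrank_range_le_card (R := ℂ) fun k => K.cyl e ((β k) : T.CH (Z ⊗ Z))).trans ?_
      rw [Fintype.card_fin]
    · rw [← Module.finrank_eq_rank] at hrank
      exact_mod_cast hrank
  refine ⟨?_, by rw [hk, Module.finrank_eq_rank]⟩
  -- the algebra of operators
  let D : Submodule ℂ (Module.End ℂ (K.H Z)) :=
    Submodule.span ℂ ((fun a => (K.act a : Module.End ℂ (K.H Z))) '' (T.gr (Z ⊗ Z) (T.dim Z) :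
      Set (T.CH (Z ⊗ Z))))
  have hact : LinearIndependent ℂ fun k => (K.act ((β k) : T.CH (Z ⊗ Z)) :
      Module.End ℂ (K.H Z)) := by
    refine LinearIndependent.of_comp (K.detect e Z) ?_
    have h1 : (K.detect e Z ∘ fun k => (K.act ((β k) : T.CH (Z ⊗ Z)) : K.H Z →ₗ[ℂ] K.H Z)) =
        fun k => K.cyl e ((β k) : T.CH (Z ⊗ Z)) := funext fun k => K.detect_act e _
    rw [h1]
    exact hβc
  have hD : K.mult (Z ⊗ Z) (T.dim Z) ≤ Module.finrank ℂ D := by
    rw [hk]
    have h1 := finrank_span_eq_card hact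
    rw [Fintype.card_fin] at h1
    rw [← h1]
    refine Submodule.finrank_mono (Submodule.span_le.2 ?_)
    rintro _ ⟨k, rfl⟩
    exact Submodule.subset_span ⟨_, (β k).2, rfl⟩
  obtain ⟨s, hs1, hs2⟩ := K.mult_square Z
  rw [hs2] at hD
  have hcomm : ∀ g ∈ D, Commute (K.fr Z : Module.End ℂ (K.H Z)) g := by
    intro g hg
    refine Submodule.span_induction (p := fun g _ => Commute (K.fr Z : Module.End ℂ (K.H Z)) g)
      ?_ ?_ ?_ ?_ hg
    · rintro _ ⟨a, ha, rfl⟩
      exact LinearMap.ext fun y => (K.act_fr ha y).symm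
    · exact Commute.zero_right _
    · exact fun _ _ _ _ h1 h2 => h1.add_right h2
    · exact fun c _ _ h1 => h1.smul_right c
  have hsgn : Commute (K.fr Z : Module.End ℂ (K.H Z)) (K.sgn Z) := by
    refine LinearMap.ext fun y => ?_
    exact (K.sgn_act (r := 0) (T.gr_congr (add_zero _).symm (T.gr'_mem (R.Fr Z))) y).symm
  rw [eq_bot_iff]
  intro a ha
  have h0 : (K.act a.1 : Module.End ℂ (K.H Z)) = 0 := by
    refine CHM.block (K.fr Z : Module.End ℂ (K.H Z)) D hcomm s hs1 hD (K.sgn Z) hsgn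
      (K.sgn_sgn Z) _ (Submodule.subset_span ⟨a.1, a.2, rfl⟩) ?_
    intro h hh
    refine Submodule.span_induction (p := fun h _ => LinearMap.trace ℂ (K.H Z)
      (K.sgn Z * h * (K.act a.1 : Module.End ℂ (K.H Z))) = 0) ?_ ?_ ?_ ?_ hh
    · rintro _ ⟨b, hb, rfl⟩
      have h1 := K.trace_num a.2 ha hb
      rw [← h1]
      rfl
    · simp
    · intro g g' _ _ h1 h2
      rw [mul_add, add_mul, map_add, h1, h2, add_zero]
    · intro c g _ h1
      rw [mul_smul_comm, smul_mul_assoc, map_smul, h1, smul_zero]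
  have h1 : K.cyl e a.1 = 0 := by
    rw [← K.detect_act, show (K.act a.1 : K.H Z →ₗ[ℂ] K.H Z) = 0 from h0, map_zero]
  rw [Submodule.mem_bot]
  by_contra hne
  have h2 : LinearIndependent ℚ fun _ : Fin 1 => (a.1 : T.CH (Z ⊗ Z)) :=
    LinearIndependent.of_subsingleton (i := (0 : Fin 1)) (fun h => hne (Subtype.ext h))
  have h3 := (hinj 1 _ (fun _ => a.2) h2).ne_zero 0
  exact h3 h1

end Cohomology

end CHM
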