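import Pool.Agent.HL.AllR

/-!
# Invariance of the ranks under isomorphisms
-/

set_option autoImplicit false

open CategoryTheory MonoidalCategory CartesianMonoidalCategory Limits

universe v u w x

namespace MotP.HL.Inv

open CHM

noncomputable section

variable {V : Type u} [Category.{v} V] [CartesianMonoidalCategory V]

/-- isomorphic varieties have isomorphic motives -/
def hIso (T : CHM.ChowTheory.{v, u, w} V) {X Y : V} (e : X ≅ Y) (i : ℤ) :
    CHM.Mot.h T X i ≅ CHM.Mot.h T Y i where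
  hom := ⟨T.gr' e.inv, CHM.Mot.mem_hom_h.2 (T.gr_congr (by ring) (T.gr'_mem e.inv))⟩
  inv := ⟨T.gr' e.hom, CHM.Mot.mem_hom_h.2 (T.gr_congr (by ring) (T.gr'_mem e.hom))⟩
  hom_inv_id := by
    apply Subtype.ext
    change T.cp (T.gr' e.inv) (T.gr' e.hom) = T.diag X
    rw [T.gr'_comp, e.hom_inv_id]
    rfl
  inv_hom_id := by
    apply Subtype.ext
    change T.cp (T.gr' e.hom) (T.gr' e.inv) = T.diag Y
    rw [T.gr'_comp, e.inv_hom_id]
    rfl

variable {T : CHM.ChowTheory.{v, u, w} V}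

theorem num_inv {R : CHM.FrobeniusMaps T} (K : CHM.Cohomology.{v, u, w, x} T R) {X Y : V}
    (e : X ≅ Y) (i : ℤ) :
    Cardinal.toNat (Module.rank ℚ (T.gr X i ⧸ T.num X i)) =
      Cardinal.toNat (Module.rank ℚ (T.gr Y i ⧸ T.num Y i)) ∧ K.mult X i = K.mult Y i := by
  have hG := t_NGR T
  have hU := t_NUN T
  obtain ⟨W, hW⟩ : ∃ W : MotP.Frob (CHM.Mot (numQ T hG hU)),
    W = frobQ hG hU (t_NND T) R K (a_NEV T) := ⟨_, rfl⟩
  have hI := (t_ADJ _ W).2.2.1 _ _ (hIso (numQ T hG hU) e i)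
  refine ⟨?_, ?_⟩
  · rw [t_NHO T hG hU X i, t_NHO T hG hU Y i]
    exact hI.2.1 (𝟙_ (CHM.Mot (numQ T hG hU)))
  · have h1 := (a_NMU T hG hU (t_NND T) R K (a_NEV T) X).1 i
    have h2 := (a_NMU T hG hU (t_NND T) R K (a_NEV T) Y).1 i
    rw [← h1, ← h2, ← hW]
    exact ((a_BFA _ W).2.2.2.2.2.1 _ _ hI.2.2).2

theorem rank_inv {X Y : V} (e : X ≅ Y) (i : ℤ) :
    Module.rank ℚ (T.gr X i) = Module.rank ℚ (T.gr Y i) := by
  have h : ∀ {X Y : V} (e : X ≅ Y), Module.rank ℚ (T.gr X i) ≤ Module.rank ℚ (T.gr Y i) := by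
    intro X Y e
    let φ : T.gr X i →ₗ[ℚ] T.gr Y i :=
      { toFun := fun a => ⟨T.pull e.inv a.1, T.pull_mem _ _ _ a.2⟩
        map_add' := fun a b => Subtype.ext (map_add (T.pull e.inv) a.1 b.1)
        map_smul' := fun r a => Subtype.ext (map_smul (T.pull e.inv) r a.1) }
    refine LinearMap.rank_le_of_injective φ fun a b hab => Subtype.ext ?_
    have h1 : T.pull e.inv a.1 = T.pull e.inv b.1 := congrArg Subtype.val hab
    have h2 := congrArg (T.pull e.hom) h1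
    rwa [← T.pull_comp, ← T.pull_comp, e.hom_inv_id, T.pull_id, T.pull_id] at h2
  exact le_antisymm (h e) (h e.symm)

end

end MotP.HL.Inv

namespace CHS

variable {V : Type u} [Category.{v} V] [CartesianMonoidalCategory V] {T : ChowTheory.{v, u, w} V}

namespace Cohomology

variable (K : Cohomology.{v, u, w, x} T)

include K in
theorem N_inv {X Y : V} (e : X ≅ Y) (i : ℤ) : T.N X i = T.N Y i := by
  rw [T.N_eq, T.N_eq]
  exact (MotP.HL.Inv.num_inv K.toOld e i).1

theorem M_inv {X Y : V} (e : X ≅ Y) (i : ℤ) : K.M X i = K.M Y i := by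
  rw [K.M_eq, K.M_eq]
  exact (MotP.HL.Inv.num_inv K.toOld e i).2

end Cohomology

theorem ChowTheory.rank_inv {X Y : V} (e : X ≅ Y) (i : ℤ) :
    T.rank (T.cyc X i) = T.rank (T.cyc Y i) := by
  rw [T.rank_cyc, T.rank_cyc]
  exact MotP.HL.Inv.rank_inv e i

/-- isomorphic varieties have the same dimension -/
theorem ChowTheory.dim_inv {X Y : V} (e : X ≅ Y) (h : (1 : T.CH Y) ≠ 0) : T.dim X = T.dim Y := by
  by_contra hne
  have h1 : (1 : T.CH Y) ∈ T.gr Y (0 + T.dim Y - T.dim X) := by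
    have h2 := T.push_mem e.hom 0 1 (T.one_mem X)
    have h3 : T.push e.hom 1 = 1 := (T.toOld.push_iso e 1).trans (map_one (T.toOld.pull e.inv))
    rwa [h3] at h2
  have h2 : (1 : T.CH Y) ∈ T.gr Y 0 := T.one_mem Y
  letI := (T.graded Y).some
  have h4 := DirectSum.decompose_of_mem_ne (T.gr Y) h1 (j := 0) (by omega)
  rw [DirectSum.decompose_of_mem_same (T.gr Y) h2] at h4
  exact h h4

theorem ChowTheory.one_ne {Y : V} {i : ℤ} (h : T.N Y i ≠ 0) : (1 : T.CH Y) ≠ 0 := by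
  intro h0
  have h1 : ∀ a : T.CH Y, a = 0 := fun a => by rw [← mul_one a, h0, mul_zero]
  have h2 : Subsingleton (T.toOld.gr Y i) := ⟨fun a b => Subtype.ext ((h1 a.1).trans (h1 b.1).symm)⟩
  rw [T.N_eq] at h
  have h3 : Subsingleton (T.toOld.gr Y i ⧸ T.toOld.num Y i) :=
    (Submodule.Quotient.mk_surjective _).subsingleton
  rw [rank_subsingleton', map_zero] at h
  exact h rfl

theorem pow_succ' (X : V) (r : ℕ) : pow X (r + 1) = pow X r ⊗ X := by
  unfold pow
  exact Function.iterate_succ_apply' _ _ _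

/-- powers of powers -/
theorem pow_add_iso (X : V) (r s : ℕ) : Nonempty (pow X (r + s) ≅ pow X r ⊗ pow X s) := by
  induction s with
  | zero => exact ⟨(ρ_ _).symm⟩
  | succ s ih =>
    obtain ⟨e⟩ := ih
    have h1 : pow X (r + (s + 1)) = pow X (r + s) ⊗ X := pow_succ' X (r + s)
    rw [h1, pow_succ' X s]
    exact ⟨(whiskerRightIso e X) ≪≫ α_ _ _ _⟩

end CHS
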