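import Pool.Agent.HL.ClDefs
import Pool.Agent.HL.ClOld2
import Pool.Agent.HL.Inv

/-!
# The cycle class map and the half law (MP_3af9db_ag)
-/

set_option autoImplicit false

open CategoryTheory MonoidalCategory CartesianMonoidalCategory Limits

universe v u w x

namespace CHS

variable {V : Type u} [Category.{v} V] [CartesianMonoidalCategory V] {T : ChowTheory.{v, u, w} V}

/-- numerically trivial cycles on isomorphic varieties -/
theorem ChowTheory.zero_inv {X Y : V} (e : X ≅ Y) {i : ℤ}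
    (h : ∀ a ∈ T.cyc Y i, T.NumTrivial a → a = 0) : ∀ a ∈ T.cyc X i, T.NumTrivial a → a = 0 := by
  intro a ha hn
  have h2 : T.NumTrivial (T.pull e.inv a) := by
    intro b
    have h3 : a ∈ MotP.HL.nt T.toOld X := by
      intro b
      exact (T.old_deg _).trans (hn b)
    have h4 := MotP.HL.pull_nt T.toOld e.inv h3 b
    exact (T.old_deg _).symm.trans h4
  have h5 : T.pull e.inv a = 0 := h _ (T.pull_mem _ _ _ ha) h2
  have h6 : T.pull e.hom (T.pull e.inv a) = a := by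
    rw [← T.pull_comp, e.hom_inv_id, T.pull_id]
  rw [← h6, h5]
  exact map_zero (T.toOld.pull e.hom)

namespace Cohomology

variable (K : Cohomology.{v, u, w, x} T)

theorem cl_old (e : K.H (𝟙_ V)) {Y : V} (a : T.CH Y) : K.toOld.cyl e a = K.cl e a := rfl

theorem phi_zero {Y : V} {i : ℤ} {x : K.H Y} : K.phi Y i x = 0 ↔
    K.toOld.fr Y x = ((T.frob.q : ℂ) ^ i) • x := sub_eq_zero

theorem mem_tate {Y : V} {i : ℤ} {x : K.H Y} : x ∈ K.toOld.tate Y i ↔ K.IsTate Y i x :=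
  ⟨fun h => ⟨h.1, K.phi_zero.2 (Module.End.mem_eigenspace_iff.1 h.2)⟩,
    fun h => ⟨h.1, Module.End.mem_eigenspace_iff.2 (K.phi_zero.1 h.2)⟩⟩

theorem semisimple_iff (Y : V) (i : ℤ) : K.Semisimple Y i ↔ K.toOld.SS Y i := Iff.rfl

theorem surjective_iff (e : K.H (𝟙_ V)) (Y : V) (i : ℤ) :
    K.ClSurjective e Y i ↔ K.toOld.tate Y i ≤ K.toOld.clSpan e Y i :=
  ⟨fun h x hx => h x (K.mem_tate.1 hx), fun h _ hx => h (K.mem_tate.2 hx)⟩

theorem isTate_cl (e : K.H (𝟙_ V)) {Y : V} {i : ℤ} {a : T.CH Y} (ha : a ∈ T.cyc Y i) :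
    K.IsTate Y i (K.cl e a) := K.mem_tate.1 (K.toOld.cyl_mem_tate e ha)

/-- the three conditions at `(Y, i)` of the Tate conjecture -/
theorem tate_of_eq' {e : K.H (𝟙_ V)} (he : e ≠ 0) {Y : V} {i : ℤ} (h : T.N Y i = K.M Y i) :
    K.ClSurjective e Y i ∧ K.Semisimple Y i ∧ ∀ a ∈ T.cyc Y i, T.NumTrivial a → K.cl e a = 0 := by
  have h1 := (K.N_le (MotP.HL.a_NHA T.toOld) Y i).1
  rw [T.numRank_cyc, h, K.M_eq] at h1
  obtain ⟨h2, h3, h4⟩ := K.toOld.tate_of_rank he h1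
  exact ⟨(K.surjective_iff e Y i).2 h2, h3, fun a ha hn => h4 ⟨a, ha⟩ ((T.numTrivial_num ⟨a, ha⟩).2 hn)⟩

theorem eq_of_tate {e : K.H (𝟙_ V)} {Y : V} {i : ℤ} (h2 : K.ClSurjective e Y i)
    (h3 : K.Semisimple Y i) (h4 : ∀ a ∈ T.cyc Y i, T.NumTrivial a → K.cl e a = 0) :
    T.N Y i = K.M Y i := by
  have h1 := K.N_le (MotP.HL.a_NHA T.toOld) Y i
  refine le_antisymm h1.2 ?_
  have h5 := h1.1
  rw [T.numRank_cyc] at h5
  rw [K.M_eq]
  exact K.toOld.mult_le_of_tate h5 ((K.surjective_iff e Y i).1 h2) h3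
    fun a ha => h4 a.1 a.2 ((T.numTrivial_num a).1 ha)

theorem injective_of_zero {e : K.H (𝟙_ V)} (he : e ≠ 0) {Y : V} {i : ℤ}
    (h : ∀ a ∈ T.cyc Y i, T.NumTrivial a → a = 0) : K.ClInjective e Y i := by
  intro n a ha hind
  refine K.toOld.cyl_indep (i := i) he a ha fun r hr => ?_
  have hmem : ∑ k, r k • a k ∈ T.cyc Y i :=
    Submodule.sum_mem (T.gr Y i) fun k _ => Submodule.smul_mem _ _ (ha k)
  have h1 : ∑ k, r k • a k = 0 := by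
    refine h _ hmem ((T.numTrivial_iff hmem).2 fun b hb => ?_)
    rw [← T.old_deg]
    exact hr b hb
  exact funext (Fintype.linearIndependent_iff.1 hind r h1)

theorem NN_pos (X : V) (hX : K.B X ≠ 0) (r : ℕ) : 0 < T.NN X r :=
  ((K.quantum (MotP.HL.a_NQU T.toOld) X hX).1 r).1

theorem half_M (X : V) (hX : K.B X ≠ 0) (h : ∀ r, T.NN X r = K.MM X r) :
    MoreThanHalf fun r => (T.NN X r : ℝ) / K.MM X r := by
  refine moreThanHalf_of_one fun r => ?_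
  have h1 : (0 : ℝ) < T.NN X r := by exact_mod_cast K.NN_pos X hX r
  rw [← h r]
  exact div_self h1.ne'

/-- one variety: the numerical half of the statement -/
theorem eq_iff (X : V) (hX : K.B X ≠ 0) :
    (MoreThanHalf fun r => (T.NN X r : ℝ) / K.MM X r) ↔
      ∀ (Y : V) (r : ℕ), Nonempty (Y ≅ pow X r) → ∀ i, T.N Y i ≠ 0 → T.N Y i = K.M Y i := by
  constructor
  · rintro h Y r ⟨φ⟩ i hi
    obtain ⟨L, L', h1, -, h3, -⟩ := (K.ranks (MotP.HL.a_NHA T.toOld) (MotP.HL.a_NFX T.toOld)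
      (MotP.HL.a_NFY T.toOld) (MotP.HL.a_NFZ T.toOld) (MotP.HL.a_NHZ T.toOld)
      (MotP.HL.a_NQU T.toOld) (MotP.HL.a_RQV T.toOld) (MotP.HL.t_RCW2 T.toOld)).2.1 X hX
    rw [K.N_inv φ] at hi ⊢
    rw [K.M_inv φ]
    exact h3 (h1.of_half h) r i hi
  · intro h
    refine K.half_M X hX fun r => ?_
    obtain ⟨φ⟩ := pow_add_iso X r r
    exact h _ (r + r) ⟨φ.symm⟩ _ (K.NN_pos X hX r).ne'

theorem tate_iff {e : K.H (𝟙_ V)} (he : e ≠ 0) (X : V) (hX : K.B X ≠ 0) :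
    (MoreThanHalf fun r => (T.NN X r : ℝ) / K.MM X r) ↔
      ∀ (Y : V) (r : ℕ), Nonempty (Y ≅ pow X r) → ∀ i, T.N Y i ≠ 0 →
        K.ClSurjective e Y i ∧ K.Semisimple Y i ∧
          ∀ a ∈ T.cyc Y i, T.NumTrivial a → K.cl e a = 0 := by
  rw [K.eq_iff X hX]
  exact ⟨fun h Y r hY i hi => K.tate_of_eq' he (h Y r hY i hi), fun h Y r hY i hi =>
    K.eq_of_tate (h Y r hY i hi).1 (h Y r hY i hi).2.1 (h Y r hY i hi).2.2⟩

/-- bijectivity and semisimplicity on `Z × Z` -/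
theorem of_middle {e : K.H (𝟙_ V)} (Z : V)
    (h : K.ClInjective e (Z ⊗ Z) (T.dim Z) ∧ K.ClSurjective e (Z ⊗ Z) (T.dim Z) ∧
      K.Semisimple (Z ⊗ Z) (T.dim Z)) :
    T.toOld.num (Z ⊗ Z) (T.dim Z) = ⊥ ∧ T.N (Z ⊗ Z) (T.dim Z) = K.M (Z ⊗ Z) (T.dim Z) ∧
      T.N (Z ⊗ Z) (T.dim Z) = Cardinal.toNat (T.rank (T.cyc (Z ⊗ Z) (T.dim Z))) := by
  obtain ⟨h1, h2⟩ := K.toOld.middle Z h.1 ((K.surjective_iff e _ _).1 h.2.1) h.2.2
  have h3 : T.N (Z ⊗ Z) (T.dim Z) = Cardinal.toNat (T.rank (T.cyc (Z ⊗ Z) (T.dim Z))) := by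
    rw [T.N_eq, T.rank_cyc]
    have h1' : T.toOld.num (Z ⊗ Z) (T.dim Z) = ⊥ := h1
    rw [h1']
    exact congrArg Cardinal.toNat (Submodule.quotEquivOfEqBot _ rfl).rank_eq
  refine ⟨h1, ?_, h3⟩
  rw [h3, T.rank_cyc, K.M_eq]
  have h4 := congrArg Cardinal.toNat h2
  rw [Cardinal.toNat_natCast] at h4
  exact h4

theorem both_of_middle {e : K.H (𝟙_ V)} (X : V) (hX : K.B X ≠ 0)
    (h : ∀ r, K.ClInjective e (pow X r ⊗ pow X r) (T.dim (pow X r)) ∧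
      K.ClSurjective e (pow X r ⊗ pow X r) (T.dim (pow X r)) ∧
      K.Semisimple (pow X r ⊗ pow X r) (T.dim (pow X r))) :
    (MoreThanHalf fun r => (T.NN X r : ℝ) / K.MM X r) ∧
      MoreThanHalf fun r => (T.NN X r : ℝ) / T.RR X r := by
  refine ⟨K.half_M X hX fun r => (K.of_middle _ (h r)).2.1, moreThanHalf_of_one fun r => ?_⟩
  have h1 : (0 : ℝ) < T.NN X r := by exact_mod_cast K.NN_pos X hX r
  have h2 : T.NN X r = T.RR X r := (K.of_middle _ (h r)).2.2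
  rw [← h2]
  exact div_self h1.ne'

/-- one variety -/
theorem bijective_iff {e : K.H (𝟙_ V)} (he : e ≠ 0) (X : V) (hX : K.B X ≠ 0) :
    ((MoreThanHalf fun r => (T.NN X r : ℝ) / K.MM X r) ∧
        MoreThanHalf fun r => (T.NN X r : ℝ) / T.RR X r) ↔
      ∀ (Y : V) (r : ℕ), Nonempty (Y ≅ pow X r) → ∀ i, T.N Y i ≠ 0 →
        K.ClInjective e Y i ∧ K.ClSurjective e Y i ∧ K.Semisimple Y i := by
  constructor
  · rintro ⟨hM, hR⟩ Y r hY i hi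
    obtain ⟨h1, h2, -⟩ := (K.tate_iff he X hX).1 hM Y r hY i hi
    refine ⟨K.injective_of_zero he ?_, h1, h2⟩
    obtain ⟨φ⟩ := hY
    obtain ⟨L, L', -, h3, -, h4⟩ := (K.ranks (MotP.HL.a_NHA T.toOld) (MotP.HL.a_NFX T.toOld)
      (MotP.HL.a_NFY T.toOld) (MotP.HL.a_NFZ T.toOld) (MotP.HL.a_NHZ T.toOld)
      (MotP.HL.a_NQU T.toOld) (MotP.HL.a_RQV T.toOld) (MotP.HL.t_RCW2 T.toOld)).2.1 X hX
    rw [K.N_inv φ] at hi
    exact ChowTheory.zero_inv φ (h4 (h3.of_half hR) r i hi)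
  · intro h
    refine K.both_of_middle (e := e) X hX fun r => ?_
    obtain ⟨φ⟩ := pow_add_iso X r r
    exact h _ (r + r) ⟨φ.symm⟩ _ (K.NN_pos X hX r).ne'

/-- all varieties -/
theorem bijective_all {e : K.H (𝟙_ V)} (he : e ≠ 0) :
    (∀ X : V, K.B X ≠ 0 → (MoreThanHalf fun r => (T.NN X r : ℝ) / K.MM X r) ∧
        MoreThanHalf fun r => (T.NN X r : ℝ) / T.RR X r) ↔
      ∀ (Y : V) (i : ℤ), K.ClInjective e Y i ∧ K.ClSurjective e Y i ∧ K.Semisimple Y i := by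
  obtain ⟨-, -, g3, -, g5⟩ := K.ranks (MotP.HL.a_NHA T.toOld) (MotP.HL.a_NFX T.toOld)
      (MotP.HL.a_NFY T.toOld) (MotP.HL.a_NFZ T.toOld) (MotP.HL.a_NHZ T.toOld)
      (MotP.HL.a_NQU T.toOld) (MotP.HL.a_RQV T.toOld) (MotP.HL.t_RCW2 T.toOld)
  constructor
  · intro h Y i
    obtain ⟨h1, h2, -⟩ := K.tate_of_eq' he ((g5.2 h).2 Y i)
    exact ⟨K.injective_of_zero he fun a _ => g3.2 (fun X hX => (h X hX).2) Y a, h1, h2⟩
  · exact fun h X hX => K.both_of_middle (e := e) X hX fun r => h _ _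

theorem half_iff {a : ℕ → ℝ} {L : ℝ} (h : Quantized a L) : 1 / 2 < L ↔ MoreThanHalf a :=
  ⟨fun h1 => ⟨L, h1, fun k => ⟨k, le_rfl, h.2.2 k⟩⟩, fun h1 => h.of_half h1⟩

/-- THE THEOREM. -/
theorem classes {e : K.H (𝟙_ V)} (he : e ≠ 0) :
    (Module.finrank ℂ (K.H (𝟙_ V)) = 1 ∧
      ∀ (Y : V) (i : ℤ), ∀ a ∈ T.cyc Y i, K.IsTate Y i (K.cl e a)) ∧
    (∀ X : V, K.B X ≠ 0 → ∃ L L' : ℝ,
      Quantized (fun r => (T.NN X r : ℝ) / K.MM X r) L ∧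
      Quantized (fun r => (T.NN X r : ℝ) / T.RR X r) L' ∧
      (1 / 2 < L ↔ ∀ (Y : V) (r : ℕ), Nonempty (Y ≅ pow X r) → ∀ i, T.N Y i ≠ 0 →
        K.ClSurjective e Y i ∧ K.Semisimple Y i ∧
          ∀ a ∈ T.cyc Y i, T.NumTrivial a → K.cl e a = 0) ∧
      (1 / 2 < L ∧ 1 / 2 < L' ↔ ∀ (Y : V) (r : ℕ), Nonempty (Y ≅ pow X r) →
        ∀ i, T.N Y i ≠ 0 → K.ClInjective e Y i ∧ K.ClSurjective e Y i ∧ K.Semisimple Y i)) ∧
    ((∀ X : V, K.B X ≠ 0 → MoreThanHalf (fun r => (T.NN X r : ℝ) / K.MM X r) ∧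
        MoreThanHalf fun r => (T.NN X r : ℝ) / T.RR X r) ↔
      ∀ (Y : V) (i : ℤ), K.ClInjective e Y i ∧ K.ClSurjective e Y i ∧ K.Semisimple Y i) := by
  refine ⟨⟨K.toOld.finrank_one, fun _ _ _ ha => K.isTate_cl e ha⟩, fun X hX => ?_,
    K.bijective_all he⟩
  obtain ⟨L, L', h1, h2, -, -⟩ := (K.ranks (MotP.HL.a_NHA T.toOld) (MotP.HL.a_NFX T.toOld)
      (MotP.HL.a_NFY T.toOld) (MotP.HL.a_NFZ T.toOld) (MotP.HL.a_NHZ T.toOld)
      (MotP.HL.a_NQU T.toOld) (MotP.HL.a_RQV T.toOld) (MotP.HL.t_RCW2 T.toOld)).2.1 X hX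
  refine ⟨L, L', h1, h2, ?_, ?_⟩
  · rw [half_iff h1]
    exact K.tate_iff he X hX
  · rw [half_iff h1, half_iff h2]
    exact K.bijective_iff he X hX

end Cohomology

end CHS
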