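import Pool.Agent.HL.RhsDefs

/-!
# The cycle class map: definitions (MP_3af9db_ag)

`K` is `l`-adic cohomology with complex coefficients (by the choice of an isomorphism of an algebraic
closure of the `l`-adic numbers with `ℂ`), `F` the Frobenius.
-/

set_option autoImplicit false

open CategoryTheory MonoidalCategory CartesianMonoidalCategory Limits

universe v u w x

namespace CHS.Cohomology

variable {V : Type u} [Category.{v} V] [CartesianMonoidalCategory V]
  {T : ChowTheory.{v, u, w} V} (K : Cohomology.{v, u, w, x} T)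

/-- The class of the cycle `a` in the cohomology of `Y`: the image of the generator `e` of `H(point)`
under `a`, considered as a correspondence from the point to `Y`. -/
def cl (e : K.H (𝟙_ V)) {Y : V} (a : T.CH Y) : K.H Y := K.act (T.pull (snd (𝟙_ V) Y) a) e

/-- `F - q ^ i` on the cohomology of `Y`. -/
noncomputable def phi (Y : V) (i : ℤ) (x : K.H Y) : K.H Y :=
  K.act (T.graph (T.Fr Y)) x - (T.q : ℂ) ^ i • x

/-- `x` is in `H^(2i)(Y)` and `F x = q ^ i x`, that is `x` is a Frobenius invariant element of
`H^(2i)(Y)(i)`. -/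
def IsTate (Y : V) (i : ℤ) (x : K.H Y) : Prop := x ∈ K.gr Y (2 * i) ∧ K.phi Y i x = 0

/-- The cycle class map from `CH^i(Y) ⊗ ℂ` to the Frobenius invariants of `H^(2i)(Y)(i)` is
injective: the classes of cycles which are linearly independent over `ℚ` are linearly independent
over `ℂ`. -/
def ClInjective (e : K.H (𝟙_ V)) (Y : V) (i : ℤ) : Prop :=
  ∀ (n : ℕ) (a : Fin n → T.CH Y), (∀ k, a k ∈ T.cyc Y i) → LinearIndependent ℚ a →
    LinearIndependent ℂ fun k => K.cl e (a k)

/-- The cycle class map from `CH^i(Y) ⊗ ℂ` to the Frobenius invariants of `H^(2i)(Y)(i)` is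
surjective: they are linear combinations, with complex coefficients, of classes of cycles. -/
def ClSurjective (e : K.H (𝟙_ V)) (Y : V) (i : ℤ) : Prop :=
  ∀ x : K.H Y, K.IsTate Y i x → x ∈ Submodule.span ℂ (K.cl e '' T.cyc Y i)

/-- The eigenvalue `q ^ i` of Frobenius on the cohomology of `Y` (the eigenvalue `1` on
`H^(2i)(Y)(i)`) is semisimple. -/
def Semisimple (Y : V) (i : ℤ) : Prop := ∀ x : K.H Y, K.phi Y i (K.phi Y i x) = 0 → K.phi Y i x = 0

end CHS.Cohomology
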