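import Pool.Agent.CHM.Good
import Pool.Agent.CHM.Tate
import Pool.Agent.CHM.Growth
import Pool.Agent.CHM.Chow
import Pool.Agent.CHS.Mult

/-!
# Cycle classes in the cohomology of a variety (library version)
-/

set_option autoImplicit false

open CategoryTheory MonoidalCategory CartesianMonoidalCategory Limits

universe v u w x

namespace CHM

variable {V : Type u} [Category.{v} V] [CartesianMonoidalCategory V]

namespace Cohomology

variable {T : ChowTheory.{v, u, w} V} {R : FrobeniusMaps T} (K : Cohomology.{v, u, w, x} T R)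

/-- the cycle class -/
def cyl (e : K.H (𝟙_ V)) {Y : V} (a : T.CH Y) : K.H Y := K.act (T.pull (snd (𝟙_ V) Y) a) e

theorem cyl_add (e : K.H (𝟙_ V)) {Y : V} (a b : T.CH Y) :
    K.cyl e (a + b) = K.cyl e a + K.cyl e b := by
  unfold cyl
  rw [map_add, map_add]
  rfl

theorem cyl_smul (e : K.H (𝟙_ V)) {Y : V} (r : ℚ) (a : T.CH Y) :
    K.cyl e (r • a) = (r : ℂ) • K.cyl e a := by
  unfold cyl
  rw [map_smul, K.act_smul]
  rfl

theorem cyl_zero (e : K.H (𝟙_ V)) (Y : V) : K.cyl e (0 : T.CH Y) = 0 := by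
  unfold cyl
  rw [map_zero, map_zero]
  rfl

theorem cyl_sum (e : K.H (𝟙_ V)) {Y : V} {ι : Type*} (s : Finset ι) (r : ι → ℚ) (a : ι → T.CH Y) :
    K.cyl e (∑ k ∈ s, r k • a k) = ∑ k ∈ s, (r k : ℂ) • K.cyl e (a k) := by
  classical
  induction s using Finset.induction_on with
  | empty => rw [Finset.sum_empty, Finset.sum_empty, K.cyl_zero]
  | insert k s hk ih =>
    rw [Finset.sum_insert hk, Finset.sum_insert hk, K.cyl_add, K.cyl_smul, ih]

/-- the pairing with a cycle of complementary codimension -/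
theorem act_cyl (e : K.H (𝟙_ V)) {Y : V} {i : ℤ} {a b : T.CH Y} (ha : a ∈ T.gr Y i)
    (hb : b ∈ T.gr Y (T.dim Y - i)) :
    K.act (T.pull (fst Y (𝟙_ V)) b) (K.cyl e a) = ((T.deg (a * b) : ℚ) : ℂ) • e := by
  have h1 := congrArg Subtype.val (Mot.sec_cosec ⟨a, ha⟩ ⟨b, hb⟩)
  change T.cp (T.pull (snd (𝟙_ V) Y) a) (T.pull (fst Y (𝟙_ V)) b) =
    T.deg (a * b) • T.diag (𝟙_ V) at h1
  unfold cyl
  rw [← K.act_cp, h1, K.act_smul]
  change ((T.deg (a * b) : ℚ) : ℂ) • K.act (T.diag (𝟙_ V)) e = _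
  rw [K.act_diag]

/-- complex coefficients which annihilate rational vectors -/
theorem coeff_zero {ι : Type*} [Fintype ι] {Y : V} {i : ℤ} (a : ι → T.CH Y)
    (h : ∀ r : ι → ℚ, (∀ b ∈ T.gr Y (T.dim Y - i), T.deg ((∑ k, r k • a k) * b) = 0) → r = 0)
    (c : ι → ℂ) (hc : ∀ b ∈ T.gr Y (T.dim Y - i), ∑ k, c k * ((T.deg (a k * b) : ℚ) : ℂ) = 0) :
    c = 0 := by
  funext k
  rw [Pi.zero_apply, ← Module.forall_dual_apply_eq_zero_iff ℚ (c k)]
  intro θ
  have h1 := h (fun k => θ (c k)) fun b hb => ?_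
  · exact congrFun h1 k
  · have h2 := congrArg θ (hc b hb)
    rw [map_sum, map_zero] at h2
    rw [Finset.sum_mul, map_sum, ← h2]
    refine Finset.sum_congr rfl fun j _ => ?_
    rw [smul_mul_assoc, map_smul, smul_eq_mul, mul_comm (c j)]
    have h3 : ((T.deg (a j * b) : ℚ) : ℂ) * c j = (T.deg (a j * b)) • c j := by
      rw [Algebra.smul_def]
      rfl
    rw [h3, map_smul, smul_eq_mul, mul_comm]

/-- cycles which are independent modulo the numerically trivial ones have independent classes -/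
theorem cyl_indep {e : K.H (𝟙_ V)} (he : e ≠ 0) {ι : Type*} [Fintype ι] {Y : V} {i : ℤ}
    (a : ι → T.CH Y) (ha : ∀ k, a k ∈ T.gr Y i)
    (h : ∀ r : ι → ℚ, (∀ b ∈ T.gr Y (T.dim Y - i), T.deg ((∑ k, r k • a k) * b) = 0) → r = 0) :
    LinearIndependent ℂ fun k => K.cyl e (a k) := by
  rw [Fintype.linearIndependent_iff]
  intro c hc
  refine congrFun (coeff_zero (T := T) a h c fun b hb => ?_)
  have h1 := congrArg (K.act (T.pull (fst Y (𝟙_ V)) b)) hc
  rw [map_sum, map_zero] at h1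
  have h2 : (∑ k, c k * ((T.deg (a k * b) : ℚ) : ℂ)) • e = 0 := by
    rw [← h1, Finset.sum_smul]
    refine Finset.sum_congr rfl fun k _ => ?_
    rw [map_smul, K.act_cyl e (ha k) hb, smul_smul]
  exact (smul_eq_zero.1 h2).resolve_right he

/-- the span of the classes of the cycles of codimension `i` -/
def clSpan (e : K.H (𝟙_ V)) (Y : V) (i : ℤ) : Submodule ℂ (K.H Y) :=
  Submodule.span ℂ (K.cyl e '' (T.gr Y i : Set (T.CH Y)))

theorem fr_unit (x : K.H (𝟙_ V)) : K.fr (𝟙_ V) x = x := by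
  unfold fr
  rw [R.Fr_unit]
  exact K.act_diag _ x

theorem unit_mem (x : K.H (𝟙_ V)) : x ∈ K.gr (𝟙_ V) 0 := by
  have h := K.gen_le (𝟙_ V) 0
  rw [mul_zero] at h
  refine h ?_
  rw [zpow_zero, Module.End.mem_maxGenEigenspace]
  refine ⟨1, ?_⟩
  rw [pow_one]
  change K.fr (𝟙_ V) x - (1 : ℂ) • x = 0
  rw [K.fr_unit, one_smul, sub_self]

theorem cyl_gr (e : K.H (𝟙_ V)) {Y : V} {i : ℤ} {a : T.CH Y} (ha : a ∈ T.gr Y i) :
    K.cyl e a ∈ K.gr Y (2 * i) := by
  have h1 := K.act_mem i 0 (T.pull (snd (𝟙_ V) Y) a) e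
    (T.gr_congr (by rw [T.dim_unit]; ring) (T.pull_mem (snd (𝟙_ V) Y) _ _ ha)) (K.unit_mem e)
  rwa [zero_add] at h1

theorem fr_cyl (e : K.H (𝟙_ V)) {Y : V} {i : ℤ} {a : T.CH Y} (ha : a ∈ T.gr Y i) :
    K.fr Y (K.cyl e a) = ((R.q : ℂ) ^ i) • K.cyl e a := by
  unfold fr cyl
  rw [← K.act_cp, T.cp_section, T.corr_gr', R.pull_Fr Y i a ha, map_smul, K.act_smul]
  push_cast
  rfl

/-- the Frobenius invariants -/
noncomputable def tate (Y : V) (i : ℤ) : Submodule ℂ (K.H Y) :=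
  K.gr Y (2 * i) ⊓ Module.End.eigenspace (K.fr Y) ((R.q : ℂ) ^ i)

theorem cyl_mem_tate (e : K.H (𝟙_ V)) {Y : V} {i : ℤ} {a : T.CH Y} (ha : a ∈ T.gr Y i) :
    K.cyl e a ∈ K.tate Y i :=
  ⟨K.cyl_gr e ha, Module.End.mem_eigenspace_iff.2 (K.fr_cyl e ha)⟩

theorem clSpan_le (e : K.H (𝟙_ V)) (Y : V) (i : ℤ) : K.clSpan e Y i ≤ K.tate Y i := by
  refine Submodule.span_le.2 ?_
  rintro _ ⟨a, ha, rfl⟩
  exact K.cyl_mem_tate e ha

theorem tate_le (Y : V) (i : ℤ) :
    K.tate Y i ≤ Module.End.maxGenEigenspace (K.fr Y) ((R.q : ℂ) ^ i) := by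
  rintro x ⟨-, hx⟩
  rw [Module.End.mem_maxGenEigenspace]
  refine ⟨1, ?_⟩
  rw [pow_one]
  change K.fr Y x - ((R.q : ℂ) ^ i) • x = 0
  rw [Module.End.mem_eigenspace_iff.1 hx, sub_self]

/-- semisimplicity of the eigenvalue `q ^ i` -/
def SS (Y : V) (i : ℤ) : Prop := ∀ x : K.H Y,
  K.fr Y (K.fr Y x - ((R.q : ℂ) ^ i) • x) - ((R.q : ℂ) ^ i) • (K.fr Y x - ((R.q : ℂ) ^ i) • x) = 0 →
    K.fr Y x - ((R.q : ℂ) ^ i) • x = 0

theorem gen_le_tate {Y : V} {i : ℤ} (h : K.SS Y i) :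
    Module.End.maxGenEigenspace (K.fr Y) ((R.q : ℂ) ^ i) ≤ K.tate Y i := by
  intro x hx
  refine ⟨K.gen_le Y i hx, ?_⟩
  obtain ⟨n, hn⟩ := Module.End.mem_maxGenEigenspace _ _ _ |>.1 hx
  clear hx
  have key : ∀ (n : ℕ) (y : K.H Y),
      (((K.fr Y : Module.End ℂ (K.H Y)) - ((R.q : ℂ) ^ i) • 1) ^ (n + 1)) y = 0 →
      K.fr Y y - ((R.q : ℂ) ^ i) • y = 0 := by
    intro n
    induction n with
    | zero =>
      intro y hy
      rw [zero_add, pow_one] at hy
      exact hy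
    | succ n ih =>
      intro y hy
      rw [pow_succ] at hy
      exact h y (ih (K.fr Y y - ((R.q : ℂ) ^ i) • y) hy)
  have h1 : (((K.fr Y : Module.End ℂ (K.H Y)) - ((R.q : ℂ) ^ i) • 1) ^ (n + 1)) x = 0 := by
    rw [pow_succ']
    change ((K.fr Y : Module.End ℂ (K.H Y)) - ((R.q : ℂ) ^ i) • 1)
      ((((K.fr Y : Module.End ℂ (K.H Y)) - ((R.q : ℂ) ^ i) • 1) ^ n) x) = 0
    rw [hn, map_zero]
  exact Module.End.mem_eigenspace_iff.2 (sub_eq_zero.1 (key n x h1))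

/-- lifts of a basis of the cycles modulo the numerically trivial ones -/
theorem exists_lifts {Y : V} {i : ℤ} {n : ℕ}
    (hn : Module.rank ℚ (T.gr Y i ⧸ T.num Y i) = (n : Cardinal.{w})) :
    ∃ a : Fin n → T.CH Y, (∀ k, a k ∈ T.gr Y i) ∧
      (∀ r : Fin n → ℚ, (∀ b ∈ T.gr Y (T.dim Y - i), T.deg ((∑ k, r k • a k) * b) = 0) → r = 0) ∧
      ∀ c ∈ T.gr Y i, ∃ r : Fin n → ℚ, ∃ d ∈ T.num Y i, c = ∑ k, r k • a k + d.1 := by
  have hfin : Module.Finite ℚ (T.gr Y i ⧸ T.num Y i) := by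
    rw [← Module.rank_lt_aleph0_iff, hn]
    exact Cardinal.natCast_lt_aleph0
  have hfr : Module.finrank ℚ (T.gr Y i ⧸ T.num Y i) = n := by
    unfold Module.finrank
    rw [hn, Cardinal.toNat_natCast]
  let β := Module.finBasisOfFinrankEq ℚ (T.gr Y i ⧸ T.num Y i) hfr
  choose f hf using fun k => Submodule.Quotient.mk_surjective (T.num Y i) (β k)
  have hsum : ∀ r : Fin n → ℚ, (T.num Y i).mkQ (∑ k, r k • f k) = ∑ k, r k • β k := by
    intro r
    rw [map_sum]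
    refine Finset.sum_congr rfl fun k _ => ?_
    rw [map_smul]
    exact congrArg _ (hf k)
  have hval : ∀ r : Fin n → ℚ, ((∑ k, r k • f k : T.gr Y i) : T.CH Y) = ∑ k, r k • (f k).1 := by
    intro r
    rw [AddSubmonoidClass.coe_finsetSum]
    rfl
  refine ⟨fun k => (f k).1, fun k => (f k).2, ?_, ?_⟩
  · intro r hr
    have h1 : (∑ k, r k • f k : T.gr Y i) ∈ T.num Y i := by
      intro b hb
      rw [hval]
      exact hr b hb
    have h2 : (T.num Y i).mkQ (∑ k, r k • f k) = 0 := by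
      rw [Submodule.mkQ_apply]
      exact (Submodule.Quotient.mk_eq_zero _).2 h1
    rw [hsum] at h2
    exact funext (Fintype.linearIndependent_iff.1 β.linearIndependent r h2)
  · intro c hc
    have h1 := β.sum_repr ((T.num Y i).mkQ ⟨c, hc⟩)
    refine ⟨fun k => β.repr ((T.num Y i).mkQ ⟨c, hc⟩) k,
      ⟨c, hc⟩ - ∑ k, β.repr ((T.num Y i).mkQ ⟨c, hc⟩) k • f k, ?_, ?_⟩
    · rw [← Submodule.Quotient.mk_eq_zero, ← Submodule.mkQ_apply, map_sub, hsum, h1, sub_self]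
    · rw [AddSubgroupClass.coe_sub, hval]
      exact (add_sub_cancel _ _).symm

/-- if the number of independent cycles is the multiplicity of the eigenvalue, all Tate classes are
classes of cycles, the eigenvalue is semisimple, and numerically trivial cycles have class zero -/
theorem tate_of_rank {e : K.H (𝟙_ V)} (he : e ≠ 0) {Y : V} {i : ℤ}
    (hn : Module.rank ℚ (T.gr Y i ⧸ T.num Y i) = ((K.mult Y i : ℕ) : Cardinal.{w})) :
    K.tate Y i ≤ K.clSpan e Y i ∧ K.SS Y i ∧ ∀ a ∈ T.num Y i, K.cyl e a.1 = 0 := by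
  obtain ⟨a, ha, hr, -⟩ := exists_lifts hn
  have hind := K.cyl_indep he a ha hr
  have h1 : Module.finrank ℂ (Submodule.span ℂ (Set.range fun k => K.cyl e (a k))) =
      K.mult Y i := by
    rw [finrank_span_eq_card hind, Fintype.card_fin]
  have hle : Submodule.span ℂ (Set.range fun k => K.cyl e (a k)) ≤ K.clSpan e Y i := by
    refine Submodule.span_le.2 ?_
    rintro _ ⟨k, rfl⟩
    exact Submodule.subset_span ⟨a k, ha k, rfl⟩
  have hgen : Submodule.span ℂ (Set.range fun k => K.cyl e (a k)) =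
      Module.End.maxGenEigenspace (K.fr Y) ((R.q : ℂ) ^ i) := by
    refine Submodule.eq_of_le_of_finrank_le
      (hle.trans ((K.clSpan_le e Y i).trans (K.tate_le Y i))) ?_
    rw [h1, ← K.mult_eq]
  have h2 : Module.End.maxGenEigenspace (K.fr Y) ((R.q : ℂ) ^ i) ≤ K.tate Y i := by
    rw [← hgen]
    exact hle.trans (K.clSpan_le e Y i)
  refine ⟨(K.tate_le Y i).trans (hgen.symm.le.trans hle), ?_, ?_⟩
  · intro x hx
    have h3 : x ∈ Module.End.maxGenEigenspace (K.fr Y) ((R.q : ℂ) ^ i) := by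
      rw [Module.End.mem_maxGenEigenspace]
      refine ⟨2, ?_⟩
      rw [pow_two]
      exact hx
    exact sub_eq_zero.2 (Module.End.mem_eigenspace_iff.1 (h2 h3).2)
  · intro d hd
    have h3 : K.cyl e d.1 ∈ Submodule.span ℂ (Set.range fun k => K.cyl e (a k)) := by
      rw [hgen]
      exact K.tate_le Y i (K.cyl_mem_tate e d.2)
    obtain ⟨c, hc⟩ := (Submodule.mem_span_range_iff_exists_fun ℂ).1 h3
    have h4 : c = 0 := by
      refine coeff_zero (T := T) a hr c fun b hb => ?_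
      have h5 := congrArg (K.act (T.pull (fst Y (𝟙_ V)) b)) hc
      rw [map_sum, K.act_cyl e d.2 hb, hd b hb] at h5
      have h6 : (∑ k, c k * ((T.deg (a k * b) : ℚ) : ℂ)) • e = 0 := by
        rw [Finset.sum_smul]
        have h7 : ∑ k, (c k * ((T.deg (a k * b) : ℚ) : ℂ)) • e =
            ∑ k, K.act (T.pull (fst Y (𝟙_ V)) b) (c k • K.cyl e (a k)) := by
          refine Finset.sum_congr rfl fun k _ => ?_
          rw [map_smul, K.act_cyl e (ha k) hb, smul_smul]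
        rw [h7, h5, Rat.cast_zero, zero_smul]
      exact (smul_eq_zero.1 h6).resolve_right he
    rw [← hc, h4]
    exact Finset.sum_eq_zero fun k _ => by rw [Pi.zero_apply, zero_smul]

/-- conversely -/
theorem mult_le_of_tate {e : K.H (𝟙_ V)} {Y : V} {i : ℤ} {n : ℕ}
    (hn : Module.rank ℚ (T.gr Y i ⧸ T.num Y i) = (n : Cardinal.{w}))
    (h1 : K.tate Y i ≤ K.clSpan e Y i) (h2 : K.SS Y i)
    (h3 : ∀ a ∈ T.num Y i, K.cyl e a.1 = 0) : K.mult Y i ≤ n := by
  obtain ⟨a, ha, -, hr⟩ := exists_lifts hn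
  have hle : K.clSpan e Y i ≤ Submodule.span ℂ (Set.range fun k => K.cyl e (a k)) := by
    refine Submodule.span_le.2 ?_
    rintro _ ⟨c, hc, rfl⟩
    obtain ⟨r, d, hd, rfl⟩ := hr c hc
    rw [K.cyl_add, h3 d hd, add_zero, K.cyl_sum]
    exact Submodule.sum_mem _ fun k _ => Submodule.smul_mem _ _ (Submodule.subset_span ⟨k, rfl⟩)
  have h4 := Submodule.finrank_mono ((K.gen_le_tate h2).trans (h1.trans hle))
  rw [← K.mult_eq] at h4
  have h5 := finrank_range_le_card (R := ℂ) fun k => K.cyl e (a k)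
  rw [Fintype.card_fin] at h5
  exact h4.trans h5

end Cohomology

end CHM
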