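import Pool.Agent.GGap.FinC
import Pool.Agent.MotP.Reg

/-!
# The half law (MP_6c4da4_ag, MP_cb388a_ag): definitions

`W : MotP.Frob C`: a rigid tensor category with a Frobenius structure in which numerically trivial
morphisms are zero (the category of numerical motives; all `Hom` spaces are finite-dimensional
(`Frob.finite_hom`), all `End X` are semisimple (`Frob.semisimple`), every morphism is regular
(`Frob.regular`)).
-/

set_option autoImplicit false

open CategoryTheory MonoidalCategory BraidedCategory Limits

universe v u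

namespace MotP.HL

open Mot MotP.GGap

noncomputable section

variable {C : Type u} [Category.{v} C] [Preadditive C] [Linear ℚ C] [MonoidalCategory C]
  [SymmetricCategory C] [MonoidalPreadditive C] [MonoidalLinear ℚ C] [RightRigidCategory C]

/-- the Frobenius structure in the sense of `GGap` -/
def fr (W : Frob C) : Fr C where
  scalar := W.scalar
  ne := W.ne
  F := W.F
  F_unit := W.F_unit
  F_tensor := W.F_tensor
  α := W.α
  β := W.β
  trace := W.trace
  odd := W.odd

/-- `X` is the direct sum of `Y` and `Z`. -/
structure Dec (X Y Z : C) where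
  i : Y ⟶ X
  p : X ⟶ Y
  j : Z ⟶ X
  q : X ⟶ Z
  ip : i ≫ p = 𝟙 Y
  jq : j ≫ q = 𝟙 Z
  iq : i ≫ q = 0
  jp : j ≫ p = 0
  sum : p ≫ i + q ≫ j = 𝟙 X

/-- the dimension of the space of sections -/
def n (X : C) : ℕ := Module.finrank ℚ (𝟙_ C ⟶ X)

/-- the dimension of the space of morphisms -/
def h (X Y : C) : ℕ := Module.finrank ℚ (X ⟶ Y)

/-- the number of Frobenius eigenvalues -/
def b (W : Frob C) (X : C) : ℕ := (fr W).b X

/-- the net multiplicity of `z` as an eigenvalue of Frobenius -/
def ν (W : Frob C) (X : C) (z : ℂ) : ℤ := (fr W).ν X z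

/-- the multiplicity of the eigenvalue `1` -/
def m (W : Frob C) (X : C) : ℕ := W.mult X

/-- the dimension of `End (X ^ (⊗ r))` -/
def nn (X : C) (r : ℕ) : ℕ := h (T X r) (T X r)

/-- the number of pairs of equal eigenvalues of `X ^ (⊗ r)` -/
def mm (W : Frob C) (X : C) (r : ℕ) : ℕ := m W (T X r ⊗ (T X r)ᘁ)

end

end MotP.HL
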