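import Pool.Agent.HL.NumQ

/-!
# The half law, part N: comparison of a Chow theory and its quotient modulo numerical equivalence
-/

set_option autoImplicit false

open CategoryTheory MonoidalCategory CartesianMonoidalCategory Limits

universe v u w x

namespace MotP.HL

open CHM

noncomputable section

variable {V : Type u} [Category.{v} V] [CartesianMonoidalCategory V]

section

variable (T : CHM.ChowTheory.{v, u, w} V)

/-- cycles of positive dimension have degree zero -/
theorem deg_eq_zero {X : V} {i : ℤ} {a : T.CH X} (ha : a ∈ T.gr X i) (h : i ≠ T.dim X) :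
    T.deg a = 0 := by
  have h1 : algebraMap ℚ (T.CH (𝟙_ V)) (T.deg a) ∈ T.gr (𝟙_ V) (i + T.dim (𝟙_ V) - T.dim X) := by
    rw [T.algebraMap_deg]
    exact T.push_mem _ _ _ ha
  have h2 : algebraMap ℚ (T.CH (𝟙_ V)) (T.deg a) ∈ T.gr (𝟙_ V) 0 := by
    rw [Algebra.algebraMap_eq_smul_one]
    exact Submodule.smul_mem _ _ (T.one_mem _)
  have h3 : i + T.dim (𝟙_ V) - T.dim X ≠ 0 := by
    rw [T.dim_unit]
    omega
  have h4 := DirectSum.decompose_of_mem_ne (T.gr (𝟙_ V)) h1 h3
  rw [DirectSum.decompose_of_mem_same (T.gr (𝟙_ V)) h2] at h4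
  rw [← map_zero (algebraMap ℚ (T.CH (𝟙_ V)))] at h4
  exact T.point.1 h4

/-- every property which is additive holds for all cycles if it holds for homogeneous cycles -/
theorem homog_induction {X : V} {P : T.CH X → Prop} (h0 : P 0)
    (h1 : ∀ (i : ℤ), ∀ a ∈ T.gr X i, P a) (h2 : ∀ a b, P a → P b → P (a + b)) (a : T.CH X) :
    P a :=
  DirectSum.Decomposition.inductionOn (T.gr X) h0 (fun {i} m => h1 i m.1 m.2) h2 a

/-- a homogeneous cycle is numerically trivial if its products with the cycles of complementary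
dimension have degree zero -/
theorem nt_of_homog {X : V} {i : ℤ} {a : T.CH X} (ha : a ∈ T.gr X i)
    (h : ∀ b ∈ T.gr X (T.dim X - i), T.deg (a * b) = 0) : a ∈ nt T X := by
  intro b
  refine homog_induction T (P := fun b => T.deg (a * b) = 0) ?_ ?_ ?_ b
  · rw [mul_zero, map_zero]
  · intro j b hb
    by_cases hj : j = T.dim X - i
    · subst hj
      exact h b hb
    · exact deg_eq_zero T (T.mul_mem ha hb) (by omega)
  · intro b c hb hc
    rw [mul_add, map_add, hb, hc, add_zero]

end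

section

variable {T : CHM.ChowTheory.{v, u, w} V} (hG : S_NGR T) (hU : S_NUN T)

theorem numQ_dim (X : V) : (numQ T hG hU).dim X = T.dim X := rfl

theorem numQ_pull {X Y : V} (f : X ⟶ Y) (a : T.CH Y) :
    (numQ T hG hU).pull f (pr T Y a) = pr T X (T.pull f a) := rfl

theorem numQ_push {X Y : V} (f : X ⟶ Y) (a : T.CH X) :
    (numQ T hG hU).push f (pr T X a) = pr T Y (T.push f a) := pushQ_pr T f a

theorem numQ_gr {X : V} {i : ℤ} {a : (numQ T hG hU).CH X} :
    a ∈ (numQ T hG hU).gr X i ↔ ∃ b ∈ T.gr X i, pr T X b = a := Iff.rfl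

theorem numQ_mem {X : V} {i : ℤ} {a : T.CH X} (ha : a ∈ T.gr X i) :
    (show (numQ T hG hU).CH X from pr T X a) ∈ (numQ T hG hU).gr X i := ⟨a, ha, rfl⟩

theorem numQ_deg {X : V} (a : T.CH X) : (numQ T hG hU).deg (X := X) (pr T X a) = T.deg a := by
  apply (numQ T hG hU).point.1
  rw [(numQ T hG hU).algebraMap_deg]
  refine (numQ_push hG hU _ a).trans ?_
  rw [← T.algebraMap_deg]
  exact AlgHom.commutes (pr T (𝟙_ V)) _

theorem numQ_cp {X Y Z : V} (f : T.CH (X ⊗ Y)) (g : T.CH (Y ⊗ Z)) :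
    (numQ T hG hU).cp (X := X) (Y := Y) (Z := Z) (pr T _ f) (pr T _ g) = pr T _ (T.cp f g) := by
  unfold ChowTheory.cp
  refine Eq.trans ?_ (numQ_push hG hU _ _)
  rfl

theorem numQ_gr' {X Y : V} (φ : Y ⟶ X) : (numQ T hG hU).gr' φ = pr T _ (T.gr' φ) := by
  unfold ChowTheory.gr'
  refine Eq.trans ?_ (numQ_push hG hU _ _)
  rfl

theorem numQ_diag (X : V) : (numQ T hG hU).diag X = pr T _ (T.diag X) := numQ_gr' hG hU (𝟙 X)

theorem numQ_ten {X Y X' Y' : V} (f : T.CH (X ⊗ Y)) (f' : T.CH (X' ⊗ Y')) :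
    (numQ T hG hU).ten (X := X) (Y := Y) (X' := X') (Y' := Y') (pr T _ f) (pr T _ f') =
      pr T _ (T.ten f f') := rfl

theorem numQ_tr {X Y : V} (f : T.CH (X ⊗ Y)) :
    (numQ T hG hU).tr (X := X) (Y := Y) (pr T _ f) = pr T _ (T.tr f) := rfl

theorem numQ_trc {X : V} (f : T.CH (X ⊗ X)) :
    (numQ T hG hU).trc (X := X) (pr T _ f) = T.trc f := by
  unfold ChowTheory.trc
  exact numQ_deg hG hU _

/-- a cycle is zero modulo numerical equivalence -/
theorem numQ_zero {X : V} (a : T.CH X) :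
    (show (numQ T hG hU).CH X from pr T X a) = 0 ↔ ∀ b, T.deg (a * b) = 0 := pr_eq_zero T

/-- in the quotient, numerically trivial cycles are zero -/
theorem numQ_num {X : V} (a : (numQ T hG hU).CH X)
    (ha : ∀ b, (numQ T hG hU).deg (a * b) = 0) : a = 0 := by
  obtain ⟨a, rfl⟩ := pr_surj T X a
  refine (numQ_zero hG hU a).2 fun b => ?_
  rw [← numQ_deg hG hU]
  exact ha (pr T X b)

/-- The Frobenius endomorphisms for the Chow theory modulo numerical equivalence. -/
def frQ (R : CHM.FrobeniusMaps T) : CHM.FrobeniusMaps (numQ T hG hU) where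
  q := R.q
  one_lt := R.one_lt
  Fr := R.Fr
  natural := R.natural
  pull_Fr X i a ha := by
    obtain ⟨b, hb, rfl⟩ := ha
    refine (numQ_pull hG hU _ b).trans ?_
    rw [R.pull_Fr X i b hb]
    exact map_smul (pr T X) _ _
  push_Fr X := by
    refine (numQ_push hG hU _ 1).trans ?_
    rw [R.push_Fr X]
    exact map_smul (pr T X) _ _

end

end

end MotP.HL
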