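import Pool.Agent.HL.Defs

/-!
# The half law: statements of the modules of the core (architect helper39)

THEOREM (`S_HLF`). Numerical motives; `n X = dim Hom(1, X)`, `m X` the multiplicity of the Frobenius eigenvalue `1` of `X`, always
`n X ≤ m X`. If `n X ≥ c * m X` with a constant `c > 1/2` for all `X` in a class which is stable under tensor products, duals and
direct sums, then `n X = m X` for all `X` in the class. Proof in the notes (2817) and in the doc strings.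

Module `X` proves `theorem t_X : S_X C` (or `M_X C`, whose hypotheses are statements of other modules) in the namespace
`MotP.HL`, in the file `Pool/Agent/HL/P_X.lean`, importing this file. Every `S_X C` below is about all Frobenius structures `W : Frob C`.
`f ≫ g` is first `f`. Useful: `W.finite_hom X Y`, `W.finrank_hom_le X Y : finrank (X ⟶ Y) ≤ W.mult (Y ⊗ Xᘁ)`, `W.rank_le`, `W.regular f`, `W.semisimple`, `W.t_split`, `W.t_tensor`, `W.mult_add`,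
`W.mult_unit`, `W.mult_of_zero`, `W.val_spec`, `MotP.nm`, `nmL`, `nm_inj`, `nm_surj`, `ev_surj`, `nm_ev` (files `Pool/Agent/MotP/Base, Van, Reg, Kim.lean`), and the
library `Pool/Agent/GGap` for `fr W : Fr C` (`t_NET`, `t_TVA`, `t_TVD`, `TVA.t_sum`, `TVA.ν_eq`, `TVA.b_eq`, `DEC.fit`, `DEC.tr_poly`, `DEC.ν_root`, `DEC.ν_integral`, `DEC.ν_galois`; `(fr W).t X k = W.t X k`
is `rfl`).
-/

set_option autoImplicit false

open CategoryTheory MonoidalCategory BraidedCategory Limits Polynomial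

universe v u

namespace MotP.HL

open Mot MotP.GGap

noncomputable section

variable (C : Type u) [Category.{v} C] [Preadditive C] [Linear ℚ C] [MonoidalCategory C]
  [SymmetricCategory C] [MonoidalPreadditive C] [MonoidalLinear ℚ C] [RightRigidCategory C]

/-! ## Elementary facts -/

/-- ADD. Direct sums. (1) `W.t_split`. (2), (3) the linear maps `f ↦ (i ≫ f, j ≫ f)`, `(f ≫ p, f ≫ q)` are bijective; all spaces are finite-dimensional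
(`W.finite_hom`, `Module.finrank_prod`). (4), (5) tensor the data with `U`. -/
def S_ADD : Prop := ∀ [IsIdempotentComplete C] (W : Frob C) (X Y Z : C) (_ : Dec X Y Z),
  (∀ k, W.t X k = W.t Y k + W.t Z k) ∧
  (∀ U : C, h X U = h Y U + h Z U) ∧ (∀ U : C, h U X = h U Y + h U Z) ∧
  (∀ U : C, Nonempty (Dec (X ⊗ U) (Y ⊗ U) (Z ⊗ U))) ∧
  ∀ U : C, Nonempty (Dec (U ⊗ X) (U ⊗ Y) (U ⊗ Z))

/-- ADJ. Adjunctions, as equalities of dimensions. (1) `nmL` is a bijection (`nm_inj`, `nm_surj`). (2) the trace pairing `(f, g) ↦ val (tr (f ≫ g))` of `X ⟶ Y` and `Y ⟶ X` is nondegenerate on both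
sides (`W.num_zero`, `tr_comm`) and the spaces are finite-dimensional. (3) isomorphic objects. (4), (5) from (1), (3) and `(U ⊗ X)ᘁ ≅ Xᘁ ⊗ Uᘁ` (uniqueness of duals: `ExactPairing` of `U ⊗ X` with `Xᘁ ⊗ Uᘁ`, `rightDualIso`;
see the use of `trP_indep` in `MotP/Base.lean`), `Xᘁᘁ ≅ X` (`exactPairing_swap`), and the symmetry: `h U (R ⊗ U) = n ((R ⊗ U) ⊗ Uᘁ)`; `h (Q ⊗ U) (Q ⊗ U) = n ((Q ⊗ U) ⊗ (Q ⊗ U)ᘁ)`, `h U ((Qᘁ ⊗ Q) ⊗ U) = n (((Qᘁ ⊗ Q) ⊗ U) ⊗ Uᘁ)`. -/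
def S_ADJ : Prop := ∀ (W : Frob C),
  (∀ X Y : C, h X Y = n (Y ⊗ Xᘁ)) ∧ (∀ X Y : C, h X Y = h Y X) ∧
  (∀ (X Y : C) (_ : X ≅ Y), (∀ Z : C, h X Z = h Y Z) ∧ (∀ Z : C, h Z X = h Z Y) ∧ ∀ k, W.t X k = W.t Y k) ∧
  (∀ R U : C, h U (R ⊗ U) = n (R ⊗ (U ⊗ Uᘁ))) ∧
  (∀ Q U : C, h (Q ⊗ U) (Q ⊗ U) = h U ((Qᘁ ⊗ Q) ⊗ U)) ∧
  ∀ U X : C, h (U ⊗ X) (U ⊗ X) = n ((X ⊗ Xᘁ) ⊗ (U ⊗ Uᘁ))

/-- SPL. Splitting off the part where a polynomial in Frobenius is nilpotent. `DEC.fit (W.FE X) g` (`End X` is finite-dimensional): `k`, `N` with `g ∣ k`, `(k * k - k)(F) = 0`, `minpoly F ∣ (1 - k) g ^ N`. `Y` = image of the idempotent `(1 - k)(F)`, `Z` = image of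
`k(F)`. As `F` is natural, `(g ^ N)(F_Y) = 0`, and for `k = g * r`: `(g * r)(F_Z) = 𝟙`. Net multiplicities: `val (tr (F ^ s (1 - k)(F))) = ∑ ν z * z ^ s * (1 - k)(z)` (`DEC.tr_poly`; `t_retract`), and for `ν X z ≠ 0`: `(1 - k)(z) = 1` if `g(z) = 0` and `0` otherwise
(`DEC.ν_root`; see `hval` in `GGap/P_DEC.lean`); uniqueness `TVA.ν_eq`. -/
def S_SPL : Prop := ∀ [IsIdempotentComplete C] (W : Frob C) (X : C) (g : ℚ[X]), ∃ (Y Z : C) (_ : Dec X Y Z),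
  (∃ N : ℕ, aeval ((fr W).FE Y) (g ^ N) = 0) ∧ (∃ k : ℚ[X], aeval ((fr W).FE Z) (g * k) = 1) ∧
  (∀ z : ℂ, aeval z g = 0 → ν W Y z = ν W X z ∧ ν W Z z = 0) ∧
  ∀ z : ℂ, aeval z g ≠ 0 → ν W Y z = 0 ∧ ν W Z z = ν W X z

/-- TEN. Multiplicities of tensor products and duals. (1) `t (X ⊗ Y) k = t X k * t Y k` and uniqueness (`TVA.ν_eq`; probably inside the proof of `t_TVA`). (2) inside `t_TVD`. (3) `ν (z) = count α - count β` and `1 ∉ β`. (4) uniqueness. (5) uniqueness. -/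
def S_TEN : Prop := ∀ [IsIdempotentComplete C] (W : Frob C),
  (∀ (X Y : C) (w : ℂ), ν W (X ⊗ Y) w =
    ∑ z ∈ (fr W).S X, ∑ z' ∈ (fr W).S Y, if z * z' = w then ν W X z * ν W Y z' else 0) ∧
  (∀ (X : C) (z : ℂ), ν W Xᘁ z = ν W X z⁻¹) ∧
  (∀ X : C, ν W X 1 = m W X) ∧
  (∀ X Y Z : C, (∀ k, W.t X k = W.t Y k + W.t Z k) → ∀ z, ν W X z = ν W Y z + ν W Z z) ∧
  ∀ X Y : C, (∀ k, W.t X k = W.t Y k) → ∀ z, ν W X z = ν W Y z

/-- PAR. Parity of the eigenvalues: no number is an even eigenvalue of one object and an odd eigenvalue of another one. Let `ν X z > 0`, `ν Y z < 0`. `g` = the minimal polynomial of `z` over `ℚ` (`DEC.ν_integral`). SPL for `X`, `Y` and `g`: `X₁`, `Y₁` with `ν X₁ w = ν X w = ν X z > 0` for the roots `w` of `g`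
(`DEC.ν_galois`) and `0` otherwise, `ν Y₁ w = ν Y z < 0` for the roots. By TEN `ν (X₁ ⊗ Y₁ᘁ) 1 = ∑_(w root of g) ν X₁ w * ν Y₁ w < 0`, but `ν (·) 1 = m ≥ 0`. -/
def S_PAR : Prop := ∀ [IsIdempotentComplete C] (W : Frob C) (X Y : C) (z : ℂ), ¬ (0 < ν W X z ∧ ν W Y z < 0)

def M_PAR : Prop := S_SPL C → S_TEN C → S_PAR C

/-- BFA. The number `b` of eigenvalues. `b X = ∑_z |ν X z|` (`TVA.b_eq`). (1) No cancellation: all nonzero `ν X z ν Y z'` with `z z' = w` have the same sign: let `X₊, X₋` be the parts of `X` with positive/negative multiplicities (SPL with the product of the minimal polynomials of the `z` with `ν X z > 0`), the same for `Y`; the multiplicities of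
`X₊ ⊗ Y₊`, `X₋ ⊗ Y₋` are `≥ 0`, those of `X₊ ⊗ Y₋` are `≤ 0`, so by PAR for `w` either the products with `ν X z ν Y z' > 0` or those with `ν X z ν Y z' < 0` do not occur. So `|ν (X ⊗ Y) w| = ∑ |ν X z| |ν Y z'|`. (2) `|x + y| = |x| + |y|` for numbers of the same sign (PAR). (3) `ν Xᘁ z = ν X z⁻¹`. (5) `m X = ν X 1`. -/
def S_BFA : Prop := ∀ [IsIdempotentComplete C] (W : Frob C),
  (∀ X Y : C, b W (X ⊗ Y) = b W X * b W Y) ∧
  (∀ X Y Z : C, (∀ k, W.t X k = W.t Y k + W.t Z k) → b W X = b W Y + b W Z ∧ m W X = m W Y + m W Z) ∧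
  (∀ X : C, b W Xᘁ = b W X) ∧ b W (𝟙_ C) = 1 ∧ (∀ X : C, m W X ≤ b W X) ∧
  (∀ X Y : C, (∀ k, W.t X k = W.t Y k) → b W X = b W Y ∧ m W X = m W Y) ∧
  ∀ X : C, (∀ z : ℂ, z ≠ 1 → ν W X z = 0) → b W X = m W X

def M_BFA : Prop := S_SPL C → S_TEN C → S_PAR C → S_BFA C

/-- NTR. Splitting off the trivial summands. Induction on `n X`: if `n X > 0` there is `f : 𝟙 ⟶ X`, `f ≠ 0`, by `W.nd` a `g` with `f ≫ g = 𝟙` (scale), and `X` is the direct sum of `𝟙` and `X'` (see `rank_aux` in `MotP/Base.lean`), `n (𝟙) = 1`, `n X' = n X - 1` (ADD). Take `Y` for `X'`; `n ((𝟙 ⊗ U)) = n U`. -/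
def S_NTR : Prop := ∀ [IsIdempotentComplete C] (W : Frob C) (X : C), ∃ Y : C,
  n Y = 0 ∧ b W X = n X + b W Y ∧ m W X = n X + m W Y ∧ (∀ z : ℂ, z ≠ 1 → ν W Y z = ν W X z) ∧
  ∀ U : C, n (X ⊗ U) = n X * n U + n (Y ⊗ U)

def M_NTR : Prop := S_ADD C → S_TEN C → S_BFA C → S_NTR C

/-! ## The inequalities -/

/-- CSI. Cauchy-Schwarz. (A) `2 h X Y ≤ h X X + h Y Y`, by induction on `h X X`: if `h X Y = 0`, nothing to do. Otherwise let `f : X ⟶ Y`, `f ≠ 0`, and `g` with `f ≫ g ≫ f = f` (`W.regular`). The idempotents `f ≫ g` of `X` and `g ≫ f` of `Y` have isomorphic images: let `S`, `i : S ⟶ X`, `p : X ⟶ S` split `f ≫ g`; then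
`i ≫ f : S ⟶ Y` and `g ≫ p : Y ⟶ S` split `g ≫ f`-conjugate: `(i ≫ f) ≫ (g ≫ p) = i ≫ (p ≫ i) ≫ p = 𝟙 S`. So `Dec X S X'` and `Dec Y S Y'` (split the complementary idempotents), `𝟙 S ≠ 0`, `h S S ≥ 1`. With ADD and `h A B = h B A` (ADJ): `h X X + h Y Y - 2 h X Y = h X' X' + h Y' Y' - 2 h X' Y' ≥ 0`.
(B) For natural numbers `a, c` let `X_a` be the sum of `a` copies of `X` (iterated `⊞`, start with the zero object or with `X`), then `h X_a Y_c = a c h X Y`, so `2 a c h X Y ≤ a² h X X + c² h Y Y`; take `a = h Y Y`, `c = h X Y`. (If `h Y Y = 0` then `𝟙 Y = 0` and `h X Y = 0`.) -/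
def S_CSI : Prop := ∀ [HasFiniteBiproducts C] [IsIdempotentComplete C] (_ : Frob C) (X Y : C),
  h X Y ^ 2 ≤ h X X * h Y Y

def M_CSI : Prop := S_ADD C → S_ADJ C → S_CSI C

/-- NRM. The norm bound. Let `Q₀ = R`, `Q_(j+1) = Q_jᘁ ⊗ Q_j`, `x_j = h U (Q_j ⊗ U)`. CSI: `x_j² ≤ h U U * h (Q_j ⊗ U) (Q_j ⊗ U) = h U U * x_(j+1)` (ADJ 5). `b Q_j = (b R) ^ (2 ^ j)` (BFA). `x_j ≤ b (Q_j ⊗ U) * b U = b Q_j * (b U)²` (`W.finrank_hom_le`, `m ≤ b`, BFA). So with `y = h U U > 0`: `(x₀ / y) ^ (2 ^ j) ≤ x_j / y ≤ (b R) ^ (2 ^ j) (b U)² / y` for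
all `j`, hence `x₀ / y ≤ b R` (otherwise `(x₀ / (y b R)) ^ (2 ^ j)` is unbounded; `b R = 0` is possible). `h U U = 0`: then `x₀ = 0`. -/
def S_NRM : Prop := ∀ [HasFiniteBiproducts C] [IsIdempotentComplete C] (W : Frob C) (R U : C),
  h U (R ⊗ U) ≤ b W R * h U U

def M_NRM : Prop := S_ADJ C → S_BFA C → S_CSI C → S_NRM C

/-- GRO. Growth of `End (X ^ (⊗ r))`. As `Pool/Agent/GGap/P_GAP.lean` without the object `P` (all `Hom` spaces are finite-dimensional): `t_DEC` gives `Orth X A B`, the traces of `𝟙 A`, `𝟙 B` are `bp`, `-bm`, `b = bp + bm`. One of the terms `C(r, i) bp ^ i bm ^ l`, `i + l = r`, is at least `b ^ r / (r + 1)`. `t_COP`: `Cp C(r, i) (T A i ⊗ T B l) (T X r)`, `t_CPD`,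
`t_GRM` with `Q = 𝟙_ C` (and `𝟙_ C ⊗ U ≅ U`), `t_RIS`. -/
def S_GRO : Prop := ∀ [IsIdempotentComplete C] (W : Frob C) (X : C) (r : ℕ),
  b W X ^ (2 * r) ≤ (r + 1) ^ ((fr W).bp X ^ 2 + (fr W).bm X ^ 2 + 4) * nn X r

/-- INE. The main inequality: with `s = m₁ - n₁`: `n_(r+1) + 2 s n_r ≤ b² n_r + s m_r`. `E = X ⊗ Xᘁ`, `U = T X r`, `G = U ⊗ Uᘁ`; `n_(r+1) = h (U ⊗ X) (U ⊗ X) = n (E ⊗ G)`, `n_r = n G`, `m_r = m G`, `n₁ = n E`, `m₁ = m E`, `b E = b²`. (1) SPL for `E` and `g = X - 1`: `E = E₁ + R₀`, `ν R₀ 1 = 0`, `ν E₁ z = 0` for `z ≠ 1`. So `b E₁ = m E₁ = m E = m₁` (BFA 7), `b R₀ = b² - m₁`,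
`n R₀ ≤ m R₀ = 0` (`W.finrank_hom_le` or `W.rank_le`), `n E₁ = n₁`. (2) NTR for `E₁`: `S`, `n S = 0`, `b S = m₁ - n₁ = s`, `ν S z = 0` for `z ≠ 1`, `n (E₁ ⊗ G) = n₁ n_r + n (S ⊗ G)`. (3) `n (R₀ ⊗ G) = h U (R₀ ⊗ U) ≤ (b² - m₁) n_r` (ADJ 4, NRM). (4) SPL for `G`: `G = G₁ + G₀`, `ν G₀ 1 = 0`; `n (S ⊗ G₀) ≤ m (S ⊗ G₀) = ν (S ⊗ G₀) 1 = 0` (TEN: only pairs
`(1, 1)`). NTR for `G₁`: `N`, `n (G₁ ⊗ S) = n_r * n S + n (N ⊗ S) = n (N ⊗ S) ≤ m ≤ b N * b S = (m_r - n_r) s` (the braiding is an isomorphism, ADJ 3). Altogether `n_(r+1) = n (E ⊗ G) ≤ n₁ n_r + s (m_r - n_r) + (b² - m₁) n_r`. -/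
def S_INE : Prop := ∀ [HasFiniteBiproducts C] [IsIdempotentComplete C] (W : Frob C) (X : C) (r : ℕ),
  nn X (r + 1) + 2 * (m W (X ⊗ Xᘁ) - h X X) * nn X r ≤
    b W X ^ 2 * nn X r + (m W (X ⊗ Xᘁ) - h X X) * mm W X r

def M_INE : Prop := S_ADD C → S_ADJ C → S_SPL C → S_TEN C → S_BFA C → S_NTR C → S_NRM C → S_INE C

/-! ## The conclusions -/

/-- END. Let `s = m₁ - n₁ ≥ 1` (`n₁ ≤ m₁`: `W.finrank_hom_le`). INE and `m_r ≤ n_r / c`: `n_(r+1) ≤ (b² - s (2 - 1/c)) n_r ≤ θ n_r`, `θ = b² - (2 - 1/c) < b²`, so `n_r ≤ max(θ, 0) ^ r` (`n_0 = 1`), but by GRO `b ^ (2 r) ≤ (r + 1) ^ k n_r`: impossible for large `r` (`b ≥ 1` because `m₁ ≥ 1`; `tendsto_pow_const_div_const_pow_of_one_lt`). -/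
def S_END : Prop := ∀ [HasFiniteBiproducts C] [IsIdempotentComplete C] (W : Frob C) (X : C) (c : ℝ), 1 / 2 < c →
  (∀ r, c * mm W X r ≤ nn X r) → h X X = m W (X ⊗ Xᘁ)

def M_END : Prop := S_GRO C → S_INE C → S_END C

/-- HLF. The half law. Let `P X`, and `M` with `P M`, `Dec M (𝟙_ C) X`. `P (T M r ⊗ (T M r)ᘁ)` for all `r`; `h A A = n (A ⊗ Aᘁ)` (ADJ), so END gives `h M M = m (M ⊗ Mᘁ)`. `h M M = h 𝟙 𝟙 + h 𝟙 X + h X 𝟙 + h X X` (ADD), `m (M ⊗ Mᘁ) = ν (M ⊗ Mᘁ) 1 = ∑_w (ν M w)² = m (𝟙 ⊗ 𝟙ᘁ) + m (X ⊗ 𝟙ᘁ) + m (𝟙 ⊗ Xᘁ) + m (X ⊗ Xᘁ)` (the traces of `Mᘁ` are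
those of `𝟙ᘁ` plus those of `Xᘁ`: TEN 2, 4), each `h A B ≤ m (B ⊗ Aᘁ)` (`W.finrank_hom_le`), so equality holds for `A = 𝟙`, `B = X`: `n X = h 𝟙 X = m (X ⊗ 𝟙ᘁ) = m X`. -/
def S_HLF : Prop := ∀ [HasFiniteBiproducts C] [IsIdempotentComplete C] (W : Frob C) (P : C → Prop), P (𝟙_ C) →
  (∀ X Y, P X → P Y → P (X ⊗ Y)) → (∀ X, P X → P Xᘁ) →
  (∀ X Y, P X → P Y → ∃ Z, P Z ∧ Nonempty (Dec Z X Y)) → ∀ c : ℝ, 1 / 2 < c →
  (∀ X, P X → c * m W X ≤ n X) → ∀ X, P X → n X = m W X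

def M_HLF : Prop := S_ADD C → S_ADJ C → S_TEN C → S_BFA C → S_END C → S_HLF C

/-- FIN. The finite forms. (1) Let `s = m₁ - n₁ ≥ 1`. `n_(r+1) ≤ b² n_r` (INE gives `n_(r+1) ≤ b² n_r + s (m_r - 2 n_r)`; `n_(r+1) = h (U ⊗ X) (U ⊗ X) = n (E ⊗ G) = h U (E ⊗ U) ≤ b E n_r` by ADJ 6, 4 and NRM). The hypothesis gives `m_r < 2 n_r`, so `s (m_r - 2 n_r) ≤ m_r - 2 n_r` and INE contradicts the hypothesis.
(2) Otherwise `n_(r+1) ≤ (b² - 1) n_r` for all `r ≥ 1`, which contradicts GRO as in END. (`b = 0`: then `n_r = 0` for `r ≥ 1`, excluded because `h X X ≥ 1`; so assume `𝟙 X ≠ 0`.) -/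
def S_FIN : Prop := ∀ [HasFiniteBiproducts C] [IsIdempotentComplete C] (W : Frob C) (X : C),
  (∀ r, b W X ^ 2 * nn X r + mm W X r < nn X (r + 1) + 2 * nn X r → h X X = m W (X ⊗ Xᘁ)) ∧
  (𝟙 X ≠ 0 → (∀ r, nn X r = mm W X r) →
    ∃ r, 0 < r ∧ b W X ^ 2 * nn X r + mm W X r < nn X (r + 1) + 2 * nn X r)

def M_FIN : Prop := S_ADJ C → S_BFA C → S_NRM C → S_GRO C → S_INE C → S_FIN C

end

end MotP.HL
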