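import Pool.Agent.CHM.Spec
import Pool.Agent.HL.St

/-!
# The half law, part N: the Chow theory modulo numerical equivalence
-/

set_option autoImplicit false

open CategoryTheory MonoidalCategory CartesianMonoidalCategory Limits

universe v u w x

namespace MotP.HL

open CHM

noncomputable section

variable {V : Type u} [Category.{v} V] [CartesianMonoidalCategory V]

section

variable (T : CHM.ChowTheory.{v, u, w} V)

theorem deg_push {X Y : V} (f : X ⟶ Y) (a : T.CH X) : T.deg (T.push f a) = T.deg a := by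
  apply T.point.1
  rw [T.algebraMap_deg, T.algebraMap_deg, ← T.push_comp]
  have e : f ≫ toUnit Y = toUnit X := toUnit_unique _ _
  rw [e]

/-- the ideal of the numerically trivial cycles -/
def nt (X : V) : Ideal (T.CH X) where
  carrier := {a | ∀ b, T.deg (a * b) = 0}
  add_mem' {a a'} ha ha' b := by rw [add_mul, map_add, ha b, ha' b, add_zero]
  zero_mem' b := by rw [zero_mul, map_zero]
  smul_mem' c a ha b := by
    rw [smul_eq_mul, mul_comm c a, mul_assoc]
    exact ha _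

theorem mem_nt {X : V} {a : T.CH X} : a ∈ nt T X ↔ ∀ b, T.deg (a * b) = 0 := Iff.rfl

theorem pull_nt {X Y : V} (f : X ⟶ Y) {a : T.CH Y} (ha : a ∈ nt T Y) : T.pull f a ∈ nt T X := by
  intro b
  rw [← deg_push T f, T.projection, mul_comm, mul_comm]
  exact ha _

theorem push_nt {X Y : V} (f : X ⟶ Y) {a : T.CH X} (ha : a ∈ nt T X) : T.push f a ∈ nt T Y := by
  intro b
  rw [mul_comm, ← T.projection, deg_push, mul_comm]
  exact ha _

/-- the projection modulo numerical equivalence -/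
def pr (X : V) : T.CH X →ₐ[ℚ] T.CH X ⧸ nt T X := Ideal.Quotient.mkₐ ℚ (nt T X)

theorem pr_surj (X : V) : Function.Surjective (pr T X) := Ideal.Quotient.mkₐ_surjective ℚ _

theorem pr_eq_zero {X : V} {a : T.CH X} : pr T X a = 0 ↔ a ∈ nt T X :=
  Ideal.Quotient.eq_zero_iff_mem

/-- the cycles of codimension `i` modulo numerical equivalence -/
def grQ (X : V) (i : ℤ) : Submodule ℚ (T.CH X ⧸ nt T X) := (T.gr X i).map (pr T X).toLinearMap

theorem mem_grQ {X : V} {i : ℤ} {a : T.CH X ⧸ nt T X} :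
    a ∈ grQ T X i ↔ ∃ b ∈ T.gr X i, pr T X b = a := Iff.rfl

/-- the pullback -/
def pullQ {X Y : V} (f : X ⟶ Y) : (T.CH Y ⧸ nt T Y) →ₐ[ℚ] (T.CH X ⧸ nt T X) :=
  Ideal.Quotient.liftₐ (nt T Y) ((pr T X).comp (T.pull f)) fun _ ha =>
    (pr_eq_zero T).2 (pull_nt T f ha)

theorem pullQ_pr {X Y : V} (f : X ⟶ Y) (a : T.CH Y) :
    pullQ T f (pr T Y a) = pr T X (T.pull f a) := rfl

/-- the pushforward -/
def pushQ {X Y : V} (f : X ⟶ Y) : (T.CH X ⧸ nt T X) →ₗ[ℚ] (T.CH Y ⧸ nt T Y) :=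
  ((LinearMap.ker (pr T X).toLinearMap).liftQ ((pr T Y).toLinearMap ∘ₗ T.push f) fun _ ha =>
    (pr_eq_zero T).2 (push_nt T f ((pr_eq_zero T).1 ha))) ∘ₗ
  ((pr T X).toLinearMap.quotKerEquivOfSurjective (pr_surj T X)).symm.toLinearMap

theorem pushQ_pr {X Y : V} (f : X ⟶ Y) (a : T.CH X) :
    pushQ T f (pr T X a) = pr T Y (T.push f a) := by
  have h1 : ((pr T X).toLinearMap.quotKerEquivOfSurjective (pr_surj T X)).symm (pr T X a) =
      (LinearMap.ker (pr T X).toLinearMap).mkQ a := by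
    rw [LinearEquiv.symm_apply_eq]
    rfl
  unfold pushQ
  rw [LinearMap.comp_apply, LinearEquiv.coe_coe, h1]
  rfl

/-- NGR. The cycles modulo numerical equivalence are graded. `DirectSum.isInternal_submodule_of_iSupIndep_of_iSup_eq_top`, `DirectSum.IsInternal.chooseDecomposition`; `⨆ grQ = ⊤` is the image of `⨆ gr = ⊤`. Independence
(`iSupIndep_iff_finsetSum_eq_zero_imp_eq_zero`, see `CHM/Weil.lean`): let `∑ (i ∈ s) pr a_i = 0`, `a_i ∈ gr X i`, so `∑ a_i` is numerically trivial; for `b ∈ gr X (dim X - i)` is `deg (a_i b) = deg ((∑ a_k) b) = 0` (`deg_eq_zero` in `Pool/Agent/HL/NumB.lean`; import that file), so `a_i` is numerically trivial (`nt_of_homog` in `NumB.lean`). -/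
def S_NGR : Prop := ∀ X : V, Nonempty (GradedAlgebra (grQ T X))

/-- NUN. Disjoint unions modulo numerical equivalence. The injectivity: let `i : X ⟶ Z`, `j : Y ⟶ Z` be as in `T.union`, `a ∈ CH (W ⊗ Z)` with `pull (W ◁ i) a`, `pull (W ◁ j) a` numerically trivial. As in `Mot.hasSum_h` (`Pool/Agent/CHM/Sums.lean`) there are correspondences `e : CH (X ⊗ Z)`, `e' : CH (Y ⊗ Z)` with
`cp (gr' i) e + cp (gr' j) e' = diag Z`, where `gr' i : CH (Z ⊗ X)`, and `cp a (gr' i) = pull (W ◁ i) a` (`cp_gr'`). So `a = cp a (diag Z) = cp (pull (W ◁ i) a) e + cp (pull (W ◁ j) a) e'` (`T.cp_diag`), numerically trivial (`pull_nt`, `push_nt`, ideals). The surjectivity: lift the elements. -/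
def S_NUN : Prop := ∀ X Y : V, T.dim X = T.dim Y → ∃ (Z : V) (i : X ⟶ Z) (j : Y ⟶ Z),
  T.dim Z = T.dim X ∧ ∀ W : V,
    (∀ a : T.CH (W ⊗ Z) ⧸ nt T (W ⊗ Z), pullQ T (W ◁ i) a = 0 → pullQ T (W ◁ j) a = 0 → a = 0) ∧
      ∀ (k : ℤ) (b : T.CH (W ⊗ X) ⧸ nt T (W ⊗ X)) (c : T.CH (W ⊗ Y) ⧸ nt T (W ⊗ Y)),
        b ∈ grQ T _ k → c ∈ grQ T _ k →
        ∃ a ∈ grQ T (W ⊗ Z) k, pullQ T (W ◁ i) a = b ∧ pullQ T (W ◁ j) a = c

/-- The Chow theory modulo numerical equivalence. -/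
def numQ (hG : S_NGR T) (hU : S_NUN T) : CHM.ChowTheory.{v, u, w} V where
  dim := T.dim
  dim_unit := T.dim_unit
  dim_tensor := T.dim_tensor
  CH X := T.CH X ⧸ nt T X
  ring _ := inferInstance
  algebra _ := inferInstance
  gr := grQ T
  graded X := (hG X).some
  pull f := pullQ T f
  pull_id X a := by
    obtain ⟨a, rfl⟩ := pr_surj T X a
    rw [pullQ_pr, T.pull_id]
  pull_comp {X Y Z} f g a := by
    obtain ⟨a, rfl⟩ := pr_surj T Z a
    rw [pullQ_pr, pullQ_pr, pullQ_pr, T.pull_comp]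
  pull_mem {X Y} f i a ha := by
    obtain ⟨b, hb, rfl⟩ := ha
    exact ⟨T.pull f b, T.pull_mem f i b hb, rfl⟩
  push f := pushQ T f
  push_id X a := by
    obtain ⟨a, rfl⟩ := pr_surj T X a
    rw [pushQ_pr, T.push_id]
  push_comp {X Y Z} f g a := by
    obtain ⟨a, rfl⟩ := pr_surj T X a
    rw [pushQ_pr, pushQ_pr, pushQ_pr, T.push_comp]
  push_mem {X Y} f i a ha := by
    obtain ⟨b, hb, rfl⟩ := ha
    exact ⟨T.push f b, T.push_mem f i b hb, (pushQ_pr T f b).symm⟩
  projection {X Y} f a b := by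
    obtain ⟨a, rfl⟩ := pr_surj T X a
    obtain ⟨b, rfl⟩ := pr_surj T Y b
    rw [pullQ_pr, ← map_mul, pushQ_pr, T.projection, map_mul, pushQ_pr]
  base_change {P X Y Z} g' f' f g h1 h2 a := by
    obtain ⟨a, rfl⟩ := pr_surj T X a
    rw [pushQ_pr, pullQ_pr, pullQ_pr, pushQ_pr, T.base_change g' f' f g h1 h2]
  point := by
    constructor
    · intro r s hrs
      have h1 : pr T (𝟙_ V) (algebraMap ℚ (T.CH (𝟙_ V)) (r - s)) = 0 := by
        rw [AlgHom.commutes, map_sub, sub_eq_zero]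
        exact hrs
      have h2 := (pr_eq_zero T).1 h1 1
      rw [mul_one] at h2
      have h3 : algebraMap ℚ (T.CH (𝟙_ V)) (r - s) = 0 := by
        have h4 := T.algebraMap_deg (algebraMap ℚ (T.CH (𝟙_ V)) (r - s))
        rw [h2, map_zero, toUnit_unique (toUnit (𝟙_ V)) (𝟙 _), T.push_id] at h4
        exact h4.symm
      rw [← map_zero (algebraMap ℚ (T.CH (𝟙_ V)))] at h3
      exact sub_eq_zero.1 (T.point.1 h3)
    · intro a
      obtain ⟨a, rfl⟩ := pr_surj T _ a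
      obtain ⟨r, rfl⟩ := T.point.2 a
      exact ⟨r, (AlgHom.commutes (pr T (𝟙_ V)) r).symm⟩
  union := hU
  line := by
    obtain ⟨E, c, h1, h2, h3⟩ := T.line
    exact ⟨E, pr T E c, h1, ⟨c, h2, rfl⟩, by rw [pushQ_pr, h3, map_one]⟩

end

end

end MotP.HL
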