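import Pool.Agent.HL.NumB
import Pool.Agent.CHM.Growth

/-!
# The half law, part N: statements of the modules (architect helper39)

`T : CHM.ChowTheory V` (Chow groups), `numQ T hG hU` the same theory modulo numerical equivalence (`Pool/Agent/HL/NumQ.lean`, comparison lemmas `numQ_*` in
`Pool/Agent/HL/NumB.lean`), so `CHM.Mot (numQ T hG hU)` is the category of numerical motives; `frQ hG hU R` its Frobenius. Module `X` proves `theorem t_X : S_X ...` in the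
namespace `MotP.HL`, in the file `Pool/Agent/HL/P_X.lean`, importing this file.
-/

set_option autoImplicit false

open CategoryTheory MonoidalCategory CartesianMonoidalCategory Limits Polynomial

universe v u w x

namespace MotP.HL

open CHM

noncomputable section

/-- NLA. Linear algebra. `μ` = charpoly of `a`, `μ = (X - 1) ^ s * h`, `h(1) ≠ 0` (`Polynomial.exists_eq_pow_rootMultiplicity_mul_and_not_dvd` or similar), `X * h` and `(X - 1) ^ (s + 1)` are coprime: `u X h + v (X - 1) ^ (s + 1) = 1`; `g = u X h`: `g(0) = 0`, `g(1) = 1`, and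
`g(a) (a - 1) ^ (s + 1) = 0` (Cayley-Hamilton), so `e = g(a)` is idempotent and commutes with `σ`, `f`. `∑ g_j = 1`, `g_0 = 0`: `tr (σ f ^ k e) = ∑_(j ≥ 1) g_j tr (σ f ^ k a ^ j) = r k`. `CHM.Lin.trace_sgn` (file `Pool/Agent/CHM/Lin.lean`; used in `CHM.Cohomology.trace_eq`, copy that use) with `p = e`: `r k` = trace of
`f ^ k` on `P = {x | e x = x, σ x = x}` minus the trace on `Q = {x | e x = x, σ x = - x}`; `α, β` = roots of the charpoly of `f` on `P`, `Q` (`CHM.Lin.trace_pow_eq`; see `CHM.Cohomology.frobenius`). `1 ∉ β`: eigenvector (see there). -/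
def S_NLA : Prop := ∀ (E : Type x) [AddCommGroup E] [Module ℂ E] [Module.Finite ℂ E] (σ f a : Module.End ℂ E) (r : ℕ → ℂ),
  σ * σ = 1 → σ * f = f * σ → σ * a = a * σ → f * a = a * f →
  (∀ k j : ℕ, LinearMap.trace ℂ E (σ * f ^ k * a ^ (j + 1)) = r k) → (∀ y : E, σ y = -y → f y = y → y = 0) →
  ∃ α β : Multiset ℂ, (∀ k, r k = (α.map fun z => z ^ k).sum - (β.map fun z => z ^ k).sum) ∧ (1 : ℂ) ∉ β

variable {V : Type u} [Category.{v} V] [CartesianMonoidalCategory V]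

/-- NND. Every section is numerically nontrivial. `numTrivial_iff` (`CHM/Num.lean`) for `numQ`: `f ≫ g = 0` for all `g`, so `f` is numerically trivial in the sense of `MotP.NumTrivial`, so `f.1` has degree-`0` products with the cycles of complementary dimension; then `nt_of_homog` for the theory `numQ`
(`f.1 ∈ nt (numQ ..) _` means `deg (f.1 * b) = 0` for all `b`) and `numQ_num` (`NumB.lean`): `f.1 = 0`. -/
def S_NND (T : CHM.ChowTheory.{v, u, w} V) : Prop := ∀ (hG : S_NGR T) (hU : S_NUN T) (M : CHM.Mot (numQ T hG hU)) (f : 𝟙_ _ ⟶ M),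
  (∀ g : M ⟶ 𝟙_ _, f ≫ g = 0) → f = 0

/-- NTC. Traces in `Mot (numQ ..)` are the traces in `T`: if `M.p = pr P` with `P ∈ gr X⊗X (dim X)`, the trace of the `k`-th power of Frobenius of `M` is `q ^ (- m k)` times the degree of the intersection of `cp P (gr' (Fr ^ k))` with the diagonal, also for `P ^ (j + 1)` instead of `P` (`CHM.ChowTheory.cpow P (j + 1)`, `Pool/Agent/CHM/Growth.lean`):
`P ^ (j + 1) ≡ P` modulo numerical equivalence because `M.p` is idempotent (`numQ_cp`), `trc_cp` (`CHM/Num.lean`): `trc (cp f g) = deg (f * tr g)`. The value of the `k`-th power: `(onMot M)^k` has the value `q ^ (- m k) • cp M.p (gr' (Fr ^ k))` by induction (`Mot.comp_val`, `cp_p_gr'`, `gr'_comp`); the trace: `Mot.trace_eq` (`CHM/Trace.lean`;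
`tr` is `Mot.trace` up to unfolding: see `fr_t` or `trace` in the structure `frobenius`, `MotP.tr X f = trP X Xᘁ f`), `Mot.unit_ne` for the uniqueness of the scalar, `numQ_trc`, `numQ_gr'`. -/
def S_NTC (T : CHM.ChowTheory.{v, u, w} V) : Prop := ∀ (hG : S_NGR T) (hU : S_NUN T) (R : CHM.FrobeniusMaps T)
  (M : CHM.Mot (numQ T hG hU)) (P : T.CH (M.X ⊗ M.X)) (_ : P ∈ T.gr (M.X ⊗ M.X) (T.dim M.X)) (_ : pr T _ P = M.p)
  (k j : ℕ) (r : ℚ), MotP.tr M (Mot.pw ((frQ hG hU R).F.app M) k) = r • 𝟙 (𝟙_ _) →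
  r = ((R.q : ℚ) ^ (-M.m)) ^ k * T.trc (T.cp (T.cpow P (j + 1)) (T.cpow (T.gr' (R.Fr M.X)) k))

/-- NEV. Eigenvalues of Frobenius for numerical motives. Let `M = (X, p, m)`, `p = pr P` with `P ∈ gr (dim X)` (`M.deg`, `numQ_gr`). NLA with `E = K.H X`, `σ = K.sgn X`, `f = q ^ (- m) • K.act (gr' Fr)`, `a = K.act P`. Commutation: `K.sgn_act` (with `r = 0`), `K.act_cp` and `R.gr'_comm` (`dim X - i = 0`).
`K.act (cp f g) = K.act g ∘ K.act f`, `K.act (cpow f n) = (K.act f) ^ n`; trace formula (`K.trace_formula`) and NTC: `tr (σ f ^ k a ^ (j + 1)) = q ^ (- m k) * trc (cp (cpow P (j + 1)) (cpow (gr' Fr) k)) = r k`, where `r k` is the scalar of `tr M (F ^ k)` (`Mot.scalar`). The last hypothesis of NLA: weights, exactly as in `CHM.Cohomology.one_not_odd` (`CHM/Weil.lean`), which can be applied to the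
motive `CHM.Mot.h T X m` (all of `H X`; `K.act (diag) x = x`, `K.act_onMot`). -/
def S_NEV (T : CHM.ChowTheory.{v, u, w} V) : Prop := ∀ (hG : S_NGR T) (hU : S_NUN T) (R : CHM.FrobeniusMaps T)
  (_ : CHM.Cohomology.{v, u, w, x} T R) (M : CHM.Mot (numQ T hG hU)), ∃ α β : Multiset ℂ,
  (∀ (k : ℕ) (r : ℚ), MotP.tr M (Mot.pw ((frQ hG hU R).F.app M) k) = r • 𝟙 (𝟙_ _) →
    (r : ℂ) = (α.map fun z => z ^ k).sum - (β.map fun z => z ^ k).sum) ∧ (1 : ℂ) ∉ β

def M_NEV (T : CHM.ChowTheory.{v, u, w} V) : Prop := S_NLA.{x} → S_NTC T → S_NEV.{v, u, w, x} T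

section

variable {T : CHM.ChowTheory.{v, u, w} V} (hG : S_NGR T) (hU : S_NUN T) (hN : S_NND T)
  (R : CHM.FrobeniusMaps T) (K : CHM.Cohomology.{v, u, w, x} T R) (hE : S_NEV.{v, u, w, x} T)

/-- The Frobenius structure on the category of numerical motives. -/
def frobQ : MotP.Frob (CHM.Mot (numQ T hG hU)) where
  scalar := Mot.scalar
  ne := Mot.unit_ne
  F := (frQ hG hU R).F
  F_unit := (frQ hG hU R).onMot_unit
  F_tensor := (frQ hG hU R).onMot_tensor
  α M := (hE hG hU R K M).choose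
  β M := (hE hG hU R K M).choose_spec.choose
  trace M := (hE hG hU R K M).choose_spec.choose_spec.1
  odd M := (hE hG hU R K M).choose_spec.choose_spec.2
  nd := hN hG hU

/-- NTE. The traces of Frobenius of `h(X)(i)` are the same in `Mot T` and in `Mot (numQ ..)`. NTC with `P = diag X` (`numQ_diag`; `cpow (diag) n = diag`, `cp diag f = f`), `r = (frobQ ..).t (h X i) k` (`val_spec`), and the same computation in `Mot T` (`K.frobenius.trace_formula (Mot.h T X i) k`, `Mot.trace_eq`,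
`Mot.pow_val` in `CHM/Growth.lean`): there `(onMot (h T X i)) ^ k` has the value `q ^ (- i k) • cpow (gr' Fr) k`. -/
def S_NTE (T : CHM.ChowTheory.{v, u, w} V) : Prop := ∀ (hG : S_NGR T) (hU : S_NUN T) (hN : S_NND T) (R : CHM.FrobeniusMaps T)
  (K : CHM.Cohomology.{v, u, w, x} T R) (hE : S_NEV.{v, u, w, x} T) (X : V) (i : ℤ) (k : ℕ),
  ((frobQ hG hU hN R K hE).t (CHM.Mot.h (numQ T hG hU) X i) k : ℂ) =
    ((K.frobenius.even (CHM.Mot.h T X i)).map fun z => z ^ k).sum - ((K.frobenius.odd (CHM.Mot.h T X i)).map fun z => z ^ k).sum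

def M_NTE (T : CHM.ChowTheory.{v, u, w} V) : Prop := S_NTC T → S_NTE.{v, u, w, x} T

/-- NMU. The multiplicity of the eigenvalue `1` and the number of eigenvalues of `h(X)(i)`. NTE and the uniqueness of multiplicities (the traces of all powers determine `count α z - count β z`: `MotP.GGap.TVA.ν_eq` or `MotP.sum_count`, see `P_TVA.lean`): `ν W (h X i) z = count z (even) - count z (odd)`, for `z = 1`: `K.count_even`, `K.frobenius.one_not_odd`, and
`m W Y = (W.α Y).count 1`, `1 ∉ W.β Y`. `b W (h X i)` is a function of the multiplicities `ν` (`TVA.b_eq`), so it is the number of elements of `even` plus the number of elements of `odd` (they are disjoint: `K.inter_zero`), see `K.number_eq`, `evenNumber_eq`, `oddNumber_eq`, `betti_add` in `CHM/Growth.lean` (for `i = 0`). -/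
def S_NMU (T : CHM.ChowTheory.{v, u, w} V) : Prop := ∀ (hG : S_NGR T) (hU : S_NUN T) (hN : S_NND T) (R : CHM.FrobeniusMaps T)
  (K : CHM.Cohomology.{v, u, w, x} T R) (hE : S_NEV.{v, u, w, x} T) (X : V),
  (∀ i : ℤ, m (frobQ hG hU hN R K hE) (CHM.Mot.h (numQ T hG hU) X i) = K.mult X i) ∧
    b (frobQ hG hU hN R K hE) (CHM.Mot.h (numQ T hG hU) X 0) = Module.finrank ℂ (K.H X)

def M_NMU (T : CHM.ChowTheory.{v, u, w} V) : Prop := S_NTE.{v, u, w, x} T → S_NMU.{v, u, w, x} T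

end

/-- NHO. Cycles modulo numerical equivalence are sections. `Mot.secEquiv (numQ ..) X i : (numQ ..).gr X i ≃ (𝟙_ ⟶ h X i)`; `(numQ ..).gr X i = grQ T X i = (T.gr X i).map (pr T X)`, the kernel of `T.gr X i → (numQ ..).gr X i` is `T.num X i` (`nt_of_homog`, `numQ_zero`). `LinearMap.quotKerEquivOfSurjective`, `LinearEquiv.rank_eq`. -/
def S_NHO (T : CHM.ChowTheory.{v, u, w} V) : Prop := ∀ (hG : S_NGR T) (hU : S_NUN T) (X : V) (i : ℤ),
  Module.rank ℚ (T.gr X i ⧸ T.num X i) = Module.rank ℚ (𝟙_ (CHM.Mot (numQ T hG hU)) ⟶ CHM.Mot.h (numQ T hG hU) X i)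

variable (T : CHM.ChowTheory.{v, u, w} V)

theorem h_tensor (X Y : V) (i j : ℤ) :
    (CHM.Mot.h T X i ⊗ CHM.Mot.h T Y j) = CHM.Mot.h T (X ⊗ Y) (i + j) := by
  have h := T.ten_diag X Y
  change CHM.Mot.mk (X ⊗ Y) (T.ten (T.diag X) (T.diag Y)) (i + j) _ _ =
    CHM.Mot.mk (X ⊗ Y) (T.diag (X ⊗ Y)) (i + j) _ _
  congr 1

theorem h_unit : 𝟙_ (CHM.Mot T) = CHM.Mot.h T (𝟙_ V) 0 := rfl

theorem h_dual (X : V) (i : ℤ) : (CHM.Mot.h T X i)ᘁ = CHM.Mot.h T X (T.dim X - i) := by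
  have h := T.tr_diag X
  change CHM.Mot.mk X (T.tr (T.diag X)) (T.dim X - i) _ _ =
    CHM.Mot.mk X (T.diag X) (T.dim X - i) _ _
  congr 1

/-- The motives generated by the `h(X)(i)`, `X` in `S`, under direct sums. -/
inductive Gen (S : V → Prop) : CHM.Mot T → Prop
  | h (X : V) (i : ℤ) : S X → Gen S (CHM.Mot.h T X i)
  | sum {X Y Z : CHM.Mot T} : Dec Z X Y → Gen S X → Gen S Y → Gen S Z

/-- NCL. Closure properties of `Gen`. (1) `h_unit`. (2) `Dec Z X Y` gives `Dec (Z ⊗ U) (X ⊗ U) (Y ⊗ U)` and `Dec (U ⊗ Z) (U ⊗ X) (U ⊗ Y)` (whiskering is additive and functorial); induction for both factors, `h_tensor`. (3) `h_dual`, and `Dec Z X Y` gives `Dec Zᘁ Xᘁ Yᘁ` with the maps `pᘁ, iᘁ, qᘁ, jᘁ` (`rightAdjointMate`: `comp_rightAdjointMate`, `rightAdjointMate_id`, additivity from the definition, `MonoidalPreadditive`). (4) `X ⊞ Y` (`CHM.Mot` has finite biproducts, `CHM/Sums.lean`). -/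
def S_NCL (T : CHM.ChowTheory.{v, u, w} V) : Prop := ∀ S : V → Prop, S (𝟙_ V) → (∀ X Y, S X → S Y → S (X ⊗ Y)) →
  Gen T S (𝟙_ (CHM.Mot T)) ∧ (∀ X Y : CHM.Mot T, Gen T S X → Gen T S Y → Gen T S (X ⊗ Y)) ∧
  (∀ X : CHM.Mot T, Gen T S X → Gen T S Xᘁ) ∧
  ∀ X Y : CHM.Mot T, Gen T S X → Gen T S Y → ∃ Z, Gen T S Z ∧ Nonempty (Dec Z X Y)

/-- NPW. Powers. `Mot.T (h X 0) r = h (pow X r) 0` (`CHM.Mot.T_h`), `(h X 0)ᘁ = h X (dim X)`, so `T (h X 0) r ⊗ (T (h X 0) r)ᘁ = h (X^r ⊗ X^r) (r dim X)`; ADJ 1: `h A A = n (A ⊗ Aᘁ)`; NHO, NMU. (`dim (pow X r) = r * dim X` by induction: `T.dim_tensor`.) -/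
def S_NPW (T : CHM.ChowTheory.{v, u, w} V) : Prop := ∀ (hG : S_NGR T) (hU : S_NUN T) (hN : S_NND T) (R : CHM.FrobeniusMaps T)
  (K : CHM.Cohomology.{v, u, w, x} T R) (hE : S_NEV.{v, u, w, x} T) (X : V) (r : ℕ),
  nn (CHM.Mot.h (numQ T hG hU) X 0) r = Cardinal.toNat (Module.rank ℚ (T.gr (CHM.pow X r ⊗ CHM.pow X r) (r * T.dim X) ⧸
      T.num (CHM.pow X r ⊗ CHM.pow X r) (r * T.dim X))) ∧
    mm (frobQ hG hU hN R K hE) (CHM.Mot.h (numQ T hG hU) X 0) r = K.mult (CHM.pow X r ⊗ CHM.pow X r) (r * T.dim X) ∧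
    h (CHM.Mot.h (numQ T hG hU) X 0) (CHM.Mot.h (numQ T hG hU) X 0) = Cardinal.toNat (Module.rank ℚ (T.gr (X ⊗ X) (T.dim X) ⧸
      T.num (X ⊗ X) (T.dim X))) ∧
    m (frobQ hG hU hN R K hE) (CHM.Mot.h (numQ T hG hU) X 0 ⊗ (CHM.Mot.h (numQ T hG hU) X 0)ᘁ) = K.mult (X ⊗ X) (T.dim X)

def M_NPW (T : CHM.ChowTheory.{v, u, w} V) : Prop :=
  (∀ hG hU, S_ADJ (CHM.Mot (numQ T hG hU))) → S_NHO T → S_NMU.{v, u, w, x} T → S_NPW.{v, u, w, x} T

/-- NHA. The half law for cycles: `S` a class of varieties which contains the point and is stable under products. Let `W = frobQ ..`. (1) `W.rank_le`, NHO, NMU 1 (`Mot.h (numQ ..) X i`). (2) HLF for `W` and the class `Gen (numQ ..) S` (NCL): `c * m W M ≤ n M` for `M` in `Gen` by induction: NHO, NMU for `h X i`, ADD 3 (`n X = h (𝟙) X`), ADD 1 and BFA 2 for direct sums. HLF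
gives `n M = m W M` for `M = h X i`; then (1), NHO. (`Cardinal.toNat` of a finite cardinal.) -/
def S_NHA (T : CHM.ChowTheory.{v, u, w} V) : Prop := ∀ (R : CHM.FrobeniusMaps T) (K : CHM.Cohomology.{v, u, w, x} T R),
  (∀ (X : V) (i : ℤ), Module.rank ℚ (T.gr X i ⧸ T.num X i) ≤ (K.mult X i : ℕ)) ∧
  ∀ S : V → Prop, S (𝟙_ V) → (∀ X Y, S X → S Y → S (X ⊗ Y)) → ∀ c : ℝ, 1 / 2 < c →
    (∀ (X : V) (i : ℤ), S X → c * K.mult X i ≤ Cardinal.toNat (Module.rank ℚ (T.gr X i ⧸ T.num X i))) →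
    ∀ (X : V) (i : ℤ), S X → Module.rank ℚ (T.gr X i ⧸ T.num X i) = (K.mult X i : ℕ)

def M_NHA (T : CHM.ChowTheory.{v, u, w} V) : Prop := (∀ hG hU, S_ADD (CHM.Mot (numQ T hG hU))) →
  (∀ hG hU, S_BFA (CHM.Mot (numQ T hG hU))) → (∀ hG hU, S_HLF (CHM.Mot (numQ T hG hU))) → S_NGR T → S_NUN T → S_NND T →
  S_NEV.{v, u, w, x} T → S_NHO T → S_NMU.{v, u, w, x} T → (∀ hG hU, S_NCL (numQ T hG hU)) → S_NHA.{v, u, w, x} T

/-- NFX. The finite criterion for one variety `X`, `N r = N^(r dim X)(X^r × X^r)`. FIN for `W = frobQ ..` and the motive `h X 0`, NPW, NMU 2. In (2): `𝟙 (h X 0) ≠ 0` because otherwise all traces of `h X 0` vanish and `b = 0` (BFA 6 with BFA 2 or 4; or `finrank (K.H X) = b`). -/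
def S_NFX (T : CHM.ChowTheory.{v, u, w} V) : Prop := ∀ (R : CHM.FrobeniusMaps T) (K : CHM.Cohomology.{v, u, w, x} T R)
  (X : V) (N M : ℕ → ℕ), (∀ r, N r = Cardinal.toNat (Module.rank ℚ (T.gr (CHM.pow X r ⊗ CHM.pow X r) (r * T.dim X) ⧸
      T.num (CHM.pow X r ⊗ CHM.pow X r) (r * T.dim X)))) →
  (∀ r, M r = K.mult (CHM.pow X r ⊗ CHM.pow X r) (r * T.dim X)) →
  (∀ r, Module.finrank ℂ (K.H X) ^ 2 * N r + M r < N (r + 1) + 2 * N r →
    Cardinal.toNat (Module.rank ℚ (T.gr (X ⊗ X) (T.dim X) ⧸ T.num (X ⊗ X) (T.dim X))) = K.mult (X ⊗ X) (T.dim X)) ∧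
  (0 < Module.finrank ℂ (K.H X) → (∀ r, N r = M r) →
    ∃ r, 0 < r ∧ Module.finrank ℂ (K.H X) ^ 2 * N r + M r < N (r + 1) + 2 * N r)

def M_NFX (T : CHM.ChowTheory.{v, u, w} V) : Prop := (∀ hG hU, S_BFA (CHM.Mot (numQ T hG hU))) →
  (∀ hG hU, S_FIN (CHM.Mot (numQ T hG hU))) → S_NGR T → S_NUN T → S_NND T →
  S_NEV.{v, u, w, x} T → S_NMU.{v, u, w, x} T → S_NPW.{v, u, w, x} T → S_NFX.{v, u, w, x} T

end

end MotP.HL
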