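import Pool.Agent.HL.St

/-!
# The half law: ADD, direct sums (MP_6c4da4_ag, by helper22)
-/

set_option autoImplicit false
set_option linter.unusedSectionVars false

open CategoryTheory MonoidalCategory BraidedCategory Limits Polynomial

universe v u

namespace MotP.HL

open Mot MotP.GGap

noncomputable section

namespace ADD

variable {C : Type u} [Category.{v} C] [Preadditive C] [Linear ℚ C] [MonoidalCategory C]
  [SymmetricCategory C] [MonoidalPreadditive C] [MonoidalLinear ℚ C] [RightRigidCategory C]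

/-- the morphisms out of a direct sum -/
def outEquiv {X Y Z : C} (d : Dec X Y Z) (U : C) : (X ⟶ U) ≃ₗ[ℚ] (Y ⟶ U) × (Z ⟶ U) where
  toFun f := (d.i ≫ f, d.j ≫ f)
  map_add' f g := by
    rw [Preadditive.comp_add, Preadditive.comp_add]
    rfl
  map_smul' r f := by
    rw [Linear.comp_smul, Linear.comp_smul]
    rfl
  invFun g := d.p ≫ g.1 + d.q ≫ g.2
  left_inv f := by
    show d.p ≫ d.i ≫ f + d.q ≫ d.j ≫ f = f
    rw [← Category.assoc, ← Category.assoc, ← Preadditive.add_comp, d.sum, Category.id_comp]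
  right_inv g := by
    refine Prod.ext ?_ ?_
    · show d.i ≫ (d.p ≫ g.1 + d.q ≫ g.2) = g.1
      rw [Preadditive.comp_add, ← Category.assoc, ← Category.assoc, d.ip, d.iq, Category.id_comp,
        Limits.zero_comp, add_zero]
    · show d.j ≫ (d.p ≫ g.1 + d.q ≫ g.2) = g.2
      rw [Preadditive.comp_add, ← Category.assoc, ← Category.assoc, d.jp, d.jq, Category.id_comp,
        Limits.zero_comp, zero_add]

/-- the morphisms into a direct sum -/
def inEquiv {X Y Z : C} (d : Dec X Y Z) (U : C) : (U ⟶ X) ≃ₗ[ℚ] (U ⟶ Y) × (U ⟶ Z) where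
  toFun f := (f ≫ d.p, f ≫ d.q)
  map_add' f g := by
    rw [Preadditive.add_comp, Preadditive.add_comp]
    rfl
  map_smul' r f := by
    rw [Linear.smul_comp, Linear.smul_comp]
    rfl
  invFun g := g.1 ≫ d.i + g.2 ≫ d.j
  left_inv f := by
    show (f ≫ d.p) ≫ d.i + (f ≫ d.q) ≫ d.j = f
    rw [Category.assoc, Category.assoc, ← Preadditive.comp_add, d.sum, Category.comp_id]
  right_inv g := by
    refine Prod.ext ?_ ?_
    · show (g.1 ≫ d.i + g.2 ≫ d.j) ≫ d.p = g.1
      rw [Preadditive.add_comp, Category.assoc, Category.assoc, d.ip, d.jp, Category.comp_id,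
        Limits.comp_zero, add_zero]
    · show (g.1 ≫ d.i + g.2 ≫ d.j) ≫ d.q = g.2
      rw [Preadditive.add_comp, Category.assoc, Category.assoc, d.iq, d.jq, Category.comp_id,
        Limits.comp_zero, zero_add]

/-- tensor product on the right -/
def tensorRight {X Y Z : C} (d : Dec X Y Z) (U : C) : Dec (X ⊗ U) (Y ⊗ U) (Z ⊗ U) where
  i := d.i ▷ U
  p := d.p ▷ U
  j := d.j ▷ U
  q := d.q ▷ U
  ip := by rw [← comp_whiskerRight, d.ip, id_whiskerRight]
  jq := by rw [← comp_whiskerRight, d.jq, id_whiskerRight]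
  iq := by rw [← comp_whiskerRight, d.iq, MonoidalPreadditive.zero_whiskerRight]
  jp := by rw [← comp_whiskerRight, d.jp, MonoidalPreadditive.zero_whiskerRight]
  sum := by
    rw [← comp_whiskerRight, ← comp_whiskerRight, ← MonoidalPreadditive.add_whiskerRight, d.sum,
      id_whiskerRight]

/-- tensor product on the left -/
def tensorLeft {X Y Z : C} (d : Dec X Y Z) (U : C) : Dec (U ⊗ X) (U ⊗ Y) (U ⊗ Z) where
  i := U ◁ d.i
  p := U ◁ d.p
  j := U ◁ d.j
  q := U ◁ d.q
  ip := by rw [← whiskerLeft_comp, d.ip, whiskerLeft_id]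
  jq := by rw [← whiskerLeft_comp, d.jq, whiskerLeft_id]
  iq := by rw [← whiskerLeft_comp, d.iq, MonoidalPreadditive.whiskerLeft_zero]
  jp := by rw [← whiskerLeft_comp, d.jp, MonoidalPreadditive.whiskerLeft_zero]
  sum := by
    rw [← whiskerLeft_comp, ← whiskerLeft_comp, ← MonoidalPreadditive.whiskerLeft_add, d.sum,
      whiskerLeft_id]

end ADD

variable (C : Type u) [Category.{v} C] [Preadditive C] [Linear ℚ C] [MonoidalCategory C]
  [SymmetricCategory C] [MonoidalPreadditive C] [MonoidalLinear ℚ C] [RightRigidCategory C]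

theorem t_ADD : S_ADD C := by
  intro _ W X Y Z d
  have hfin : ∀ A B : C, Module.Finite ℚ (A ⟶ B) := W.finite_hom
  refine ⟨W.t_split d.i d.p d.ip d.j d.q d.jq d.sum, fun U => ?_, fun U => ?_,
    fun U => ⟨ADD.tensorRight d U⟩, fun U => ⟨ADD.tensorLeft d U⟩⟩
  · have h1 := (ADD.outEquiv d U).finrank_eq
    have := hfin Y U
    have := hfin Z U
    rw [Module.finrank_prod] at h1
    exact h1
  · have h1 := (ADD.inEquiv d U).finrank_eq
    have := hfin U Y
    have := hfin U Z
    rw [Module.finrank_prod] at h1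
    exact h1

end

end MotP.HL
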