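import Pool.Agent.HL.St5

/-!
# The half law, module LSM: lifting of direct summands along a full functor
-/

set_option autoImplicit false

open CategoryTheory Limits

universe v₁ u₁ v u

namespace MotP.HL

noncomputable section

namespace LSM

section

variable {C : Type u₁} [Category.{v₁} C] [Preadditive C]

/-- an idempotent gives a decomposition -/
theorem dec_of_idem [IsIdempotentComplete C] {X : C} (e : X ⟶ X) (he : e ≫ e = e) :
    ∃ (A B : C) (d : Dec X A B), d.p ≫ d.i = e := by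
  have h4 : (𝟙 X - e) ≫ (𝟙 X - e) = 𝟙 X - e := by
    rw [Preadditive.sub_comp, Preadditive.comp_sub, Preadditive.comp_sub, Category.id_comp,
      Category.comp_id, Category.id_comp, he]
    abel
  obtain ⟨A, i, p, h1, h2⟩ := IsIdempotentComplete.idempotents_split X _ he
  obtain ⟨B, j, q, h5, h6⟩ := IsIdempotentComplete.idempotents_split X _ h4
  have hq : q = (𝟙 X - e) ≫ q := by
    rw [← h6, Category.assoc, h5, Category.comp_id]
  have hj : j = j ≫ (𝟙 X - e) := by
    rw [← h6, ← Category.assoc, h5, Category.id_comp]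
  refine ⟨A, B, ⟨i, p, j, q, h1, h5, ?_, ?_, ?_⟩, h2⟩
  · rw [hq, ← h2, ← Category.assoc, Preadditive.comp_sub, Category.comp_id, ← Category.assoc, h1,
      Category.id_comp, sub_self, Limits.zero_comp]
  · rw [hj, ← h2, Category.assoc, Preadditive.sub_comp, Category.id_comp, Category.assoc, h1,
      Category.comp_id, sub_self, Limits.comp_zero]
  · rw [h6, h2]
    abel

/-- a retract is a direct summand -/
theorem smd_of_retract [IsIdempotentComplete C] {R Y : C} (i : R ⟶ Y) (p : Y ⟶ R)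
    (h : i ≫ p = 𝟙 R) : Smd R Y := by
  have he : (𝟙 Y - p ≫ i) ≫ (𝟙 Y - p ≫ i) = 𝟙 Y - p ≫ i := by
    rw [Preadditive.sub_comp, Preadditive.comp_sub, Preadditive.comp_sub, Category.id_comp,
      Category.comp_id, Category.id_comp, Category.assoc, ← Category.assoc i, h, Category.id_comp]
    abel
  obtain ⟨B, j, q, h5, h6⟩ := IsIdempotentComplete.idempotents_split Y _ he
  refine ⟨B, ⟨⟨i, p, j, q, h, h5, ?_, ?_, ?_⟩⟩⟩
  · have h7 : q = (𝟙 Y - p ≫ i) ≫ q := by
      rw [← h6, Category.assoc, h5, Category.comp_id]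
    rw [h7, ← Category.assoc, Preadditive.comp_sub, Category.comp_id, ← Category.assoc, h,
      Category.id_comp, sub_self, Limits.zero_comp]
  · have h7 : j = j ≫ (𝟙 Y - p ≫ i) := by
      rw [← h6, ← Category.assoc, h5, Category.id_comp]
    rw [h7, Category.assoc, Preadditive.sub_comp, Category.id_comp, Category.assoc, h,
      Category.comp_id, sub_self, Limits.comp_zero]
  · rw [h6]
    abel

theorem smd_trans [IsIdempotentComplete C] {R Y Z : C} (h1 : Smd R Y) (h2 : Smd Y Z) :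
    Smd R Z := by
  obtain ⟨R', ⟨d⟩⟩ := h1
  obtain ⟨Y', ⟨e⟩⟩ := h2
  refine smd_of_retract (d.i ≫ e.i) (e.p ≫ d.p) ?_
  rw [Category.assoc, ← Category.assoc e.i, e.ip, Category.id_comp, d.ip]

variable [Linear ℚ C]

theorem rank_dec (U Z A B : C) (d : Dec Z A B) :
    Module.rank ℚ (U ⟶ Z) = Module.rank ℚ (U ⟶ A) + Module.rank ℚ (U ⟶ B) := by
  let e : (U ⟶ Z) ≃ₗ[ℚ] ((U ⟶ A) × (U ⟶ B)) :=
    { toFun := fun f => (f ≫ d.p, f ≫ d.q)
      invFun := fun g => g.1 ≫ d.i + g.2 ≫ d.j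
      map_add' := fun f g => by
        rw [Preadditive.add_comp, Preadditive.add_comp]
        rfl
      map_smul' := fun r f => by
        rw [Linear.smul_comp, Linear.smul_comp]
        rfl
      left_inv := fun f => by
        change (f ≫ d.p) ≫ d.i + (f ≫ d.q) ≫ d.j = f
        rw [Category.assoc, Category.assoc, ← Preadditive.comp_add, d.sum, Category.comp_id]
      right_inv := fun g => by
        refine Prod.ext ?_ ?_
        · change (g.1 ≫ d.i + g.2 ≫ d.j) ≫ d.p = g.1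
          rw [Preadditive.add_comp, Category.assoc, Category.assoc, d.ip, d.jp, Category.comp_id,
            Limits.comp_zero, add_zero]
        · change (g.1 ≫ d.i + g.2 ≫ d.j) ≫ d.q = g.2
          rw [Preadditive.add_comp, Category.assoc, Category.assoc, d.iq, d.jq, Category.comp_id,
            Limits.comp_zero, zero_add] }
  rw [e.rank_eq]
  exact rank_prod'

end

section

variable {C : Type u₁} [Category.{v₁} C] [Preadditive C] {D : Type u} [Category.{v} D]
  [Preadditive D] (π : C ⥤ D) [π.Additive]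

/-- the ring homomorphism between the endomorphism rings -/
def ends (Y : C) : End Y →+* End (π.obj Y) where
  toFun a := π.map (a : Y ⟶ Y)
  map_one' := π.map_id Y
  map_mul' a b := π.map_comp (b : Y ⟶ Y) (a : Y ⟶ Y)
  map_zero' := π.map_zero Y Y
  map_add' a b := π.map_add (f := (a : Y ⟶ Y)) (g := (b : Y ⟶ Y))

theorem ends_apply (Y : C) (a : End Y) : ends π Y a = π.map (a : Y ⟶ Y) := rfl

variable {π}

theorem inv_aux {Y : C} (hY : Nl π Y) (f : End Y) (hf : ends π Y f = 1) :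
    ∃ g : End Y, g * f = 1 ∧ f * g = 1 := by
  have h1 : IsNilpotent (f - 1) := by
    refine hY _ ?_
    have h2 : ends π Y (f - 1) = 0 := by
      rw [map_sub, map_one, hf]
      exact sub_self _
    exact h2
  have h2 : IsUnit (1 + (f - 1)) := h1.isUnit_one_add
  rw [add_sub_cancel] at h2
  obtain ⟨u, hu⟩ := h2
  refine ⟨((u⁻¹ : (End Y)ˣ) : End Y), ?_, ?_⟩
  · rw [← hu]
    exact u.inv_mul
  · rw [← hu]
    exact u.mul_inv

/-- an endomorphism which is the identity modulo the kernel is invertible -/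
theorem inv_of {Y : C} (hY : Nl π Y) (f : Y ⟶ Y) (hf : π.map f = 𝟙 _) :
    ∃ g : Y ⟶ Y, f ≫ g = 𝟙 Y ∧ g ≫ f = 𝟙 Y := by
  obtain ⟨g, h1, h2⟩ := inv_aux hY f hf
  exact ⟨g, h1, h2⟩

theorem pow_aux {A Z : C} (i : A ⟶ Z) (p : Z ⟶ A) (h : i ≫ p = 𝟙 A) (a : End A) (t : End Z)
    (ht : t = p ≫ (a : A ⟶ A) ≫ i) (k : ℕ) :
    i ≫ ((t ^ k : End Z) : Z ⟶ Z) = ((a ^ k : End A) : A ⟶ A) ≫ i := by
  induction k with
  | zero =>
    rw [pow_zero, pow_zero]
    exact (Category.comp_id i).trans (Category.id_comp i).symm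
  | succ k ih =>
    rw [pow_succ', pow_succ']
    change i ≫ ((t ^ k : End Z) : Z ⟶ Z) ≫ (t : Z ⟶ Z) = (((a ^ k : End A) : A ⟶ A) ≫ (a : A ⟶ A)) ≫ i
    rw [← Category.assoc, ih, ht, Category.assoc, ← Category.assoc i, h, Category.id_comp,
      Category.assoc]

theorem nl_of_retract {A Z : C} (i : A ⟶ Z) (p : Z ⟶ A) (h : i ≫ p = 𝟙 A) (hZ : Nl π Z) :
    Nl π A := by
  intro a ha
  have h1 : π.map (p ≫ (a : A ⟶ A) ≫ i) = 0 := by
    rw [π.map_comp, π.map_comp, ha, Limits.zero_comp, Limits.comp_zero]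
  obtain ⟨n, hn⟩ := hZ (p ≫ (a : A ⟶ A) ≫ i : Z ⟶ Z) h1
  refine ⟨n, ?_⟩
  have h3 := pow_aux i p h a _ rfl n
  have h4 : ((a ^ n : End A) : A ⟶ A) ≫ i = 0 := by
    rw [← h3]
    exact (congrArg (fun t => i ≫ t) hn).trans Limits.comp_zero
  have h5 : ((a ^ n : End A) : A ⟶ A) = 0 := by
    rw [← Category.comp_id ((a ^ n : End A) : A ⟶ A), ← h, ← Category.assoc, h4, Limits.zero_comp]
  exact h5

/-- the image of a decomposition -/
def mapDec {Z A B : C} (d : Dec Z A B) : Dec (π.obj Z) (π.obj A) (π.obj B) where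
  i := π.map d.i
  p := π.map d.p
  j := π.map d.j
  q := π.map d.q
  ip := by rw [← π.map_comp, d.ip, π.map_id]
  jq := by rw [← π.map_comp, d.jq, π.map_id]
  iq := by rw [← π.map_comp, d.iq, π.map_zero]
  jp := by rw [← π.map_comp, d.jp, π.map_zero]
  sum := by rw [← π.map_comp, ← π.map_comp, ← π.map_add, d.sum, π.map_id]

end

end LSM

open LSM

theorem t_LSM : S_LSM.{v₁, u₁, v, u} := by
  intro C _ _ _ _ D _ _ _ π _ _
  refine ⟨?_, ?_, ?_, ?_, ?_, ?_⟩
  · rintro Y Z hY ⟨Z', ⟨d⟩⟩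
    obtain ⟨i, hi⟩ := π.map_surjective d.i
    obtain ⟨p, hp⟩ := π.map_surjective d.p
    have h1 : π.map (i ≫ p) = 𝟙 _ := by rw [π.map_comp, hi, hp, d.ip]
    obtain ⟨g, hg, -⟩ := inv_of hY (i ≫ p) h1
    exact smd_of_retract i (p ≫ g) (by rw [← Category.assoc]; exact hg)
  · rintro Z S hZ ⟨S', ⟨d⟩⟩
    obtain ⟨e0, he0⟩ : ∃ e0 : End (π.obj Z), e0 = (d.p ≫ d.i : π.obj Z ⟶ π.obj Z) := ⟨_, rfl⟩
    have he : IsIdempotentElem e0 := by
      rw [he0]
      change (d.p ≫ d.i) ≫ (d.p ≫ d.i) = d.p ≫ d.i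
      rw [Category.assoc, ← Category.assoc d.i, d.ip, Category.id_comp]
    obtain ⟨e, he1, he2⟩ := exists_isIdempotentElem_eq_of_ker_isNilpotent (ends π Z)
      (fun x hx => hZ x hx) e0
      (by
        obtain ⟨f, hf⟩ := π.map_surjective (d.p ≫ d.i)
        exact ⟨f, hf.trans he0.symm⟩) he
    obtain ⟨A, B, d', hd'⟩ := dec_of_idem (e : Z ⟶ Z) he1
    have h1 : π.map d'.p ≫ π.map d'.i = d.p ≫ d.i := by
      rw [← π.map_comp, hd']
      exact he2.trans he0
    have h2 : π.map d'.i ≫ π.map d'.p = 𝟙 _ := by rw [← π.map_comp, d'.ip, π.map_id]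
    refine ⟨A, ⟨B, ⟨d'⟩⟩, ⟨⟨π.map d'.i ≫ d.p, d.i ≫ π.map d'.p, ?_, ?_⟩⟩⟩
    · rw [Category.assoc, ← Category.assoc d.p, ← h1, Category.assoc, h2, Category.comp_id, h2]
    · rw [Category.assoc, ← Category.assoc (π.map d'.p), h1, Category.assoc, d.ip,
        Category.comp_id, d.ip]
  · rintro A Z ⟨B, ⟨d⟩⟩ hZ
    exact nl_of_retract d.i d.p d.ip hZ
  · intro A hA h0
    have h1 : π.map ((1 : End A) : A ⟶ A) = 0 := (π.map_id A).trans h0
    obtain ⟨n, hn⟩ := hA 1 h1
    rw [one_pow] at hn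
    exact hn
  · rintro Z A B ⟨d⟩
    exact ⟨mapDec d⟩
  · rintro U Z A B ⟨d⟩
    exact rank_dec U Z A B d

end

end MotP.HL
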