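import Pool.Agent.HL.St4

/-!
# The half law, module NQU: quantization for one variety (helper80)
-/

set_option autoImplicit false

open CategoryTheory MonoidalCategory CartesianMonoidalCategory Limits Polynomial Filter

universe v u w x

namespace MotP.HL

open CHM

noncomputable section

variable {V : Type u} [Category.{v} V] [CartesianMonoidalCategory V]

theorem t_NQU (T : CHM.ChowTheory.{v, u, w} V) : M_NQU.{v, u, w, x} T := by
  intro hBFA hQUA hG hU hN hE hNMU hNPW hNEE R K X N M hNr hMr h0
  set W := frobQ hG hU hN R K hE with hW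
  set Y := CHM.Mot.h (numQ T hG hU) X 0 with hY
  have hb : b W Y = Module.finrank ℂ (K.H X) := (hNMU hG hU hN R K hE X).2
  have hn : ∀ r, nn Y r = N r := fun r => ((hNPW hG hU hN R K hE X r).1).trans (hNr r).symm
  have hm : ∀ r, mm W Y r = M r := fun r => ((hNPW hG hU hN R K hE X r).2.1).trans (hMr r).symm
  have h1 : 𝟙 Y ≠ 0 := by
    intro h
    have h2 := W.t_split (𝟙 Y) (𝟙 Y) (Category.comp_id _) (𝟙 Y) (𝟙 Y) (Category.comp_id _)
      (by rw [h]; simp)
    have h3 := ((hBFA hG hU W).2.1 Y Y Y h2).1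
    omega
  obtain ⟨hp, L, hL, hlim, hle⟩ := hQUA hG hU W (hNEE hG hU hN R K hE) Y h1
  refine ⟨fun r => ?_, L, hL, ?_, fun r => ?_⟩
  · have h2 := hp r
    rw [hn, hm] at h2
    exact h2
  · have h2 : (fun r => (N r : ℝ) / M r) = fun r => (nn Y r : ℝ) / mm W Y r := by
      funext r
      rw [hn, hm]
    rw [h2]
    exact hlim
  · have h2 := hle r
    rw [hn, hm] at h2
    exact h2

end

end MotP.HL
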