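import Pool.Agent.HL.NumB

/-!
# The half law, part N: disjoint unions modulo numerical equivalence
-/

set_option autoImplicit false

open CategoryTheory MonoidalCategory CartesianMonoidalCategory Limits

universe v u w

namespace MotP.HL

open CHM

noncomputable section

variable {V : Type u} [Category.{v} V] [CartesianMonoidalCategory V]
  (T : CHM.ChowTheory.{v, u, w} V)

namespace NUN

/-- composition with a numerically trivial correspondence -/
theorem cp_nt {X Y Z : V} {f : T.CH (X ⊗ Y)} (hf : f ∈ nt T (X ⊗ Y)) (g : T.CH (Y ⊗ Z)) :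
    T.cp f g ∈ nt T (X ⊗ Z) := by
  unfold ChowTheory.cp
  exact push_nt T _ (Ideal.mul_mem_right _ _ (pull_nt T _ hf))

end NUN

/-- NUN. Disjoint unions modulo numerical equivalence. -/
theorem t_NUN : S_NUN T := by
  intro X Y hd
  obtain ⟨Z, i, j, hZ, hu⟩ := T.union X Y hd
  refine ⟨Z, i, j, hZ, fun W => ⟨fun a => ?_, fun k b c hb hc => ?_⟩⟩
  · obtain ⟨a, rfl⟩ := pr_surj T _ a
    intro h1 h2
    rw [pullQ_pr, pr_eq_zero] at h1 h2
    rw [pr_eq_zero]
    obtain ⟨e, -, he1, he2⟩ := (hu X).2 (T.dim X) (T.diag X) 0 (T.diag_mem X) (zero_mem _)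
    obtain ⟨e', -, he1', he2'⟩ := (hu Y).2 (T.dim X) 0 (T.diag Y) (zero_mem _)
      (by rw [hd]; exact T.diag_mem Y)
    have hdiag : T.cp (T.gr' i) e + T.cp (T.gr' j) e' = T.diag Z := by
      rw [← sub_eq_zero]
      apply (hu Z).1
      · rw [map_sub, map_add, ← T.cp_gr', ← T.cp_gr', ← T.cp_gr', T.cp_assoc, T.cp_assoc,
          T.cp_gr', T.cp_gr' e', he1, he1', T.cp_diag, T.diag_cp]
        simp [ChowTheory.cp]
      · rw [map_sub, map_add, ← T.cp_gr', ← T.cp_gr', ← T.cp_gr', T.cp_assoc, T.cp_assoc,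
          T.cp_gr', T.cp_gr' e', he2, he2', T.cp_diag, T.diag_cp]
        simp [ChowTheory.cp]
    rw [← T.cp_diag a, ← hdiag, T.cp_add, ← T.cp_assoc, ← T.cp_assoc, T.cp_gr', T.cp_gr']
    exact Ideal.add_mem _ (NUN.cp_nt T h1 e) (NUN.cp_nt T h2 e')
  · obtain ⟨b, hb, rfl⟩ := hb
    obtain ⟨c, hc, rfl⟩ := hc
    obtain ⟨a, ha, ha1, ha2⟩ := (hu W).2 k b c hb hc
    exact ⟨pr T _ a, ⟨a, ha, rfl⟩, by rw [pullQ_pr, ha1]; rfl, by rw [pullQ_pr, ha2]; rfl⟩

end

end MotP.HL
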