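import Pool.Agent.HL.St5
import Pool.Agent.HL.P_RSV

/-!
# Project HLR (MP_6c4da4_ag): RCW (helper57)

If all numerically trivial cycles in `CH^(dim X)(X × X)` are zero for all `X`, then all numerically trivial
cycles are zero.
-/

set_option autoImplicit false

open CategoryTheory MonoidalCategory CartesianMonoidalCategory Limits

universe v u w

namespace MotP.HL

open CHM

noncomputable section

variable {V : Type u} [Category.{v} V] [CartesianMonoidalCategory V]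

namespace RCW

variable (T : CHM.ChowTheory.{v, u, w} V)

theorem cp_nt_left {X Y Z : V} {f : T.CH (X ⊗ Y)} (hf : f ∈ nt T (X ⊗ Y)) (g : T.CH (Y ⊗ Z)) :
    T.cp f g ∈ nt T (X ⊗ Z) :=
  push_nt T _ (Ideal.mul_mem_right _ _ (pull_nt T _ hf))

theorem cp_nt_right {X Y Z : V} (f : T.CH (X ⊗ Y)) {g : T.CH (Y ⊗ Z)} (hg : g ∈ nt T (Y ⊗ Z)) :
    T.cp f g ∈ nt T (X ⊗ Z) :=
  push_nt T _ (Ideal.mul_mem_left _ _ (pull_nt T _ hg))

/-- homogeneous numerically trivial correspondences between varieties of the same dimension are zero -/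
theorem zero_of_nt (h : ∀ X : V, T.num (X ⊗ X) (T.dim X) = ⊥) {X Y : V} (hd : T.dim X = T.dim Y)
    {f : T.CH (X ⊗ Y)} (hf : f ∈ T.gr (X ⊗ Y) (T.dim X)) (hn : f ∈ nt T (X ⊗ Y)) : f = 0 := by
  obtain ⟨Z, i, j, hZ, hu⟩ := T.union X Y hd
  obtain ⟨a, -, ha1, -⟩ := (hu X).2 (T.dim X) (T.diag X) 0 (T.diag_mem X) (zero_mem _)
  obtain ⟨b, hb, -, hb2⟩ := (hu Y).2 (T.dim X) 0 (T.diag Y) (zero_mem _)
    (by rw [hd]; exact T.diag_mem Y)
  have h1 : T.cp (T.gr' i) (T.cp f b) ∈ nt T (Z ⊗ Z) := cp_nt_right T _ (cp_nt_left T hn b)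
  have h2 : T.cp (T.gr' i) (T.cp f b) ∈ T.gr (Z ⊗ Z) (T.dim Z) := by
    refine T.gr_congr ?_ (T.cp_mem (T.gr'_mem i) (T.cp_mem hf hb))
    rw [hZ, ← hd]
    ring
  have h3 : (⟨_, h2⟩ : T.gr (Z ⊗ Z) (T.dim Z)) ∈ T.num (Z ⊗ Z) (T.dim Z) := fun c _ => h1 c
  rw [h Z, Submodule.mem_bot] at h3
  have h4 : T.cp (T.gr' i) (T.cp f b) = 0 := congrArg Subtype.val h3
  have h5 : T.cp a (T.cp (T.cp (T.gr' i) (T.cp f b)) (T.gr' j)) = f := by
    rw [T.cp_assoc, T.cp_assoc, ← T.cp_assoc a, T.cp_gr' a, ha1, T.diag_cp, T.cp_gr' b, hb2,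
      T.cp_diag]
  rw [← h5, h4]
  simp [ChowTheory.cp]

/-- the degree of a product -/
theorem deg_times {X Y : V} (u : T.CH X) (v : T.CH Y) :
    T.deg (T.pull (fst X Y) u * T.pull (snd X Y) v) = T.deg u * T.deg v := by
  have h1 : T.pull (fst X Y) u * T.pull (snd X Y) v = T.pull (snd X Y) v * T.pull (fst X Y) u := by
    ring
  rw [h1, ← deg_push T (snd X Y), T.projection, RSV.push_pull, ← Algebra.commutes,
    ← Algebra.smul_def, map_smul, smul_eq_mul]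

theorem deg_one' {X : V} {a : T.CH X} (ha : T.push (toUnit X) a = 1) : T.deg a = 1 := by
  apply T.point.1
  rw [T.algebraMap_deg, ha, map_one]

/-- powers of the line -/
theorem lines (a : ℕ) : ∃ Y : V, T.dim Y = a ∧ ∀ α : ℤ, 0 ≤ α → α ≤ a →
    ∃ η ∈ T.gr Y α, ∃ η' : T.CH Y, T.deg (η' * η) ≠ 0 := by
  induction a with
  | zero =>
    refine ⟨𝟙_ V, by rw [T.dim_unit, Nat.cast_zero], fun α h0 h1 => ?_⟩
    have h2 : α = 0 := le_antisymm (by exact_mod_cast h1) h0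
    subst h2
    refine ⟨1, T.one_mem _, 1, ?_⟩
    rw [mul_one, deg_one' T (by rw [toUnit_unique (toUnit (𝟙_ V)) (𝟙 _), T.push_id])]
    exact one_ne_zero
  | succ a ih =>
    obtain ⟨Y, hY, hY2⟩ := ih
    obtain ⟨E, c, hE, hc, hc2⟩ := T.line
    refine ⟨Y ⊗ E, by rw [T.dim_tensor, hY, hE]; push_cast; ring, fun α h0 h1 => ?_⟩
    have key : ∀ (η η' : T.CH Y) (d d' : T.CH E), T.deg (η' * η) ≠ 0 → T.deg (d' * d) ≠ 0 →
        T.deg ((T.pull (fst Y E) η' * T.pull (snd Y E) d') *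
          (T.pull (fst Y E) η * T.pull (snd Y E) d)) ≠ 0 := by
      intro η η' d d' g1 g2
      have e1 : (T.pull (fst Y E) η' * T.pull (snd Y E) d') *
          (T.pull (fst Y E) η * T.pull (snd Y E) d) =
          T.pull (fst Y E) (η' * η) * T.pull (snd Y E) (d' * d) := by
        rw [map_mul, map_mul]
        ring
      rw [e1, deg_times]
      exact mul_ne_zero g1 g2
    have hdc : T.deg c ≠ 0 := by
      rw [deg_one' T hc2]
      exact one_ne_zero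
    by_cases h2 : α ≤ a
    · obtain ⟨η, hη, η', hd⟩ := hY2 α h0 h2
      refine ⟨T.pull (fst Y E) η * T.pull (snd Y E) 1,
        T.gr_congr (add_zero α) (T.mul_mem (T.pull_mem _ _ _ hη) (T.pull_mem _ _ _ (T.one_mem _))),
        _, key η η' 1 c hd ?_⟩
      rwa [mul_one]
    · obtain ⟨η, hη, η', hd⟩ := hY2 (α - 1) (by omega) (by omega)
      refine ⟨T.pull (fst Y E) η * T.pull (snd Y E) c,
        T.gr_congr (sub_add_cancel α 1) (T.mul_mem (T.pull_mem _ _ _ hη) (T.pull_mem _ _ _ hc)),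
        _, key η η' c 1 hd ?_⟩
      rwa [one_mul]

end RCW

theorem t_RCW (T : CHM.ChowTheory.{v, u, w} V) : M_RCW T := by
  intro _ hX X i
  obtain ⟨a, ha⟩ : ∃ a : ℕ, (a : ℤ) = |i| + |T.dim X| :=
    ⟨(|i| + |T.dim X|).toNat, Int.toNat_of_nonneg (by positivity)⟩
  obtain ⟨b, hb⟩ : ∃ b : ℕ, (b : ℤ) = T.dim X + a := by
    refine ⟨(T.dim X + a).toNat, Int.toNat_of_nonneg ?_⟩
    have h1 := neg_abs_le (T.dim X)
    have h2 := abs_nonneg i
    omega
  obtain ⟨α, β, h1, h2, h3, h4, h5⟩ : ∃ α β : ℤ, 0 ≤ α ∧ α ≤ a ∧ 0 ≤ β ∧ β ≤ b ∧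
      i + α + β = b := by
    have e1 := neg_abs_le (T.dim X)
    have e2 := le_abs_self i
    have e3 := neg_abs_le i
    have e4 := abs_nonneg (T.dim X)
    by_cases hi : 0 ≤ i
    · exact ⟨0, b - i, by omega, by omega, by omega, by omega, by omega⟩
    · exact ⟨-i, b, by omega, by omega, by omega, by omega, by omega⟩
  obtain ⟨A, hA, hA2⟩ := RCW.lines T a
  obtain ⟨B, hB, hB2⟩ := RCW.lines T b
  obtain ⟨ω, hω, ω', hωd⟩ := hA2 α h1 h2
  obtain ⟨η, hη, η', hηd⟩ := hB2 β h3 h4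
  have hd : T.dim B = T.dim (A ⊗ X) := by
    rw [T.dim_tensor, hA, hB, hb]
    ring
  rw [eq_bot_iff]
  intro x hx
  have hx1 : x.1 ∈ nt T X := nt_of_homog T x.2 hx
  have g1 : T.pull (fst B (A ⊗ X)) η * T.pull (snd B (A ⊗ X))
      (T.pull (fst A X) ω * T.pull (snd A X) x.1) = 0 := by
    refine RCW.zero_of_nt T hX hd ?_ ?_
    · refine T.gr_congr ?_ (T.mul_mem (T.pull_mem _ _ _ hη) (T.pull_mem _ _ _
        (T.mul_mem (T.pull_mem _ _ _ hω) (T.pull_mem _ _ _ x.2))))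
      rw [hB, ← h5]
      ring
    · exact Ideal.mul_mem_left _ _ (pull_nt T _ (Ideal.mul_mem_left _ _ (pull_nt T _ hx1)))
  have g2 := RSV.zero_of_times T η' η _ hηd g1
  have g3 := RSV.zero_of_times T ω' ω _ hωd g2
  exact (Submodule.mem_bot ℚ).2 (Subtype.ext g3)

end

end MotP.HL
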