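import Pool.Agent.HL.AllQ

/-!
# The half law, part R (rational and numerical equivalence): definitions (architect helper39)
-/

set_option autoImplicit false

open CategoryTheory MonoidalCategory CartesianMonoidalCategory Limits

universe v₁ u₁ v u w x

namespace MotP.HL

open Mot MotP.GGap

noncomputable section

section

variable {C : Type u₁} [Category.{v₁} C] [Preadditive C] [Linear ℚ C]
variable {D : Type u} [Category.{v} D] [Preadditive D] [Linear ℚ D] [MonoidalCategory D]
  [SymmetricCategory D] [MonoidalPreadditive D] [MonoidalLinear ℚ D] [RightRigidCategory D]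

/-- The endomorphisms of `Y` which are killed by `π` are nilpotent. -/
def Nl (π : C ⥤ D) (Y : C) : Prop := ∀ a : End Y, π.map (a : Y ⟶ Y) = 0 → IsNilpotent a

/-- A family of objects with nilpotent kernels and simple images which occur in the `GG X k`,
without morphisms between the images of different ones, which have morphisms from `U`. -/
def FamR (π : C ⥤ D) (U : C) (X : D) {N : ℕ} (Y : Fin N → C) : Prop :=
  (∀ i, Nl π (Y i) ∧ Smp (π.obj (Y i)) ∧ (∃ k, Smd (π.obj (Y i)) (GG X k)) ∧
    Module.rank ℚ (U ⟶ Y i) ≠ 0) ∧ ∀ i j, i ≠ j → h (π.obj (Y i)) (π.obj (Y j)) = 0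

/-- The sum of the numbers `b(S) dim Hom(U, Y) / dim End S`, `S` the image of `Y`. -/
def wtR (W : Frob D) (π : C ⥤ D) (U : C) {N : ℕ} (Y : Fin N → C) : ℝ :=
  ∑ i, (b W (π.obj (Y i)) : ℝ) * Module.finrank ℚ (U ⟶ Y i) / h (π.obj (Y i)) (π.obj (Y i))

end

/-! ## The functor from Chow motives to numerical motives -/

variable {V : Type u} [Category.{v} V] [CartesianMonoidalCategory V]
  {T : CHM.ChowTheory.{v, u, w} V} (hG : S_NGR T) (hU : S_NUN T)

/-- The numerical motive of a Chow motive. -/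
def redObj (M : CHM.Mot T) : CHM.Mot (numQ T hG hU) where
  X := M.X
  p := pr T _ M.p
  m := M.m
  deg := numQ_mem hG hU M.deg
  idem := by rw [numQ_cp, M.idem]

theorem redHom {M N : CHM.Mot T} {f : T.CH (M.X ⊗ N.X)} (hf : f ∈ CHM.Mot.hom M N) :
    (show (numQ T hG hU).CH (M.X ⊗ N.X) from pr T _ f) ∈
      CHM.Mot.hom (redObj hG hU M) (redObj hG hU N) := by
  refine ⟨numQ_mem hG hU hf.1, ?_⟩
  change (numQ T hG hU).cp (X := M.X) (Y := N.X) (Z := N.X)
    ((numQ T hG hU).cp (X := M.X) (Y := M.X) (Z := N.X) (pr T _ M.p) (pr T _ f))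
    (pr T _ N.p) = pr T _ f
  rw [numQ_cp, numQ_cp, hf.2]

/-- The functor from Chow motives to numerical motives. -/
def red : CHM.Mot T ⥤ CHM.Mot (numQ T hG hU) where
  obj M := redObj hG hU M
  map f := ⟨pr T _ f.1, redHom hG hU f.2⟩
  map_id M := rfl
  map_comp f g := Subtype.ext (numQ_cp hG hU f.1 g.1).symm

theorem red_val {M N : CHM.Mot T} (f : M ⟶ N) : ((red hG hU).map f).1 = pr T _ f.1 := rfl

theorem red_h (X : V) (i : ℤ) :
    (red hG hU).obj (CHM.Mot.h T X i) = CHM.Mot.h (numQ T hG hU) X i := by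
  have e := numQ_diag hG hU X
  change CHM.Mot.mk (T := numQ T hG hU) X (pr T _ (T.diag X)) i _ _ =
    CHM.Mot.mk X ((numQ T hG hU).diag X) i _ _
  congr 1
  exact e.symm

end

end MotP.HL
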