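import Pool.Agent.HL.NumSt

/-!
# The half law: further statements (architect helper39)

Module `X` proves `theorem t_X` (of type `M_X C` resp. `M_X T`) in the namespace `MotP.HL`, in the file `Pool/Agent/HL/P_X.lean`, importing this file.
-/

set_option autoImplicit false

open CategoryTheory MonoidalCategory CartesianMonoidalCategory Limits Polynomial

universe v u w x

namespace MotP.HL

noncomputable section

section

variable (C : Type u) [Category.{v} C] [Preadditive C] [Linear ℚ C] [MonoidalCategory C]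
  [SymmetricCategory C] [MonoidalPreadditive C] [MonoidalLinear ℚ C] [RightRigidCategory C]

/-- SUM. Let `f : 𝟙 ⟶ A`, `f ≠ 0` (`n A ≠ 0`); by `W.nd` and `W.scalar` there is `g` with `f ≫ g = 𝟙`, and `Dec A (𝟙_ C) B` (split the complementary idempotent; as in NTR). `h A A = h 𝟙 𝟙 + h 𝟙 B + h B 𝟙 + h B B` (ADD 2, 3), `m (A ⊗ Aᘁ) = m (𝟙 ⊗ 𝟙ᘁ) + m (B ⊗ 𝟙ᘁ) + m (𝟙 ⊗ Bᘁ) + m (B ⊗ Bᘁ)` (the traces of `Aᘁ` are
those of `𝟙ᘁ` plus those of `Bᘁ`, as in HLF), and `h Y Z ≤ m (Z ⊗ Yᘁ)` (`W.finrank_hom_le`), so equality holds for `Y = 𝟙`, `Z = B`: `n B = h 𝟙 B = m (B ⊗ 𝟙ᘁ) = m B` (BFA 6, `t 𝟙ᘁ k = 1`), and `n A = 1 + n B = 1 + m B = m A`. -/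
def S_SUM : Prop := ∀ [IsIdempotentComplete C] (W : Frob C) (A : C), h A A = m W (A ⊗ Aᘁ) → n A ≠ 0 → n A = m W A

def M_SUM : Prop := S_ADD C → S_ADJ C → S_TEN C → S_BFA C → S_SUM C

end

variable {V : Type u} [Category.{v} V] [CartesianMonoidalCategory V]

/-- NFY. Let `A = h X i` in `Mot (numQ ..)`, `W = frobQ ..`. `A ⊗ Aᘁ = h (X ⊗ X) (i + (dim X - i)) = h (X ⊗ X) (dim X)` (`h_dual`, `h_tensor`), so `h A A = n (A ⊗ Aᘁ)` (ADJ 1) is the left hand side of the hypothesis (NHO; `n` is the `finrank`, `Cardinal.toNat` of the rank) and `m W (A ⊗ Aᘁ) = K.mult (X ⊗ X) (dim X)` (NMU 1). SUM, NHO, NMU 1. -/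
def S_NFY (T : CHM.ChowTheory.{v, u, w} V) : Prop := ∀ (R : CHM.FrobeniusMaps T) (K : CHM.Cohomology.{v, u, w, x} T R) (X : V),
  Cardinal.toNat (Module.rank ℚ (T.gr (X ⊗ X) (T.dim X) ⧸ T.num (X ⊗ X) (T.dim X))) = K.mult (X ⊗ X) (T.dim X) →
  ∀ i : ℤ, Cardinal.toNat (Module.rank ℚ (T.gr X i ⧸ T.num X i)) ≠ 0 →
    Cardinal.toNat (Module.rank ℚ (T.gr X i ⧸ T.num X i)) = K.mult X i

def M_NFY (T : CHM.ChowTheory.{v, u, w} V) : Prop := (∀ hG hU, S_ADJ (CHM.Mot (numQ T hG hU))) →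
  (∀ hG hU, S_SUM (CHM.Mot (numQ T hG hU))) → S_NGR T → S_NUN T → S_NND T →
  S_NEV.{v, u, w, x} T → S_NHO T → S_NMU.{v, u, w, x} T → S_NFY.{v, u, w, x} T

end

end MotP.HL
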