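import Pool.Agent.HL.RDefs

/-!
# The half law, part R (rational and numerical equivalence): statements of the modules (architect helper39)

THEOREM (`S_RQV`). `X` a smooth projective variety, `R_r = dim CH^(r d)(X^r × X^r)`, `N_r` = its dimension modulo numerical equivalence. The ratio `N_r / R_r` (`0` if `R_r` is infinite) converges, its limit `L` is `0` or `1 / k`, `k ≥ 1` a natural number, `L ≤ N_r / R_r` for all `r`, and
if `L = 1` then the numerically trivial cycles in `CH^(r d)(X^r × X^r)` are `0` for all `r`. No conjecture is assumed. So if `N_r ≥ c R_r` for infinitely many `r`, with one `c > 1/2`, then rational and numerical equivalence agree.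

Module `X` proves `theorem t_X : S_X` (or `M_X`, ..., the hypotheses of `M_X` are statements of other modules) in the namespace `MotP.HL`, in the file `Pool/Agent/HL/P_X.lean`, importing this file. `D` is a category of numerical motives with `W : Frob D` as before (all modules of `AllQ.lean` are available: `a_ADJ ...`: `t_ADD D`, `t_ADJ D`,
`a_BFA D`, `a_NRM D`, `a_SIM D`, `a_ASY D`, `a_RTO D`, `a_GGX D`, `a_ONE D`), `C` is a category of Chow motives, `π : C ⥤ D` a full linear functor (`RDefs.lean`). `v(A) = Module.rank ℚ (U ⟶ A)`.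
-/

set_option autoImplicit false

open CategoryTheory MonoidalCategory CartesianMonoidalCategory Limits Polynomial Filter

universe v₁ u₁ v u w x

namespace MotP.HL

open Mot MotP.GGap

noncomputable section

/-! ## Lifting -/

/-- LSM. (1) `i : π Y ⟶ π Z`, `p`, `i ≫ p = 𝟙`; `i = π i'`, `p = π p'` (`π` is full), `i' ≫ p' = 𝟙 + a`, `π a = 0`, so `a` is nilpotent and `𝟙 + a` is invertible (`IsNilpotent.isUnit_one_add`), `i' ≫ (p' ≫ u) = 𝟙`; split the complementary idempotent of `Z`. (2) The idempotent `p ≫ i` of `π Z` lifts to an idempotent `e` of `End Z`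
(`exists_isIdempotentElem_eq_of_ker_isNilpotent`, `Mathlib/RingTheory/Idempotents.lean`, for the ring homomorphism `End Z →+* End (π.obj Z)` given by `π`); split `e` and `1 - e`: `A`; `π A ≅ S` because both split `p ≫ i`. (3) `a ↦ p ≫ a ≫ i : Z ⟶ Z`. (4) `𝟙` is nilpotent. (5) `π` maps a `Dec` to a `Dec`. (6) `f ↦ (f ≫ p, f ≫ q)` is bijective; `rank_prod'`. -/
def S_LSM : Prop := ∀ (C : Type u₁) [Category.{v₁} C] [Preadditive C] [Linear ℚ C] [IsIdempotentComplete C]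
  (D : Type u) [Category.{v} D] [Preadditive D] [Linear ℚ D] (π : C ⥤ D) [π.Additive] [π.Full],
  (∀ Y Z : C, Nl π Y → Smd (π.obj Y) (π.obj Z) → Smd Y Z) ∧
  (∀ (Z : C) (S : D), Nl π Z → Smd S (π.obj Z) → ∃ A : C, Smd A Z ∧ Nonempty (π.obj A ≅ S)) ∧
  (∀ A Z : C, Smd A Z → Nl π Z → Nl π A) ∧
  (∀ A : C, Nl π A → 𝟙 (π.obj A) = 0 → 𝟙 A = 0) ∧
  (∀ Z A B : C, Nonempty (Dec Z A B) → Nonempty (Dec (π.obj Z) (π.obj A) (π.obj B))) ∧
  ∀ (U Z A B : C), Nonempty (Dec Z A B) → Module.rank ℚ (U ⟶ Z) = Module.rank ℚ (U ⟶ A) + Module.rank ℚ (U ⟶ B)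

/-- LVS. A simple lift with morphisms from `U`. Induction on `h (π Z) (π Z)` (natural number): `𝟙 (π Z) ≠ 0` (otherwise `𝟙 Z = 0` by LSM 4 and `v Z = 0`); SIM 6: a simple summand `S` of `π Z`; LSM 2: `Dec Z A B`, `π A ≅ S`, so `π A` is simple. If `v A ≠ 0`: done. Otherwise `v B ≠ 0` (LSM 6), `Nl B` (LSM 3), `h (π B) (π B) < h (π Z) (π Z)` (LSM 5, ADD 2, 3),
induction, transitivity of `Smd` (compose the decompositions in `C`: `Smd A' B`, `Smd B Z` imply `Smd A' Z`; for this `C` needs binary biproducts, or split the idempotent of `Z` which belongs to `A'` and its complement). -/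
def S_LVS : Prop := ∀ (C : Type u₁) [Category.{v₁} C] [Preadditive C] [Linear ℚ C] [IsIdempotentComplete C]
  (D : Type u) [Category.{v} D] [Preadditive D] [Linear ℚ D] [MonoidalCategory D]
  [SymmetricCategory D] [MonoidalPreadditive D] [MonoidalLinear ℚ D] [RightRigidCategory D] [HasFiniteBiproducts D] [IsIdempotentComplete D] (_ : Frob D)
  (π : C ⥤ D) [π.Additive] [π.Full] (U Z : C), Nl π Z → Module.rank ℚ (U ⟶ Z) ≠ 0 →
    ∃ A : C, Smd A Z ∧ Smp (π.obj A) ∧ Module.rank ℚ (U ⟶ A) ≠ 0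

def M_LVS : Prop := S_LSM.{v₁, u₁, v, u} → S_LVS.{v₁, u₁, v, u}

/-- LIO. Multiplicities. Induction on `h (π Z) (π Z)`. If all `h (π Y_i) (π Z) = 0`: `a = 0`, `Z' = Z`. Otherwise `h (π Y_j) (π Z) ≠ 0`, `Smd (π Y_j) (π Z)` (SIM 7), `Dec Z (Y_j) Z₁` (LSM 1), `Nl Z₁`, `h (π Z₁) (π Z₁) < h (π Z) (π Z)` (LSM 5, ADD), `h (π Y_i) (π Z) = h (π Y_i) (π Y_j) + h (π Y_i) (π Z₁)`, `v Z = v (Y_j) + v Z₁` (LSM 6); induction. -/
def S_LIO : Prop := ∀ (C : Type u₁) [Category.{v₁} C] [Preadditive C] [Linear ℚ C] [IsIdempotentComplete C]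
  (D : Type u) [Category.{v} D] [Preadditive D] [Linear ℚ D] [MonoidalCategory D]
  [SymmetricCategory D] [MonoidalPreadditive D] [MonoidalLinear ℚ D] [RightRigidCategory D] [HasFiniteBiproducts D] [IsIdempotentComplete D] (_ : Frob D)
  (π : C ⥤ D) [π.Additive] [π.Full] (U : C) (N : ℕ) (Y : Fin N → C), (∀ i, Nl π (Y i) ∧ Smp (π.obj (Y i))) →
  (∀ i j, i ≠ j → h (π.obj (Y i)) (π.obj (Y j)) = 0) → ∀ Z : C, Nl π Z → ∃ (a : Fin N → ℕ) (Z' : C), Smd Z' Z ∧
    (∀ i, h (π.obj (Y i)) (π.obj Z') = 0) ∧ (∀ i, h (π.obj (Y i)) (π.obj Z) = a i * h (π.obj (Y i)) (π.obj (Y i))) ∧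
    Module.rank ℚ (U ⟶ Z) = ∑ i, (a i : Cardinal.{v₁}) * Module.rank ℚ (U ⟶ Y i) + Module.rank ℚ (U ⟶ Z')

def M_LIO : Prop := S_LSM.{v₁, u₁, v, u} → S_LIO.{v₁, u₁, v, u}

/-- DVD. PURE ALGEBRA. Induction on `dim V` (for the given `ρ` and all `V`, `φ`). `V = 0`: clear. Otherwise let `V'` be a nonzero subspace of minimal dimension among those stable under all `φ e`, `0 ≠ v ∈ V'`; `{φ e v}` is stable, so it is `V'`. For `j` in the kernel of `ρ`: `{φ j v | ρ j = 0}` is a stable subspace of `V'`, so it is `0` or `V'`; if it is `V'`, then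
`v = φ j v`, `φ (1 - j) v = 0`, but `ρ (1 - j) = 1 ≠ 0`, so `1 - j` is a unit and `v = 0`, a contradiction. So `φ j v = 0` for all `j` in the kernel, and if `φ e v = 0` then `e` is not a unit, so `ρ e = 0`. So `e ↦ φ e v` induces a bijection `D ≅ V'`: `dim V' = dim D`. Apply the induction hypothesis to `V / V'` (`Submodule.finrank_quotient_add_finrank`, `Submodule.mapQ`). -/
def S_DVD : Prop := ∀ (E : Type v₁) (D : Type v) [Ring E] [Algebra ℚ E] [Ring D] [Algebra ℚ D] [Nontrivial D] [Module.Finite ℚ D] (ρ : E →ₐ[ℚ] D),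
  Function.Surjective ρ → (∀ e, ρ e ≠ 0 → IsUnit e) → ∀ (V : Type w) [AddCommGroup V] [Module ℚ V] [Module.Finite ℚ V]
  (_ : E →ₐ[ℚ] Module.End ℚ V), Module.finrank ℚ D ∣ Module.finrank ℚ V

/-- LDV. DVD for `E = End Y`, `D = End (π Y)` (`(e * e' : End Y) = e' ≫ e`), `φ e = (f ↦ f ≫ e)` on `V = (U ⟶ Y)`. If `π e ≠ 0`, then `π e` is invertible, its inverse is `π g` (`π` is full), `e ≫ g = 𝟙 + a`, `g ≫ e = 𝟙 + a'` with `a`, `a'` nilpotent, so `e` is invertible. `h S S = finrank (End S)`, `W.finite_hom`. -/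
def S_LDV : Prop := ∀ (C : Type u₁) [Category.{v₁} C] [Preadditive C] [Linear ℚ C]
  (D : Type u) [Category.{v} D] [Preadditive D] [Linear ℚ D] [MonoidalCategory D]
  [SymmetricCategory D] [MonoidalPreadditive D] [MonoidalLinear ℚ D] [RightRigidCategory D] (_ : Frob D)
  (π : C ⥤ D) [π.Additive] [Functor.Linear ℚ π] [π.Full] (U Y : C), Nl π Y → Smp (π.obj Y) → Module.Finite ℚ (U ⟶ Y) →
    h (π.obj Y) (π.obj Y) ∣ Module.finrank ℚ (U ⟶ Y)

def M_LDV : Prop := S_DVD.{v₁, v, v₁} → S_LDV.{v₁, u₁, v, u}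

/-! ## The limit -/

/-- RLO. Let `a i r` be the multiplicities of LIO for `Z r` (`h (π (Y i)) (GG X r) = a i r * δ_i`, ADJ 3), `S_i = π (Y i)`, `δ_i = h S_i S_i > 0`. `h S_i (GG X r) = n (GG X r ⊗ (S_i)ᘁ) = n ((S_i)ᘁ ⊗ GG X r)` (ADJ 1, braiding and ADJ 3), `(S_i)ᘁ` is a summand of `GG X k` (GGX 4), so `h S_i (GG X r) / nn X r → b (S_i)ᘁ = b S_i` (ASY, BFA 3), and
`h S_i (GG X r) ≤ b S_i * nn X r` (ADJ 4, NRM). So `a i r / nn X r → b S_i / δ_i > 0` (ONE 6), `a i r ≤ (b S_i / δ_i) nn X r`. (1) `a i r > 0` for large `r`, and `v (Z r) ≥ a i r * v (Y i)` is infinite. (2) If `v (Z r)` is finite then `finrank (U ⟶ Z r) = ∑ a i r * finrank (U ⟶ Y i) + finrank (U ⟶ Z')` (all terms with `a i r ≠ 0` are finite). (3) `v (Z') = 0`: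
otherwise LVS gives `A`, `Smd A Z'`, `π A` simple, `v A ≠ 0`; `Nl A`, `Smd (π A) (GG X r)`, so `h (S_i) (π A) ≠ 0` for some `i` by hypothesis, but `h (S_i) (π A) ≤ h (S_i) (π Z') = 0` (SIM 5). So `v (Z r) = ∑ a i r * v (Y i)` is finite, `finrank (U ⟶ Z r) / nn X r → ∑ (b S_i / δ_i) finrank (U ⟶ Y i) = wtR`, and it is `≤ wtR`. -/
def S_RLO : Prop := ∀ (C : Type u₁) [Category.{v₁} C] [Preadditive C] [Linear ℚ C] [IsIdempotentComplete C]
  (D : Type u) [Category.{v} D] [Preadditive D] [Linear ℚ D] [MonoidalCategory D]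
  [SymmetricCategory D] [MonoidalPreadditive D] [MonoidalLinear ℚ D] [RightRigidCategory D] [HasFiniteBiproducts D] [IsIdempotentComplete D] (W : Frob D)
  (X : D), 𝟙 X ≠ 0 → ∀ (π : C ⥤ D) [π.Additive] [π.Full] (U : C) (Z : ℕ → C), (∀ r, Nonempty (π.obj (Z r) ≅ GG X r)) → (∀ r, Nl π (Z r)) →
  ∀ (N : ℕ) (Y : Fin N → C), FamR π U X Y →
    ((∃ i, ¬ Module.Finite ℚ (U ⟶ Y i)) → ∃ N₀ : ℕ, ∀ r, N₀ ≤ r → ¬ Module.Finite ℚ (U ⟶ Z r)) ∧
    (∀ ε : ℝ, 0 < ε → ∃ N₀ : ℕ, ∀ r, N₀ ≤ r → Module.Finite ℚ (U ⟶ Z r) → wtR W π U Y - ε ≤ (Module.finrank ℚ (U ⟶ Z r) : ℝ) / nn X r) ∧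
    ((∀ i, Module.Finite ℚ (U ⟶ Y i)) → (∀ A : C, Nl π A → Smp (π.obj A) → (∃ k, Smd (π.obj A) (GG X k)) → Module.rank ℚ (U ⟶ A) ≠ 0 → ∃ i, h (π.obj (Y i)) (π.obj A) ≠ 0) →
      (∀ r, Module.Finite ℚ (U ⟶ Z r) ∧ (Module.finrank ℚ (U ⟶ Z r) : ℝ) ≤ wtR W π U Y * nn X r) ∧
      Tendsto (fun r => (Module.finrank ℚ (U ⟶ Z r) : ℝ) / nn X r) atTop (nhds (wtR W π U Y)))

def M_RLO : Prop := S_LSM.{v₁, u₁, v, u} → S_LVS.{v₁, u₁, v, u} → S_LIO.{v₁, u₁, v, u} → S_RLO.{v₁, u₁, v, u}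

/-- RQU. THE QUANTIZATION THEOREM R (abstract form). `(U ⟶ Z r) → (π U ⟶ π (Z r))` is surjective (`π` is full and linear), and `π U ≅ 𝟙`, `π (Z r) ≅ GG X r`: so `nn X r ≤ finrank (U ⟶ Z r)` if the latter space is finite-dimensional (GGX 2). Case 1: a family (`FamR`) with an infinite-dimensional `U ⟶ Y i`: `finrank (U ⟶ Z r) = 0` for large `r` (RLO 1), the ratio is `0`, `L = 0`.
Case 2: all families have finite-dimensional `U ⟶ Y i`; then each term `b S_i * v_i / δ_i` of `wtR` is a natural number `≥ 1` (LDV; ONE 6; `v_i ≠ 0`). Case 2a: families of every length `N`: `finrank (U ⟶ Z r) / nn X r ≥ N - 1` for large `r` if it is finite (RLO 2), so the ratio `nn / finrank` tends to `0` (`n / 0 = 0`). Case 2b: let `N = N' + 1` be the minimal length without a family (`Nat.find`;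
`N ≠ 0`), `Y` a family of length `N'`; it is complete in the sense of RLO 3 (otherwise `Fin.cons A Y`; `h (π A) (π (Y i)) = h (π (Y i)) (π A)`: ADJ 2). So `finrank / nn → k := wtR`, a natural number; `k ≥ 1` because `A = U` is nilpotent, `π U ≅ 𝟙` simple (SIM 4), a summand of `GG X 0` (GGX 5), `v U ≠ 0` (`𝟙 U ≠ 0`), so the family is not empty. `L = 1 / k`; `finrank ≤ k nn` and `finrank ≥ nn > 0`.
The last clause: if `L ≠ 0` we are in Case 2b (RLO 3). -/
def S_RQU : Prop := ∀ (C : Type u₁) [Category.{v₁} C] [Preadditive C] [Linear ℚ C] [IsIdempotentComplete C]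
  (D : Type u) [Category.{v} D] [Preadditive D] [Linear ℚ D] [MonoidalCategory D]
  [SymmetricCategory D] [MonoidalPreadditive D] [MonoidalLinear ℚ D] [RightRigidCategory D] [HasFiniteBiproducts D] [IsIdempotentComplete D] (_ : Frob D)
  (X : D), 𝟙 X ≠ 0 → ∀ (π : C ⥤ D) [π.Additive] [Functor.Linear ℚ π] [π.Full] (U : C), Nonempty (π.obj U ≅ 𝟙_ D) → Nl π U →
  ∀ Z : ℕ → C, (∀ r, Nonempty (π.obj (Z r) ≅ GG X r)) → (∀ r, Nl π (Z r)) →
    ∃ L : ℝ, (L = 0 ∨ ∃ k : ℕ, 0 < k ∧ L = 1 / k) ∧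
      Tendsto (fun r => (nn X r : ℝ) / Module.finrank ℚ (U ⟶ Z r)) atTop (nhds L) ∧
      (∀ r, L ≤ nn X r / Module.finrank ℚ (U ⟶ Z r)) ∧ (L ≠ 0 → ∀ r, Module.Finite ℚ (U ⟶ Z r))

def M_RQU : Prop := S_LSM.{v₁, u₁, v, u} → S_LDV.{v₁, u₁, v, u} → S_RLO.{v₁, u₁, v, u} → S_RQU.{v₁, u₁, v, u}

section

variable (C : Type u) [Category.{v} C] [Preadditive C] [Linear ℚ C] [MonoidalCategory C]
  [SymmetricCategory C] [MonoidalPreadditive C] [MonoidalLinear ℚ C] [RightRigidCategory C]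

/-- RNI. Numerically trivial endomorphisms which are not nilpotent. `W : Fr C` (Chow motives), `B = W.b x`, `M = T x k`, `W.b M = B ^ k`. `k ≠ 0` (an endomorphism of `𝟙_` is a scalar: `W.scalar`, and it is `0` if it is numerically trivial). GAP (`f_GAP C`, `Pool/Agent/GGap/FinC.lean`; `S_GAP` in `GGap/St.lean`) for `M`: for `s > 0`, if `End (T M s)` is finite-dimensional, then
`(B ^ k + 1) ^ (2 s) ≤ (s + 1) ^ c * finrank (End (T M s))`, `c = W.bp M ^ 2 + W.bm M ^ 2 + 4`. `T (T x k) s ≅ T x (k s)` (`P_GGX.lean`: `T x r ⊗ T x k ≅ T x (r + k)`), so the same for `e_(k s)`, `e_r = finrank (End (T x r))`. The map `End (T x r) → End (T x (r + 1))`, `g ↦ g ⊗ₘ t`, is injective: if `g ⊗ₘ t = 0`, then its partial trace over the last factor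
`val (tr t) • g` is `0` (`ptr`, `ptr_left`, `ptr` of `𝟙 ⊗ₘ t`: `Pool/Agent/MotP/Van.lean` and `Pool/Agent/Mot`, or: `tr ((g ⊗ₘ t) ≫ ...)`). So if `End (T x r)` is finite-dimensional and `k s ≤ r < k (s + 1)`, then `End (T x (k s))` is finite-dimensional and `e_r ≥ e_(k s)`, so `B ^ (2 r) / e_r ≤ B ^ (2 k) B ^ (2 k s) (s + 1) ^ c / (B ^ k + 1) ^ (2 s)` (`B ≥ 1`; `B = 0`: trivial for `r > 0`), which tends to `0`
(`tendsto_pow_const_div_const_pow_of_one_lt`, as in `P_END.lean`). If `End (T x r)` is infinite-dimensional, `finrank = 0` and the ratio is `0`. -/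
def S_RNI : Prop := ∀ [IsIdempotentComplete C] (W : Fr C) (x : C) (t : x ⟶ x), tr x t ≠ 0 → (∀ k, W.b (T x k) = W.b x ^ k) →
  ∀ (k : ℕ) (f : End (T x k)), NT (f : T x k ⟶ T x k) → ¬ IsNilpotent f →
    Tendsto (fun r => ((W.b x : ℝ) ^ (2 * r)) / Module.finrank ℚ (T x r ⟶ T x r)) atTop (nhds 0)

end

/-! ## Varieties -/

section

variable {V : Type u} [Category.{v} V] [CartesianMonoidalCategory V]

/-- RED. The functor `red` (`RDefs.lean`). Additive and linear: `pr` is linear. Full: `g.1 = pr T _ a` with `a ∈ gr` (`numQ_gr`), `f = cp M.p (cp a N.p)` (`CHM.Mot.mem_hom`, `cp_assoc`, `idem`), `pr f = cp (pr M.p) (cp g.1 (pr N.p)) = g.1` (`numQ_cp`, `p_cp`, `cp_p`). Kernel: `(red f) = 0` iff `f.1` is numerically trivial, iff `f` is (`CHM/Num.lean`: `numTrivial_iff`, see `P_NND.lean` and the use of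
`CHM.Mot.numTrivial_end`). -/
def S_RED (T : CHM.ChowTheory.{v, u, w} V) : Prop := ∀ (hG : S_NGR T) (hU : S_NUN T), (red hG hU).Additive ∧ Functor.Linear ℚ (red hG hU) ∧ (red hG hU).Full ∧
  ∀ (M N : CHM.Mot T) (f : M ⟶ N), (red hG hU).map f = 0 ↔ MotP.NumTrivial f

/-- RNL. Nilpotence for `h (X^r ⊗ X^r) i`. Let all numerically trivial endomorphisms of `T (h X 0) k` be nilpotent, for all `k`. `End (h Y i)` and `End (h Y 0)` are the same subalgebra `gr (Y ⊗ Y) (dim Y)` of correspondences (`CHM.Mot.mem_hom_h`, `endEquiv`), so it suffices to show it for `h (X^r ⊗ X^r) 0 = T (h X 0) r ⊗ T (h X 0) r ≅ T (h X 0) (r + r)` (`CHM.Mot.T_h`, `h_tensor` in `NumSt.lean`);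
numerical triviality and nilpotence are invariant under isomorphisms; RED for `Nl`. Also the unit `h (𝟙_ V) 0 = 𝟙_`: its endomorphisms are scalars (`Mot.scalar`, `Mot.unit_ne`). -/
def S_RNL (T : CHM.ChowTheory.{v, u, w} V) : Prop := ∀ (hG : S_NGR T) (hU : S_NUN T) (X : V),
  (∀ (k : ℕ) (f : End (_root_.Mot.T (CHM.Mot.h T X 0) k)), MotP.NumTrivial (f : _root_.Mot.T (CHM.Mot.h T X 0) k ⟶ _root_.Mot.T (CHM.Mot.h T X 0) k) → IsNilpotent f) →
  Nl (red hG hU) (𝟙_ (CHM.Mot T)) ∧ ∀ (r : ℕ) (i : ℤ), Nl (red hG hU) (CHM.Mot.h T (CHM.pow X r ⊗ CHM.pow X r) i)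

def M_RNL (T : CHM.ChowTheory.{v, u, w} V) : Prop := S_RED T → S_RNL T

/-- RQV. THE THEOREM for a variety `X`, `N r = N^(r dim X)(X^r × X^r)`, `R_r` the dimension of `CH^(r dim X)(X^r × X^r)`. `W = frobQ ..`, `x̄ = h (numQ ..) X 0`: `nn x̄ r = N r` (NPW 1), `𝟙 x̄ ≠ 0` as in NFX (2). `Z r = h T (pow X r ⊗ pow X r) (r * dim X)`, `U = 𝟙_`: `(U ⟶ Z r) ≃ gr (pow X r ⊗ pow X r) (r * dim X)` (`CHM.Mot.secEquiv`), `red (Z r) = h (numQ ..) (..) ..` (`red_h`) `= GG x̄ r`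
(`CHM.Mot.T_h`, `h_dual`, `h_tensor`, `dim_pow`; see `P_NPW.lean`). Case 1: all numerically trivial endomorphisms of all `T (h X 0) k` are nilpotent: RNL, RED, RQU. If `L = 1`: `R_r` is finite and `N r ≥ R_r`, so the kernel of the surjection `gr → gr ⧸ num` is `0`. Case 2: not. `N r ≤ B ^ (2 r)`, `B = finrank (K.H X)` (`N ≤ mult ≤ finrank`, as `(K.growth ...)` or NHA 1 and `K.mult_le`; or `nn x̄ r = h (T x̄ r) (T x̄ r) ≤ m (T x̄ r ⊗ (T x̄ r)ᘁ) ≤ b (..) = B ^ (2 r)`,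
BFA, NMU 2). RNI for `x = h T X 0`, `W` the `Fr` of `K.frobenius` (`MotP.GGap.ofFrobenius`), `W.b (T x k) = B ^ k` (`CHM.Mot.T_h`, `K.number_eq`, `K.finrank_pow`), `t` an endomorphism of `h X 0` with `tr ≠ 0`: it exists because otherwise `𝟙 (h X 0)` is numerically trivial and `𝟙 x̄ = 0` (RED). `finrank (End (T x r)) = finrank gr (pow X r ⊗ pow X r) (dim (pow X r))` (`CHM.Mot.endEquiv`). So `N r / R_r ≤ B ^ (2 r) / R_r → 0`, `L = 0`. -/
def S_RQV (T : CHM.ChowTheory.{v, u, w} V) : Prop := ∀ (R : CHM.FrobeniusMaps T) (K : CHM.Cohomology.{v, u, w, x} T R)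
  (X : V) (N : ℕ → ℕ), (∀ r, N r = Cardinal.toNat (Module.rank ℚ (T.gr (CHM.pow X r ⊗ CHM.pow X r) (r * T.dim X) ⧸
      T.num (CHM.pow X r ⊗ CHM.pow X r) (r * T.dim X)))) → 0 < Module.finrank ℂ (K.H X) →
    ∃ L : ℝ, (L = 0 ∨ ∃ k : ℕ, 0 < k ∧ L = 1 / k) ∧
      Tendsto (fun r => (N r : ℝ) / Module.finrank ℚ (T.gr (CHM.pow X r ⊗ CHM.pow X r) (r * T.dim X))) atTop (nhds L) ∧
      (∀ r, L ≤ N r / Module.finrank ℚ (T.gr (CHM.pow X r ⊗ CHM.pow X r) (r * T.dim X))) ∧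
      (L = 1 → ∀ r, T.num (CHM.pow X r ⊗ CHM.pow X r) (r * T.dim X) = ⊥)

def M_RQV (T : CHM.ChowTheory.{v, u, w} V) : Prop := S_RQU.{w, max u w, w, max u w} → S_RNI (CHM.Mot T) → S_RED T → S_RNL T → S_RQV.{v, u, w, x} T

/-- RSV. One variety. Let `β ∈ gr X i` be not numerically trivial: `γ ∈ gr X (dim X - i)` with `deg (β γ) ≠ 0`. Let `a ∈ gr X i` be numerically trivial. `f = pull fst γ * pull snd a ∈ gr (X ⊗ X) (dim X)` is numerically trivial: `deg (f c) = deg (a * push snd (pull fst γ * c))` (`T.projection`, degrees are compatible with `push`: `deg_push` in `NumQ.lean`), so `f = 0`. So `0 = push snd (pull fst β * f) = push snd (pull fst (β γ)) * a = deg (β γ) • a`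
(projection formula and base change for `fst`, `snd`: see `CHM/Corr.lean`, `CHM/Sections.lean` for `push snd (pull fst b) = deg b • 1`). (`T.num X i` is a submodule of `T.gr X i`: `CHM/Num.lean`.) -/
def S_RSV (T : CHM.ChowTheory.{v, u, w} V) : Prop := ∀ (X : V), T.num (X ⊗ X) (T.dim X) = ⊥ → ∀ i : ℤ,
  Cardinal.toNat (Module.rank ℚ (T.gr X i ⧸ T.num X i)) ≠ 0 → T.num X i = ⊥

/-- RCW. All varieties. As NHZ (`P_NHZ.lean`, adapt its construction): `E` the line, `c` the class of a point. Let `a ∈ num X i`, `m` large, `W₁ = X × E^m`, `W₂ = E^(m + dim X)` (of the same dimension), `Z` their disjoint union, `0 ≤ j ≤ m` with `0 ≤ i + j ≤ m + dim X`. The class `a'` on `Z` which is `a × c^(j)` on `W₁` and `0` on `W₂` is numerically trivial of codimension `i + j`, the class which is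
`0` on `W₁` and `c^(i + j)` (a product of points and lines) on `W₂` is not, so `a' = 0` by RSV, `a × c^(j) = 0`, `a = 0` (multiply by the complementary class and push forward to `X`). -/
def S_RCW (T : CHM.ChowTheory.{v, u, w} V) : Prop := (∀ X : V, T.num (X ⊗ X) (T.dim X) = ⊥) → ∀ (X : V) (i : ℤ), T.num X i = ⊥

def M_RCW (T : CHM.ChowTheory.{v, u, w} V) : Prop := S_RSV T → S_RCW T

end

end

end MotP.HL
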