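import Pool.Agent.GGap.LightFin
import Pool.Agent.HL.ChsDefs
import Pool.Agent.CHM.Sums

/-!
# The half law and Weil-etale motivic cohomology (MP_cb388a_ag): definitions

`T` are the Chow groups of the smooth projective varieties over a finite field, `K` is a cohomology
theory (`l`-adic cohomology, with complex coefficients). `WeilEtale K` is a class of smooth
projective varieties which contains the point and is stable under products, together with their
Weil-etale motivic cohomology and `l`-adic cohomology for all `l`.
-/

set_option autoImplicit false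

open CategoryTheory MonoidalCategory CartesianMonoidalCategory Limits

universe x

namespace CHS

variable {V : Type} [Category.{0} V] [CartesianMonoidalCategory V]

/-- A class of smooth projective varieties over the finite field, which contains the point and is
stable under products, with Weil-etale motivic cohomology and `l`-adic cohomology. -/
structure WeilEtale {T : ChowTheory.{0, 0, 0} V} (K : Cohomology.{0, 0, 0, x} T) where
  /-- the Weil-etale and the `l`-adic cohomology of the varieties of the class, and the action of
  correspondences -/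
  M : MotP.GGap.Chow K.toOld.frobenius
  /-- the varieties of the class -/
  v : M.V → V
  motive : ∀ X, M.h X = CHM.Mot.h T.toOld (v X) 0
  dim : ∀ X, T.dim (v X) = (M.coh X).d
  point : ∃ X, v X = 𝟙_ V
  prod : ∀ X Y, ∃ Z, v Z = v X ⊗ v Y
  /-- the image in `CH^n(X)_ℚ` of an element of `H^(2n)_W(X, ℤ(n))` -/
  cyc : ∀ (X : M.V) (n : ℕ), (M.coh X).Cyc n → T.CH (v X)
  mem : ∀ (X : M.V) (n : ℕ) (z : (M.coh X).Cyc n), cyc X n z ∈ T.cyc (v X) n
  span : ∀ (X : M.V) (n : ℕ), ∀ a ∈ T.cyc (v X) n, a ∈ Submodule.span ℚ (Set.range (cyc X n))
  /-- intersection numbers -/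
  deg : ∀ (X : M.V) (n m : ℕ) (e : n + m = (M.coh X).d) (z : (M.coh X).Cyc n)
    (g : (M.coh X).Cyc m), T.deg (cyc X n z * cyc X m g) =
      (MotP.GGap.deg ((M.coh X).duality n m e) ((((M.coh X).W n).res _).ap z) g : ℤ)
  /-- the multiplicity of the eigenvalue `1` of Frobenius on `H^(2n)(X, ℚ_ℓ(n))` is the multiplicity
  of the eigenvalue `q^n` on `H(X)` -/
  mult : ∀ (X : M.V) (n : ℕ), ((M.coh X).weights.P n (2 * (n : ℤ))).rootMultiplicity 1 =
    K.M (v X) n
  /-- `CH^n(X)` is not numerically trivial for `0 ≤ n ≤ dim X` (powers of a hyperplane class) -/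
  pol : ∀ (X : M.V) (n : ℕ), n ≤ (M.coh X).d → T.N (v X) n ≠ 0

end CHS
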