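import Pool.Agent.HL.WeDefs
import Pool.Agent.HL.Chs
import Pool.Agent.HL.St2

/-!
# The half law and Weil-etale motivic cohomology (MP_cb388a_ag): statements of the modules (architect helper39)

Module `X` proves `theorem t_X : S_X` in the namespace `MotP.HL`, in the file `Pool/Agent/HL/P_X.lean`, importing this file.
-/

set_option autoImplicit false

open CategoryTheory MonoidalCategory CartesianMonoidalCategory Limits Polynomial

universe v u w x

namespace MotP.HL

open WEt

/-- PTS. Linearly independent functions have a nonsingular matrix of values. Induction on `r`: expand the determinant along the last row; or: the span of the vectors `(f i k)_i`, `k : κ`, in `Fin r → F` is everything (otherwise a nonzero linear form `c` vanishes on it, so `∑ c_i f_i = 0`), so there is a basis among these vectors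
(`Basis.ofSpan`, `exists_linearIndependent`), i.e. `b : Fin r → κ` with linearly independent columns. -/
def S_PTS : Prop := ∀ (F : Type w) [Field F] (κ : Type u) (r : ℕ) (f : Fin r → κ → F), LinearIndependent F f →
  ∃ b : Fin r → κ, (Matrix.of fun i j => f i (b j)).det ≠ 0

/-- WTS. Enough numerically independent cycles give the Tate conjecture and semisimplicity. Let `C = (X.E ℓ n).C (2 n)`, `F` its Frobenius (use `X.old`, files `WEt/RK.lean`, `WEt/PRE.lean`). `cl z = cC (res z) = res (cH z)` is fixed by `F`. `num ℓ (cl (a i)) (b j) = pairE (inc (cl (a i))) (cH (b j)) = pair (inc (res (a i))) (b j) = D i j` (`comm_inc`, `P.comm`), an integral matrix with nonzero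
determinant, so the `cl (a i)` are linearly independent over `ℤ_ℓ` in `ker (F - 1)`, which has rank at most `r` (`WE.RK.main`); so every `y` in `ker (F - 1)` has a multiple `c y`, `c ≠ 0`, in their span (`c` is a unit times a power of `ℓ`), and `cl (a i) ∈ Alg`: TC. SS: the generalized eigenspace of `F ⊗ ℚ_ℓ` for `1` has dimension
`r` (`LinearMap.finrank_maxGenEigenspace_eq`, `WE.RK.mult`), and so has the eigenspace; so they are equal, and `(F - 1)² z = 0` gives `(F - 1) z ⊗ 1 = 0`, i.e. `Tors ((F - 1) z)`. -/
def S_WTS : Prop := ∀ (X : Coh) (n m : ℕ) (e : n + m = X.d) (ℓ : Nat.Primes), ℓ ≠ X.p → ∀ (r : ℕ),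
  r = (X.weights.P n (2 * (n : ℤ))).rootMultiplicity 1 → ∀ (a : Fin r → X.Cyc n) (b : Fin r → X.Cyc m),
  (Matrix.of fun i j => MotP.GGap.deg (X.duality n m e) (((X.W n).res _).ap (a i)) (b j)).det ≠ 0 →
  X.TC ℓ n ∧ X.SS ℓ n

/-- WQN. Conversely. `C`, `F` as in WTS; SS: `ker (F - 1)` has rank `r` (`WE.RK.main`, third part). TC for `n`: there are `a : Fin r → Cyc n` with `cl (a i)` linearly independent (`WE.PRE.exists_fam` or similar; `Alg` consists of the `cl z` because fixed elements of `(X.W n).C (2 n)` are in the image of `res`). If `y ∈ ker (F - 1)` and `num ℓ y g = 0` for all `g`, then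
`pairE (inc y) (cH g) = 0` for all `g`, by TC for `m` the `cH g` span `H^(2m)` up to torsion (`WE.PRE.span_cH`), so `pairE (inc y) = 0`, `inc y` is torsion (`P.ker`), `N y = F z - z`, so `Tors y` by SS. So the functions `g ↦ num ℓ (cl (a i)) g` are linearly independent over `ℚ_ℓ` (clear denominators); PTS; `num ℓ (cl (a i)) g` is the integer
`deg (res (a i)) g` as in WTS. -/
def S_WQN : Prop := ∀ (X : Coh) (n m : ℕ) (e : n + m = X.d) (ℓ : Nat.Primes), ℓ ≠ X.p → X.TC ℓ n → X.TC ℓ m → X.SS ℓ n →
  ∃ (a : Fin ((X.weights.P n (2 * (n : ℤ))).rootMultiplicity 1) → X.Cyc n)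
    (b : Fin ((X.weights.P n (2 * (n : ℤ))).rootMultiplicity 1) → X.Cyc m),
  (Matrix.of fun i j => MotP.GGap.deg (X.duality n m e) (((X.W n).res _).ap (a i)) (b j)).det ≠ 0

def M_WQN : Prop := S_PTS.{0, 0} → S_WQN

/-- WNR. The numerical rank as the size of nonsingular matrices of intersection numbers. `numRank` = rank of the span of the functions `φ_a = (b ↦ deg (a b))`, `a ∈ cyc X n`; it is spanned by the `φ_(α z)` (linearity: `CHS.ChowTheory.deg_add`, `deg_smul`). (→) The `φ_(α (a i))` are linearly independent. (←) `r` linearly independent functions among the `φ_(α z)`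
(`exists_linearIndependent`, `Cardinal`), they are still linearly independent on the set of the `β g`: a combination `φ_c`, `c ∈ cyc X n`, which vanishes on all `β g` vanishes on `cyc X m`, so `c` is numerically trivial (`CHS.ChowTheory.numTrivial_iff`); PTS. -/
def S_WNR : Prop := ∀ (V : Type u) [Category.{v} V] [CartesianMonoidalCategory V] (T : CHS.ChowTheory.{v, u, w} V) (X : V) (n m : ℤ),
  n + m = T.dim X → ∀ (ι κ : Type) (α : ι → T.CH X) (β : κ → T.CH X), (∀ z, α z ∈ T.cyc X n) → (∀ z, β z ∈ T.cyc X m) →
  (∀ a ∈ T.cyc X n, a ∈ Submodule.span ℚ (Set.range α)) → (∀ a ∈ T.cyc X m, a ∈ Submodule.span ℚ (Set.range β)) →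
  ∀ D : ι → κ → ℤ, (∀ z g, T.deg (α z * β g) = D z g) → ∀ r : ℕ,
    ((∃ (a : Fin r → ι) (b : Fin r → κ), (Matrix.of fun i j => D (a i) (b j)).det ≠ 0) ↔ (r : Cardinal) ≤ T.numRank (T.cyc X n))

def M_WNR : Prop := S_PTS.{0, 0} → S_WNR.{v, u, w}

end MotP.HL
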