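import Pool.Agent.HL.WlDefs
import Pool.Agent.HL.We

/-!
# The half law and Weil-etale motivic cohomology: conversion of `WeilCoh` to `WeilEtale`
-/

set_option autoImplicit false

open CategoryTheory MonoidalCategory CartesianMonoidalCategory Limits
open WEt (Ab Zl QAlg Coh)
open MotP.GGap (Acts IsFrob Exterior Cycles)

universe x

noncomputable section

namespace CHS

variable {V : Type} [Category.{0} V] [CartesianMonoidalCategory V] {Th : ChowTheory.{0, 0, 0} V}

namespace CorrAlg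

variable {X : V} (A : CorrAlg Th X)

theorem end_mem (f : End (CHM.Mot.h Th.toOld X 0)) : f.1 ∈ Th.cyc (X ⊗ X) (Th.dim X) := by
  have h := CHM.Mot.mem_hom_h.1 f.2
  have e : Th.toOld.dim X + 0 - 0 = Th.toOld.dim X := by ring
  rw [e] at h
  exact h

/-- the correspondence of an endomorphism of the motive -/
def inv (f : End (CHM.Mot.h Th.toOld X 0)) : A.A.T := ((A.range f.1).1 (end_mem f)).choose

theorem val_inv (f : End (CHM.Mot.h Th.toOld X 0)) : A.val (A.inv f) = f.1 :=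
  ((A.range f.1).1 (end_mem f)).choose_spec

theorem val_zero : A.val 0 = 0 := by
  have h := A.add 0 0
  rw [add_zero] at h
  exact left_eq_add.1 h

/-- the ring homomorphism from the endomorphisms of the motive -/
def hom : End (CHM.Mot.h Th.toOld X 0) →+* A.A.T where
  toFun := A.inv
  map_one' := A.inj (by rw [val_inv, A.one]; rfl)
  map_mul' f g := A.inj (by rw [val_inv, A.mul, val_inv, val_inv]; rfl)
  map_zero' := A.inj (by rw [val_inv, val_zero]; rfl)
  map_add' f g := A.inj (by rw [val_inv, A.add, val_inv, val_inv]; rfl)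

theorem val_hom (f : End (CHM.Mot.h Th.toOld X 0)) : A.val (A.hom f) = f.1 := A.val_inv f

/-- the endomorphism of the motive given by a correspondence -/
def back (a : A.A.T) : End (CHM.Mot.h Th.toOld X 0) :=
  (CHM.Mot.endEquiv Th.toOld X 0 ⟨A.val a, (A.range _).2 ⟨a, rfl⟩⟩ :
    CHM.Mot.h Th.toOld X 0 ⟶ CHM.Mot.h Th.toOld X 0)

theorem hom_back (a : A.A.T) : A.hom (A.back a) = a := A.inj (by rw [val_hom]; rfl)

end CorrAlg

namespace WeilCoh

variable {K : Cohomology.{0, 0, 0, x} Th} (G : WeilCoh K)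

theorem pow_mem (X : G.U) (r : ℕ) : ∃ Z, G.v Z = pow (G.v X) r := by
  induction r with
  | zero => exact G.point
  | succ r ih =>
    obtain ⟨Z, hZ⟩ := ih
    obtain ⟨Y, hY⟩ := G.prod Z X
    refine ⟨Y, hY.trans ?_⟩
    rw [hZ]
    unfold pow
    exact (Function.iterate_succ_apply' (fun Y : V => Y ⊗ G.v X) r (𝟙_ V)).symm

/-- the powers -/
def pw (X : G.U) (r : ℕ) : G.U := (G.pow_mem X r).choose

theorem v_pw (X : G.U) (r : ℕ) : G.v (G.pw X r) = pow (G.v X) r := (G.pow_mem X r).choose_spec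

/-- the action of the endomorphisms of the motive -/
def acts' (X : G.U) : Acts (MotP.GGap.endo (CHM.Mot.h Th.toOld (G.v X) 0)) (G.coh X).toGroups where
  act n i := RingHom.comp (show (G.corr X).A.T →+* _ from (G.acts X).act n i) (G.corr X).hom
  actE ℓ h n i := RingHom.comp (show (G.corr X).A.T →+* _ from (G.acts X).actE ℓ h n i)
    (G.corr X).hom

theorem acts'_act (X : G.U) (n : ℕ) (i : ℤ) (a : End (CHM.Mot.h Th.toOld (G.v X) 0)) :
    ((G.acts' X).act n i).ap a = ((G.acts X).act n i).ap ((G.corr X).hom a) := rfl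

theorem acts'_actE (X : G.U) (ℓ : Nat.Primes) (h : ℓ ≠ (G.coh X).p) (n : ℕ) (i : ℤ)
    (a : End (CHM.Mot.h Th.toOld (G.v X) 0)) :
    ((G.acts' X).actE ℓ h n i).ap a = ((G.acts X).actE ℓ h n i).ap ((G.corr X).hom a) := rfl

theorem dim_pw (X : G.U) (r : ℕ) : (G.coh (G.pw X r)).d = r * (G.coh X).d := by
  have h1 := G.dim (G.pw X r)
  rw [v_pw, ChowTheory.dim_pow, G.dim X] at h1
  exact_mod_cast h1.symm

/-- the isomorphism of the square with the second power -/
theorem exists_iso (X : G.U) : ∃ (e : G.v (G.pw X 2) ⟶ G.v X ⊗ G.v X)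
    (e' : G.v X ⊗ G.v X ⟶ G.v (G.pw X 2)), e' ≫ e = 𝟙 _ := by
  have h1 : (λ_ (G.v X)).inv ▷ G.v X ≫ (λ_ (G.v X)).hom ▷ G.v X = 𝟙 (G.v X ⊗ G.v X) := by
    rw [← comp_whiskerRight, Iso.inv_hom_id, id_whiskerRight]
  have h2 : ∃ (e : pow (G.v X) 2 ⟶ G.v X ⊗ G.v X)
    (e' : G.v X ⊗ G.v X ⟶ pow (G.v X) 2), e' ≫ e = 𝟙 _ :=
    ⟨((λ_ (G.v X)).hom ▷ G.v X), ((λ_ (G.v X)).inv ▷ G.v X), h1⟩
  rw [v_pw]
  exact h2

/-- the cycle class of a correspondence -/
def cyc' (X : G.U) : End (CHM.Mot.h Th.toOld (G.v X) 0) →+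
    (((G.coh (G.pw X 2)).W (G.coh X).d).C (2 * ((G.coh X).d : ℤ))).Q :=
  AddMonoidHom.mk' (fun f => (G.cls (G.pw X 2) (G.coh X).d).cl
    (Th.pull (G.exists_iso X).choose f.1)) fun f g =>
      (congrArg _ (Th.pull_add _ (show Th.CH (G.v X ⊗ G.v X) from f.1) g.1)).trans
        ((G.cls _ _).add _ _)

theorem cyc'_apply (X : G.U) (f : End (CHM.Mot.h Th.toOld (G.v X) 0)) :
    G.cyc' X f = (G.cls (G.pw X 2) (G.coh X).d).cl (Th.pull (G.exists_iso X).choose f.1) := rfl

theorem mem' (X : G.U) (f : End (CHM.Mot.h Th.toOld (G.v X) 0)) :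
    Th.pull (G.exists_iso X).choose f.1 ∈ Th.cyc (G.v (G.pw X 2)) (G.coh X).d := by
  have h2 := CorrAlg.end_mem f
  rw [G.dim X] at h2
  exact Th.pull_mem _ _ _ h2

theorem cyc'_inj (X : G.U) : Function.Injective (G.cyc' X) := by
  rw [injective_iff_map_eq_zero]
  intro f hf
  rw [cyc'_apply] at hf
  have h1 : Th.pull (G.exists_iso X).choose f.1 = 0 := (G.cls _ _).inj _ (G.mem' X f) hf
  obtain ⟨e', he⟩ := (G.exists_iso X).choose_spec
  have h3 : ∀ a : Th.CH (G.v X ⊗ G.v X), Th.pull (G.exists_iso X).choose a = 0 → a = 0 := by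
    intro a ha
    have h4 : Th.pull e' (Th.pull (G.exists_iso X).choose a) = a := by
      rw [← Th.pull_comp, he, Th.pull_id]
    rw [ha, Th.pull_zero] at h4
    exact h4.symm
  exact Subtype.ext (h3 f.1 h1)

/-- the cycle classes of correspondences -/
def cycles' (X : G.U) : Cycles (MotP.GGap.endo (CHM.Mot.h Th.toOld (G.v X) 0))
    (G.coh (G.pw X 2)).toGroups (G.coh X).d where
  cyc := AddMonoidHom.toRatLinearMap (M := End (CHM.Mot.h Th.toOld (G.v X) 0))
    (M₂ := (((G.coh (G.pw X 2)).W (G.coh X).d).C (2 * ((G.coh X).d : ℤ))).Q) (G.cyc' X)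
  inj := G.cyc'_inj X
  fixed f := (G.cls _ _).fix _ (G.mem' X f)

theorem number_motive (X : V) : MotP.GGap.number K.toOld.frobenius (CHM.Mot.h Th.toOld X 0) =
    K.B X := by
  rw [K.toOld.number_eq]
  rfl

theorem frob_val (X : G.U) :
    (show End (CHM.Mot.h Th.toOld (G.v X) 0) from
      Mot.component K.toOld.frobenius.F (CHM.Mot.h Th.toOld (G.v X) 0)).1 =
      Th.graph (Th.Fr (G.v X)) := by
  have h1 := Th.frob.onMot_val (CHM.Mot.h Th.toOld (G.v X) 0)
  have h2 : (Th.frob.onMot (CHM.Mot.h Th.toOld (G.v X) 0)).1 =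
      Th.toOld.gr' (Th.frob.Fr (G.v X)) := by
    rw [h1]
    change (Th.frob.q : ℚ) ^ (-0 : ℤ) • Th.toOld.cp (Th.toOld.diag (G.v X))
      (Th.toOld.gr' (Th.frob.Fr (G.v X))) = _
    rw [neg_zero, zpow_zero, one_smul, Th.toOld.diag_cp]
  exact h2

/-- the structure on the class and the category of motives -/
def chow : MotP.GGap.Chow K.toOld.frobenius where
  p := G.p
  q := Th.q
  q_pos := by have := Th.one_lt; omega
  V := G.U
  coh := G.coh
  char := G.char
  h X := CHM.Mot.h Th.toOld (G.v X) 0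
  pow := G.pw
  kunneth X r := by
    rw [v_pw, ← pow_old, ← CHM.Mot.T_h]
    exact ⟨Iso.refl _⟩
  dim := G.dim_pw
  acts := G.acts'
  frob X := by
    have h1 : (G.corr X).val ((G.corr X).hom
        (Mot.component K.toOld.frobenius.F (CHM.Mot.h Th.toOld (G.v X) 0))) =
        Th.graph (Th.Fr (G.v X)) := by
      rw [CorrAlg.val_hom]
      exact G.frob_val X
    have h2 := G.frob X _ h1
    exact ⟨h2.act, h2.actE⟩
  ext X n m e :=
    { ext := fun z g => (G.corr X).back ((G.ext X n m e).ext z g)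
      act := fun z g i hi => by
        rw [acts'_act, CorrAlg.hom_back]
        exact (G.ext X n m e).act z g i hi
      act' := fun z g y => by
        rw [acts'_act, CorrAlg.hom_back]
        exact (G.ext X n m e).act' z g y
      actE := fun ℓ hℓ z g i hi => by
        rw [acts'_actE, CorrAlg.hom_back]
        exact (G.ext X n m e).actE ℓ hℓ z g i hi
      actE' := fun ℓ hℓ z g y => by
        rw [acts'_actE, CorrAlg.hom_back]
        exact (G.ext X n m e).actE' ℓ hℓ z g y }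
  lefschetz X ℓ hℓ n a ha := by
    have h1 := G.lefschetz X ℓ hℓ n ((G.corr X).hom a) ha
    rw [CorrAlg.val_hom] at h1
    obtain ⟨b, hb⟩ := (CHM.Mot.endEquiv Th.toOld (G.v X) 0).surjective a
    rw [← hb, CHM.Mot.numTrivial_end, Th.numTrivial_num]
    have h2 : b.1 = a.1 := congrArg Subtype.val hb
    rw [h2]
    exact h1
  cycles := G.cycles'
  betti X ℓ hℓ n i := by
    rw [number_motive]
    exact G.betti X ℓ hℓ n i

theorem cl_zero (X : G.U) (n : ℕ) : (G.cls X n).cl 0 = 0 := by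
  have h := (G.cls X n).add 0 0
  rw [add_zero] at h
  exact left_eq_add.1 h

/-- the cycle class as a homomorphism -/
def clHom (X : G.U) (n : ℕ) : Th.CH (G.v X) →+ (((G.coh X).W n).C (2 * (n : ℤ))).Q :=
  AddMonoidHom.mk' (G.cls X n).cl (G.cls X n).add

theorem exists_cyc (X : G.U) (n : ℕ) (z : (G.coh X).Cyc n) : ∃ a ∈ Th.cyc (G.v X) n,
    (G.cls X n).cl a = Ab.one _ ((((G.coh X).W n).res _).ap z) :=
  (G.cls X n).surj _ ((((G.coh X).W n).res_image _ _).1 ⟨z, rfl⟩)

/-- the image in `CH^n(X)_ℚ` of an element of `H^(2n)_W(X, ℤ(n))` -/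
def zcyc (X : G.U) (n : ℕ) (z : (G.coh X).Cyc n) : Th.CH (G.v X) := (G.exists_cyc X n z).choose

theorem zcyc_mem (X : G.U) (n : ℕ) (z : (G.coh X).Cyc n) : G.zcyc X n z ∈ Th.cyc (G.v X) n :=
  (G.exists_cyc X n z).choose_spec.1

theorem zcyc_cl (X : G.U) (n : ℕ) (z : (G.coh X).Cyc n) :
    (G.cls X n).cl (G.zcyc X n z) = Ab.one _ ((((G.coh X).W n).res _).ap z) :=
  (G.exists_cyc X n z).choose_spec.2

theorem exists_one_aux {A : Type} [AddCommGroup A] (t : TensorProduct ℤ ℚ A) :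
    ∃ k : ℤ, k ≠ 0 ∧ ∃ x : A, k • t = TensorProduct.tmul ℤ (1 : ℚ) x := by
  obtain ⟨k, hk, x, hx⟩ := WE.PAR.Q_exists (A := A) t
  rw [Int.cast_smul_eq_zsmul] at hx
  exact ⟨k, hk, x, hx⟩

theorem exists_one {A : WEt.Ab} (t : A.Q) : ∃ k : ℤ, k ≠ 0 ∧ ∃ x : A.T, k • t = A.one x :=
  exists_one_aux (A := A.T) t

theorem zcyc_span (X : G.U) (n : ℕ) (a : Th.CH (G.v X)) (ha : a ∈ Th.cyc (G.v X) n) :
    a ∈ Submodule.span ℚ (Set.range (G.zcyc X n)) := by
  obtain ⟨k, hk, x, hx⟩ := exists_one ((G.cls X n).cl a)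
  obtain ⟨N, hN, hNx⟩ := (G.cls X n).fix a ha k x hx
  have h1 : (((G.coh X).W n).F (2 * (n : ℤ))).ap (N • x) = N • x := by
    rw [smul_sub, sub_eq_zero] at hNx
    exact (map_zsmul (show (((G.coh X).W n).C (2 * (n : ℤ))).T →+
      (((G.coh X).W n).C (2 * (n : ℤ))).T from ((G.coh X).W n).F (2 * (n : ℤ))) N x).trans hNx
  obtain ⟨z, hz⟩ : ∃ z : (G.coh X).Cyc n, (((G.coh X).W n).res _).ap z = N • x :=
    (((G.coh X).W n).res_image _ _).2 h1
  have h2 : (G.cls X n).cl (G.zcyc X n z) = (G.cls X n).cl ((N * k) • a) := by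
    rw [zcyc_cl, hz]
    have h3 : (G.cls X n).cl ((N * k) • a) = (N * k) • (G.cls X n).cl a :=
      map_zsmul (G.clHom X n) (N * k) a
    rw [h3, mul_smul]
    have h4 : Ab.one (((G.coh X).W n).C (2 * (n : ℤ))) (N • x) = N • Ab.one _ x :=
      TensorProduct.tmul_smul N (1 : ℚ) x
    exact h4.trans (congrArg (fun t => N • t) hx.symm)
  have hka : (N * k) • a ∈ Th.gr (G.v X) n := by
    rw [← Int.cast_smul_eq_zsmul ℚ]
    exact Submodule.smul_mem _ _ ha
  have h5 : G.zcyc X n z = (N * k) • a := by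
    have h6 := (G.cls X n).inj (G.zcyc X n z - (N * k) • a)
      (Submodule.sub_mem _ (G.zcyc_mem X n z) hka) (by
        have h7 := map_sub (G.clHom X n) (G.zcyc X n z) ((N * k) • a)
        exact h7.trans (sub_eq_zero.2 h2))
    exact sub_eq_zero.1 h6
  have hNk : ((N * k : ℤ) : ℚ) ≠ 0 := by exact_mod_cast mul_ne_zero hN hk
  have h8 : a = ((N * k : ℤ) : ℚ)⁻¹ • G.zcyc X n z := by
    rw [h5, ← Int.cast_smul_eq_zsmul ℚ, smul_smul, inv_mul_cancel₀ hNk, one_smul]
  rw [h8]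
  exact Submodule.smul_mem _ _ (Submodule.subset_span ⟨z, rfl⟩)

/-- conversion -/
def old : WeilEtale K where
  M := G.chow
  v := G.v
  motive _ := rfl
  dim := G.dim
  point := G.point
  prod := G.prod
  cyc := G.zcyc
  mem := G.zcyc_mem
  span X n a ha := G.zcyc_span X n a ha
  deg X n m e z g := G.deg X n m e z g _ (G.zcyc_mem X n z) _ (G.zcyc_mem X m g)
    (G.zcyc_cl X n z) (G.zcyc_cl X m g)
  mult := G.mult
  pol := G.pol

end WeilCoh

end CHS
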