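import Pool.Agent.GGap.Light
import Pool.Agent.HL.ChsDefs

/-!
# The half law and Weil-etale motivic cohomology (MP_cb388a_ag): definitions

`Th` are the Chow groups of the smooth projective varieties over a finite field, `K` is a cohomology
theory (`l`-adic cohomology, with complex coefficients). `WeilCoh K` is a class of smooth
projective varieties which contains the point and is stable under products, together with their
Weil-etale motivic cohomology, `l`-adic cohomology for all `l`, cycle classes and the action of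
correspondences.
-/

set_option autoImplicit false

open CategoryTheory MonoidalCategory CartesianMonoidalCategory
open WEt (Ab QAlg Coh)
open MotP.GGap (Acts IsFrob Exterior)

universe x

namespace CHS

variable {V : Type} [Category.{0} V] [CartesianMonoidalCategory V]

/-- The `ℚ`-algebra `CH^d(X × X)_ℚ` of correspondences of degree `0` from `X` to `X`. -/
structure CorrAlg (Th : ChowTheory.{0, 0, 0} V) (X : V) where
  A : QAlg
  /-- the cycle on `X × X` -/
  val : A.T → Th.CH (X ⊗ X)
  add : ∀ a b, val (a + b) = val a + val b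
  mul : ∀ a b, val (a * b) = Th.cp (val b) (val a)
  one : val 1 = Th.graph (𝟙 X)
  inj : Function.Injective val
  range : ∀ f, f ∈ Th.cyc (X ⊗ X) (Th.dim X) ↔ ∃ a, val a = f

/-- The cycle class map `CH^n(X)_ℚ → H^(2n)(X̄, ℚ(n))`: it is injective, and its image are the
elements fixed by Frobenius. -/
structure ClassMap (Th : ChowTheory.{0, 0, 0} V) (X : V) (Y : Coh) (n : ℕ) where
  cl : Th.CH X → ((Y.W n).C (2 * (n : ℤ))).Q
  add : ∀ a b, cl (a + b) = cl a + cl b
  inj : ∀ a ∈ Th.cyc X n, cl a = 0 → a = 0
  fix : ∀ a ∈ Th.cyc X n, ((Y.W n).F (2 * (n : ℤ))).Fixes (cl a)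
  surj : ∀ x, ((Y.W n).F (2 * (n : ℤ))).ap x = x → ∃ a ∈ Th.cyc X n, cl a = Ab.one _ x

/-- A class of smooth projective varieties over the finite field, which contains the point and is
stable under products, with Weil-etale motivic cohomology and `l`-adic cohomology. -/
structure WeilCoh {Th : ChowTheory.{0, 0, 0} V} (K : Cohomology.{0, 0, 0, x} Th) where
  /-- the characteristic -/
  p : Nat.Primes
  /-- the index set of the class -/
  U : Type
  /-- the varieties of the class -/
  v : U → V
  point : ∃ X, v X = 𝟙_ V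
  prod : ∀ X Y, ∃ Z, v Z = v X ⊗ v Y
  coh : U → Coh
  char : ∀ X, (coh X).p = p
  dim : ∀ X, Th.dim (v X) = (coh X).d
  /-- cycle classes -/
  cls : ∀ X n, ClassMap Th (v X) (coh X) n
  /-- intersection numbers -/
  deg : ∀ X n m (e : n + m = (coh X).d) (z : (coh X).Cyc n) (g : (coh X).Cyc m),
    ∀ a ∈ Th.cyc (v X) n, ∀ b ∈ Th.cyc (v X) m,
      (cls X n).cl a = Ab.one _ ((((coh X).W n).res _).ap z) →
      (cls X m).cl b = Ab.one _ ((((coh X).W m).res _).ap g) →
      Th.deg (a * b) =
        (MotP.GGap.deg ((coh X).duality n m e) ((((coh X).W n).res _).ap z) g : ℤ)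
  /-- correspondences and their action on cohomology -/
  corr : ∀ X, CorrAlg Th (v X)
  acts : ∀ X, Acts (corr X).A (coh X).toGroups
  frob : ∀ X a, (corr X).val a = Th.graph (Th.Fr (v X)) → IsFrob (acts X) Th.q a
  ext : ∀ X n m e, Exterior (acts X) ((coh X).duality n m e)
  /-- the Lefschetz trace formula: homologically trivial correspondences are numerically trivial -/
  lefschetz : ∀ X ℓ hℓ n a, (acts X).Trivial ℓ hℓ n a → Th.NumTrivial ((corr X).val a)
  betti : ∀ X ℓ, ℓ ≠ p → ∀ n i, WEt.rank (((coh X).E ℓ n).C i) ≤ K.B (v X)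
  /-- the multiplicity of the eigenvalue `1` of Frobenius on `H^(2n)(X, ℚ_ℓ(n))` is the multiplicity
  of the eigenvalue `q^n` on `H(X)` -/
  mult : ∀ X n, ((coh X).weights.P n (2 * (n : ℤ))).rootMultiplicity 1 = K.M (v X) n
  /-- `CH^n(X)` is not numerically trivial for `0 ≤ n ≤ dim X` (powers of a hyperplane class) -/
  pol : ∀ X n, n ≤ (coh X).d → Th.N (v X) n ≠ 0

end CHS
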