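import Pool.Agent.HL.Inv
import Pool.Agent.HL.WlConv
import Pool.Agent.HL.AllWe

/-!
# Ranks of Chow groups and Weil-etale motivic cohomology (MP_cb388a_ag): assembly
-/

set_option autoImplicit false

open CategoryTheory MonoidalCategory CartesianMonoidalCategory Limits

universe x

noncomputable section

namespace MotP.HL

open WE WE.PRE in
/-- Numerically trivial cycles are torsion, for the structure `WE.Theory`. -/
theorem wrn_old (X : WE.Theory) (ℓ : Nat.Primes) (hℓ : ℓ ≠ X.p) (n m : ℕ) (hd : n + m = X.d)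
    (hTm : X.TC ℓ m) (hS : X.SS ℓ n) (hB : X.B ℓ n) (z : (X.W n).H (2 * (n : ℤ)))
    (hz : ∀ g, X.pair n m hd (eW X n z) g = 0) : Tors ((X.W n).res _ z) := by
  have h1' : ∀ s ∈ Submodule.span ℤ_[ℓ] (Set.range (X.cH ℓ m (2 * (m : ℤ)))),
      X.pairE ℓ n m hd (X.cH ℓ n _ (eW X n z)) s = 0 := by
    intro s hs
    induction hs using Submodule.span_induction with
    | mem s hs =>
      obtain ⟨g, rfl⟩ := hs
      rw [X.pair_cH, hz]
      simp
    | zero => simp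
    | add s t _ _ hs ht => rw [map_add, hs, ht, add_zero]
    | smul b s _ hs => rw [map_smul, hs, smul_zero]
  have h2 : Tors (X.cH ℓ n _ (eW X n z)) := by
    refine X.pairE_ker ℓ hℓ n m hd _ fun y => ?_
    obtain ⟨u, hu, s, hs, hus⟩ := span_cH X hℓ m hTm y
    have h3 := h1' s hs
    have h4 := (hus.lmap (X.pairE ℓ n m hd (X.cH ℓ n _ (eW X n z)))).eq_zero
    rw [map_sub, h3, sub_zero, map_smul, smul_eq_mul] at h4
    exact (mul_eq_zero.mp h4).resolve_left hu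
  rw [← eE_cH] at h2
  have h3 : Tors (X.cH ℓ n _ z) := eE_tors X hℓ n hS _ h2
  refine hB _ (((X.W n).res_mem _ _).mp ⟨z, rfl⟩) ?_
  rw [← X.res_cH]
  exact h3.lmap ((X.E ℓ n).res _)

theorem wrn (X : WEt.Coh) (n m : ℕ) (e : n + m = X.d) (ℓ : Nat.Primes) (hℓ : ℓ ≠ X.p)
    (hTm : X.TC ℓ m) (hS : X.SS ℓ n) (hB : X.B ℓ n) (z : X.Cyc n)
    (hz : ∀ g : X.Cyc m, MotP.GGap.deg (X.duality n m e) (((X.W n).res _).ap z) g = 0) :
    WEt.Tors (((X.W n).res _).ap z) :=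
  wrn_old X.old ℓ hℓ n m e hTm hS hB z hz

end MotP.HL

namespace CHS.WeilCoh

open MotP.HL
open WEt (Ab)

variable {V : Type} [Category.{0} V] [CartesianMonoidalCategory V] {Th : ChowTheory.{0, 0, 0} V}
  {K : Cohomology.{0, 0, 0, x} Th} (G : WeilCoh K)

theorem one_zero {A : Type} [AddCommGroup A] (x : A) (M : ℤ) (hM : M ≠ 0) (h : M • x = 0) :
    TensorProduct.tmul ℤ (1 : ℚ) x = 0 := by
  have h1 : M • TensorProduct.tmul ℤ (1 : ℚ) x = 0 := by
    rw [← TensorProduct.tmul_smul, h, TensorProduct.tmul_zero]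
  have h2 : ((M : ℤ) : ℚ) • TensorProduct.tmul ℤ (1 : ℚ) x = 0 := by
    rw [Int.cast_smul_eq_zsmul]
    exact h1
  exact (smul_eq_zero.1 h2).resolve_left (by exact_mod_cast hM)

/-- finite generation: numerically trivial cycles are zero -/
theorem zero_of_L (X : G.U) (hL : ∀ n, (G.coh X).L n) (n : ℕ) (hn : n ≤ (G.coh X).d)
    (a : Th.CH (G.v X)) (ha : a ∈ Th.cyc (G.v X) n) (hnt : Th.NumTrivial a) : a = 0 := by
  obtain ⟨m, e⟩ := Nat.exists_eq_add_of_le hn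
  have e' : n + m = (G.coh X).d := e.symm
  obtain ⟨ℓ, hℓ⟩ := WE.Fam.exists_ne (G.coh X).p
  obtain ⟨t1, t2, t3⟩ := WE.single_fwd (G.coh X).old ℓ n (hL n _)
  obtain ⟨t4, -, -⟩ := WE.single_fwd (G.coh X).old ℓ m (hL m _)
  obtain ⟨k, hk, x, hx⟩ := exists_one ((G.cls X n).cl a)
  obtain ⟨N, hN, hNx⟩ := (G.cls X n).fix a ha k x hx
  have h1 : (((G.coh X).W n).F (2 * (n : ℤ))).ap (N • x) = N • x := by
    rw [smul_sub, sub_eq_zero] at hNx
    exact (map_zsmul (show (((G.coh X).W n).C (2 * (n : ℤ))).T →+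
      (((G.coh X).W n).C (2 * (n : ℤ))).T from ((G.coh X).W n).F (2 * (n : ℤ))) N x).trans hNx
  obtain ⟨z, hz⟩ : ∃ z : (G.coh X).Cyc n, (((G.coh X).W n).res _).ap z = N • x :=
    (((G.coh X).W n).res_image _ _).2 h1
  have h2 : (G.cls X n).cl (G.zcyc X n z) = (G.cls X n).cl ((N * k) • a) := by
    rw [zcyc_cl, hz]
    have h3 : (G.cls X n).cl ((N * k) • a) = (N * k) • (G.cls X n).cl a :=
      map_zsmul (G.clHom X n) (N * k) a
    rw [h3, mul_smul]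
    have h4 : Ab.one (((G.coh X).W n).C (2 * (n : ℤ))) (N • x) = N • Ab.one _ x :=
      TensorProduct.tmul_smul N (1 : ℚ) x
    exact h4.trans (congrArg (fun t => N • t) hx.symm)
  have hka : (N * k) • a ∈ Th.gr (G.v X) n := by
    rw [← Int.cast_smul_eq_zsmul ℚ]
    exact Submodule.smul_mem _ _ ha
  have h5 : G.zcyc X n z = (N * k) • a := by
    have h6 := (G.cls X n).inj (G.zcyc X n z - (N * k) • a)
      (Submodule.sub_mem _ (G.zcyc_mem X n z) hka) (by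
        have h7 := map_sub (G.clHom X n) (G.zcyc X n z) ((N * k) • a)
        exact h7.trans (sub_eq_zero.2 h2))
    exact sub_eq_zero.1 h6
  have h6 : ∀ g : (G.coh X).Cyc m, MotP.GGap.deg ((G.coh X).duality n m e')
      ((((G.coh X).W n).res _).ap z) g = 0 := by
    intro g
    have h7 := G.deg X n m e' z g _ (G.zcyc_mem X n z) _ (G.zcyc_mem X m g) (G.zcyc_cl X n z)
      (G.zcyc_cl X m g)
    rw [h5, ← Int.cast_smul_eq_zsmul ℚ, smul_mul_assoc, Th.deg_smul, hnt _, mul_zero] at h7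
    exact_mod_cast h7.symm
  obtain ⟨M, hM, hMz⟩ := wrn (G.coh X) n m e' ℓ hℓ t4 t2 t3 z h6
  have h8 : (G.cls X n).cl (G.zcyc X n z) = 0 := by
    rw [zcyc_cl]
    exact one_zero _ M hM hMz
  have h9 := (G.cls X n).inj _ (G.zcyc_mem X n z) h8
  rw [h5] at h9
  rw [← Int.cast_smul_eq_zsmul ℚ] at h9
  exact (smul_eq_zero.1 h9).resolve_left (by exact_mod_cast mul_ne_zero hN hk)

/-- finite generation: the numerical ranks are the multiplicities -/
theorem eq_of_L (X : G.U) (hL : ∀ n, (G.coh X).L n) (n : ℕ) (hn : n ≤ (G.coh X).d) :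
    Th.N (G.v X) n = K.M (G.v X) n := by
  have h0 : ∀ (X : V) (i : ℤ), Th.numRank (Th.cyc X i) ≤ (K.M X i : ℕ) := by
    intro X i
    rw [(K.N_le (a_NHA Th.toOld) X i).1]
    exact_mod_cast (K.N_le (a_NHA Th.toOld) X i).2
  exact G.old.eq_of_L h0 a_WQN a_WNR X hL n hn

/-- the converse -/
theorem L_of_eq (X : G.U) (hN : ∀ n : ℕ, n ≤ (G.coh X).d → Th.N (G.v X) n = K.M (G.v X) n)
    (hnil : ∀ f ∈ Th.cyc (G.v X ⊗ G.v X) (Th.dim (G.v X)), Th.NumTrivial f →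
      ∃ n, (Th.cp f)^[n] f = 0) (n : ℕ) : (G.coh X).L n := by
  have h0 : ∀ (X : V) (i : ℤ), Th.numRank (Th.cyc X i) ≤ (K.M X i : ℕ) := by
    intro X i
    rw [(K.N_le (a_NHA Th.toOld) X i).1]
    exact_mod_cast (K.N_le (a_NHA Th.toOld) X i).2
  have hN' := G.old.nil_motive X hnil
  by_cases hn : n ≤ (G.coh X).d
  · refine G.old.M.old.L_of_TS MotP.GGap.t_PR0 MotP.GGap.t_NPR X hN' (fun n hn => ?_) n hn
    obtain ⟨ℓ, hℓ⟩ := WE.Fam.exists_ne G.old.M.p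
    exact ⟨ℓ, hℓ, G.old.tate h0 t_WTS a_WNR X n hn (hN n hn) ℓ
      fun h => hℓ (h.trans (G.char X))⟩
  · exact MotP.GGap.t_NGD G.old.M.old X n (not_le.1 hn) hN'

/-- a power of `X` in the class -/
theorem exists_pow (X : G.U) (r : ℕ) : ∃ Y, Nonempty (G.v Y ≅ pow (G.v X) r) := by
  obtain ⟨Y, hY⟩ := G.pow_mem X r
  exact ⟨Y, ⟨eqToIso hY⟩⟩

theorem B_ne (X : G.U) : K.B (G.v X) ≠ 0 := by
  intro h0
  have h1 := G.pol X 0 (Nat.zero_le _)
  have h2 := (K.N_le (a_NHA Th.toOld) (G.v X) (0 : ℕ)).2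
  have h3 : K.M (G.v X) (0 : ℕ) ≤ K.B (G.v X) := by
    rw [K.M_eq]
    exact K.toOld.mult_le (G.v X) _
  omega

/-- `N` and `M` for the powers of `X` -/
theorem eq_pow (X : G.U) (h : MoreThanHalf fun r => (Th.NN (G.v X) r : ℝ) / K.MM (G.v X) r)
    (Y : G.U) (r : ℕ) (e : G.v Y ≅ pow (G.v X) r) (n : ℕ) (hn : n ≤ (G.coh Y).d) :
    Th.N (G.v Y) n = K.M (G.v Y) n := by
  have hX := G.B_ne X
  have hQ := a_NQU Th.toOld
  obtain ⟨L, h2, h3, h4⟩ := (K.quantum hQ (G.v X) hX).2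
  have h1 := (K.quantum hQ (G.v X) hX).1
  have h5 : L = 1 := Quantized.eq_one ⟨h2, h3, h4⟩ (Quantized.of_half ⟨h2, h3, h4⟩ h)
  have h6 : ∀ s, Th.NN (G.v X) s = K.MM (G.v X) s := by
    intro s
    have h6 := h4 s
    have h7 : (0 : ℝ) < K.MM (G.v X) s := by
      have := (h1 s).1.trans_le (h1 s).2
      exact_mod_cast this
    rw [h5, le_div_iff₀ h7, one_mul] at h6
    have h8 : K.MM (G.v X) s ≤ Th.NN (G.v X) s := by exact_mod_cast h6
    exact le_antisymm (h1 s).2 h8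
  have h7 := G.pol Y n hn
  rw [K.N_inv e] at h7
  rw [K.N_inv e, K.M_inv e]
  exact K.tate_of_eq (a_NFY Th.toOld) (G.v X) r (h6 r) n h7

/-- numerically trivial correspondences on the powers of `X` -/
theorem nil_pow (X : G.U) (h : MoreThanHalf fun r => (Th.NN (G.v X) r : ℝ) / Th.RR (G.v X) r)
    (Y : G.U) (r : ℕ) (e : G.v Y ≅ pow (G.v X) r) (f : Th.CH (G.v Y ⊗ G.v Y))
    (hf : f ∈ Th.cyc (G.v Y ⊗ G.v Y) (Th.dim (G.v Y))) (hn : Th.NumTrivial f) : f = 0 := by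
  obtain ⟨L, hL, hL2⟩ := K.quantumR (a_RQV Th.toOld) (G.v X) (G.B_ne X)
  have h4 := ChowTheory.num_iso e (hL2 (hL.of_half h) r)
  have hd : Th.dim (pow (G.v X) r) = Th.dim (G.v Y) :=
    ChowTheory.dim_inv e.symm (ChowTheory.one_ne (G.pol Y 0 (Nat.zero_le _)))
  rw [hd] at h4
  exact ChowTheory.zero_of_num h4 hf hn

/-- finite generation for the powers of `X`: the three ranks are equal -/
theorem ranks_of_L (X : G.U) (hL : ∀ (Y : G.U) (r : ℕ), Nonempty (G.v Y ≅ pow (G.v X) r) →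
    ∀ n, (G.coh Y).L n) (r : ℕ) :
    Th.NN (G.v X) r = K.MM (G.v X) r ∧ Th.RR (G.v X) r = Th.NN (G.v X) r := by
  obtain ⟨Y, ⟨e1⟩⟩ := G.exists_pow X (r + r)
  obtain ⟨e2⟩ := pow_add_iso (G.v X) r r
  have e : G.v Y ≅ pow (G.v X) r ⊗ pow (G.v X) r := e1 ≪≫ e2
  have hY := hL Y (r + r) ⟨e1⟩
  have h1 : Th.dim (pow (G.v X) r) = ((r * (G.coh X).d : ℕ) : ℤ) := by
    rw [ChowTheory.dim_pow, G.dim X]
    push_cast
    rfl
  have h2 : r * (G.coh X).d ≤ (G.coh Y).d := by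
    have h3 := ChowTheory.dim_inv e.symm (ChowTheory.one_ne (G.pol Y 0 (Nat.zero_le _)))
    rw [Th.dim_tensor, h1, G.dim Y] at h3
    have h4 : r * (G.coh X).d + r * (G.coh X).d = (G.coh Y).d := by exact_mod_cast h3
    omega
  have h3 := G.eq_of_L Y hY _ h2
  have h4 : Th.toOld.num (G.v Y) ((r * (G.coh X).d : ℕ) : ℤ) = ⊥ := by
    rw [eq_bot_iff]
    intro a ha
    exact (Submodule.mem_bot ℚ).2 (Subtype.ext (G.zero_of_L Y hY _ h2 a.1 a.2
      ((Th.numTrivial_num a).1 ha)))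
  refine ⟨?_, ?_⟩
  · unfold ChowTheory.NN Cohomology.MM
    rw [h1, ← K.N_inv e, ← K.M_inv e]
    exact h3
  · unfold ChowTheory.NN ChowTheory.RR
    rw [h1, ← K.N_inv e, ← ChowTheory.rank_inv e, Th.N_eq, Th.rank_cyc, h4]
    exact congrArg Cardinal.toNat (Submodule.quotEquivOfEqBot _ rfl).rank_eq.symm

/-- one variety and its powers -/
theorem powers (X : G.U) : (∀ (Y : G.U) (r : ℕ), Nonempty (G.v Y ≅ pow (G.v X) r) →
    ∀ n, (G.coh Y).L n) ↔ MoreThanHalf (fun r => (Th.NN (G.v X) r : ℝ) / K.MM (G.v X) r) ∧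
      MoreThanHalf fun r => (Th.NN (G.v X) r : ℝ) / Th.RR (G.v X) r := by
  constructor
  · intro hL
    have h1 := G.ranks_of_L X hL
    have h2 : ∀ r, (0 : ℝ) < Th.NN (G.v X) r := by
      intro r
      exact_mod_cast ((K.quantum (a_NQU Th.toOld) (G.v X) (G.B_ne X)).1 r).1
    refine ⟨moreThanHalf_of_one fun r => ?_, moreThanHalf_of_one fun r => ?_⟩
    · rw [← (h1 r).1]
      exact div_self (h2 r).ne'
    · rw [(h1 r).2]
      exact div_self (h2 r).ne'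
  · rintro ⟨h1, h2⟩ Y r ⟨e⟩ n
    exact G.L_of_eq Y (fun n hn => G.eq_pow X h1 Y r e n hn)
      (fun f hf hn => ⟨0, G.nil_pow X h2 Y r e f hf hn⟩) n

/-- THE THEOREM: ranks of Chow groups and finite generation. -/
theorem ranks :
    (∀ X : G.U, MoreThanHalf (fun r => (Th.NN (G.v X) r : ℝ) / K.MM (G.v X) r) →
      ∀ (Y : G.U) (r : ℕ), Nonempty (G.v Y ≅ pow (G.v X) r) →
        (∀ f ∈ Th.cyc (G.v Y ⊗ G.v Y) (Th.dim (G.v Y)), Th.NumTrivial f →
          ∃ n, (Th.cp f)^[n] f = 0) → ∀ n, (G.coh Y).L n) ∧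
    (∀ X : G.U, (∀ (Y : G.U) (r : ℕ), Nonempty (G.v Y ≅ pow (G.v X) r) →
      ∀ n, (G.coh Y).L n) ↔ MoreThanHalf (fun r => (Th.NN (G.v X) r : ℝ) / K.MM (G.v X) r) ∧
        MoreThanHalf fun r => (Th.NN (G.v X) r : ℝ) / Th.RR (G.v X) r) ∧
    ((∀ (X : G.U) (n : ℕ), (G.coh X).L n) ↔
      ∀ X : G.U, MoreThanHalf (fun r => (Th.NN (G.v X) r : ℝ) / K.MM (G.v X) r) ∧
        MoreThanHalf fun r => (Th.NN (G.v X) r : ℝ) / Th.RR (G.v X) r) := by
  refine ⟨fun X h Y r ⟨e⟩ hnil n => G.L_of_eq Y (fun n hn => G.eq_pow X h Y r e n hn) hnil n,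
    G.powers, fun hL X => (G.powers X).1 fun Y _ _ => hL Y, fun h X n => ?_⟩
  exact (G.powers X).2 (h X) X 1 ⟨(λ_ (G.v X)).symm⟩ n

end CHS.WeilCoh

end
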